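import Pool.Agent.Work.MP_2d9442_nt.Defs

/-!
# Module Bes: almost orthogonal exponentials (M, Mathlib only)

* `geo`: geometric series, `‖1 - e(α)‖ = 2 |sin(πα)| ≥ 4 |α|` for `|α| ≤ 1/2` (Jordan:
  `Real.mul_le_sin`), numerator at most `2`.
* `bes`: Selberg/Bombieri inequality.  Vectors `v_j(n) = conj(g(n) e(-nθ_j))` on `n ∈ (M, N]`, norm
  squares `N - M ≤ N`, inner products of two different ones have norm `≤ B` (the factors `‖g n‖² = 1`
  cancel).  Put `c_j = ∑_n s_n g(n) e(-nθ_j)`, `T = ∑ |c_j|²`.  Then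
  `T = ∑_n s_n (∑_j conj(c_j) g(n) e(-nθ_j)) ≤ (∑ |s_n|²)^{1/2} (∑_n |∑_j conj(c_j) g(n) e(-nθ_j)|²)^{1/2}`
  and `∑_n |∑_j conj(c_j) ...|² ≤ ∑_{i,j} |c_i||c_j| |⟨.,.⟩| ≤ N T + B (∑|c_j|)² ≤ (N + J B) T`.
-/

open Finset MeasureTheory Filter Topology
open ArithmeticFunction (vonMangoldt)

namespace Pool.Agent.Work.MP_2d9442_nt

private theorem geo_norm {α : ℝ} (h1 : |α| ≤ 1 / 2) : 4 * |α| ≤ ‖ee α - 1‖ := by
  have h2 : ee α = Complex.exp (Complex.I * ((2 * Real.pi * α : ℝ) : ℂ)) := by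
    unfold ee
    congr 1
    push_cast
    ring
  rw [h2, Complex.norm_exp_I_mul_ofReal_sub_one]
  have h3 : 2 * Real.pi * α / 2 = Real.pi * α := by ring
  rw [h3, norm_mul, Real.norm_eq_abs, Real.norm_eq_abs, abs_of_pos (two_pos : (0:ℝ) < 2)]
  have h4 : |Real.sin (Real.pi * α)| = Real.sin (Real.pi * |α|) := by
    rcases le_total 0 α with h | h
    · rw [abs_of_nonneg h]
      refine abs_of_nonneg (Real.sin_nonneg_of_nonneg_of_le_pi (by positivity) ?_)
      rw [abs_of_nonneg h] at h1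
      nlinarith [Real.pi_pos]
    · rw [abs_of_nonpos h, mul_neg, Real.sin_neg]
      rw [abs_of_nonpos h] at h1
      refine abs_of_nonpos ?_
      have := Real.sin_nonneg_of_nonneg_of_le_pi (x := Real.pi * (-α))
        (mul_nonneg Real.pi_pos.le (by linarith)) (by nlinarith [Real.pi_pos])
      rw [mul_neg, Real.sin_neg] at this
      linarith
  rw [h4]
  have h5 := Real.mul_le_sin (x := Real.pi * |α|) (by positivity) (by nlinarith [Real.pi_pos])
  have h6 : 2 / Real.pi * (Real.pi * |α|) = 2 * |α| := by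
    field_simp
  rw [h6] at h5
  linarith

private theorem ee_norm (x : ℝ) : ‖ee x‖ = 1 := by
  have h2 : ee x = Complex.exp (((2 * Real.pi * x : ℝ) : ℂ) * Complex.I) := by
    unfold ee
    congr 1
    push_cast
    ring
  rw [h2, Complex.norm_exp_ofReal_mul_I]

private theorem ee_add (x y : ℝ) : ee (x + y) = ee x * ee y := by
  unfold ee
  rw [← Complex.exp_add]
  congr 1
  push_cast
  ring

private theorem ee_nat (n : ℕ) (x : ℝ) : ee (n * x) = ee x ^ n := by
  unfold ee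
  rw [← Complex.exp_nat_mul]
  congr 1
  push_cast
  ring

private theorem ee_conj (x : ℝ) : (starRingEnd ℂ) (ee x) = ee (-x) := by
  have h1 : ∀ x : ℝ, ee x = Complex.exp (((2 * Real.pi * x : ℝ) : ℂ) * Complex.I) := by
    intro x
    unfold ee
    congr 1
    push_cast
    ring
  rw [h1, h1, ← Complex.exp_conj, map_mul, Complex.conj_ofReal, Complex.conj_I]
  congr 1
  push_cast
  ring

theorem geo {α : ℝ} (h0 : α ≠ 0) (h1 : |α| ≤ 1 / 2) (M N : ℕ) :
    ‖∑ n ∈ Finset.Ioc M N, ee (n * α)‖ ≤ 1 / (2 * |α|) := by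
  have hα : 0 < |α| := abs_pos.2 h0
  rcases le_total N M with hNM | hNM
  · rw [Finset.Ioc_eq_empty_of_le hNM, Finset.sum_empty, norm_zero]
    positivity
  have key : (∑ n ∈ Finset.Ioc M N, ee (n * α)) * (ee α - 1) = ee α ^ (N + 1) - ee α ^ (M + 1) := by
    induction N, hNM using Nat.le_induction with
    | base => simp
    | succ N hN ih =>
      rw [Finset.sum_Ioc_succ_top (by omega), add_mul, ih, ee_nat]
      ring
  have h2 : ‖ee α ^ (N + 1) - ee α ^ (M + 1)‖ ≤ 2 := by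
    refine (norm_sub_le _ _).trans ?_
    rw [norm_pow, norm_pow, ee_norm]
    norm_num
  have h3 := congrArg norm key
  rw [norm_mul] at h3
  have h4 := geo_norm h1
  rw [le_div_iff₀ (by positivity)]
  have h5 : ‖∑ n ∈ Finset.Ioc M N, ee (n * α)‖ * (4 * |α|) ≤ 2 := by
    refine le_trans (mul_le_mul_of_nonneg_left h4 (norm_nonneg _)) ?_
    rw [h3]
    exact h2
  linarith

theorem bes {J : ℕ} (θ : Fin J → ℝ) (g s : ℕ → ℂ) {M N : ℕ} (hg : ∀ n, M < n → ‖g n‖ = 1)
    {B : ℝ} (hB0 : 0 ≤ B)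
    (hB : ∀ i j, i ≠ j → ‖∑ n ∈ Finset.Ioc M N, ee (n * (θ i - θ j))‖ ≤ B) :
    ∑ j, ‖∑ n ∈ Finset.Ioc M N, s n * (g n * ee (-(n * θ j)))‖ ^ 2 ≤
      ((N : ℝ) + J * B) * ∑ n ∈ Finset.Ioc M N, ‖s n‖ ^ 2 := by
  set c : Fin J → ℂ := fun j => ∑ n ∈ Finset.Ioc M N, s n * (g n * ee (-(n * θ j))) with hc
  set T : ℝ := ∑ j, ‖c j‖ ^ 2 with hT
  set SS : ℝ := ∑ n ∈ Finset.Ioc M N, ‖s n‖ ^ 2 with hSS
  have hT0 : 0 ≤ T := Finset.sum_nonneg fun _ _ => by positivity
  have hS0 : 0 ≤ SS := Finset.sum_nonneg fun _ _ => by positivity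
  set b : ℕ → ℂ := fun n => ∑ j, (starRingEnd ℂ) (c j) * (g n * ee (-(n * θ j))) with hb
  -- `T = ∑ s b`
  have h1 : (T : ℂ) = ∑ n ∈ Finset.Ioc M N, s n * b n := by
    rw [hT]
    push_cast
    have e1 : ∀ j, ((‖c j‖ : ℂ)) ^ 2 = (starRingEnd ℂ) (c j) * c j := fun j => by
      rw [← Complex.conj_mul']
    simp only [e1]
    have e2 : ∀ j, (starRingEnd ℂ) (c j) * c j =
        ∑ n ∈ Finset.Ioc M N, (starRingEnd ℂ) (c j) * (s n * (g n * ee (-(n * θ j)))) := fun j => by
      rw [← Finset.mul_sum]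
    simp only [e2]
    rw [Finset.sum_comm]
    refine Finset.sum_congr rfl fun n _ => ?_
    rw [hb]
    simp only [Finset.mul_sum]
    exact Finset.sum_congr rfl fun j _ => by ring
  have h2 : T ^ 2 ≤ SS * ∑ n ∈ Finset.Ioc M N, ‖b n‖ ^ 2 := by
    have e1 : T ≤ ∑ n ∈ Finset.Ioc M N, ‖s n‖ * ‖b n‖ := by
      calc T = ‖(T : ℂ)‖ := by rw [Complex.norm_real, Real.norm_of_nonneg hT0]
        _ ≤ _ := by
          rw [h1]
          refine (norm_sum_le _ _).trans (le_of_eq ?_)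
          exact Finset.sum_congr rfl fun n _ => norm_mul _ _
    calc T ^ 2 ≤ (∑ n ∈ Finset.Ioc M N, ‖s n‖ * ‖b n‖) ^ 2 := pow_le_pow_left₀ hT0 e1 2
      _ ≤ _ := Finset.sum_mul_sq_le_sq_mul_sq _ _ _
  -- the quadratic form
  have h3 : ∑ n ∈ Finset.Ioc M N, ‖b n‖ ^ 2 ≤ ((N : ℝ) + J * B) * T := by
    have e0 : ((∑ n ∈ Finset.Ioc M N, ‖b n‖ ^ 2 : ℝ) : ℂ) =
        ∑ i, ∑ j, (starRingEnd ℂ) (c i) * c j * ∑ n ∈ Finset.Ioc M N,
          (g n * (starRingEnd ℂ) (g n)) * ee (n * (θ j - θ i)) := by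
      push_cast
      have e1 : ∀ n, ((‖b n‖ : ℂ)) ^ 2 = ∑ i, ∑ j, (starRingEnd ℂ) (c i) * c j *
          ((g n * (starRingEnd ℂ) (g n)) * ee (n * (θ j - θ i))) := by
        intro n
        rw [← Complex.mul_conj', hb]
        simp only [map_sum, map_mul, Complex.conj_conj, Finset.sum_mul_sum, ee_conj]
        refine Finset.sum_congr rfl fun i _ => Finset.sum_congr rfl fun j _ => ?_
        have e2 : ee (n * (θ j - θ i)) = ee (-(n * θ i)) * ee (- -(n * θ j)) := by
          rw [← ee_add]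
          congr 1
          ring
        rw [e2]
        ring
      simp only [e1]
      rw [Finset.sum_comm]
      refine Finset.sum_congr rfl fun i _ => ?_
      rw [Finset.sum_comm]
      refine Finset.sum_congr rfl fun j _ => ?_
      exact (Finset.mul_sum _ _ _).symm
    have e3 : ∀ i j, ‖∑ n ∈ Finset.Ioc M N, (g n * (starRingEnd ℂ) (g n)) *
        ee (n * (θ j - θ i))‖ ≤ (if i = j then (N : ℝ) else 0) + B := by
      intro i j
      have e4 : ∑ n ∈ Finset.Ioc M N, (g n * (starRingEnd ℂ) (g n)) * ee (n * (θ j - θ i)) =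
          ∑ n ∈ Finset.Ioc M N, ee (n * (θ j - θ i)) := by
        refine Finset.sum_congr rfl fun n hn => ?_
        rw [Complex.mul_conj', hg n (Finset.mem_Ioc.1 hn).1]
        simp
      rw [e4]
      by_cases hij : i = j
      · rw [if_pos hij]
        refine (norm_sum_le _ _).trans ?_
        rw [Finset.sum_congr rfl (fun n _ => ee_norm _)]
        rw [Finset.sum_const, Nat.card_Ioc, nsmul_eq_mul, mul_one]
        have : ((N - M : ℕ) : ℝ) ≤ N := by exact_mod_cast Nat.sub_le N M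
        linarith
      · rw [if_neg hij, zero_add]
        exact hB j i (Ne.symm hij)
    have e5 : ∑ n ∈ Finset.Ioc M N, ‖b n‖ ^ 2 ≤
        ∑ i, ∑ j, ‖c i‖ * ‖c j‖ * ((if i = j then (N : ℝ) else 0) + B) := by
      have e6 : 0 ≤ ∑ n ∈ Finset.Ioc M N, ‖b n‖ ^ 2 := Finset.sum_nonneg fun _ _ => by positivity
      calc ∑ n ∈ Finset.Ioc M N, ‖b n‖ ^ 2
          = ‖((∑ n ∈ Finset.Ioc M N, ‖b n‖ ^ 2 : ℝ) : ℂ)‖ := by
            rw [Complex.norm_real, Real.norm_of_nonneg e6]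
        _ ≤ _ := by
            rw [e0]
            refine (norm_sum_le _ _).trans (Finset.sum_le_sum fun i _ => ?_)
            refine (norm_sum_le _ _).trans (Finset.sum_le_sum fun j _ => ?_)
            rw [norm_mul, norm_mul, RCLike.norm_conj]
            exact mul_le_mul_of_nonneg_left (e3 i j) (by positivity)
    refine e5.trans ?_
    have e7 : ∑ i, ∑ j, ‖c i‖ * ‖c j‖ * ((if i = j then (N : ℝ) else 0) + B) =
        N * T + B * (∑ i, ‖c i‖) ^ 2 := by
      simp only [mul_add, Finset.sum_add_distrib]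
      congr 1
      · rw [hT, Finset.mul_sum]
        refine Finset.sum_congr rfl fun i _ => ?_
        simp only [mul_ite, mul_zero, Finset.sum_ite_eq, Finset.mem_univ, if_true]
        ring
      · rw [sq, Finset.sum_mul_sum, Finset.mul_sum]
        refine Finset.sum_congr rfl fun i _ => ?_
        rw [Finset.mul_sum]
        exact Finset.sum_congr rfl fun j _ => by ring
    rw [e7]
    have e8 : (∑ i, ‖c i‖) ^ 2 ≤ J * T := by
      have := sq_sum_le_card_mul_sum_sq (s := (Finset.univ : Finset (Fin J))) (f := fun i => ‖c i‖)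
      rw [Finset.card_univ, Fintype.card_fin] at this
      exact this
    have e9 := mul_le_mul_of_nonneg_left e8 hB0
    linarith
  rcases hT0.lt_or_eq with hpos | hzero
  · have h4 : T * T ≤ (((N : ℝ) + J * B) * SS) * T := by
      have := mul_le_mul_of_nonneg_left h3 hS0
      nlinarith
    exact le_of_mul_le_mul_right h4 hpos
  · rw [← hzero]
    positivity

end Pool.Agent.Work.MP_2d9442_nt
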