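import Pool.Agent.Work.MP_2d9442_nt.HB

open Finset MeasureTheory Filter Topology
open ArithmeticFunction (vonMangoldt)

namespace Pool.Agent.Work.MP_2d9442_nt

theorem S_nat (z : ℕ → ℂ) (n : ℕ) : S z (n : ℝ) = ps z n := by
  unfold S ps
  rw [Nat.floor_natCast]

private theorem SumP_succ (z : ℕ → ℂ) (n : ℕ) : ps z (n + 1) = ps z n + z (n + 1) := by
  unfold ps
  rw [Finset.sum_Icc_succ_top (by omega)]

private theorem SumP_sub {z : ℕ → ℂ} (hz : ∀ n, ‖z n‖ ≤ 1) (n h : ℕ) :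
    ‖ps z (n + h) - ps z n‖ ≤ h := by
  induction h with
  | zero => simp
  | succ h ih =>
    rw [← add_assoc, SumP_succ]
    calc ‖ps z (n + h) + z (n + h + 1) - ps z n‖ =
        ‖(ps z (n + h) - ps z n) + z (n + h + 1)‖ := by congr 1; ring
      _ ≤ ‖ps z (n + h) - ps z n‖ + ‖z (n + h + 1)‖ := norm_add_le _ _
      _ ≤ h + 1 := add_le_add ih (hz _)
      _ = ((h + 1 : ℕ) : ℝ) := by push_cast; ring

theorem sN {z : ℕ → ℂ} (hz : ∀ n, ‖z n‖ ≤ 1) {M N : ℕ} (hMN : M ≤ N) :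
    ‖ps z M‖ ^ 3 ≤ 8 * ∑ n ∈ Finset.Icc 1 N, ‖ps z n‖ ^ 2 := by
  set a := ‖ps z M‖ with ha
  have ha0 : 0 ≤ a := norm_nonneg _
  have haM : a ≤ M := by
    have h := SumP_sub hz 0 M
    have h0 : ps z 0 = 0 := by simp [ps]
    rw [zero_add, h0, sub_zero] at h
    exact h
  rcases ha0.eq_or_lt with h0 | h0
  · rw [← h0]
    have : 0 ≤ ∑ n ∈ Finset.Icc 1 N, ‖ps z n‖ ^ 2 := Finset.sum_nonneg fun _ _ => by positivity
    simpa using this
  have hM : 1 ≤ M := by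
    by_contra h
    have : M = 0 := by omega
    rw [this] at haM
    simp at haM
    linarith
  -- the set of n = M - h, h ≤ a/2
  set k := ⌊a / 2⌋₊ with hk
  have hk1 : (k:ℝ) ≤ a / 2 := Nat.floor_le (by positivity)
  have hk2 : a / 2 < k + 1 := Nat.lt_floor_add_one _
  have hkM : k < M := by
    have : (k:ℝ) < M := by linarith
    exact_mod_cast this
  have hsub : Finset.Icc (M - k) M ⊆ Finset.Icc 1 N := by
    intro n hn
    rw [Finset.mem_Icc] at hn ⊢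
    omega
  have hlow : ∀ n ∈ Finset.Icc (M - k) M, (a / 2) ^ 2 ≤ ‖ps z n‖ ^ 2 := by
    intro n hn
    rw [Finset.mem_Icc] at hn
    have h1 := SumP_sub hz n (M - n)
    rw [show n + (M - n) = M by omega] at h1
    have h2 : ((M - n : ℕ) : ℝ) ≤ k := by
      have : M - n ≤ k := by omega
      exact_mod_cast this
    have h3 : a ≤ ‖ps z M - ps z n‖ + ‖ps z n‖ := by
      rw [ha]
      calc ‖ps z M‖ = ‖(ps z M - ps z n) + ps z n‖ := by congr 1; ring
        _ ≤ _ := norm_add_le _ _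
    have h4 : a / 2 ≤ ‖ps z n‖ := by linarith
    gcongr
  have hcard : (Finset.Icc (M - k) M).card = k + 1 := by
    rw [Nat.card_Icc]; omega
  have h5 : ((k:ℝ) + 1) * (a / 2) ^ 2 ≤ ∑ n ∈ Finset.Icc 1 N, ‖ps z n‖ ^ 2 := by
    calc ((k:ℝ) + 1) * (a / 2) ^ 2 = ∑ n ∈ Finset.Icc (M - k) M, (a / 2) ^ 2 := by
          rw [Finset.sum_const, hcard, nsmul_eq_mul]; push_cast; ring
      _ ≤ ∑ n ∈ Finset.Icc (M - k) M, ‖ps z n‖ ^ 2 := Finset.sum_le_sum hlow
      _ ≤ _ := Finset.sum_le_sum_of_subset_of_nonneg hsub fun _ _ _ => by positivity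
  have h6 : (a / 2) * (a / 2) ^ 2 ≤ ((k:ℝ) + 1) * (a / 2) ^ 2 := by gcongr
  nlinarith

theorem abel (z b : ℕ → ℂ) {M N : ℕ} (hMN : M ≤ N) :
    ∑ m ∈ Finset.Ioc M N, z m * b m =
      ∑ n ∈ Finset.Ioc M N, ps z n * (b n - b (n + 1)) + ps z N * b (N + 1)
        - ps z M * b (M + 1) := by
  induction N, hMN using Nat.le_induction with
  | base => simp
  | succ N hN ih =>
    rw [Finset.sum_Ioc_succ_top (by omega), Finset.sum_Ioc_succ_top (by omega), ih, SumP_succ]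
    ring

theorem AN_mono (z : ℕ → ℂ) {M N : ℕ} (hM : 1 ≤ M) (hMN : M ≤ N) :
    (M : ℝ) / N * AN z M ≤ AN z N := by
  unfold AN
  have hM0 : (0:ℝ) < M := by exact_mod_cast hM
  have hN0 : (0:ℝ) < N := by
    have : 0 < N := by omega
    exact_mod_cast this
  rw [div_mul_div_comm, mul_comm (N:ℝ) (M:ℝ), mul_div_mul_left _ _ hM0.ne']
  gcongr

end Pool.Agent.Work.MP_2d9442_nt
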