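import Pool.Agent.Work.MP_2d9442_nt.HB
import Pool.Agent.Work.MP_2d9442_nt.Bes
import Pool.Agent.Work.MP_2d9442_nt.SumP
import Pool.Agent.Work.MP_54969a_nt.Katai

/-!
# Module KatR: from arbitrary frequencies to rational ones (M)

(1) `katai_bound` (MP_54969a_nt/Katai.lean, already proved) with `g = u`, `F n = ee (n θ)` and a fixed
finite set `Pr` of primes with `R = recip Pr` so large that `2/√R·... ` : precisely, choose `Pr` with
`R ≥ R₀(δ)`, divide by `R N`: `‖(1/N)∑ u_n e(nθ)‖ ≤ √((1 + 2|Pr|/N)/R) + 2 C₀/R + √(1/R + (1/(N R²)) ∑_{p≠q}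
‖∑_{m ≤ min(N/p,N/q)} e((p-q) m θ)‖)`.  (Sum of reciprocals of primes diverges:
`Nat.Primes.not_summable_one_div`; `∑_{p ∈ Pr} 1/p² ≤ 2`.)  So if the left side is `≥ δ`, `N ≥ N₀`, there
are `p ≠ q` in `Pr` with `‖∑_{m ≤ y} e((p-q) m θ)‖ ≥ η N`, `y ≤ N`, `η = η(δ) > 0`.
(2) geometric sum: with `k = |p - q| ∈ [1, K]` the distance `β₀` of `kθ` to the nearest integer `a'` is at most
`1/(2ηN)` (`‖∑_{m≤y} e(mα)‖ ≤ 1/(2‖α‖)`, proved in `Bes.geo`; here reprove or import Bes).  So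
`θ = a'/k + β`, `|β| ≤ 1/(2ηN)`.
(3) Abel summation: with `B(n) = ∑_{m ≤ n} u_m e(m a'/k)`:
`‖∑_{n ≤ N} u_n e(na'/k) e(nβ)‖ ≤ ‖B(N)‖ + 2π|β| ∑_{n<N} ‖B(n)‖`.  If `‖B(n)‖ ≤ δ' N` for all `n ≤ N` this is
at most `δ'(1 + π/η) N < δN` for `δ' = δ/(2(1+π/η))`, a contradiction; so there is `M ≤ N` with
`‖B(M)‖ > δ'N ≥ δ'M`; then `M ≥ ‖B(M)‖ ≥ δ'N`, `M ≥ 1`.
-/

open Finset MeasureTheory Filter Topology
open ArithmeticFunction (vonMangoldt)

namespace Pool.Agent.Work.MP_2d9442_nt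

private theorem katr_add (x y : ℝ) : ee (x + y) = ee x * ee y := by
  unfold ee
  rw [← Complex.exp_add]
  congr 1
  push_cast
  ring

private theorem katr_int (x : ℝ) (j : ℤ) : ee (x + j) = ee x := by
  unfold ee
  rw [Complex.exp_eq_exp_iff_exists_int]
  refine ⟨j, ?_⟩
  push_cast
  ring

private theorem katr_eq (x : ℝ) : ee x = Complex.exp (Complex.I * ((2 * Real.pi * x : ℝ) : ℂ)) := by
  unfold ee
  congr 1
  push_cast
  ring

private theorem katr_norm (x : ℝ) : ‖ee x‖ = 1 := by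
  rw [katr_eq, mul_comm, Complex.norm_exp_ofReal_mul_I]

private theorem katr_conj (x : ℝ) : (starRingEnd ℂ) (ee x) = ee (-x) := by
  rw [katr_eq, katr_eq, ← Complex.exp_conj, map_mul, Complex.conj_I, Complex.conj_ofReal]
  congr 1
  push_cast
  ring

private theorem katr_sub (x : ℝ) : ‖ee x - 1‖ ≤ 2 * Real.pi * |x| := by
  rw [katr_eq]
  refine Real.norm_exp_I_mul_ofReal_sub_one_le.trans (le_of_eq ?_)
  rw [Real.norm_eq_abs, abs_mul, abs_of_pos (by positivity)]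

private theorem katr_Icc (N : ℕ) : Finset.Icc 1 N = Finset.Ioc 0 N := by
  ext n
  simp only [Finset.mem_Icc, Finset.mem_Ioc]
  omega

/-- step one: two primes -/
private theorem katr_primes {δ : ℝ} (hδ : 0 < δ) : ∃ (P : Finset ℕ) (η : ℝ) (N0 : ℕ), 0 < η ∧
    (∀ p ∈ P, p.Prime) ∧ ∀ N : ℕ, N0 ≤ N →
    ∀ (u : ℕ → ℂ) (θ : ℝ), UM u → δ * N ≤ ‖∑ n ∈ Finset.Icc 1 N, u n * ee (n * θ)‖ →
    ∃ p ∈ P, ∃ q ∈ P, p ≠ q ∧ η * N ≤ ‖∑ m ∈ Finset.Icc 1 (min (N / p) (N / q)),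
      ee (m * (((p : ℝ) - q) * θ))‖ := by
  set C2 : ℝ := ∑' n : ℕ, 1 / (n : ℝ) ^ 2 with hC2
  have hC20 : 0 ≤ C2 := tsum_nonneg fun n => by positivity
  set c : ℝ := 2 * √2 + 2 * C2 with hc
  have hc0 : 0 ≤ c := by positivity
  obtain ⟨P, hP, hR⟩ := MP_54969a_nt.recip_large 0 ((c / δ) ^ 2 + 1)
  set R : ℝ := MP_54969a_nt.recip P with hRdef
  have hR1 : 1 ≤ R := by
    have : 0 ≤ (c / δ) ^ 2 := by positivity
    linarith
  have hcardpos : 0 < P.card := by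
    rw [Finset.card_pos, Finset.nonempty_iff_ne_empty]
    rintro rfl
    rw [hRdef, MP_54969a_nt.recip] at hR1
    simp only [Finset.sum_empty] at hR1
    linarith
  have hcR : (0 : ℝ) < (P.card : ℝ) := by exact_mod_cast hcardpos
  set η : ℝ := 1 / (P.card : ℝ) ^ 2 with hη
  refine ⟨P, η, 2 * P.card + 1, by positivity, fun p hp => (hP p hp).1, ?_⟩
  intro N hN u θ hu hA
  by_contra hcon
  push Not at hcon
  have hN0 : (0 : ℝ) < N := by
    have : 0 < N := by omega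
    exact_mod_cast this
  have hN2 : 2 * (P.card : ℝ) ≤ N := by
    have : 2 * P.card ≤ N := by omega
    exact_mod_cast this
  have key := MP_54969a_nt.katai_bound u (fun n => ee (n * θ)) hu.cm.le
    (fun n => (katr_norm _).le) (fun p m _ _ => hu.cm.mul p m) P (fun p hp => (hP p hp).1) N
  have hA' : ∑ n ∈ Finset.Icc 1 N, (fun n : ℕ => ee (n * θ)) n * u n =
      ∑ n ∈ Finset.Icc 1 N, u n * ee (n * θ) := Finset.sum_congr rfl fun n _ => mul_comm _ _
  rw [hA', ← hRdef] at key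
  have hE : ∑ p ∈ P, ∑ q ∈ P.erase p,
      ‖∑ m ∈ Finset.Icc 1 (min (N / p) (N / q)), (fun n : ℕ => ee (n * θ)) (p * m) *
        (starRingEnd ℂ) ((fun n : ℕ => ee (n * θ)) (q * m))‖ ≤ N := by
    have h1 : ∀ p ∈ P, ∀ q ∈ P.erase p, ‖∑ m ∈ Finset.Icc 1 (min (N / p) (N / q)),
        (fun n : ℕ => ee (n * θ)) (p * m) *
        (starRingEnd ℂ) ((fun n : ℕ => ee (n * θ)) (q * m))‖ ≤ η * N := by
      intro p hp q hq
      have h2 := hcon p hp q (Finset.mem_of_mem_erase hq) (Finset.ne_of_mem_erase hq).symm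
      refine le_trans (le_of_eq ?_) h2.le
      congr 1
      refine Finset.sum_congr rfl fun m _ => ?_
      change ee (((p * m : ℕ) : ℝ) * θ) * (starRingEnd ℂ) (ee (((q * m : ℕ) : ℝ) * θ)) = _
      rw [katr_conj, ← katr_add]
      congr 1
      push_cast
      ring
    calc _ ≤ ∑ p ∈ P, ∑ q ∈ P.erase p, η * N :=
          Finset.sum_le_sum fun p hp => Finset.sum_le_sum fun q hq => h1 p hp q hq
      _ ≤ ∑ p ∈ P, ∑ q ∈ P, η * N := by
          refine Finset.sum_le_sum fun p _ => ?_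
          exact Finset.sum_le_sum_of_subset_of_nonneg (Finset.erase_subset p P)
            fun _ _ _ => by positivity
      _ = N := by
          rw [Finset.sum_const, Finset.sum_const, nsmul_eq_mul, nsmul_eq_mul, hη]
          field_simp
  have hS2 := MP_54969a_nt.sum_inv_sq_le P
  rw [← hC2] at hS2
  have hsqrt : √(N ^ 2 * (2 * R)) = N * (√2 * √R) := by
    rw [Real.sqrt_mul (by positivity), Real.sqrt_sq hN0.le, Real.sqrt_mul (by norm_num)]
  have h1 : √(N * (N * R + 2 * P.card * R)) ≤ N * (√2 * √R) := by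
    rw [← hsqrt]
    apply Real.sqrt_le_sqrt
    have h2 : 2 * (P.card : ℝ) * R ≤ N * R := mul_le_mul_of_nonneg_right hN2 (by linarith)
    nlinarith
  have h3 : √(N * (N * R + ∑ p ∈ P, ∑ q ∈ P.erase p,
      ‖∑ m ∈ Finset.Icc 1 (min (N / p) (N / q)), (fun n : ℕ => ee (n * θ)) (p * m) *
        (starRingEnd ℂ) ((fun n : ℕ => ee (n * θ)) (q * m))‖)) ≤ N * (√2 * √R) := by
    rw [← hsqrt]
    apply Real.sqrt_le_sqrt
    have h4 : (N : ℝ) ≤ N * R := le_mul_of_one_le_right hN0.le hR1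
    nlinarith
  have hsR1 : 1 ≤ √R := by
    rw [Real.one_le_sqrt]
    exact hR1
  have h5 : R * (δ * N) ≤ N * (c * √R) := by
    calc R * (δ * N) ≤ R * ‖∑ n ∈ Finset.Icc 1 N, u n * ee (n * θ)‖ :=
          mul_le_mul_of_nonneg_left hA (by linarith)
      _ ≤ N * (√2 * √R) + 2 * N * C2 + N * (√2 * √R) := by
          refine key.trans (add_le_add (add_le_add h1 ?_) h3)
          exact mul_le_mul_of_nonneg_left hS2 (by positivity)
      _ ≤ N * (√2 * √R) + 2 * N * (C2 * √R) + N * (√2 * √R) := by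
          have h6 : C2 ≤ C2 * √R := le_mul_of_one_le_right hC20 hsR1
          gcongr
      _ = N * (c * √R) := by
          rw [hc]
          ring
  have h6 : R * δ ≤ c * √R := by
    have h7 : (R * δ) * N ≤ (c * √R) * N := by linarith
    exact le_of_mul_le_mul_right h7 hN0
  have hRR : √R * √R = R := Real.mul_self_sqrt (by linarith)
  have h7 : √R * δ ≤ c := by
    have h8 : (√R * δ) * √R ≤ c * √R := by
      calc (√R * δ) * √R = (√R * √R) * δ := by ring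
        _ = R * δ := by rw [hRR]
        _ ≤ _ := h6
    exact le_of_mul_le_mul_right h8 (by linarith)
  have h8 : √R ≤ c / δ := by
    rw [le_div_iff₀ hδ]
    exact h7
  have h9 : R ≤ (c / δ) ^ 2 := by
    rw [← hRR, ← sq]
    exact pow_le_pow_left₀ (by linarith) h8 2
  linarith

/-- step two: rational approximation -/
private theorem katr_approx {η : ℝ} (hη : 0 < η) {N y : ℕ} (hN : 1 ≤ N) {α : ℝ}
    (h : η * N ≤ ‖∑ m ∈ Finset.Icc 1 y, ee (m * α)‖) :
    ∃ a : ℤ, |α - a| ≤ 1 / (2 * (η * N)) := by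
  have hN0 : (0 : ℝ) < N := by exact_mod_cast hN
  refine ⟨round α, ?_⟩
  by_cases h0 : α - round α = 0
  · rw [h0, abs_zero]
    positivity
  · have h1 : |α - round α| ≤ 1 / 2 := abs_sub_round α
    have h2 := geo h0 h1 0 y
    have h3 : ∑ n ∈ Finset.Ioc 0 y, ee (n * (α - round α)) = ∑ m ∈ Finset.Icc 1 y, ee (m * α) := by
      rw [katr_Icc]
      refine Finset.sum_congr rfl fun n _ => ?_
      rw [← katr_int (n * (α - round α)) (n * round α)]
      congr 1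
      push_cast
      ring
    rw [h3] at h2
    have h4 := h.trans h2
    have h5 : 0 < |α - round α| := abs_pos.2 h0
    rw [le_div_iff₀ (by positivity)] at h4 ⊢
    linarith

/-- step three: Abel summation -/
private theorem katr_abel {η δ : ℝ} (hη : 0 < η) (hδ : 0 < δ) {N : ℕ} (hN : 1 ≤ N) {v : ℕ → ℂ}
    {β : ℝ} (hβ : |β| ≤ 1 / (2 * (η * N)))
    (h : δ * N ≤ ‖∑ n ∈ Finset.Icc 1 N, v n * ee (n * β)‖) :
    ∃ M : ℕ, 1 ≤ M ∧ M ≤ N ∧ δ / (2 * (1 + Real.pi / η)) * N ≤ ‖ps v M‖ := by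
  have hN0 : (0 : ℝ) < N := by exact_mod_cast hN
  by_contra hcon
  push Not at hcon
  set d : ℝ := δ / (2 * (1 + Real.pi / η)) with hd
  have hπ := Real.pi_pos
  have hd0 : 0 < d := by positivity
  have hps : ∀ n : ℕ, 1 ≤ n → n ≤ N → ‖ps v n‖ ≤ d * N := fun n h1 h2 => (hcon n h1 h2).le
  have hps0 : ps v 0 = 0 := by simp [ps]
  have hab := abel v (fun n => ee (n * β)) (Nat.zero_le N)
  rw [hps0, zero_mul, sub_zero, ← katr_Icc] at hab
  rw [hab] at h
  have hdiff : ∀ n : ℕ, ‖ee (n * β) - ee ((n + 1 : ℕ) * β)‖ ≤ Real.pi / (η * N) := by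
    intro n
    have h1 : ee (n * β) - ee ((n + 1 : ℕ) * β) = -(ee (n * β) * (ee β - 1)) := by
      have h2 : ee ((n + 1 : ℕ) * β) = ee (n * β) * ee β := by
        rw [← katr_add]
        congr 1
        push_cast
        ring
      rw [h2]
      ring
    rw [h1, norm_neg, norm_mul, katr_norm, one_mul]
    refine (katr_sub β).trans ?_
    calc 2 * Real.pi * |β| ≤ 2 * Real.pi * (1 / (2 * (η * N))) :=
          mul_le_mul_of_nonneg_left hβ (by positivity)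
      _ = Real.pi / (η * N) := by
          field_simp
  have h1 : ‖∑ n ∈ Finset.Icc 1 N, ps v n * (ee (n * β) - ee ((n + 1 : ℕ) * β))‖ ≤
      N * (d * N * (Real.pi / (η * N))) := by
    refine (norm_sum_le_of_le _ fun n hn => ?_ : _ ≤ ∑ n ∈ Finset.Icc 1 N,
      d * N * (Real.pi / (η * N))).trans ?_
    · rw [norm_mul]
      exact mul_le_mul (hps n (Finset.mem_Icc.1 hn).1 (Finset.mem_Icc.1 hn).2) (hdiff n)
        (norm_nonneg _) (by positivity)
    · rw [Finset.sum_const, Nat.card_Icc, Nat.add_sub_cancel, nsmul_eq_mul]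
  have h2 : ‖ps v N * ee ((N + 1 : ℕ) * β)‖ ≤ d * N := by
    rw [norm_mul, katr_norm, mul_one]
    exact hps N hN le_rfl
  have h3 := h.trans ((norm_add_le _ _).trans (add_le_add h1 h2))
  have h4 : (N : ℝ) * (d * N * (Real.pi / (η * N))) + d * N = δ / 2 * N := by
    rw [hd]
    field_simp
    ring
  rw [h4] at h3
  nlinarith

theorem katR {δ : ℝ} (hδ : 0 < δ) : ∃ (K : ℕ) (δ' : ℝ) (N0 : ℕ), 0 < δ' ∧ ∀ N : ℕ, N0 ≤ N →
    ∀ (u : ℕ → ℂ) (θ : ℝ), UM u → δ * N ≤ ‖∑ n ∈ Finset.Icc 1 N, u n * ee (n * θ)‖ →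
    ∃ (k : ℕ) (a : ℤ) (M : ℕ), 1 ≤ k ∧ k ≤ K ∧ 1 ≤ M ∧ M ≤ N ∧ δ' * N ≤ M ∧
      δ' * M ≤ ‖∑ n ∈ Finset.Icc 1 M, u n * ee (n * (a / k))‖ := by
  obtain ⟨P, η, N0, hη, hP, hmain⟩ := katr_primes hδ
  set K : ℕ := P.sup id with hK
  have hPK : ∀ p ∈ P, p ≤ K := fun p hp => Finset.le_sup (f := id) hp
  have hπ := Real.pi_pos
  refine ⟨K, δ / (2 * (1 + Real.pi / η)), max N0 1, by positivity, ?_⟩
  intro N hN u θ hu hA
  have hN0 : N0 ≤ N := le_trans (le_max_left _ _) hN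
  have hN1 : 1 ≤ N := le_trans (le_max_right _ _) hN
  have hNR : (0 : ℝ) < N := by exact_mod_cast hN1
  obtain ⟨p, hp, q, hq, hpq, hE⟩ := hmain N hN0 u θ hu hA
  obtain ⟨a₁, ha₁⟩ := katr_approx hη hN1 hE
  -- the denominator
  have hk : ∃ (k : ℕ) (a : ℤ), 1 ≤ k ∧ k ≤ K ∧ |θ - a / k| ≤ 1 / (2 * (η * N)) := by
    rcases lt_or_gt_of_ne hpq with hlt | hlt
    · refine ⟨q - p, -a₁, by omega, (Nat.sub_le q p).trans (hPK q hq), ?_⟩
      have h1 : ((q - p : ℕ) : ℝ) = (q : ℝ) - p := by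
        rw [Nat.cast_sub hlt.le]
      have h2 : (1 : ℝ) ≤ (q : ℝ) - p := by
        rw [← h1]
        exact_mod_cast (by omega : 1 ≤ q - p)
      have h3 : θ - ((-a₁ : ℤ) : ℝ) / ((q - p : ℕ) : ℝ) =
          -((((p : ℝ) - q) * θ - a₁) / ((q : ℝ) - p)) := by
        rw [h1]
        push_cast
        field_simp
        ring
      rw [h3, abs_neg, abs_div, abs_of_pos (by linarith : (0 : ℝ) < (q : ℝ) - p)]
      exact (div_le_self (abs_nonneg _) h2).trans ha₁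
    · refine ⟨p - q, a₁, by omega, (Nat.sub_le p q).trans (hPK p hp), ?_⟩
      have h1 : ((p - q : ℕ) : ℝ) = (p : ℝ) - q := by
        rw [Nat.cast_sub hlt.le]
      have h2 : (1 : ℝ) ≤ (p : ℝ) - q := by
        rw [← h1]
        exact_mod_cast (by omega : 1 ≤ p - q)
      have h3 : θ - (a₁ : ℝ) / ((p - q : ℕ) : ℝ) =
          (((p : ℝ) - q) * θ - a₁) / ((p : ℝ) - q) := by
        rw [h1]
        field_simp
      rw [h3, abs_div, abs_of_pos (by linarith : (0 : ℝ) < (p : ℝ) - q)]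
      exact (div_le_self (abs_nonneg _) h2).trans ha₁
  obtain ⟨k, a, hk1, hkK, hβ⟩ := hk
  have hA2 : δ * N ≤ ‖∑ n ∈ Finset.Icc 1 N, (u n * ee (n * (a / k))) * ee (n * (θ - a / k))‖ := by
    refine hA.trans (le_of_eq ?_)
    congr 1
    refine Finset.sum_congr rfl fun n _ => ?_
    rw [mul_assoc, ← katr_add]
    congr 2
    ring
  obtain ⟨M, hM1, hMN, hM⟩ := katr_abel (v := fun n => u n * ee (n * (a / k))) hη hδ hN1 hβ hA2
  have hMN' : (M : ℝ) ≤ N := by exact_mod_cast hMN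
  have hub : ‖ps (fun n => u n * ee (n * (a / k))) M‖ ≤ M := by
    unfold ps
    refine (norm_sum_le_of_le _ fun n _ => ?_ : _ ≤ ∑ n ∈ Finset.Icc 1 M, (1 : ℝ)).trans ?_
    · rw [norm_mul, katr_norm, mul_one]
      exact hu.cm.le n
    · simp
  refine ⟨k, a, M, hk1, hkK, hM1, hMN, hM.trans hub, le_trans ?_ hM⟩
  exact mul_le_mul_of_nonneg_left hMN' (by positivity)

end Pool.Agent.Work.MP_2d9442_nt
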