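import Pool.Agent.Work.MP_2d9442_nt.HB
import Pool.Agent.Work.MP_2d9442_nt.SumP

/-!
# Module RedC: from rational frequencies to primitive characters (M)

Let `A = ∑_{n ≤ M} u_n e(na/k)`, `‖A‖ ≥ δM`, `1 ≤ k ≤ K`.
(1) `A = ∑_{b mod k} e(ab/k) T_b`, `T_b = ∑_{n ≤ M, n ≡ b (k)} u_n`, so `‖T_b‖ ≥ (δ/k) M` for some `b`.
(2) `d = gcd(b, k)`, `k' = k/d`, `b' = b/d`: `T_b = u_d ∑_{m ≤ M/d, m ≡ b' (k')} u_m`, and by orthogonality
(`DirichletCharacter.sum_char_inv_mul_char_eq`) `= (u_d/φ(k')) ∑_{ψ mod k'} conj ψ(b') S (tw u ψ) (M/d)`;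
so `‖S (tw u ψ) (M/d)‖ ≥ (δ/k) M` for some `ψ` modulo `k'`.
(3) `χ = ψ.primitiveCharacter`, modulus `q = conductor ψ ∣ k'`, `1 ≤ q ≤ K`: `ψ(n) = χ(n) 1_{(n,k')=1}`
(`primitiveCharacter_apply_of_isCoprime`), and with `1_{(n,k')=1} = ∑_{e ∣ n, e ∣ k'} μ(e)`:
`S (tw u ψ) y = ∑_{e ∣ k'} μ(e) u_e χ(e) S (tw u χ) (y/e)`; so for some `e ∣ k'` (at most `K` divisors)
`‖S (tw u χ) (M/(de))‖ ≥ (δ/K²) M`.
(4) `M' = ⌊M/(de)⌋₊ = M/(de)` (natural division), `de ≤ K²`; `M' ≥ ‖S (tw u χ) M'‖ ≥ (δ/K²) M > 0` so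
`M' ≥ 1`; `δ' = δ/K²` works (`M' ≤ M`).
-/

open Finset MeasureTheory Filter Topology
open ArithmeticFunction (vonMangoldt)

namespace Pool.Agent.Work.MP_2d9442_nt

private theorem redc_pig {ι : Type*} (s : Finset ι) (F : ι → ℂ) {c N : ℝ} (hN : 0 < N)
    (hcard : (s.card : ℝ) ≤ N) (hc : 0 < c) (h : c ≤ ‖∑ i ∈ s, F i‖) :
    ∃ i ∈ s, c / N ≤ ‖F i‖ := by
  by_contra hcon
  push Not at hcon
  have hne : s.Nonempty := by
    rw [Finset.nonempty_iff_ne_empty]
    rintro rfl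
    simp only [Finset.sum_empty, norm_zero] at h
    linarith
  have h1 : ∑ i ∈ s, ‖F i‖ < ∑ _i ∈ s, c / N := Finset.sum_lt_sum_of_nonempty hne hcon
  rw [Finset.sum_const, nsmul_eq_mul] at h1
  have h2 : (s.card : ℝ) * (c / N) ≤ N * (c / N) :=
    mul_le_mul_of_nonneg_right hcard (by positivity)
  rw [mul_div_cancel₀ _ hN.ne'] at h2
  have h3 := norm_sum_le s F
  linarith

private theorem redc_ee_int (x : ℝ) (j : ℤ) : ee (x + j) = ee x := by
  unfold ee
  rw [Complex.exp_eq_exp_iff_exists_int]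
  refine ⟨j, ?_⟩
  push_cast
  ring

private theorem redc_norm_ee (x : ℝ) : ‖ee x‖ = 1 := by
  unfold ee
  have : 2 * (Real.pi : ℂ) * x * Complex.I = ((2 * Real.pi * x : ℝ) : ℂ) * Complex.I := by
    push_cast
    ring
  rw [this, Complex.norm_exp_ofReal_mul_I]

/-- step one: the greatest common divisor -/
private theorem redc_gcd (u : ℕ → ℂ) {k : ℕ} (hk : 1 ≤ k) (a : ℤ) (M : ℕ) :
    ∑ n ∈ Finset.Icc 1 M, u n * ee (n * (a / k)) =
      ∑ d ∈ k.divisors, ∑ m ∈ (Finset.Icc 1 (M / d)).filter (fun m => m.Coprime (k / d)),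
        u (d * m) * ee (m * (a / (k / d : ℕ))) := by
  rw [← Finset.sum_fiberwise_of_maps_to (s := Finset.Icc 1 M) (t := k.divisors)
    (g := fun n => Nat.gcd n k)]
  · refine Finset.sum_congr rfl fun d hd => ?_
    have hdk : d ∣ k := (Nat.mem_divisors.1 hd).1
    have hd0 : 0 < d := Nat.pos_of_dvd_of_pos hdk hk
    have hk' : k = d * (k / d) := (Nat.mul_div_cancel' hdk).symm
    have hkd : 0 < k / d := Nat.div_pos (Nat.le_of_dvd hk hdk) hd0
    refine Finset.sum_nbij' (fun n => n / d) (fun m => d * m) (fun n hn => ?_) (fun m hm => ?_)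
      (fun n hn => ?_) (fun m hm => ?_) fun n hn => ?_
    · rw [Finset.mem_filter, Finset.mem_Icc] at hn ⊢
      obtain ⟨⟨h1, h2⟩, h3⟩ := hn
      have hdn : d ∣ n := h3 ▸ Nat.gcd_dvd_left n k
      refine ⟨⟨Nat.div_pos (Nat.le_of_dvd h1 hdn) hd0, Nat.div_le_div_right h2⟩, ?_⟩
      have h4 := Nat.coprime_div_gcd_div_gcd (m := n) (n := k) (by rw [h3]; exact hd0)
      rwa [h3] at h4
    · rw [Finset.mem_filter, Finset.mem_Icc] at hm ⊢
      obtain ⟨⟨h1, h2⟩, h3⟩ := hm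
      refine ⟨⟨Nat.mul_pos hd0 h1, ?_⟩, ?_⟩
      · rw [mul_comm]
        exact (Nat.le_div_iff_mul_le hd0).1 h2
      · change Nat.gcd (d * m) k = d
        conv_lhs => rw [hk', Nat.gcd_mul_left]
        rw [Nat.Coprime] at h3
        rw [h3, mul_one]
    · rw [Finset.mem_filter, Finset.mem_Icc] at hn
      obtain ⟨⟨h1, h2⟩, h3⟩ := hn
      have hdn : d ∣ n := h3 ▸ Nat.gcd_dvd_left n k
      exact Nat.mul_div_cancel' hdn
    · exact Nat.mul_div_cancel_left m hd0
    · rw [Finset.mem_filter, Finset.mem_Icc] at hn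
      obtain ⟨⟨h1, h2⟩, h3⟩ := hn
      have hdn : d ∣ n := h3 ▸ Nat.gcd_dvd_left n k
      have h4 : d * (n / d) = n := Nat.mul_div_cancel' hdn
      rw [h4]
      congr 2
      have h5 : (n : ℝ) = d * (n / d : ℕ) := by exact_mod_cast h4.symm
      have h6 : (k : ℝ) = d * (k / d : ℕ) := by exact_mod_cast hk'
      have h7 : (d : ℝ) ≠ 0 := by exact_mod_cast hd0.ne'
      have h8 : ((k / d : ℕ) : ℝ) ≠ 0 := by exact_mod_cast hkd.ne'
      rw [h5, h6]
      field_simp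
  · intro n hn
    exact Nat.mem_divisors.2 ⟨Nat.gcd_dvd_right n k, by omega⟩

/-- step two: characters -/
private theorem redc_char (u : ℕ → ℂ) {k : ℕ} (hk : 1 ≤ k) (a : ℤ) (y : ℕ) :
    ∃ c : DirichletCharacter ℂ k → ℂ, (∀ ψ, ‖c ψ‖ ≤ k) ∧
      ∑ m ∈ (Finset.Icc 1 y).filter (fun m => m.Coprime k), u m * ee (m * (a / k)) =
        ∑ ψ : DirichletCharacter ℂ k, c ψ * S (tw u ψ) y := by
  classical
  haveI : NeZero k := ⟨by omega⟩
  have hφ : 0 < Nat.totient k := Nat.totient_pos.2 hk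
  have hφC : (Nat.totient k : ℂ) ≠ 0 := by exact_mod_cast hφ.ne'
  set f : ZMod k → ℂ := fun b => ee ((b.val : ℝ) * (a / k)) with hf
  set c : DirichletCharacter ℂ k → ℂ := fun ψ =>
    (1 / (Nat.totient k : ℂ)) * ∑ b : ZMod k, if IsUnit b then f b * ψ b⁻¹ else 0 with hc
  refine ⟨c, fun ψ => ?_, ?_⟩
  · rw [hc]
    simp only
    rw [norm_mul]
    have h1 : ‖(1 / (Nat.totient k : ℂ))‖ ≤ 1 := by
      rw [norm_div, norm_one, Complex.norm_natCast]
      have : (1 : ℝ) ≤ Nat.totient k := by exact_mod_cast hφ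
      rw [div_le_one (by linarith)]
      exact this
    have h2 : ‖∑ b : ZMod k, if IsUnit b then f b * ψ b⁻¹ else 0‖ ≤ k := by
      refine (norm_sum_le_of_le (f := fun b => if IsUnit b then f b * ψ b⁻¹ else 0)
        (n := fun _ => (1 : ℝ)) _ fun b _ => ?_).trans ?_
      · split_ifs
        · rw [norm_mul, hf]
          simp only
          rw [redc_norm_ee, one_mul]
          exact DirichletCharacter.norm_le_one ψ _
        · simp
      · rw [Finset.sum_const, Finset.card_univ, ZMod.card, nsmul_eq_mul, mul_one]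
    calc _ ≤ 1 * (k : ℝ) := mul_le_mul h1 h2 (norm_nonneg _) zero_le_one
      _ = k := one_mul _
  · have hexp : ∀ m : ℕ, ∑ ψ : DirichletCharacter ℂ k, c ψ * ψ (m : ZMod k) =
        if m.Coprime k then ee (m * (a / k)) else 0 := by
      intro m
      have h1 : ∀ ψ : DirichletCharacter ℂ k, c ψ * ψ (m : ZMod k) =
          (1 / (Nat.totient k : ℂ)) * ∑ b : ZMod k,
            if IsUnit b then f b * (ψ b⁻¹ * ψ (m : ZMod k)) else 0 := by
        intro ψ
        rw [hc]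
        simp only
        rw [mul_assoc, Finset.sum_mul]
        congr 1
        refine Finset.sum_congr rfl fun b _ => ?_
        split_ifs
        · ring
        · ring
      simp only [h1]
      rw [← Finset.mul_sum, Finset.sum_comm]
      have h2 : ∀ b : ZMod k, (∑ ψ : DirichletCharacter ℂ k,
          if IsUnit b then f b * (ψ b⁻¹ * ψ (m : ZMod k)) else 0) =
          if b = (m : ZMod k) then (if IsUnit b then f b * (Nat.totient k : ℂ) else 0) else 0 := by
        intro b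
        by_cases hb : IsUnit b
        · simp only [if_pos hb]
          rw [← Finset.mul_sum, DirichletCharacter.sum_char_inv_mul_char_eq ℂ hb]
          split_ifs
          · rfl
          · rw [mul_zero]
        · simp only [if_neg hb, Finset.sum_const_zero, ite_self]
      simp only [h2]
      rw [Finset.sum_ite_eq' Finset.univ (m : ZMod k), if_pos (Finset.mem_univ _)]
      by_cases hm : m.Coprime k
      · rw [if_pos hm, if_pos ((ZMod.isUnit_iff_coprime m k).2 hm)]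
        have h3 : f (m : ZMod k) = ee (m * (a / k)) := by
          rw [hf]
          simp only
          obtain ⟨j, hj⟩ : ∃ j : ℕ, j = m / k := ⟨_, rfl⟩
          obtain ⟨r, hr⟩ : ∃ r : ℕ, r = m % k := ⟨_, rfl⟩
          rw [ZMod.val_natCast, ← hr, ← redc_ee_int _ ((j : ℤ) * a)]
          congr 1
          have h4 : (m : ℝ) = r + k * j := by
            rw [hr, hj]
            exact_mod_cast (Nat.mod_add_div m k).symm
          have h5 : (k : ℝ) ≠ 0 := by
            have : k ≠ 0 := by omega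
            exact_mod_cast this
          rw [h4]
          push_cast
          field_simp
        rw [h3]
        field_simp
      · rw [if_neg hm, if_neg (fun h => hm ((ZMod.isUnit_iff_coprime m k).1 h)), mul_zero]
    have h1 : ∀ ψ : DirichletCharacter ℂ k, c ψ * S (tw u ψ) y =
        ∑ m ∈ Finset.Icc 1 y, u m * (c ψ * ψ (m : ZMod k)) := by
      intro ψ
      unfold S tw
      rw [Nat.floor_natCast, Finset.mul_sum]
      refine Finset.sum_congr rfl fun m _ => ?_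
      ring
    simp only [h1]
    rw [Finset.sum_comm, Finset.sum_filter]
    refine Finset.sum_congr rfl fun m _ => ?_
    rw [← Finset.mul_sum, hexp]
    split_ifs
    · rfl
    · rw [mul_zero]

/-- step three: the primitive character -/
private theorem redc_prim {u : ℕ → ℂ} (hu : UM u) {k : ℕ} (hk : 1 ≤ k)
    (ψ : DirichletCharacter ℂ k) (y : ℕ) :
    S (tw u ψ) y = ∑ e ∈ k.divisors, (ArithmeticFunction.moebius e : ℂ) *
      (tw u ψ.primitiveCharacter e * S (tw u ψ.primitiveCharacter) ((y / e : ℕ) : ℝ)) := by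
  set χ := ψ.primitiveCharacter with hχ
  have hmob : ∀ n : ℕ, 1 ≤ n → (∑ e ∈ k.divisors, if e ∣ n then
      (ArithmeticFunction.moebius e : ℂ) else 0) = if n.Coprime k then 1 else 0 := by
    intro n hn
    rw [← Finset.sum_filter]
    have h1 : k.divisors.filter (fun e => e ∣ n) = (Nat.gcd n k).divisors := by
      ext e
      rw [Finset.mem_filter, Nat.mem_divisors, Nat.mem_divisors, Nat.dvd_gcd_iff]
      constructor
      · rintro ⟨⟨h2, h3⟩, h4⟩
        exact ⟨⟨h4, h2⟩, Nat.gcd_ne_zero_right h3⟩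
      · rintro ⟨⟨h2, h3⟩, h4⟩
        exact ⟨⟨h3, by omega⟩, h2⟩
    rw [h1]
    have h2 : (∑ e ∈ (Nat.gcd n k).divisors, ArithmeticFunction.moebius e) =
        if Nat.gcd n k = 1 then 1 else 0 := by
      have h3 := congrArg (fun F : ArithmeticFunction ℤ => F (Nat.gcd n k))
        ArithmeticFunction.moebius_mul_coe_zeta
      simp only [ArithmeticFunction.coe_mul_zeta_apply, ArithmeticFunction.one_apply] at h3
      exact h3
    have h3 : ((∑ e ∈ (Nat.gcd n k).divisors, ArithmeticFunction.moebius e : ℤ) : ℂ) =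
        ∑ e ∈ (Nat.gcd n k).divisors, (ArithmeticFunction.moebius e : ℂ) := by
      push_cast
      rfl
    rw [← h3, h2]
    unfold Nat.Coprime
    split_ifs <;> simp
  have hψ : ∀ n : ℕ, 1 ≤ n → tw u ψ n = ∑ e ∈ k.divisors, if e ∣ n then
      (ArithmeticFunction.moebius e : ℂ) * tw u χ n else 0 := by
    intro n hn
    have h1 : (∑ e ∈ k.divisors, if e ∣ n then
        (ArithmeticFunction.moebius e : ℂ) * tw u χ n else 0) =
        (∑ e ∈ k.divisors, if e ∣ n then (ArithmeticFunction.moebius e : ℂ) else 0) *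
          tw u χ n := by
      rw [Finset.sum_mul]
      refine Finset.sum_congr rfl fun e _ => ?_
      split_ifs
      · rfl
      · rw [zero_mul]
    rw [h1, hmob n hn]
    by_cases hc : n.Coprime k
    · rw [if_pos hc, one_mul]
      unfold tw
      congr 1
      have h2 : IsCoprime (n : ℤ) (k : ℤ) := Nat.isCoprime_iff_coprime.2 hc
      have h3 := ψ.primitiveCharacter_apply_of_isCoprime h2
      rw [Int.cast_natCast, Int.cast_natCast] at h3
      exact h3.symm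
    · rw [if_neg hc, zero_mul]
      unfold tw
      rw [MulChar.map_nonunit ψ (fun h => hc ((ZMod.isUnit_iff_coprime n k).1 h)), mul_zero]
  unfold S
  rw [Nat.floor_natCast]
  have h1 : ∑ n ∈ Finset.Icc 1 y, tw u ψ n = ∑ n ∈ Finset.Icc 1 y, ∑ e ∈ k.divisors,
      if e ∣ n then (ArithmeticFunction.moebius e : ℂ) * tw u χ n else 0 :=
    Finset.sum_congr rfl fun n hn => hψ n (Finset.mem_Icc.1 hn).1
  rw [h1, Finset.sum_comm]
  refine Finset.sum_congr rfl fun e he => ?_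
  have he0 : 0 < e := Nat.pos_of_mem_divisors he
  rw [Nat.floor_natCast, ← Finset.sum_filter, ← Finset.mul_sum]
  congr 1
  have hcm := CM_tw hu.cm χ
  rw [Finset.mul_sum (Finset.Icc 1 (y / e)) (fun n => tw u χ n) (tw u χ e)]
  refine Finset.sum_nbij' (fun n => n / e) (fun m => e * m) (fun n hn => ?_) (fun m hm => ?_)
      (fun n hn => ?_) (fun m hm => ?_) fun n hn => ?_
  · rw [Finset.mem_filter, Finset.mem_Icc] at hn
    obtain ⟨⟨h1, h2⟩, h3⟩ := hn
    rw [Finset.mem_Icc]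
    exact ⟨Nat.div_pos (Nat.le_of_dvd h1 h3) he0, Nat.div_le_div_right h2⟩
  · rw [Finset.mem_Icc] at hm
    rw [Finset.mem_filter, Finset.mem_Icc]
    refine ⟨⟨Nat.mul_pos he0 hm.1, ?_⟩, Nat.dvd_mul_right e m⟩
    rw [mul_comm]
    exact (Nat.le_div_iff_mul_le he0).1 hm.2
  · rw [Finset.mem_filter, Finset.mem_Icc] at hn
    exact Nat.mul_div_cancel' hn.2
  · exact Nat.mul_div_cancel_left m he0
  · rw [Finset.mem_filter, Finset.mem_Icc] at hn
    rw [← hcm.mul, Nat.mul_div_cancel' hn.2]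

theorem redC (K : ℕ) {δ : ℝ} (hδ : 0 < δ) : ∃ δ' : ℝ, 0 < δ' ∧ ∀ u : ℕ → ℂ, UM u →
    ∀ (k : ℕ) (a : ℤ) (M : ℕ), 1 ≤ k → k ≤ K → 1 ≤ M →
    δ * M ≤ ‖∑ n ∈ Finset.Icc 1 M, u n * ee (n * (a / k))‖ →
    ∃ (q : ℕ) (χ : DirichletCharacter ℂ q) (M' : ℕ), 1 ≤ q ∧ q ≤ K ∧ χ.IsPrimitive ∧ 1 ≤ M' ∧
      M' ≤ M ∧ δ' * M ≤ M' ∧ δ' * M' ≤ ‖S (tw u χ) M'‖ := by
  classical
  set L : ℝ := (K : ℝ) + 1 with hL
  have hL0 : 0 < L := by positivity
  refine ⟨δ / L / L / L / L, by positivity, ?_⟩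
  intro u hu k a M hk hkK hM hA
  have hMR : (0 : ℝ) < M := by exact_mod_cast hM
  have hKR : (k : ℝ) ≤ L := by
    have : (k : ℝ) ≤ K := by exact_mod_cast hkK
    linarith
  have hu1 : ∀ n, ‖u n‖ ≤ 1 := hu.cm.le
  rw [redc_gcd u hk a M] at hA
  have hcardk : ∀ j : ℕ, 1 ≤ j → j ≤ k → ((j.divisors.card : ℕ) : ℝ) ≤ L := by
    intro j hj hjk
    have h1 : j.divisors.card ≤ j := Nat.card_divisors_le_self j
    have h2 : ((j.divisors.card : ℕ) : ℝ) ≤ (k : ℝ) := by exact_mod_cast h1.trans hjk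
    linarith
  obtain ⟨d, hd, h1⟩ := redc_pig _ _ hL0 (hcardk k hk le_rfl) (by positivity) hA
  have hdk : d ∣ k := (Nat.mem_divisors.1 hd).1
  have hd0 : 0 < d := Nat.pos_of_dvd_of_pos hdk hk
  have hkd : 1 ≤ k / d := Nat.div_pos (Nat.le_of_dvd hk hdk) hd0
  have hkd' : k / d ≤ k := Nat.div_le_self k d
  have h2 : ∑ m ∈ (Finset.Icc 1 (M / d)).filter (fun m => m.Coprime (k / d)),
        u (d * m) * ee (m * (a / (k / d : ℕ))) =
      u d * ∑ m ∈ (Finset.Icc 1 (M / d)).filter (fun m => m.Coprime (k / d)),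
        u m * ee (m * (a / (k / d : ℕ))) := by
    rw [Finset.mul_sum]
    refine Finset.sum_congr rfl fun m _ => ?_
    rw [hu.cm.mul]
    ring
  rw [h2] at h1
  obtain ⟨c, hc, hexp⟩ := redc_char u hkd a (M / d)
  rw [hexp, norm_mul] at h1
  have h3 : δ * M / L ≤ ‖∑ ψ : DirichletCharacter ℂ (k / d), c ψ * S (tw u ψ) ((M / d : ℕ) : ℝ)‖ :=
    h1.trans (mul_le_of_le_one_left (norm_nonneg _) (hu1 d))
  have hcardψ : (((Finset.univ : Finset (DirichletCharacter ℂ (k / d))).card : ℕ) : ℝ) ≤ L := by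
    haveI : NeZero (k / d) := ⟨by omega⟩
    have h4 := DirichletCharacter.card_eq_totient_of_hasEnoughRootsOfUnity ℂ (k / d)
    rw [Finset.card_univ, ← Nat.card_eq_fintype_card, h4]
    have h5 : ((Nat.totient (k / d) : ℕ) : ℝ) ≤ (k : ℝ) := by
      exact_mod_cast (Nat.totient_le (k / d)).trans hkd'
    linarith
  obtain ⟨ψ, -, h4⟩ := redc_pig _ _ hL0 hcardψ (by positivity) h3
  rw [norm_mul] at h4
  have h5 : δ * M / L / L / L ≤ ‖S (tw u ψ) ((M / d : ℕ) : ℝ)‖ := by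
    rw [div_le_iff₀ hL0]
    have h6 : ‖c ψ‖ ≤ L := by
      have h7 : ((k / d : ℕ) : ℝ) ≤ (k : ℝ) := by exact_mod_cast hkd'
      exact (hc ψ).trans (h7.trans hKR)
    calc δ * M / L / L ≤ ‖c ψ‖ * ‖S (tw u ψ) ((M / d : ℕ) : ℝ)‖ := h4
      _ ≤ L * ‖S (tw u ψ) ((M / d : ℕ) : ℝ)‖ := mul_le_mul_of_nonneg_right h6 (norm_nonneg _)
      _ = _ := mul_comm _ _
  rw [redc_prim hu hkd ψ] at h5
  obtain ⟨e, he, h6⟩ := redc_pig _ _ hL0 (hcardk _ hkd hkd') (by positivity) h5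
  have he0 : 0 < e := Nat.pos_of_mem_divisors he
  have h7 : δ * M / L / L / L / L ≤
      ‖S (tw u ψ.primitiveCharacter) ((M / d / e : ℕ) : ℝ)‖ := by
    refine h6.trans ?_
    rw [norm_mul, norm_mul]
    have h8 : ‖(ArithmeticFunction.moebius e : ℂ)‖ ≤ 1 := by
      rw [Complex.norm_intCast]
      exact_mod_cast ArithmeticFunction.abs_moebius_le_one
    have h9 : ‖tw u ψ.primitiveCharacter e‖ ≤ 1 := (CM_tw hu.cm _).le e
    calc _ ≤ 1 * (1 * ‖S (tw u ψ.primitiveCharacter) ((M / d / e : ℕ) : ℝ)‖) := by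
          gcongr
      _ = _ := by ring
  have hcond : ψ.conductor ∣ k / d := ψ.conductor_dvd_level
  haveI : NeZero (k / d) := ⟨by omega⟩
  have h8 : ‖S (tw u ψ.primitiveCharacter) ((M / d / e : ℕ) : ℝ)‖ ≤ ((M / d / e : ℕ) : ℝ) :=
    norm_S_le (CM_tw hu.cm _).le (Nat.cast_nonneg _)
  have h9 : δ / L / L / L / L * M = δ * M / L / L / L / L := by ring
  have hM'pos : (0 : ℝ) < ((M / d / e : ℕ) : ℝ) :=
    lt_of_lt_of_le (by positivity) (h7.trans h8)
  have hM'M : M / d / e ≤ M := (Nat.div_le_self _ _).trans (Nat.div_le_self _ _)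
  refine ⟨ψ.conductor, ψ.primitiveCharacter, M / d / e, ?_, ?_, ψ.primitiveCharacter_isPrimitive,
    ?_, hM'M, ?_, ?_⟩
  · exact Nat.pos_of_dvd_of_pos hcond hkd
  · exact (Nat.le_of_dvd hkd hcond).trans (hkd'.trans hkK)
  · exact_mod_cast hM'pos
  · rw [h9]
    exact h7.trans h8
  · refine le_trans ?_ h7
    rw [← h9]
    have h10 : ((M / d / e : ℕ) : ℝ) ≤ (M : ℝ) := by exact_mod_cast hM'M
    exact mul_le_mul_of_nonneg_left h10 (by positivity)

end Pool.Agent.Work.MP_2d9442_nt
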