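import Pool.Agent.Work.MP_2d9442_nt.ThmP
import Pool.Agent.Work.MP_2d9442_nt.RedC
import Pool.Agent.Work.MP_2d9442_nt.KatR

/-!
# Main: assembly (helper30)
-/

open Finset MeasureTheory Filter Topology

namespace Pool.Agent.Work.MP_2d9442_nt

/-- uniform version of `thmP` over all primitive characters of modulus at most `K` -/
theorem thmP_unif (K : ℕ) {δ B : ℝ} (hδ : 0 < δ) (hB : 0 < B) : ∃ c : ℝ, 0 < c ∧ ∃ N0 : ℕ,
    ∀ (q : ℕ) (χ : DirichletCharacter ℂ q), 1 ≤ q → q ≤ K → χ.IsPrimitive →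
    ∀ N : ℕ, N0 ≤ N → ∀ (u : ℕ → ℂ) (t : ℝ), UM u → |t| ≤ B * N → δ * N ≤ ‖S (tw u χ) N‖ →
    c * Real.log (Real.log N) ≤ AN (fun n => u n * tws (-t) n) N := by
  -- for one modulus
  have h1 : ∀ q : ℕ, 1 ≤ q → ∃ c : ℝ, 0 < c ∧ ∃ N0 : ℕ, ∀ χ : DirichletCharacter ℂ q,
      χ.IsPrimitive → ∀ N : ℕ, N0 ≤ N → ∀ (u : ℕ → ℂ) (t : ℝ), UM u → |t| ≤ B * N →
      δ * N ≤ ‖S (tw u χ) N‖ →
      c * Real.log (Real.log N) ≤ AN (fun n => u n * tws (-t) n) N := by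
    intro q hq
    have : NeZero q := ⟨by omega⟩
    have h2 : ∀ χ : DirichletCharacter ℂ q, ∃ p : ℝ × ℕ, 0 < p.1 ∧ (χ.IsPrimitive →
        ∀ N : ℕ, p.2 ≤ N → ∀ (u : ℕ → ℂ) (t : ℝ), UM u → |t| ≤ B * N →
        δ * N ≤ ‖S (tw u χ) N‖ →
        p.1 * Real.log (Real.log N) ≤ AN (fun n => u n * tws (-t) n) N) := by
      intro χ
      by_cases hχ : χ.IsPrimitive
      · obtain ⟨c, hc, N0, h⟩ := thmP hq χ hχ hδ hB
        exact ⟨(c, N0), hc, fun _ => h⟩
      · exact ⟨(1, 0), one_pos, fun h => absurd h hχ⟩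
    choose p hp1 hp2 using h2
    have : Fintype (DirichletCharacter ℂ q) := Fintype.ofFinite _
    obtain ⟨c, hc0, hc⟩ : ∃ c : ℝ, 0 < c ∧ ∀ χ, c ≤ (p χ).1 := by
      obtain ⟨χ0, -, h0⟩ := Finset.exists_min_image (Finset.univ : Finset (DirichletCharacter ℂ q))
        (fun χ => (p χ).1) ⟨1, Finset.mem_univ _⟩
      exact ⟨(p χ0).1, hp1 χ0, fun χ => h0 χ (Finset.mem_univ _)⟩
    refine ⟨c, hc0, max 3 (Finset.univ.sup fun χ => (p χ).2), ?_⟩
    intro χ hχ N hN u t hu ht hS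
    have h3 : (p χ).2 ≤ N :=
      le_trans (Finset.le_sup (f := fun χ => (p χ).2) (Finset.mem_univ χ))
        (le_trans (le_max_right _ _) hN)
    have h4 := hp2 χ hχ N h3 u t hu ht hS
    have h5 : 0 ≤ Real.log (Real.log N) := by
      apply Real.log_nonneg
      have h6 : (3:ℝ) ≤ N := by
        have : 3 ≤ N := le_trans (le_max_left _ _) hN
        exact_mod_cast this
      rw [Real.le_log_iff_exp_le (by linarith)]
      have := Real.exp_one_lt_d9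
      linarith
    exact le_trans (mul_le_mul_of_nonneg_right (hc χ) h5) h4
  have h2 : ∀ q : ℕ, ∃ p : ℝ × ℕ, 0 < p.1 ∧ (1 ≤ q → ∀ χ : DirichletCharacter ℂ q,
      χ.IsPrimitive → ∀ N : ℕ, p.2 ≤ N → ∀ (u : ℕ → ℂ) (t : ℝ), UM u → |t| ≤ B * N →
      δ * N ≤ ‖S (tw u χ) N‖ →
      p.1 * Real.log (Real.log N) ≤ AN (fun n => u n * tws (-t) n) N) := by
    intro q
    by_cases hq : 1 ≤ q
    · obtain ⟨c, hc, N0, h⟩ := h1 q hq
      exact ⟨(c, N0), hc, fun _ => h⟩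
    · exact ⟨(1, 0), one_pos, fun h => absurd h hq⟩
  choose p hp1 hp2 using h2
  obtain ⟨c, hc0, hc⟩ : ∃ c : ℝ, 0 < c ∧ ∀ q ∈ Finset.range (K + 1), c ≤ (p q).1 := by
    obtain ⟨q0, -, h0⟩ := Finset.exists_min_image (Finset.range (K + 1))
      (fun q => (p q).1) ⟨0, by simp⟩
    exact ⟨(p q0).1, hp1 q0, h0⟩
  refine ⟨c, hc0, max 3 ((Finset.range (K + 1)).sup fun q => (p q).2), ?_⟩
  intro q χ hq hqK hχ N hN u t hu ht hS
  have hm : q ∈ Finset.range (K + 1) := by simp; omega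
  have h3 : (p q).2 ≤ N :=
    le_trans (Finset.le_sup (f := fun q => (p q).2) hm)
      (le_trans (le_max_right _ _) hN)
  have h4 := hp2 q hq χ hχ N h3 u t hu ht hS
  have h5 : 0 ≤ Real.log (Real.log N) := by
    apply Real.log_nonneg
    have h6 : (3:ℝ) ≤ N := by
      have : 3 ≤ N := le_trans (le_max_left _ _) hN
      exact_mod_cast this
    rw [Real.le_log_iff_exp_le (by linarith)]
    have := Real.exp_one_lt_d9
    linarith
  exact le_trans (mul_le_mul_of_nonneg_right (hc q hm) h5) h4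

theorem main_um {δ B : ℝ} (hδ : 0 < δ) (hB : 0 < B) : ∃ c : ℝ, 0 < c ∧ ∃ N0 : ℕ, ∀ N : ℕ,
    N0 ≤ N → ∀ (u : ℕ → ℂ) (t θ : ℝ), UM u → |t| ≤ B * N →
    δ * N ≤ ‖∑ n ∈ Finset.Icc 1 N, u n * ee (n * θ)‖ →
    c * Real.log (Real.log N) ≤ AN (fun n => u n * tws (-t) n) N := by
  obtain ⟨K, δ1, N1, hδ1, hk⟩ := katR hδ
  obtain ⟨δ2, hδ2, hr⟩ := redC K hδ1
  have hB' : 0 < B / (δ1 * δ2) := by positivity
  obtain ⟨c, hc, N2, hP⟩ := thmP_unif K hδ2 hB'
  -- M' ≥ δ1 δ2 N =: ρ N, and log log M' ≥ (1/2) log log N for large N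
  set ρ := δ1 * δ2 with hρ
  have hρ0 : 0 < ρ := by positivity
  have hlim : Tendsto (fun N : ℕ => ρ * (N:ℝ)) atTop atTop :=
    Tendsto.const_mul_atTop hρ0 tendsto_natCast_atTop_atTop
  have hev : ∀ᶠ N : ℕ in atTop, (N:ℝ) ^ (1/2 : ℝ) ≤ ρ * N := by
    have h1 : Tendsto (fun N : ℕ => ρ * (N:ℝ) ^ (1/2 : ℝ)) atTop atTop :=
      Tendsto.const_mul_atTop hρ0
        ((tendsto_rpow_atTop (by norm_num)).comp tendsto_natCast_atTop_atTop)
    filter_upwards [h1.eventually_ge_atTop 1, eventually_ge_atTop 1] with N hN hN1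
    have hN0 : (0:ℝ) < N := by exact_mod_cast hN1
    have e1 : (N:ℝ) = (N:ℝ) ^ (1/2:ℝ) * (N:ℝ) ^ (1/2:ℝ) := by
      rw [← Real.rpow_add hN0]; norm_num
    calc (N:ℝ) ^ (1/2:ℝ) = 1 * (N:ℝ) ^ (1/2:ℝ) := by ring
      _ ≤ (ρ * (N:ℝ) ^ (1/2:ℝ)) * (N:ℝ) ^ (1/2:ℝ) := by gcongr
      _ = ρ * N := by rw [mul_assoc, ← e1]
  obtain ⟨N3, hN3⟩ := eventually_atTop.mp (hev.and (hlim.eventually_ge_atTop (N2 : ℝ)))
  refine ⟨ρ * c / 2, by positivity, max (max N1 N3) 300, ?_⟩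
  intro N hN u t θ hu ht hS
  have hN1 : N1 ≤ N := le_trans (le_trans (le_max_left _ _) (le_max_left _ _)) hN
  have hN3' : N3 ≤ N := le_trans (le_trans (le_max_right _ _) (le_max_left _ _)) hN
  have hN300 : 300 ≤ N := le_trans (le_max_right _ _) hN
  obtain ⟨k, a, M, hk1, hkK, hM1, hMN, hδM, hSM⟩ := hk N hN1 u θ hu hS
  obtain ⟨q, χ, M', hq, hqK, hχ, hM'1, hM'M, hδM', hSM'⟩ := hr u hu k a M hk1 hkK hM1 hSM
  have hN0 : (0:ℝ) < N := by
    have : 0 < N := by omega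
    exact_mod_cast this
  have hρM : ρ * N ≤ M' := by
    calc ρ * N = δ2 * (δ1 * N) := by rw [hρ]; ring
      _ ≤ δ2 * M := by gcongr
      _ ≤ M' := hδM'
  obtain ⟨h1, h2⟩ := hN3 N hN3'
  have hM'2 : N2 ≤ M' := by
    have : (N2:ℝ) ≤ M' := le_trans h2 hρM
    exact_mod_cast this
  have ht' : |t| ≤ B / ρ * M' := by
    calc |t| ≤ B * N := ht
      _ = B / ρ * (ρ * N) := by field_simp
      _ ≤ B / ρ * M' := by gcongr
  have h3 := hP q χ hq hqK hχ M' hM'2 u t hu ht' hSM'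
  have h4 := AN_mono (fun n => u n * tws (-t) n) hM'1 (le_trans hM'M hMN)
  have hM'0 : (0:ℝ) < M' := by exact_mod_cast hM'1
  -- log log M' ≥ log log N / 2
  have hlogN : 4 ≤ Real.log N := by
    rw [Real.le_log_iff_exp_le hN0]
    have e1 : Real.exp 4 = Real.exp 1 ^ 4 := by rw [← Real.exp_nat_mul]; norm_num
    rw [e1]
    have e2 := Real.exp_one_lt_d9
    have e3 : Real.exp 1 ^ 4 ≤ (2.72:ℝ) ^ 4 := by
      apply pow_le_pow_left₀ (Real.exp_pos 1).le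
      linarith
    have e4 : (300:ℝ) ≤ N := by exact_mod_cast hN300
    norm_num at e3
    linarith
  have h5 : Real.log N / 2 ≤ Real.log M' := by
    have e1 : Real.log ((N:ℝ) ^ (1/2:ℝ)) ≤ Real.log M' :=
      Real.log_le_log (by positivity) (le_trans h1 hρM)
    rw [Real.log_rpow hN0] at e1
    linarith
  have h6 : Real.log (Real.log N) / 2 ≤ Real.log (Real.log M') := by
    have e1 : Real.log (Real.log N / 2) ≤ Real.log (Real.log M') :=
      Real.log_le_log (by linarith) h5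
    have e2 : Real.log (Real.log N / 2) = Real.log (Real.log N) - Real.log 2 :=
      Real.log_div (by linarith) (by norm_num)
    have e3 : 2 * Real.log 2 ≤ Real.log (Real.log N) := by
      have : Real.log 4 ≤ Real.log (Real.log N) := Real.log_le_log (by norm_num) hlogN
      have e4 : Real.log 4 = 2 * Real.log 2 := by
        rw [show (4:ℝ) = 2 ^ 2 by norm_num, Real.log_pow]; norm_num
      linarith
    linarith
  have h7 : 0 ≤ Real.log (Real.log N) := Real.log_nonneg (by linarith)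
  calc ρ * c / 2 * Real.log (Real.log N) = ρ * (c * (Real.log (Real.log N) / 2)) := by ring
    _ ≤ ρ * (c * Real.log (Real.log M')) := by gcongr
    _ ≤ ρ * AN (fun n => u n * tws (-t) n) M' := by gcongr
    _ ≤ (M' : ℝ) / N * AN (fun n => u n * tws (-t) n) M' := by
        apply mul_le_mul_of_nonneg_right
        · rw [le_div_iff₀ hN0]; exact hρM
        · unfold AN; positivity
    _ ≤ AN (fun n => u n * tws (-t) n) N := h4

/-- the theorem, for sequences given on the positive integers only -/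
theorem main {δ B : ℝ} (hδ : 0 < δ) (hB : 0 < B) : ∃ c : ℝ, 0 < c ∧ ∃ N0 : ℕ, ∀ N : ℕ,
    N0 ≤ N → ∀ z : ℕ → ℂ, (∀ n : ℕ, 1 ≤ n → ‖z n‖ = 1) →
    (∀ m n : ℕ, 1 ≤ m → 1 ≤ n → z (m * n) = z m * z n) →
    ∀ t θ : ℝ, |t| ≤ B * N →
    δ * N ≤ ‖∑ n ∈ Finset.Icc 1 N, z n * (n : ℂ) ^ (-((t : ℂ) * Complex.I)) *
      Complex.exp (2 * Real.pi * (n * θ : ℝ) * Complex.I)‖ →
    c * Real.log (Real.log N) ≤
      (∑ n ∈ Finset.Icc 1 N, ‖∑ i ∈ Finset.Icc 1 n, z i‖ ^ 2) / (N : ℝ) := by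
  obtain ⟨c, hc, N0, h⟩ := main_um hδ hB
  refine ⟨c, hc, N0, fun N hN z hz1 hz2 t θ ht hS => ?_⟩
  have z1 : z 1 = 1 := by
    have h1 := hz2 1 1 le_rfl le_rfl
    have h2 := hz1 1 le_rfl
    have h3 : z 1 ≠ 0 := by
      intro h0; rw [h0] at h2; simp at h2
    have h4 : z 1 * z 1 = z 1 * 1 := by rw [mul_one]; simpa using h1.symm
    exact mul_left_cancel₀ h3 h4
  set u0 : ℕ → ℂ := fun n => if n = 0 then 0 else z n with hu0
  have hU0 : UM u0 := by
    refine ⟨⟨by simp [hu0], by simp [hu0, z1], ?_, ?_⟩, ?_⟩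
    · intro m n
      simp only [hu0]
      by_cases hm : m = 0
      · simp [hm]
      · by_cases hn : n = 0
        · simp [hn]
        · simp [hm, hn, hz2 m n (by omega) (by omega)]
    · intro n
      simp only [hu0]
      by_cases hn : n = 0
      · simp [hn]
      · simp [hn, hz1 n (by omega)]
    · intro n hn
      have : n ≠ 0 := by omega
      simp [hu0, this, hz1 n hn]
  have hU := UM_tws hU0 t
  have hS' : δ * N ≤ ‖∑ n ∈ Finset.Icc 1 N, (u0 n * tws t n) * ee (n * θ)‖ := by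
    refine le_trans hS (le_of_eq ?_)
    congr 1
    apply Finset.sum_congr rfl
    intro n hn
    have hn1 : 1 ≤ n := (Finset.mem_Icc.mp hn).1
    have hn0 : n ≠ 0 := by omega
    simp only [hu0, hn0, if_false, tws, ee]
  have h1 := h N hN (fun n => u0 n * tws t n) t θ hU ht hS'
  refine le_trans h1 (le_of_eq ?_)
  unfold AN ps
  congr 1
  apply Finset.sum_congr rfl
  intro n _
  congr 2
  apply Finset.sum_congr rfl
  intro i hi
  have hi1 : 1 ≤ i := (Finset.mem_Icc.mp hi).1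
  have hi0 : i ≠ 0 := by omega
  have hiC : (i:ℂ) ≠ 0 := by exact_mod_cast hi0
  have e1 : tws t i * tws (-t) i = 1 := by
    unfold tws
    rw [← Complex.cpow_add _ _ hiC]
    have : -((t:ℂ) * Complex.I) + -(((-t : ℝ) : ℂ) * Complex.I) = 0 := by push_cast; ring
    rw [this, Complex.cpow_zero]
  show u0 i * tws t i * tws (-t) i = z i
  rw [mul_assoc, e1, mul_one]
  simp [hu0, hi0]

end Pool.Agent.Work.MP_2d9442_nt
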