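import Pool.Agent.Work.MP_2d9442_nt.HB

open Finset MeasureTheory Filter Topology
open ArithmeticFunction (vonMangoldt)

namespace Pool.Agent.Work.MP_2d9442_nt

private theorem Smo_S {f : ℕ → ℂ} (hf : ∀ n, ‖f n‖ ≤ 1) {x y : ℝ} (hx : 0 ≤ x) (hxy : x ≤ y) :
    ‖S f y - S f x‖ ≤ (y - x) + 1 := by
  have hfl : ⌊x⌋₊ ≤ ⌊y⌋₊ := Nat.floor_le_floor hxy
  have e1 : S f y - S f x = ∑ n ∈ Finset.Ioc ⌊x⌋₊ ⌊y⌋₊, f n := by
    unfold S
    have h1 : ∀ m : ℕ, ∑ n ∈ Finset.Icc 1 m, f n = ∑ n ∈ Finset.Ioc 0 m, f n := by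
      intro m
      congr 1
    rw [h1, h1, sub_eq_iff_eq_add, add_comm]
    exact (Finset.sum_Ioc_consecutive f (Nat.zero_le _) hfl).symm
  rw [e1]
  calc ‖∑ n ∈ Finset.Ioc ⌊x⌋₊ ⌊y⌋₊, f n‖ ≤ ∑ n ∈ Finset.Ioc ⌊x⌋₊ ⌊y⌋₊, (1:ℝ) :=
        norm_sum_le_of_le _ fun n _ => hf n
    _ = (⌊y⌋₊ : ℝ) - ⌊x⌋₊ := by
        simp [Nat.cast_sub hfl]
    _ ≤ (y - x) + 1 := by
        have h1 := Nat.floor_le (show 0 ≤ y by linarith)
        have h2 := Nat.lt_floor_add_one x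
        linarith

private theorem Smo_G {f : ℕ → ℂ} (hf : ∀ n, ‖f n‖ ≤ 1) {y θ : ℝ} (hy : 0 < y)
    (h0 : 0 ≤ θ) (h1 : θ ≤ 1) : ‖G f y‖ ≤ ‖G f y - G f (y * (1 + θ))‖ + ‖G f (y * (1 + θ))‖ ∧
    ‖G f y - G f (y * (1 + θ))‖ ≤ 2 * θ + 1 / y := by
  constructor
  · calc ‖G f y‖ = ‖(G f y - G f (y * (1 + θ))) + G f (y * (1 + θ))‖ := by congr 1; ring
      _ ≤ _ := norm_add_le _ _
  by_cases hy1 : y < 1
  · rw [G_zero hy1]
    calc ‖0 - G f (y * (1 + θ))‖ = ‖G f (y * (1 + θ))‖ := by simp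
      _ ≤ 1 := norm_G_le hf _
      _ ≤ 1 / y := by rw [le_div_iff₀ hy]; linarith
      _ ≤ _ := by linarith
  push Not at hy1
  set y' := y * (1 + θ) with hy'
  have hyy : y ≤ y' := by rw [hy']; nlinarith
  have hy'0 : 0 < y' := by linarith
  have e1 : G f y - G f y' = -((S f y' - S f y) / (y' : ℂ)) + S f y * ((1 / y - 1 / y' : ℝ) : ℂ) := by
    unfold G
    have h2 : (y:ℂ) ≠ 0 := by exact_mod_cast hy.ne'
    have h3 : (y':ℂ) ≠ 0 := by exact_mod_cast hy'0.ne'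
    push_cast
    field_simp
    ring
  have hb1 : ‖(S f y' - S f y) / (y' : ℂ)‖ ≤ (θ * y + 1) / y' := by
    rw [norm_div, Complex.norm_real, Real.norm_of_nonneg hy'0.le]
    have := Smo_S hf hy.le hyy
    have e : y' - y = θ * y := by rw [hy']; ring
    rw [e] at this
    gcongr
  have hb2 : ‖S f y * ((1 / y - 1 / y' : ℝ) : ℂ)‖ ≤ y * (1 / y - 1 / y') := by
    rw [norm_mul, Complex.norm_real]
    have h4 : 0 ≤ 1 / y - 1 / y' := by
      rw [sub_nonneg]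
      exact one_div_le_one_div_of_le hy hyy
    rw [Real.norm_of_nonneg h4]
    exact mul_le_mul_of_nonneg_right (norm_S_le hf hy.le) h4
  have hb3 : y * (1 / y - 1 / y') = θ * y / y' := by
    field_simp
    rw [hy']; ring
  have hb4 : (θ * y + 1) / y' + θ * y / y' ≤ 2 * θ + 1 / y := by
    have h5 : (θ * y + 1) / y' ≤ (θ * y + 1) / y := by gcongr
    have h6 : θ * y / y' ≤ θ * y / y := by gcongr
    have h7 : (θ * y + 1) / y + θ * y / y = 2 * θ + 1 / y := by field_simp; ring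
    linarith
  calc ‖G f y - G f y'‖ ≤ ‖-((S f y' - S f y) / (y' : ℂ))‖ + ‖S f y * ((1 / y - 1 / y' : ℝ) : ℂ)‖ := by
        rw [e1]; exact norm_add_le _ _
    _ ≤ (θ * y + 1) / y' + θ * y / y' := by
        rw [norm_neg]
        rw [hb3] at hb2
        exact add_le_add hb1 hb2
    _ ≤ _ := hb4

theorem H_smooth {f : ℕ → ℂ} (hf : CM f) {c : ℂ} (hc : ‖c‖ ≤ 1) {w y θ : ℝ} (hw : 1 ≤ w)
    (hy : 1 ≤ y) (h0 : 0 ≤ θ) (h1 : θ ≤ 1) :
    ‖H f c w y‖ ≤ ‖H f c w (y * (1 + θ))‖ + 4 * θ + 2 * w / y := by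
  have hw0 : 0 < w := by linarith
  have hy0 : 0 < y := by linarith
  obtain ⟨-, a1⟩ := Smo_G hf.le hy0 h0 h1
  obtain ⟨-, a2⟩ := Smo_G hf.le (y := y / w) (by positivity) h0 h1
  have e0 : y * (1 + θ) / w = y / w * (1 + θ) := by ring
  have e1 : H f c w y = H f c w (y * (1 + θ)) + ((G f y - G f (y * (1 + θ))) -
      c * (G f (y / w) - G f (y / w * (1 + θ)))) := by
    unfold H
    rw [e0]; ring
  have e2 : ‖c * (G f (y / w) - G f (y / w * (1 + θ)))‖ ≤ 2 * θ + 1 / (y / w) := by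
    rw [norm_mul]
    calc ‖c‖ * ‖G f (y / w) - G f (y / w * (1 + θ))‖ ≤
        1 * ‖G f (y / w) - G f (y / w * (1 + θ))‖ := by gcongr
      _ ≤ _ := by rw [one_mul]; exact a2
  rw [e1]
  calc ‖H f c w (y * (1 + θ)) + ((G f y - G f (y * (1 + θ))) -
      c * (G f (y / w) - G f (y / w * (1 + θ))))‖ ≤ ‖H f c w (y * (1 + θ))‖ +
        (‖G f y - G f (y * (1 + θ))‖ + ‖c * (G f (y / w) - G f (y / w * (1 + θ)))‖) :=
        (norm_add_le _ _).trans (add_le_add le_rfl (norm_sub_le _ _))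
    _ ≤ ‖H f c w (y * (1 + θ))‖ + ((2 * θ + 1 / y) + (2 * θ + 1 / (y / w))) := by gcongr
    _ ≤ _ := by
        have h2 : 1 / (y / w) = w / y := by field_simp
        have h3 : 1 / y ≤ w / y := by gcongr
        have h4 : 2 * w / y = w / y + w / y := by ring
        rw [h2, h4]
        linarith

end Pool.Agent.Work.MP_2d9442_nt
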