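import Pool.Agent.Work.MP_2d9442_nt.Rec
import Pool.Agent.Work.MP_2d9442_nt.Smo
import Pool.Agent.Work.MP_2dba45_nt.Mert

/-!
# Module Avg: the averaged recurrence (M/L)

Write `h(v) = ‖H f c w v‖` (`0 ≤ h ≤ 2`, measurable, from HB).
For `1 ≤ d ≤ x` and `0 ≤ θ ≤ κ` Smo gives
`h(x/d) ≤ h((x/d)(1+θ)) + 4κ + 2 w d/x`; average over `θ ∈ [0, κ]`:
`h(x/d) ≤ (1/κ) ∫_0^κ h((x/d)(1+θ)) dθ + 4κ + 2wd/x` and, substituting `v = (x/d)(1+θ)`,
`∫_0^κ h((x/d)(1+θ)) dθ = (d/x) ∫_{x/d}^{x(1+κ)/d} h(v) dv`.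
Insert this in `rec_H`:
`h(x) log x ≤ (1/(κ x)) ∑_{d ≤ x} Λ(d) ∫_{x/d}^{(1+κ)x/d} h(v) dv
    + ∑_{d ≤ x} (Λ(d)/d) (4κ + 2wd/x) + 2 + log w`.
First sum: all intervals are inside `[1, 2x]`; `v` lies in the interval of `d` iff
`x/v ≤ d ≤ (1+κ)x/v`, so the sum is `∫_1^{2x} h(v) (∑_{d : ...} Λ(d)) dv ≤ ∫_1^{2x} h(v) ψ(2x/v) dv
≤ C x ∫_1^{2x} h(v)/v dv` (`Chebyshev.psi`, `Chebyshev.psi_le_const_mul_self`; write each
`∫_{x/d}^{(1+κ)x/d}` as the integral over `[1,2x]` of an indicator and exchange the FINITE sum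
with the integral).
Second sum: `∑_{d ≤ x} Λ(d)/d ≤ log x + C` (see `sum_Lam_div` in MP_2dba45_nt/Mert.lean or the
proof from `∑_{n≤x} log n = ∑_d Λ(d) ⌊x/d⌋`), `∑_{d ≤ x} Λ(d) = ψ(x) ≤ C x`; so it is at most
`4κ(log x + C) + 2 C w`; `κ ≤ 1 ≤ w`, `log w ≤ w`.
-/

open Finset MeasureTheory Filter Topology
open ArithmeticFunction (vonMangoldt)

namespace Pool.Agent.Work.MP_2d9442_nt

private lemma avg_lam {x : ℝ} (hx : 1 ≤ x) :
    ∑ d ∈ Finset.Icc 1 ⌊x⌋₊, vonMangoldt d / (d : ℝ) ≤ Real.log x + 6 := by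
  have hN : 0 < ⌊x⌋₊ := Nat.floor_pos.2 hx
  have h := (abs_le.1 (Pool.Agent.Work.MP_2dba45_nt.Mert.sum_Lam_div ⌊x⌋₊ hN)).2
  have e : Finset.Icc 1 ⌊x⌋₊ = Finset.Ioc 0 ⌊x⌋₊ := by
    ext n
    simp only [Finset.mem_Icc, Finset.mem_Ioc]
    omega
  have h2 : Real.log (⌊x⌋₊ : ℝ) ≤ Real.log x :=
    Real.log_le_log (by exact_mod_cast hN) (Nat.floor_le (by linarith))
  rw [e]
  linarith

private lemma avg_psi {x : ℝ} (hx : 0 ≤ x) :
    ∑ d ∈ Finset.Icc 1 ⌊x⌋₊, vonMangoldt d ≤ 8 * x := by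
  have e : Finset.Icc 1 ⌊x⌋₊ = Finset.Ioc 0 ⌊x⌋₊ := by
    ext n
    simp only [Finset.mem_Icc, Finset.mem_Ioc]
    omega
  have h := Chebyshev.psi_le_const_mul_self hx
  have hlog4 : Real.log 4 ≤ 2 := by
    have : Real.log 4 = 2 * Real.log 2 := by
      rw [show (4 : ℝ) = 2 ^ 2 by norm_num, Real.log_pow]; norm_num
    rw [this]; linarith [Real.log_two_lt_d9]
  rw [e]
  calc ∑ d ∈ Finset.Ioc 0 ⌊x⌋₊, vonMangoldt d ≤ (Real.log 4 + 4) * x := h
    _ ≤ 8 * x := mul_le_mul_of_nonneg_right (by linarith) hx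

theorem avg : ∃ C : ℝ, 0 < C ∧ ∀ (f : ℕ → ℂ) (c : ℂ) (w x κ : ℝ), CM f → ‖c‖ ≤ 1 → 1 ≤ w →
    2 ≤ x → 0 < κ → κ ≤ 1 →
    ‖H f c w x‖ * Real.log x ≤
      (C / κ) * (∫ v in (1:ℝ)..(2 * x), ‖H f c w v‖ / v) + 4 * κ * Real.log x + C * w := by
  refine ⟨100, by norm_num, ?_⟩
  intro f c w x κ hf hc hw hx hκ hκ1
  have hx0 : 0 < x := by linarith
  have hfle := hf.le
  set h : ℝ → ℝ := fun v => ‖H f c w v‖ with hh
  have hmeas : Measurable h := (measurable_H f c w).norm
  have h0 : ∀ v, 0 ≤ h v := fun v => norm_nonneg _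
  have h2 : ∀ v, h v ≤ 2 := fun v => norm_H_le hfle hc w v
  have hbdd : ∀ v, ‖h v‖ ≤ 2 := fun v => by rw [Real.norm_of_nonneg (h0 v)]; exact h2 v
  have hint : ∀ a b : ℝ, IntervalIntegrable h volume a b := by
    intro a b
    refine (intervalIntegrable_const (c := (2 : ℝ))).mono_fun hmeas.aestronglyMeasurable ?_
    filter_upwards with v
    rw [Real.norm_of_nonneg (by norm_num : (0 : ℝ) ≤ 2)]
    exact hbdd v
  -- averaging over theta
  have hav : ∀ d ∈ Finset.Icc 1 ⌊x⌋₊, h (x / d) ≤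
      (d / (κ * x)) * (∫ v in (x / d)..((1 + κ) * (x / d)), h v) + 4 * κ + 2 * w * d / x := by
    intro d hd
    rw [Finset.mem_Icc] at hd
    have hd0 : (0 : ℝ) < d := by exact_mod_cast hd.1
    have hdx : (d : ℝ) ≤ x := (Nat.le_floor_iff hx0.le).1 hd.2
    have hy1 : 1 ≤ x / d := by rwa [le_div_iff₀ hd0, one_mul]
    set y := x / d with hy
    have hy0 : 0 < y := by linarith
    have hsm : ∀ θ ∈ Set.Icc 0 κ, h y ≤ h (y * θ + y) + (4 * κ + 2 * w / y) := by
      intro θ hθ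
      have := H_smooth hf hc hw hy1 hθ.1 (hθ.2.trans hκ1)
      have e : y * (1 + θ) = y * θ + y := by ring
      rw [e] at this
      simp only [hh]
      linarith [hθ.2]
    have hI1 : IntervalIntegrable (fun θ => h (y * θ + y)) volume 0 κ := by
      refine (intervalIntegrable_const (c := (2 : ℝ))).mono_fun
        (hmeas.comp (by fun_prop)).aestronglyMeasurable ?_
      filter_upwards with v
      rw [Real.norm_of_nonneg (by norm_num : (0 : ℝ) ≤ 2)]
      exact hbdd _
    have hI := intervalIntegral.integral_mono_on hκ.le (intervalIntegrable_const (c := h y))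
      (hI1.add (intervalIntegrable_const (c := 4 * κ + 2 * w / y))) hsm
    rw [intervalIntegral.integral_add hI1 intervalIntegrable_const,
      intervalIntegral.integral_const, intervalIntegral.integral_const,
      intervalIntegral.integral_comp_mul_add _ hy0.ne'] at hI
    simp only [sub_zero, smul_eq_mul, mul_zero, zero_add] at hI
    have e1 : y * κ + y = (1 + κ) * y := by ring
    rw [e1] at hI
    have e2 : h y ≤ (y⁻¹ * ∫ v in y..((1 + κ) * y), h v) / κ + (4 * κ + 2 * w / y) := by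
      rw [← sub_le_iff_le_add, le_div_iff₀ hκ]
      nlinarith
    refine e2.trans (le_of_eq ?_)
    rw [hy]
    field_simp
    ring
  -- the sum of the integrals
  have hsum : ∑ d ∈ Finset.Icc 1 ⌊x⌋₊, vonMangoldt d *
      (∫ v in (x / d)..((1 + κ) * (x / d)), h v) ≤ 16 * x * ∫ v in (1:ℝ)..(2 * x), h v / v := by
    have hIh : IntegrableOn h (Set.Ioc 1 (2 * x)) := by
      have := (hint 1 (2 * x)).1
      exact this
    have e1 : ∀ d ∈ Finset.Icc 1 ⌊x⌋₊, vonMangoldt d *
        (∫ v in (x / d)..((1 + κ) * (x / d)), h v) =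
        ∫ v in Set.Ioc 1 (2 * x), vonMangoldt d *
          (Set.Ioc (x / d) ((1 + κ) * (x / d))).indicator h v := by
      intro d hd
      rw [Finset.mem_Icc] at hd
      have hd0 : (0 : ℝ) < d := by exact_mod_cast hd.1
      have hd1 : (1 : ℝ) ≤ d := by exact_mod_cast hd.1
      have hdx : (d : ℝ) ≤ x := (Nat.le_floor_iff hx0.le).1 hd.2
      have hy1 : 1 ≤ x / d := by rwa [le_div_iff₀ hd0, one_mul]
      have hyx : x / d ≤ x := div_le_self hx0.le hd1
      have hle : x / d ≤ (1 + κ) * (x / d) := le_mul_of_one_le_left (by linarith) (by linarith)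
      rw [integral_const_mul, setIntegral_indicator measurableSet_Ioc,
        intervalIntegral.integral_of_le hle]
      congr 2
      have : Set.Ioc 1 (2 * x) ∩ Set.Ioc (x / d) ((1 + κ) * (x / d)) =
          Set.Ioc (x / d) ((1 + κ) * (x / d)) := by
        rw [Set.inter_eq_right]
        refine Set.Ioc_subset_Ioc hy1 ?_
        nlinarith
      rw [this]
    rw [Finset.sum_congr rfl e1]
    rw [← integral_finset_sum]
    · rw [intervalIntegral.integral_of_le (by linarith), ← integral_const_mul]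
      refine setIntegral_mono_on ?_ ?_ measurableSet_Ioc ?_
      · refine integrable_finset_sum _ fun d _ => ?_
        exact (hIh.indicator measurableSet_Ioc).const_mul _
      · refine Integrable.const_mul ?_ _
        refine Integrable.mono' (g := fun v => h v) hIh ?_ ?_
        · exact (hmeas.div measurable_id).aestronglyMeasurable
        · filter_upwards [ae_restrict_mem measurableSet_Ioc] with v hv
          rw [Real.norm_of_nonneg (div_nonneg (h0 v) (by linarith [hv.1]))]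
          exact div_le_self (h0 v) hv.1.le
      · intro v hv
        have hv0 : 0 < v := by linarith [hv.1]
        have h3 : ∀ d ∈ Finset.Icc 1 ⌊x⌋₊, vonMangoldt d *
            (Set.Ioc (x / d) ((1 + κ) * (x / d))).indicator h v ≤
            if d ∈ Finset.Icc 1 ⌊2 * x / v⌋₊ then vonMangoldt d * h v else 0 := by
          intro d hd
          rw [Finset.mem_Icc] at hd
          have hd0 : (0 : ℝ) < d := by exact_mod_cast hd.1
          by_cases hm : v ∈ Set.Ioc (x / d) ((1 + κ) * (x / d))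
          · rw [Set.indicator_of_mem hm]
            have : d ∈ Finset.Icc 1 ⌊2 * x / v⌋₊ := by
              rw [Finset.mem_Icc]
              refine ⟨hd.1, Nat.le_floor ?_⟩
              rw [le_div_iff₀ hv0]
              have h5 : v ≤ (1 + κ) * (x / d) := hm.2
              have h6 : (d : ℝ) * v ≤ (1 + κ) * x := by
                calc (d : ℝ) * v ≤ d * ((1 + κ) * (x / d)) := mul_le_mul_of_nonneg_left h5 hd0.le
                  _ = (1 + κ) * x := by field_simp
              nlinarith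
            rw [if_pos this]
          · rw [Set.indicator_of_notMem hm, mul_zero]
            split_ifs
            · exact mul_nonneg ArithmeticFunction.vonMangoldt_nonneg (h0 v)
            · exact le_rfl
        calc ∑ d ∈ Finset.Icc 1 ⌊x⌋₊, vonMangoldt d *
              (Set.Ioc (x / d) ((1 + κ) * (x / d))).indicator h v
            ≤ ∑ d ∈ Finset.Icc 1 ⌊x⌋₊,
                if d ∈ Finset.Icc 1 ⌊2 * x / v⌋₊ then vonMangoldt d * h v else 0 :=
              Finset.sum_le_sum h3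
          _ = ∑ d ∈ (Finset.Icc 1 ⌊x⌋₊).filter (fun d => d ∈ Finset.Icc 1 ⌊2 * x / v⌋₊),
                vonMangoldt d * h v := by rw [Finset.sum_filter]
          _ ≤ ∑ d ∈ Finset.Icc 1 ⌊2 * x / v⌋₊, vonMangoldt d * h v := by
              refine Finset.sum_le_sum_of_subset_of_nonneg ?_ ?_
              · intro d hd
                exact (Finset.mem_filter.1 hd).2
              · intro d _ _
                exact mul_nonneg ArithmeticFunction.vonMangoldt_nonneg (h0 v)
          _ = (∑ d ∈ Finset.Icc 1 ⌊2 * x / v⌋₊, vonMangoldt d) * h v := by rw [Finset.sum_mul]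
          _ ≤ (8 * (2 * x / v)) * h v :=
              mul_le_mul_of_nonneg_right (avg_psi (by positivity)) (h0 v)
          _ = 16 * x * (h v / v) := by ring
    · intro d _
      exact (hIh.indicator measurableSet_Ioc).const_mul _
  have hrec := rec_H hf hc hw (x := x) (by linarith)
  have hL6 := avg_lam (x := x) (by linarith)
  have hpsi := avg_psi hx0.le
  have hlw : Real.log w ≤ w := (Real.log_le_sub_one_of_pos (by linarith)).trans (by linarith)
  have hterm : ∑ d ∈ Finset.Icc 1 ⌊x⌋₊, (vonMangoldt d / (d : ℝ)) * ‖H f c w (x / d)‖ ≤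
      ∑ d ∈ Finset.Icc 1 ⌊x⌋₊, ((1 / (κ * x)) * (vonMangoldt d *
        (∫ v in (x / d)..((1 + κ) * (x / d)), h v)) + 4 * κ * (vonMangoldt d / (d : ℝ)) +
        2 * w / x * vonMangoldt d) := by
    refine Finset.sum_le_sum fun d hd => ?_
    have hd1 := (Finset.mem_Icc.1 hd).1
    have hd0 : (0 : ℝ) < d := by exact_mod_cast hd1
    have hL : 0 ≤ vonMangoldt d / (d : ℝ) :=
      div_nonneg ArithmeticFunction.vonMangoldt_nonneg hd0.le
    refine (mul_le_mul_of_nonneg_left (hav d hd) hL).trans (le_of_eq ?_)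
    field_simp
  rw [Finset.sum_add_distrib, Finset.sum_add_distrib, ← Finset.mul_sum, ← Finset.mul_sum,
    ← Finset.mul_sum] at hterm
  set J := ∫ v in (1:ℝ)..(2 * x), h v / v with hJ
  have hJ0 : 0 ≤ J := by
    refine intervalIntegral.integral_nonneg (by linarith) fun v hv => ?_
    exact div_nonneg (h0 v) (by linarith [hv.1])
  have hA : (1 / (κ * x)) * ∑ d ∈ Finset.Icc 1 ⌊x⌋₊, vonMangoldt d *
      (∫ v in (x / d)..((1 + κ) * (x / d)), h v) ≤ 100 / κ * J := by
    calc (1 / (κ * x)) * ∑ d ∈ Finset.Icc 1 ⌊x⌋₊, vonMangoldt d *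
          (∫ v in (x / d)..((1 + κ) * (x / d)), h v) ≤ (1 / (κ * x)) * (16 * x * J) :=
          mul_le_mul_of_nonneg_left hsum (by positivity)
      _ = 16 / κ * J := by field_simp
      _ ≤ 100 / κ * J := by
          refine mul_le_mul_of_nonneg_right ?_ hJ0
          exact div_le_div_of_nonneg_right (by norm_num) hκ.le
  have hB : 4 * κ * ∑ d ∈ Finset.Icc 1 ⌊x⌋₊, vonMangoldt d / (d : ℝ) ≤
      4 * κ * Real.log x + 24 := by
    calc 4 * κ * ∑ d ∈ Finset.Icc 1 ⌊x⌋₊, vonMangoldt d / (d : ℝ) ≤ 4 * κ * (Real.log x + 6) :=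
          mul_le_mul_of_nonneg_left hL6 (by positivity)
      _ ≤ _ := by nlinarith
  have hC : 2 * w / x * ∑ d ∈ Finset.Icc 1 ⌊x⌋₊, vonMangoldt d ≤ 16 * w := by
    calc 2 * w / x * ∑ d ∈ Finset.Icc 1 ⌊x⌋₊, vonMangoldt d ≤ 2 * w / x * (8 * x) :=
          mul_le_mul_of_nonneg_left hpsi (by positivity)
      _ = 16 * w := by field_simp; norm_num
  show ‖H f c w x‖ * Real.log x ≤ 100 / κ * J + 4 * κ * Real.log x + 100 * w
  linarith

end Pool.Agent.Work.MP_2d9442_nt
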