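import Pool.Agent.Work.MP_2d9442_nt.MelF

/-!
# Module Blk: mean square of F'/F with weight |1+s|^{-3/2} (M)

(1) For real `k`: apply `melL2` to `a(n) = Λ(n) f(n) n^{-ik}` (`tws k n`), `‖S a v‖ ≤ ψ(v) ≤ C v`
(Chebyshev: `Chebyshev.psi_le_const_mul_self`), `LSeries a (1 + pt σ τ) = Z f σ (τ + k)` (`Z_shift`):
`∫ ‖Z f σ (τ+k)‖²/‖1+σ+iτ‖² dτ ≤ π C²/σ`.  On `|τ| ≤ 1`, `σ ≤ 1` one has `‖1+σ+iτ‖² ≤ 5`, so
`∫_k^{k+1} ‖Z f σ τ‖² dτ ≤ 5 π C²/σ`.
(2) `‖1+σ+iτ‖ ≥ (1+|τ|)/√2 ≥ (1+|k|)/4` for `τ ∈ [k, k+1]`, so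
`∫_k^{k+1} ‖1+pt σ τ‖^{-3/2} ‖Z‖² dτ ≤ (4/(1+|k|))^{3/2} C'/σ`, summable over `k ∈ ℤ`
(`Real.summable_nat_pow...`).  Sum over all integers `k`: e.g. with `lintegral`s
(`MeasureTheory.lintegral_iUnion` for the disjoint cover `⋃ k, Ioc k (k+1)`, `iUnion_Ioc_intCast`), or
`MeasureTheory.integrableOn_iUnion_of_summable_integral_norm` and
`MeasureTheory.integral_iUnion`/`hasSum_integral_iUnion`.  (`Z f σ ·` is continuous/measurable:
`LSeries` is analytic on the half plane of absolute convergence, or it is a measurable limit.)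
-/

open Finset MeasureTheory Filter Topology
open ArithmeticFunction (vonMangoldt)

namespace Pool.Agent.Work.MP_2d9442_nt

private theorem blk_S {f : ℕ → ℂ} (hf : ∀ n, ‖f n‖ ≤ 1) {v : ℝ} (hv : 0 ≤ v) :
    ‖S (fun n => (vonMangoldt n : ℂ) * f n) v‖ ≤ (Real.log 4 + 4) * v := by
  refine le_trans ?_ (Chebyshev.psi_le_const_mul_self hv)
  unfold S
  rw [Chebyshev.psi_eq_sum_Icc]
  refine (norm_sum_le _ _).trans ?_
  have h1 : ∀ n ∈ Finset.Icc 1 ⌊v⌋₊, ‖(vonMangoldt n : ℂ) * f n‖ ≤ vonMangoldt n := by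
    intro n _
    rw [norm_mul, Complex.norm_real, Real.norm_of_nonneg ArithmeticFunction.vonMangoldt_nonneg]
    exact mul_le_of_le_one_right ArithmeticFunction.vonMangoldt_nonneg (hf n)
  refine (Finset.sum_le_sum h1).trans ?_
  exact Finset.sum_le_sum_of_subset_of_nonneg (Finset.Icc_subset_Icc_left zero_le_one)
    fun n _ _ => ArithmeticFunction.vonMangoldt_nonneg

private theorem blk_mel {f : ℕ → ℂ} (hf : ∀ n, ‖f n‖ ≤ 1) {σ : ℝ} (h0 : 0 < σ) (k : ℝ) :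
    Integrable (fun τ : ℝ => ‖Z f σ (τ + k)‖ ^ 2 / ‖1 + pt σ τ‖ ^ 2) ∧
    ∫ τ : ℝ, ‖Z f σ (τ + k)‖ ^ 2 / ‖1 + pt σ τ‖ ^ 2 ≤ Real.pi * (Real.log 4 + 4) ^ 2 / σ := by
  have hf' : ∀ n, ‖f n * tws k n‖ ≤ 1 := fun n => by
    rw [norm_mul]
    exact mul_le_one₀ (hf n) (norm_nonneg _) (norm_tws_le k n)
  have h4 : 0 ≤ Real.log 4 := Real.log_nonneg (by norm_num)
  have h := melL2 (a := fun n => (vonMangoldt n : ℂ) * (f n * tws k n)) (B := Real.log 4 + 4)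
    (by linarith) (fun v hv => blk_S hf' (by linarith)) h0 (fun τ => summable_Z hf' h0 τ)
  have h1 : ∀ τ : ℝ, LSeries (fun n => (vonMangoldt n : ℂ) * (f n * tws k n)) (1 + pt σ τ) =
      Z f σ (τ + k) := fun τ => Z_shift f σ τ k
  simp only [h1] at h
  exact h

private theorem blk_re {σ : ℝ} (h0 : 0 < σ) (τ : ℝ) : 1 ≤ ‖1 + pt σ τ‖ := by
  have h1 : (1 + pt σ τ).re = 1 + σ := by rw [Complex.add_re, pt_re]; simp
  have h2 := Complex.abs_re_le_norm (1 + pt σ τ)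
  rw [h1, abs_of_pos (by linarith)] at h2
  linarith

private theorem blk_im (σ τ : ℝ) : |τ| ≤ ‖1 + pt σ τ‖ := by
  have h1 : (1 + pt σ τ).im = τ := by rw [Complex.add_im, pt_im]; simp
  have h2 := Complex.abs_im_le_norm (1 + pt σ τ)
  rwa [h1] at h2

private theorem blk_cont (σ : ℝ) : Continuous fun τ : ℝ => ‖1 + pt σ τ‖ := by
  unfold pt
  fun_prop

/-- the bound for one block -/
private theorem blk_one {f : ℕ → ℂ} (hf : ∀ n, ‖f n‖ ≤ 1) {σ : ℝ} (h0 : 0 < σ) (h1 : σ ≤ 1)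
    (k : ℤ) :
    ∫⁻ τ in Set.Ioc (k : ℝ) (k + 1),
        ENNReal.ofReal (‖1 + pt σ τ‖ ^ (-(3/2) : ℝ) * ‖Z f σ τ‖ ^ 2) ≤
      ENNReal.ofReal (((1 + |(k : ℝ)|) / 3) ^ (-(3/2) : ℝ) *
        (5 * (Real.pi * (Real.log 4 + 4) ^ 2 / σ))) := by
  obtain ⟨hint, hle⟩ := blk_mel hf h0 (k : ℝ)
  set c : ℝ := ((1 + |(k : ℝ)|) / 3) ^ (-(3/2) : ℝ) with hc
  have hk0 : 0 < (1 + |(k : ℝ)|) / 3 := by positivity
  have hc0 : 0 ≤ c := Real.rpow_nonneg hk0.le _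
  rw [← lintegral_indicator measurableSet_Ioc, ← lintegral_add_right_eq_self _ (k : ℝ)]
  have hpt : ∀ τ : ℝ, (Set.Ioc (k : ℝ) (k + 1)).indicator (fun τ =>
      ENNReal.ofReal (‖1 + pt σ τ‖ ^ (-(3/2) : ℝ) * ‖Z f σ τ‖ ^ 2)) (τ + k) ≤
      ENNReal.ofReal (c * (5 * (‖Z f σ (τ + k)‖ ^ 2 / ‖1 + pt σ τ‖ ^ 2))) := by
    intro τ
    by_cases hτ : τ + k ∈ Set.Ioc (k : ℝ) (k + 1)
    · rw [Set.indicator_of_mem hτ]
      apply ENNReal.ofReal_le_ofReal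
      have ht0 : 0 < τ := by
        have := hτ.1
        linarith
      have ht1 : τ ≤ 1 := by
        have := hτ.2
        linarith
      have h2 : (1 + |(k : ℝ)|) / 3 ≤ ‖1 + pt σ (τ + k)‖ := by
        have h3 := blk_re h0 (τ + k)
        have h4 := blk_im σ (τ + k)
        have h5 : |(k : ℝ)| ≤ |τ + k| + |τ| := by
          have h6 := abs_sub (τ + k) τ
          rw [add_sub_cancel_left] at h6
          exact h6
        rw [abs_of_pos ht0] at h5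
        linarith
      have h3 : ‖1 + pt σ (τ + k)‖ ^ (-(3/2) : ℝ) ≤ c :=
        Real.rpow_le_rpow_of_nonpos hk0 h2 (by norm_num)
      have h4 : ‖1 + pt σ τ‖ ^ 2 ≤ 5 := by
        rw [← Complex.normSq_eq_norm_sq, Complex.normSq_apply]
        have h5 : (1 + pt σ τ).re = 1 + σ := by rw [Complex.add_re, pt_re]; simp
        have h6 : (1 + pt σ τ).im = τ := by rw [Complex.add_im, pt_im]; simp
        rw [h5, h6]
        nlinarith
      have h5 : 0 < ‖1 + pt σ τ‖ ^ 2 := by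
        have := blk_re h0 τ
        positivity
      have h6 : ‖Z f σ (τ + k)‖ ^ 2 ≤ 5 * (‖Z f σ (τ + k)‖ ^ 2 / ‖1 + pt σ τ‖ ^ 2) := by
        rw [← mul_div_assoc, le_div_iff₀ h5, mul_comm]
        exact mul_le_mul_of_nonneg_right h4 (by positivity)
      exact mul_le_mul h3 h6 (by positivity) hc0
    · rw [Set.indicator_of_notMem hτ]
      exact bot_le
  refine (lintegral_mono hpt).trans ?_
  have hint2 : Integrable (fun τ : ℝ => c * (5 * (‖Z f σ (τ + k)‖ ^ 2 / ‖1 + pt σ τ‖ ^ 2))) :=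
    (hint.const_mul 5).const_mul c
  rw [← ofReal_integral_eq_lintegral_ofReal hint2 (Filter.Eventually.of_forall fun τ => by
    positivity)]
  apply ENNReal.ofReal_le_ofReal
  rw [integral_const_mul, integral_const_mul]
  exact mul_le_mul_of_nonneg_left (mul_le_mul_of_nonneg_left hle (by norm_num)) hc0

private theorem blk_summable : Summable fun k : ℤ => ((1 + |(k : ℝ)|) / 3) ^ (-(3/2) : ℝ) := by
  have h1 : Summable fun n : ℕ => ((1 + |((n : ℤ) : ℝ)|) / 3) ^ (-(3/2) : ℝ) := by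
    have h2 : Summable fun n : ℕ => ((n : ℝ)) ^ (-(3/2) : ℝ) :=
      Real.summable_nat_rpow.2 (by norm_num)
    have h3 := (summable_nat_add_iff 1).2 h2
    have h4 := h3.mul_left ((3 : ℝ)⁻¹ ^ (-(3/2) : ℝ))
    refine h4.congr fun n => ?_
    rw [← Real.mul_rpow (by positivity) (by positivity)]
    congr 1
    have h5 : |((n : ℤ) : ℝ)| = n := by simp
    rw [h5]
    push_cast
    ring
  refine Summable.of_nat_of_neg h1 ?_
  refine h1.congr fun n => ?_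
  congr 2
  simp

theorem blk : ∃ C : ℝ, 0 < C ∧ ∀ (f : ℕ → ℂ), (∀ n, ‖f n‖ ≤ 1) → ∀ σ : ℝ, 0 < σ → σ ≤ 1 →
    Integrable (fun τ : ℝ => ‖1 + pt σ τ‖ ^ (-(3/2) : ℝ) * ‖Z f σ τ‖ ^ 2) ∧
    ∫ τ : ℝ, ‖1 + pt σ τ‖ ^ (-(3/2) : ℝ) * ‖Z f σ τ‖ ^ 2 ≤ C / σ := by
  set A : ℝ := ∑' k : ℤ, ((1 + |(k : ℝ)|) / 3) ^ (-(3/2) : ℝ) with hA
  have hterm : ∀ k : ℤ, 0 ≤ ((1 + |(k : ℝ)|) / 3) ^ (-(3/2) : ℝ) := fun k =>
    Real.rpow_nonneg (by positivity) _
  have hA0 : 0 ≤ A := tsum_nonneg hterm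
  have h4 : 0 ≤ Real.log 4 := Real.log_nonneg (by norm_num)
  refine ⟨A * (5 * (Real.pi * (Real.log 4 + 4) ^ 2)) + 1, by positivity, ?_⟩
  intro f hf σ h0 h1
  set g : ℝ → ℝ := fun τ => ‖1 + pt σ τ‖ ^ (-(3/2) : ℝ) * ‖Z f σ τ‖ ^ 2 with hg
  have hg0 : ∀ τ, 0 ≤ g τ := fun τ => by
    rw [hg]
    positivity
  have hmeas : AEStronglyMeasurable g := by
    have h2 := (blk_mel hf h0 0).1.aestronglyMeasurable
    simp only [add_zero] at h2
    have h3 : Continuous fun τ : ℝ => ‖1 + pt σ τ‖ ^ (-(3/2) : ℝ) * ‖1 + pt σ τ‖ ^ 2 := by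
      refine ((blk_cont σ).rpow_const fun τ => ?_).mul ((blk_cont σ).pow 2)
      left
      have := blk_re h0 τ
      positivity
    have h5 := h3.aestronglyMeasurable.mul h2 (μ := volume)
    refine h5.congr (Filter.Eventually.of_forall fun τ => ?_)
    have h6 : ‖1 + pt σ τ‖ ≠ 0 := by
      have := blk_re h0 τ
      positivity
    change (‖1 + pt σ τ‖ ^ (-(3/2) : ℝ) * ‖1 + pt σ τ‖ ^ 2) *
      (‖Z f σ τ‖ ^ 2 / ‖1 + pt σ τ‖ ^ 2) = ‖1 + pt σ τ‖ ^ (-(3/2) : ℝ) * ‖Z f σ τ‖ ^ 2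
    rw [mul_assoc, mul_div_cancel₀ _ (pow_ne_zero 2 h6)]
  have hl : ∫⁻ τ, ENNReal.ofReal (g τ) ≤
      ENNReal.ofReal (A * (5 * (Real.pi * (Real.log 4 + 4) ^ 2 / σ))) := by
    rw [← setLIntegral_univ, ← iUnion_Ioc_intCast ℝ,
      lintegral_iUnion (fun k => measurableSet_Ioc) (Set.pairwise_disjoint_Ioc_intCast ℝ)]
    refine (ENNReal.tsum_le_tsum fun k => blk_one hf h0 h1 k).trans ?_
    have hs := blk_summable.mul_right (5 * (Real.pi * (Real.log 4 + 4) ^ 2 / σ))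
    rw [← ENNReal.ofReal_tsum_of_nonneg (fun k => mul_nonneg (hterm k) (by positivity)) hs,
      tsum_mul_right]
  have hint : Integrable g := by
    refine ⟨hmeas, ?_⟩
    rw [hasFiniteIntegral_iff_ofReal (Filter.Eventually.of_forall hg0)]
    exact hl.trans_lt ENNReal.ofReal_lt_top
  refine ⟨hint, ?_⟩
  have h5 := ofReal_integral_eq_lintegral_ofReal hint (Filter.Eventually.of_forall hg0)
  rw [← h5, ENNReal.ofReal_le_ofReal_iff (by positivity)] at hl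
  refine hl.trans ?_
  rw [add_div, ← mul_div_assoc, ← mul_div_assoc]
  have : 0 ≤ 1 / σ := by positivity
  linarith

end Pool.Agent.Work.MP_2d9442_nt
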