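import Pool.Agent.Work.MP_2d9442_nt.Defs

open Finset MeasureTheory Filter Topology
open ArithmeticFunction (vonMangoldt)

namespace Pool.Agent.Work.MP_2d9442_nt

private theorem CSI_opt {P I J : ℝ} (hI : 0 ≤ I) (hJ : 0 ≤ J)
    (h : ∀ l : ℝ, 0 < l → 2 * l * P ≤ l ^ 2 * I + J) : P ≤ √(I * J) := by
  by_cases hP : P ≤ 0
  · exact hP.trans (Real.sqrt_nonneg _)
  push Not at hP
  apply Real.le_sqrt_of_sq_le
  rcases hI.eq_or_lt with h0 | h0
  · exfalso
    have := h (J / P + 1) (by positivity)
    rw [← h0] at this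
    have e : 2 * (J / P + 1) * P = 2 * J + 2 * P := by field_simp
    rw [e] at this
    linarith
  · have := h (P / I) (by positivity)
    have e1 : 2 * (P / I) * P = 2 * (P ^ 2 / I) := by ring
    have e2 : (P / I) ^ 2 * I = P ^ 2 / I := by field_simp
    rw [e1, e2] at this
    have h3 : P ^ 2 / I ≤ J := by linarith
    rw [div_le_iff₀ h0] at h3
    linarith

private theorem CSI_bdd {g : ℝ → ℝ} (hg : Measurable g) {a b C : ℝ} (hab : a ≤ b)
    (hC : ∀ v ∈ Set.Ioc a b, |g v| ≤ C) : IntervalIntegrable g volume a b := by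
  rw [intervalIntegrable_iff_integrableOn_Ioc_of_le hab]
  refine Measure.integrableOn_of_bounded (M := C) ?_ hg.aestronglyMeasurable ?_
  · simp
  · rw [ae_restrict_iff' measurableSet_Ioc]
    exact Filter.Eventually.of_forall fun v hv => hC v hv

theorem cs {h : ℝ → ℝ} (hm : Measurable h) (h0 : ∀ v, 0 ≤ h v) (h2 : ∀ v, h v ≤ 2) {x κ : ℝ}
    (hx : 3 ≤ x) (hκ : 0 < κ) (hκ1 : κ ≤ 1) :
    ∫ v in (1:ℝ)..(2 * x), h v / v ≤
      2 * κ * Real.log x +
        √((∫ v in (1:ℝ)..(2 * x), h v ^ 2 * Real.log v ^ 2 / v) / (κ * Real.log x)) := by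
  have hx0 : 0 < x := by linarith
  have hL : 1 < Real.log x := by
    rw [Real.lt_log_iff_exp_lt hx0]
    have := Real.exp_one_lt_d9
    linarith
  set L := Real.log x with hLdef
  set y := x ^ κ with hy
  have hlogy : Real.log y = κ * L := by rw [hy, Real.log_rpow hx0]
  have hy1 : 1 < y := Real.one_lt_rpow (by linarith) hκ
  have hyx : y ≤ x := by
    calc y ≤ x ^ (1:ℝ) := Real.rpow_le_rpow_of_exponent_le (by linarith) hκ1
      _ = x := Real.rpow_one x
  have hy2x : y ≤ 2 * x := by linarith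
  have h12x : (1:ℝ) ≤ 2 * x := by linarith
  -- integrability
  have i1 : ∀ a b : ℝ, 1 ≤ a → a ≤ b → IntervalIntegrable (fun v => h v / v) volume a b := by
    intro a b ha hab
    refine CSI_bdd (g := fun v => h v / v) (hm.div measurable_id) (C := 2) hab fun v hv => ?_
    have hv1 : 1 < v := lt_of_le_of_lt ha hv.1
    show |h v / v| ≤ 2
    rw [abs_of_nonneg (div_nonneg (h0 v) (by linarith)), div_le_iff₀ (by linarith)]
    have := h2 v
    nlinarith
  have i2 : ∀ a b : ℝ, 1 ≤ a → a ≤ b →
      IntervalIntegrable (fun v => h v ^ 2 * Real.log v ^ 2 / v) volume a b := by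
    intro a b ha hab
    refine CSI_bdd (g := fun v => h v ^ 2 * Real.log v ^ 2 / v)
      ((((hm.pow_const 2).mul (Real.measurable_log.pow_const 2))).div measurable_id)
      (C := 4 * Real.log b ^ 2) hab fun v hv => ?_
    have hv1 : 1 < v := lt_of_le_of_lt ha hv.1
    show |h v ^ 2 * Real.log v ^ 2 / v| ≤ 4 * Real.log b ^ 2
    have hlv : 0 ≤ Real.log v := Real.log_nonneg hv1.le
    have hlb : Real.log v ≤ Real.log b := Real.log_le_log (by linarith) hv.2
    rw [abs_of_nonneg (by positivity), div_le_iff₀ (by linarith)]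
    have e1 : h v ^ 2 ≤ 4 := by
      have := h0 v
      have := h2 v
      nlinarith
    calc h v ^ 2 * Real.log v ^ 2 ≤ 4 * Real.log b ^ 2 := by gcongr
      _ = 4 * Real.log b ^ 2 * 1 := (mul_one _).symm
      _ ≤ 4 * Real.log b ^ 2 * v := by gcongr
  -- splitting
  have hsplit : ∫ v in (1:ℝ)..(2 * x), h v / v =
      (∫ v in (1:ℝ)..y, h v / v) + ∫ v in y..(2 * x), h v / v :=
    (intervalIntegral.integral_add_adjacent_intervals (i1 1 y le_rfl hy1.le)
      (i1 y (2 * x) hy1.le hy2x)).symm
  -- first part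
  have hp1 : ∫ v in (1:ℝ)..y, h v / v ≤ 2 * κ * L := by
    have hI : IntervalIntegrable (fun v : ℝ => 2 * v⁻¹) volume 1 y := by
      apply ContinuousOn.intervalIntegrable
      intro v hv
      rw [Set.uIcc_of_le hy1.le] at hv
      have : v ≠ 0 := by linarith [hv.1]
      exact (continuousAt_const.mul (continuousAt_inv₀ this)).continuousWithinAt
    calc ∫ v in (1:ℝ)..y, h v / v ≤ ∫ v in (1:ℝ)..y, 2 * v⁻¹ := by
          refine intervalIntegral.integral_mono_on hy1.le (i1 1 y le_rfl hy1.le) hI fun v hv => ?_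
          rw [div_eq_mul_inv]
          have : 0 ≤ v⁻¹ := by
            have := hv.1
            positivity
          exact mul_le_mul_of_nonneg_right (h2 v) this
      _ = 2 * κ * L := by
          rw [intervalIntegral.integral_const_mul, integral_inv_of_pos one_pos (by linarith),
            div_one, hlogy]
          ring
  -- second part
  set I := ∫ v in (1:ℝ)..(2 * x), h v ^ 2 * Real.log v ^ 2 / v with hI
  have hIy : ∫ v in y..(2 * x), h v ^ 2 * Real.log v ^ 2 / v ≤ I := by
    have e : I = (∫ v in (1:ℝ)..y, h v ^ 2 * Real.log v ^ 2 / v) +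
        ∫ v in y..(2 * x), h v ^ 2 * Real.log v ^ 2 / v :=
      (intervalIntegral.integral_add_adjacent_intervals (i2 1 y le_rfl hy1.le)
      (i2 y (2 * x) hy1.le hy2x)).symm
    have e2 : 0 ≤ ∫ v in (1:ℝ)..y, h v ^ 2 * Real.log v ^ 2 / v := by
      refine intervalIntegral.integral_nonneg hy1.le fun v hv => ?_
      have := hv.1
      positivity
    linarith
  have hI0 : 0 ≤ I := by
    refine intervalIntegral.integral_nonneg h12x fun v hv => ?_
    have := hv.1
    positivity
  -- the integral of 1/(v log^2 v)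
  have hcont : ContinuousOn (fun v : ℝ => (v * Real.log v ^ 2)⁻¹) (Set.uIcc y (2 * x)) := by
    intro v hv
    rw [Set.uIcc_of_le hy2x] at hv
    have hv1 : 1 < v := lt_of_lt_of_le hy1 hv.1
    have hl : Real.log v ≠ 0 := (Real.log_pos hv1).ne'
    have hne : v * Real.log v ^ 2 ≠ 0 := by
      have : v ≠ 0 := by linarith
      positivity
    exact ((continuousAt_id.mul ((Real.continuousAt_log (by linarith)).pow 2)).inv₀
      hne).continuousWithinAt
  have hJ : ∫ v in y..(2 * x), (v * Real.log v ^ 2)⁻¹ ≤ 1 / (κ * L) := by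
    have hder : ∀ v ∈ Set.uIcc y (2 * x),
        HasDerivAt (fun v => -(Real.log v)⁻¹) ((v * Real.log v ^ 2)⁻¹) v := by
      intro v hv
      rw [Set.uIcc_of_le hy2x] at hv
      have hv1 : 1 < v := lt_of_lt_of_le hy1 hv.1
      have hl : Real.log v ≠ 0 := (Real.log_pos hv1).ne'
      have h1 := ((Real.hasDerivAt_log (show v ≠ 0 by linarith)).inv hl).neg
      refine h1.congr_deriv ?_
      have : v ≠ 0 := by linarith
      field_simp
    rw [intervalIntegral.integral_eq_sub_of_hasDerivAt hder hcont.intervalIntegrable, hlogy]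
    have : 0 ≤ (Real.log (2 * x))⁻¹ := inv_nonneg.mpr (Real.log_nonneg h12x)
    rw [one_div]
    linarith
  have hp2 : ∫ v in y..(2 * x), h v / v ≤ √(I * (1 / (κ * L))) := by
    apply CSI_opt hI0 (by positivity)
    intro l hl
    have e1 : 2 * l * ∫ v in y..(2 * x), h v / v = ∫ v in y..(2 * x), 2 * l * (h v / v) := by
      rw [intervalIntegral.integral_const_mul]
    have e2 : ∫ v in y..(2 * x), 2 * l * (h v / v) ≤
        ∫ v in y..(2 * x), (l ^ 2 * (h v ^ 2 * Real.log v ^ 2 / v) + (v * Real.log v ^ 2)⁻¹) := by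
      refine intervalIntegral.integral_mono_on hy2x ((i1 y _ hy1.le hy2x).const_mul _)
        (((i2 y _ hy1.le hy2x).const_mul _).add hcont.intervalIntegrable) fun v hv => ?_
      have hv1 : 1 < v := lt_of_lt_of_le hy1 hv.1
      have hv0 : 0 < v := by linarith
      have hl1 : 0 < Real.log v := Real.log_pos hv1
      have e : l ^ 2 * (h v ^ 2 * Real.log v ^ 2 / v) + (v * Real.log v ^ 2)⁻¹ -
          2 * l * (h v / v) = (l * h v * Real.log v - (Real.log v)⁻¹) ^ 2 / v := by
        field_simp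
        ring
      have : 0 ≤ (l * h v * Real.log v - (Real.log v)⁻¹) ^ 2 / v := by positivity
      linarith
    rw [e1]
    refine e2.trans ?_
    rw [intervalIntegral.integral_add ((i2 y _ hy1.le hy2x).const_mul _) hcont.intervalIntegrable,
      intervalIntegral.integral_const_mul]
    have : l ^ 2 * ∫ v in y..(2 * x), h v ^ 2 * Real.log v ^ 2 / v ≤ l ^ 2 * I := by gcongr
    linarith
  rw [hsplit]
  have e3 : I * (1 / (κ * L)) = I / (κ * L) := by ring
  rw [e3] at hp2
  linarith

end Pool.Agent.Work.MP_2d9442_nt
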