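import Pool.Agent.Work.MP_2d9442_nt.HB

open Finset MeasureTheory Filter Topology
open ArithmeticFunction (vonMangoldt)

namespace Pool.Agent.Work.MP_2d9442_nt

private theorem Tst_tws (t : ℝ) {n : ℕ} (hn : 1 ≤ n) :
    tws t n = Complex.exp ((-(t * Real.log n) : ℝ) * Complex.I) := by
  have hn0 : (n:ℂ) ≠ 0 := by
    have : n ≠ 0 := by omega
    exact_mod_cast this
  unfold tws
  rw [Complex.cpow_def_of_ne_zero hn0, ← Complex.natCast_log]
  congr 1
  push_cast
  ring

private theorem Tst_ee (x : ℝ) : ee x = Complex.exp ((2 * Real.pi * x : ℝ) * Complex.I) := by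
  unfold ee
  congr 1
  push_cast
  ring

private theorem Tst_norm (y : ℝ) : ‖Complex.exp ((y : ℝ) * Complex.I)‖ = 1 :=
  Complex.norm_exp_ofReal_mul_I y

private theorem Tst_one_sub (y : ℝ) : ‖1 - Complex.exp ((y : ℝ) * Complex.I)‖ ≤ |y| := by
  rw [norm_sub_rev]
  have := Real.norm_exp_I_mul_ofReal_sub_one_le (x := y)
  rw [mul_comm, Real.norm_eq_abs] at this
  exact this

theorem tst1 (t θ : ℝ) {n : ℕ} (hn : 1 ≤ n) :
    ‖(tws t n * ee (-(n * θ)) - tws t (n + 1) * ee (-((n + 1 : ℕ) * θ))) -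
      (1 - ee (-θ)) * (tws t n * ee (-(n * θ)))‖ ≤ |t| / n := by
  have hn0 : (0:ℝ) < n := by exact_mod_cast hn
  have e1 : ee (-θ) * ee (-(n * θ)) = ee (-((n + 1 : ℕ) * θ)) := by
    rw [Tst_ee, Tst_ee, Tst_ee, ← Complex.exp_add]
    congr 1
    push_cast
    ring
  have e2 : (tws t n * ee (-(n * θ)) - tws t (n + 1) * ee (-((n + 1 : ℕ) * θ))) -
      (1 - ee (-θ)) * (tws t n * ee (-(n * θ))) =
      ee (-((n + 1 : ℕ) * θ)) * (tws t n - tws t (n + 1)) := by
    rw [← e1]; ring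
  have e3 : tws t n - tws t (n + 1) = tws t n *
      (1 - Complex.exp ((-(t * Real.log (1 + 1 / n)) : ℝ) * Complex.I)) := by
    rw [mul_sub, mul_one, Tst_tws t hn, Tst_tws t (by omega : 1 ≤ n + 1), ← Complex.exp_add]
    congr 2
    rw [← add_mul, ← Complex.ofReal_add]
    congr 2
    have : Real.log ((n + 1 : ℕ) : ℝ) = Real.log n + Real.log (1 + 1 / n) := by
      rw [← Real.log_mul (by positivity) (by positivity)]
      congr 1
      push_cast
      field_simp
    rw [this]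
    ring
  rw [e2, norm_mul, Tst_ee, Tst_norm, one_mul, e3, norm_mul, norm_tws t hn, one_mul]
  refine (Tst_one_sub _).trans ?_
  rw [abs_neg, abs_mul]
  have h1 : 0 ≤ Real.log (1 + 1 / (n:ℝ)) := Real.log_nonneg (by
    have : 0 ≤ 1 / (n:ℝ) := by positivity
    linarith)
  have h2 : Real.log (1 + 1 / (n:ℝ)) ≤ 1 / n := by
    have := Real.log_le_sub_one_of_pos (x := 1 + 1 / (n:ℝ)) (by positivity)
    linarith
  rw [abs_of_nonneg h1]
  calc |t| * Real.log (1 + 1 / (n:ℝ)) ≤ |t| * (1 / n) := by gcongr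
    _ = |t| / n := by ring

theorem tst2 (t θ : ℝ) {n : ℕ} (hn : 1 ≤ n) (k : ℤ) :
    ‖tws t n * ee (-(n * θ)) - tws t (n + 1) * ee (-((n + 1 : ℕ) * θ))‖ ≤
      |2 * Real.pi * θ + t * Real.log (1 + 1 / n) - 2 * Real.pi * k| := by
  have hn0 : (0:ℝ) < n := by exact_mod_cast hn
  have hlog : Real.log ((n + 1 : ℕ) : ℝ) = Real.log n + Real.log (1 + 1 / n) := by
    rw [← Real.log_mul (by positivity) (by positivity)]
    congr 1
    push_cast
    field_simp
  have e1 : tws t (n + 1) * ee (-((n + 1 : ℕ) * θ)) = (tws t n * ee (-(n * θ))) *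
      Complex.exp ((-(2 * Real.pi * θ + t * Real.log (1 + 1 / n) - 2 * Real.pi * k) : ℝ) *
        Complex.I) := by
    have e2 : Complex.exp ((-(2 * Real.pi * θ + t * Real.log (1 + 1 / n) - 2 * Real.pi * k) : ℝ) *
        Complex.I) = Complex.exp ((-(2 * Real.pi * θ + t * Real.log (1 + 1 / n)) : ℝ) *
        Complex.I) := by
      rw [← Complex.exp_periodic.int_mul k
        ((-(2 * Real.pi * θ + t * Real.log (1 + 1 / n)) : ℝ) * Complex.I)]
      congr 1
      push_cast
      ring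
    rw [e2, Tst_tws t hn, Tst_tws t (by omega : 1 ≤ n + 1), Tst_ee, Tst_ee, ← Complex.exp_add,
      ← Complex.exp_add, ← Complex.exp_add]
    congr 1
    rw [← add_mul, ← add_mul, ← add_mul, ← Complex.ofReal_add, ← Complex.ofReal_add,
      ← Complex.ofReal_add]
    congr 2
    rw [hlog]
    push_cast
    ring
  have e3 : ‖tws t n * ee (-(n * θ))‖ = 1 := by
    rw [norm_mul, norm_tws t hn, Tst_ee, Tst_norm, one_mul]
  rw [e1]
  calc ‖tws t n * ee (-(n * θ)) - (tws t n * ee (-(n * θ))) *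
      Complex.exp ((-(2 * Real.pi * θ + t * Real.log (1 + 1 / n) - 2 * Real.pi * k) : ℝ) *
        Complex.I)‖ = ‖(tws t n * ee (-(n * θ))) * (1 -
      Complex.exp ((-(2 * Real.pi * θ + t * Real.log (1 + 1 / n) - 2 * Real.pi * k) : ℝ) *
        Complex.I))‖ := by congr 1; ring
    _ ≤ _ := by
      rw [norm_mul, e3, one_mul]
      refine (Tst_one_sub _).trans ?_
      rw [abs_neg]

end Pool.Agent.Work.MP_2d9442_nt
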