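import Pool.Agent.Work.MP_2d9442_nt.LevMain
import Pool.Agent.Work.MP_2d9442_nt.Bes
import Pool.Agent.Work.MP_2d9442_nt.Tst
import Pool.Agent.Work.MP_2d9442_nt.SumP

/-!
# Module CaseA: lacunary frequencies, |t| ≤ N/(log N)^{1/200} (M/L)

`z n = u n * tws (-t) n` (so `z n * tws t n = u n`), `L = log N`, `M = ⌊(δ/8) N⌋`, a prime
`p ∣ q` (`q ≥ 2`), `J + 1` levels: `J = ⌊(1/400) log L / log p⌋`, `w_j = p^j ≤ L^{1/400}`, `0 ≤ j ≤ J`,
`θ_j = 1/(q w_j)`, `b n = tws t n * ee(-(n θ_j))`.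
If `AN z N ≥ log log N` we are done.  Otherwise:
* `sN`: `‖ps z N‖, ‖ps z M‖ ≤ (8 N log log N)^{1/3} ≤ N^{1/2}`;
* `abel`: `∑_{(M,N]} u_n e(-nθ_j) = ∑_{(M,N]} z_n b_n = ∑ ps z n (b n - b (n+1)) + boundary`;
* `tst1`: `∑ ps z n (b n - b(n+1)) = (1 - e(-θ_j)) ∑ ps z n b n + R`,
  `‖R‖ ≤ (|t|/M) ∑_{n ≤ N} ‖ps z n‖ ≤ (|t|/M) (N · N AN)^{1/2} = (|t| N/M) AN^{1/2} ≤
  C L^{-1/200} N (log log N)^{1/2}` (Cauchy-Schwarz), and `w_j ≤ L^{1/400}`, so `‖R‖ ≤ (c/4) N/w_j`;
* `levMain`: the left-hand side is at least `c N/w_j`; `‖1 - e(-θ_j)‖ ≤ 2π θ_j = 2π/(q w_j)`.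
Hence `‖∑_{(M,N]} ps z n b n‖ ≥ c₁ N` with `c₁ = c q/(4π)` for all `j ≤ J`.
`bes` with `g n = tws t n`, `s = ps z`, `geo`: for `i < j`, `θ_i - θ_j ≥ 1/(2 q w_J)`, `≤ 1/2`, so
`B = q w_J`, `(J+1) B ≤ N`: `(J+1) c₁² N² ≤ 2N · N AN z N`.  So `AN z N ≥ c₁² (J+1)/2 ≥ c₂ log log N`.
-/

open Finset MeasureTheory Filter Topology
open ArithmeticFunction (vonMangoldt)

namespace Pool.Agent.Work.MP_2d9442_nt

private theorem caseA_log (K : ℝ) : ∃ N0 : ℕ, ∀ N : ℕ, N0 ≤ N → K * Real.log N ≤ √(N : ℝ) := by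
  have h := (isLittleO_log_rpow_atTop (show (0 : ℝ) < 1 / 2 by norm_num)).tendsto_div_nhds_zero
  have h1 := (h.comp tendsto_natCast_atTop_atTop).const_mul K
  simp only [mul_zero] at h1
  obtain ⟨N0, hN0⟩ := Filter.eventually_atTop.1 (h1.eventually (gt_mem_nhds one_pos))
  refine ⟨max N0 1, fun N hN => ?_⟩
  have h2 := (hN0 N ((le_max_left _ _).trans hN)).le
  have hN1 : (0 : ℝ) < N := by exact_mod_cast (le_max_right N0 1).trans hN
  simp only [Function.comp] at h2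
  have h3 : 0 < (N : ℝ) ^ (1 / 2 : ℝ) := by positivity
  rw [← mul_div_assoc, div_le_one h3] at h2
  rw [Real.sqrt_eq_rpow]
  exact h2

private theorem caseA_loglog (K r : ℝ) (hr : 0 < r) : ∃ N0 : ℕ, ∀ N : ℕ, N0 ≤ N →
    K * Real.log (Real.log N) ≤ Real.log N ^ r := by
  have h := (isLittleO_log_rpow_atTop hr).tendsto_div_nhds_zero
  have hl : Tendsto (fun N : ℕ => Real.log (N : ℝ)) atTop atTop :=
    Real.tendsto_log_atTop.comp tendsto_natCast_atTop_atTop
  have h1 := (h.comp hl).const_mul K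
  simp only [mul_zero] at h1
  obtain ⟨N0, hN0⟩ := Filter.eventually_atTop.1
    ((h1.eventually (gt_mem_nhds one_pos)).and (hl.eventually (eventually_ge_atTop 1)))
  refine ⟨N0, fun N hN => ?_⟩
  obtain ⟨h2, h3⟩ := hN0 N hN
  simp only [Function.comp] at h2
  have h4 : 0 < Real.log N ^ r := by positivity
  rw [← mul_div_assoc] at h2
  exact (div_le_one h4).1 h2.le

private theorem caseA_big (K : ℝ) : ∃ N0 : ℕ, ∀ N : ℕ, N0 ≤ N → K ≤ Real.log N :=
  Filter.eventually_atTop.1 ((Real.tendsto_log_atTop.comp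
    tendsto_natCast_atTop_atTop).eventually (eventually_ge_atTop K))

private theorem caseA_tws (t : ℝ) {n : ℕ} (hn : 1 ≤ n) : tws (-t) n * tws t n = 1 := by
  have hn0 : (n : ℂ) ≠ 0 := by
    have : n ≠ 0 := by omega
    exact_mod_cast this
  unfold tws
  rw [← Complex.cpow_add _ _ hn0]
  simp

private theorem caseA_z {u : ℕ → ℂ} (hu : UM u) (t : ℝ) (n : ℕ) : ‖u n * tws (-t) n‖ ≤ 1 := by
  rcases Nat.eq_zero_or_pos n with h | h
  · rw [h, hu.cm.zero]
    simp
  · rw [norm_mul, norm_tws (-t) h, mul_one]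
    exact hu.cm.le n

private theorem caseA_SS {z : ℕ → ℂ} {N : ℕ} (hN : 1 ≤ N) :
    ∑ n ∈ Finset.Icc 1 N, ‖ps z n‖ ^ 2 = N * AN z N := by
  have : (N : ℝ) ≠ 0 := by
    have : N ≠ 0 := by omega
    exact_mod_cast this
  unfold AN
  field_simp

private theorem caseA_ps {z : ℕ → ℂ} (hz : ∀ n, ‖z n‖ ≤ 1) {M N : ℕ} (hMN : M ≤ N) (hN : 1 ≤ N)
    {Λ : ℝ} (hA : AN z N ≤ Λ) (hΛ : 8 * Λ ≤ √(N : ℝ)) : ‖ps z M‖ ≤ √(N : ℝ) := by
  have h1 := sN hz hMN
  rw [caseA_SS hN] at h1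
  have h2 : ‖ps z M‖ ^ 3 ≤ √(N : ℝ) ^ 3 := by
    have hs : √(N : ℝ) ^ 2 = N := Real.sq_sqrt (Nat.cast_nonneg N)
    calc ‖ps z M‖ ^ 3 ≤ 8 * (N * AN z N) := h1
      _ ≤ 8 * (N * Λ) := by gcongr
      _ = N * (8 * Λ) := by ring
      _ ≤ N * √(N : ℝ) := by gcongr
      _ = √(N : ℝ) ^ 3 := by
          have h3 : √(N : ℝ) ^ 3 = √(N : ℝ) ^ 2 * √(N : ℝ) := by ring
          rw [h3, hs]
  exact le_of_pow_le_pow_left₀ (by norm_num) (Real.sqrt_nonneg _) h2

private theorem caseA_CS {z : ℕ → ℂ} {M K N : ℕ} (hKN : K ≤ N) :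
    (∑ n ∈ Finset.Ioc M K, ‖ps z n‖) ^ 2 ≤
      ((K - M : ℕ) : ℝ) * ∑ n ∈ Finset.Icc 1 N, ‖ps z n‖ ^ 2 := by
  have h1 := sq_sum_le_card_mul_sum_sq (s := Finset.Ioc M K) (f := fun n => ‖ps z n‖)
  rw [Nat.card_Ioc] at h1
  refine h1.trans ?_
  refine mul_le_mul_of_nonneg_left ?_ (Nat.cast_nonneg _)
  refine Finset.sum_le_sum_of_subset_of_nonneg ?_ fun _ _ _ => by positivity
  intro n hn
  rw [Finset.mem_Ioc] at hn
  rw [Finset.mem_Icc]
  omega

private theorem caseA_ee (x : ℝ) : ‖ee x‖ = 1 := by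
  have h2 : ee x = Complex.exp (((2 * Real.pi * x : ℝ) : ℂ) * Complex.I) := by
    unfold ee
    congr 1
    push_cast
    ring
  rw [h2, Complex.norm_exp_ofReal_mul_I]

private theorem caseA_one_sub (x : ℝ) : ‖1 - ee x‖ ≤ 2 * Real.pi * |x| := by
  have h2 : ee x = Complex.exp (Complex.I * ((2 * Real.pi * x : ℝ) : ℂ)) := by
    unfold ee
    congr 1
    push_cast
    ring
  rw [h2, norm_sub_rev]
  have := Real.norm_exp_I_mul_ofReal_sub_one_le (x := 2 * Real.pi * x)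
  rw [Real.norm_eq_abs, abs_mul, abs_of_pos Real.two_pi_pos] at this
  exact this

theorem caseA {q : ℕ} (hq : 2 ≤ q) (χ : DirichletCharacter ℂ q) (hχ : χ.IsPrimitive) {δ : ℝ}
    (hδ : 0 < δ) (hδ1 : δ ≤ 1) : ∃ c : ℝ, 0 < c ∧ ∃ N0 : ℕ, ∀ N : ℕ, N0 ≤ N → ∀ (u : ℕ → ℂ) (t : ℝ),
    UM u → |t| ≤ N / Real.log N ^ (1 / 200 : ℝ) → δ * N ≤ ‖S (tw u χ) N‖ →
    c * Real.log (Real.log N) ≤ AN (fun n => u n * tws (-t) n) N := by
  set p : ℕ := q.minFac with hp
  have hpp : p.Prime := Nat.minFac_prime (by omega)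
  obtain ⟨c, hc, N1, hlev⟩ := levMain (by omega : 1 ≤ q) hpp (Nat.minFac_dvd q) χ hχ hδ
  have hq0 : (0 : ℝ) < q := by
    have : 0 < q := by omega
    exact_mod_cast this
  have hq2 : (2 : ℝ) ≤ q := by exact_mod_cast hq
  have hp2 : (2 : ℝ) ≤ p := by exact_mod_cast hpp.two_le
  have hlp : 0 < Real.log p := Real.log_pos (by linarith)
  have hlp2 : Real.log 2 ≤ Real.log p := Real.log_le_log (by norm_num) hp2
  set c₁ : ℝ := c * q / (4 * Real.pi) with hc₁
  have hc₁0 : 0 < c₁ := by positivity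
  obtain ⟨Na, ha⟩ := caseA_log (max 8 (max (8 / c) (2 * q)))
  obtain ⟨Nb, hb⟩ := caseA_loglog (32 / (δ * c)) (1 / 400) (by norm_num)
  obtain ⟨Nc, hcb⟩ := caseA_big 3
  refine ⟨min 1 (c₁ ^ 2 / (800 * Real.log p)), lt_min one_pos (by positivity),
    max (max N1 Na) (max (max Nb Nc) 1), ?_⟩
  intro N hN u t hu ht hS
  have hN1 : N1 ≤ N := ((le_max_left _ _).trans (le_max_left _ _)).trans hN
  have hN2 : Na ≤ N := ((le_max_right _ _).trans (le_max_left _ _)).trans hN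
  have hN3 : Nb ≤ N := (((le_max_left _ _).trans (le_max_left _ _)).trans (le_max_right _ _)).trans hN
  have hN4 : Nc ≤ N := (((le_max_right _ _).trans (le_max_left _ _)).trans (le_max_right _ _)).trans hN
  have hN5 : 1 ≤ N := ((le_max_right _ _).trans (le_max_right _ _)).trans hN
  have hNpos : (0 : ℝ) < N := by exact_mod_cast hN5
  have ka := ha N hN2
  have kb := hb N hN3
  have kc := hcb N hN4
  set L : ℝ := Real.log N with hL
  have hL0 : 0 < L := by linarith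
  have hll : 1 ≤ Real.log L := by
    rw [Real.le_log_iff_exp_le hL0]
    have := Real.exp_one_lt_d9
    linarith
  have hllL : Real.log L ≤ L := (Real.log_le_sub_one_of_pos hL0).trans (by linarith)
  set z : ℕ → ℂ := fun n => u n * tws (-t) n with hz
  have hz1 : ∀ n, ‖z n‖ ≤ 1 := caseA_z hu t
  rcases le_or_gt (Real.log L) (AN z N) with hA | hA
  · calc min 1 (c₁ ^ 2 / (800 * Real.log p)) * Real.log L ≤ 1 * Real.log L :=
        mul_le_mul_of_nonneg_right (min_le_left _ _) (by linarith)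
      _ ≤ AN z N := by linarith
  have hsN0 : 0 < √(N : ℝ) := Real.sqrt_pos.2 hNpos
  have hss : √(N : ℝ) * √(N : ℝ) = N := Real.mul_self_sqrt hNpos.le
  have ka1 : 8 * L ≤ √(N : ℝ) := (mul_le_mul_of_nonneg_right (le_max_left _ _) hL0.le).trans ka
  have ka2 : 8 / c * L ≤ √(N : ℝ) := (mul_le_mul_of_nonneg_right
    ((le_max_left _ _).trans (le_max_right _ _)) hL0.le).trans ka
  have ka3 : 2 * q * L ≤ √(N : ℝ) := (mul_le_mul_of_nonneg_right
    ((le_max_right _ _).trans (le_max_right _ _)) hL0.le).trans ka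
  set r : ℝ := L ^ (1 / 400 : ℝ) with hr
  have hr0 : 0 < r := by positivity
  have hrL : r ≤ L := by
    calc r ≤ L ^ (1 : ℝ) := Real.rpow_le_rpow_of_exponent_le (by linarith) (by norm_num)
      _ = L := Real.rpow_one L
  have hr1 : 1 ≤ r := Real.one_le_rpow (by linarith) (by norm_num)
  set M : ℕ := ⌊δ / 8 * N⌋₊ with hM
  have hMlt : δ / 8 * N < M + 1 := Nat.lt_floor_add_one _
  have hMN : M ≤ N := by
    have h1 : (M : ℝ) ≤ δ / 8 * N := Nat.floor_le (by positivity)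
    have h2 : (M : ℝ) ≤ N := by nlinarith
    exact_mod_cast h2
  have hps : ∀ K ≤ N, ‖ps z K‖ ≤ √(N : ℝ) := fun K hK =>
    caseA_ps hz1 hK hN5 hA.le (by linarith)
  have hSSle : ∑ n ∈ Finset.Icc 1 N, ‖ps z n‖ ^ 2 ≤ N * Real.log L := by
    rw [caseA_SS hN5]
    exact mul_le_mul_of_nonneg_left hA.le hNpos.le
  -- number of levels
  set J : ℕ := ⌊(1 / 400 : ℝ) * Real.log L / Real.log p⌋₊ with hJ
  have hJ1 : (J : ℝ) ≤ (1 / 400 : ℝ) * Real.log L / Real.log p := Nat.floor_le (by positivity)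
  have hJ2 : (1 / 400 : ℝ) * Real.log L / Real.log p < J + 1 := Nat.lt_floor_add_one _
  have hpJ : ∀ j ≤ J, (p : ℝ) ^ j ≤ r := by
    intro j hj
    have h1 : (p : ℝ) ^ j ≤ (p : ℝ) ^ J := pow_le_pow_right₀ (by linarith) hj
    refine h1.trans ?_
    rw [hr, ← Real.rpow_natCast, Real.rpow_def_of_pos (by linarith), Real.rpow_def_of_pos hL0]
    apply Real.exp_le_exp.2
    rw [le_div_iff₀ hlp] at hJ1
    linarith
  have hJL : (J : ℝ) + 1 ≤ 2 * L := by
    have h1 : (1 / 400 : ℝ) * Real.log L / Real.log p ≤ L := by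
      rw [div_le_iff₀ hlp]
      have h2 : (1 / 2 : ℝ) ≤ Real.log 2 := by
        have := Real.log_two_gt_d9
        linarith
      nlinarith
    linarith
  -- the lower bound for one level
  have hlow : ∀ j ≤ J, c₁ * N ≤ ‖∑ n ∈ Finset.Ioc M N, ps z n *
      (tws t n * ee (-(n * (1 / (q * (p : ℝ) ^ j)))))‖ := by
    intro j hj
    set w : ℝ := (p : ℝ) ^ j with hw
    have hw0 : 0 < w := by positivity
    have hwr : w ≤ r := hpJ j hj
    set θ : ℝ := 1 / (q * w) with hθ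
    have hθ0 : 0 < θ := by positivity
    set b : ℕ → ℂ := fun n => tws t n * ee (-(n * θ)) with hb
    have hlv := hlev N hN1 u hu hS j (by push_cast; exact hwr)
    have e1 : ∑ n ∈ Finset.Ioc M N, u n * ee (-(n : ℝ) / (q * p ^ j : ℕ)) =
        ∑ n ∈ Finset.Ioc M N, z n * b n := by
      refine Finset.sum_congr rfl fun n hn => ?_
      have hn1 : 1 ≤ n := by
        have := (Finset.mem_Ioc.1 hn).1
        omega
      have e2 : -(n : ℝ) / (q * p ^ j : ℕ) = -(n * θ) := by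
        rw [hθ, hw]
        push_cast
        ring
      rw [e2, hz, hb]
      calc u n * ee (-(n * θ)) = u n * (tws (-t) n * tws t n) * ee (-(n * θ)) := by
            rw [caseA_tws t hn1, mul_one]
        _ = _ := by ring
    rw [e1, abel z b hMN] at hlv
    have e3 : ((p ^ j : ℕ) : ℝ) = w := by rw [hw]; push_cast; rfl
    rw [e3] at hlv
    have hbn : ∀ n, 1 ≤ n → ‖b n‖ = 1 := by
      intro n hn
      rw [hb]
      simp only
      rw [norm_mul, norm_tws t hn, caseA_ee, one_mul]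
    -- the remainder
    have hR : ‖∑ n ∈ Finset.Ioc M N, ps z n * (b n - b (n + 1)) -
        (1 - ee (-θ)) * ∑ n ∈ Finset.Ioc M N, ps z n * b n‖ ≤ c / 4 * (N / w) := by
      have h1 : ∑ n ∈ Finset.Ioc M N, ps z n * (b n - b (n + 1)) -
          (1 - ee (-θ)) * ∑ n ∈ Finset.Ioc M N, ps z n * b n =
          ∑ n ∈ Finset.Ioc M N, ps z n * ((b n - b (n + 1)) - (1 - ee (-θ)) * b n) := by
        rw [Finset.mul_sum, ← Finset.sum_sub_distrib]
        exact Finset.sum_congr rfl fun n _ => by ring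
      rw [h1]
      have h2 : ‖∑ n ∈ Finset.Ioc M N, ps z n * ((b n - b (n + 1)) - (1 - ee (-θ)) * b n)‖ ≤
          ∑ n ∈ Finset.Ioc M N, ‖ps z n‖ * (8 * |t| / (δ * N)) := by
        refine norm_sum_le_of_le _ fun n hn => ?_
        have hn0 := (Finset.mem_Ioc.1 hn).1
        rw [norm_mul]
        refine mul_le_mul_of_nonneg_left ?_ (norm_nonneg _)
        refine (tst1 t θ (by omega : 1 ≤ n)).trans ?_
        have hn2 : δ * N / 8 ≤ n := by
          have : (M : ℝ) + 1 ≤ n := by exact_mod_cast hn0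
          linarith
        have hδN : 0 < δ * N / 8 := by positivity
        calc |t| / n ≤ |t| / (δ * N / 8) := div_le_div_of_nonneg_left (abs_nonneg t) hδN hn2
          _ = 8 * |t| / (δ * N) := by field_simp
      refine h2.trans ?_
      rw [← Finset.sum_mul]
      have h3 : (∑ n ∈ Finset.Ioc M N, ‖ps z n‖) ^ 2 ≤ ((N : ℝ) * Real.log L) ^ 2 := by
        refine (caseA_CS (z := z) (le_refl N)).trans ?_
        have h4 : ((N - M : ℕ) : ℝ) ≤ N := by exact_mod_cast Nat.sub_le N M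
        calc ((N - M : ℕ) : ℝ) * ∑ n ∈ Finset.Icc 1 N, ‖ps z n‖ ^ 2 ≤ N * (N * Real.log L) := by
              gcongr
          _ = (N : ℝ) ^ 2 * (Real.log L * 1) := by ring
          _ ≤ (N : ℝ) ^ 2 * (Real.log L * Real.log L) := by gcongr
          _ = ((N : ℝ) * Real.log L) ^ 2 := by ring
      have h5 : ∑ n ∈ Finset.Ioc M N, ‖ps z n‖ ≤ N * Real.log L :=
        le_of_pow_le_pow_left₀ (by norm_num) (by positivity) h3
      have h6 : 8 * |t| / (δ * N) ≤ 8 / δ * L ^ (-(1 / 200) : ℝ) := by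
        rw [div_le_iff₀ (by positivity)]
        rw [Real.rpow_neg hL0.le]
        calc 8 * |t| ≤ 8 * (N / L ^ (1 / 200 : ℝ)) := by gcongr
          _ = 8 / δ * (L ^ (1 / 200 : ℝ))⁻¹ * (δ * N) := by field_simp
      have h7 : L ^ (-(1 / 200) : ℝ) = r⁻¹ * r⁻¹ := by
        rw [hr, ← mul_inv, ← Real.rpow_add hL0, Real.rpow_neg hL0.le]
        norm_num
      calc (∑ n ∈ Finset.Ioc M N, ‖ps z n‖) * (8 * |t| / (δ * N))
          ≤ (N * Real.log L) * (8 / δ * L ^ (-(1 / 200) : ℝ)) := by gcongr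
        _ = N * (8 / δ * Real.log L) * (r⁻¹ * r⁻¹) := by rw [h7]; ring
        _ ≤ N * (c / 4 * r) * (r⁻¹ * r⁻¹) := by
            have h8 : 8 / δ * Real.log L ≤ c / 4 * r := by
              have h9 : 8 / δ * Real.log L = c / 4 * (32 / (δ * c) * Real.log L) := by
                field_simp
                ring
              rw [h9]
              exact mul_le_mul_of_nonneg_left kb (by positivity)
            gcongr
        _ = c / 4 * (N / r) := by field_simp
        _ ≤ c / 4 * (N / w) := by gcongr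
    -- boundary terms
    have hbd : ‖ps z N * b (N + 1) - ps z M * b (M + 1)‖ ≤ c / 4 * (N / w) := by
      refine (norm_sub_le _ _).trans ?_
      rw [norm_mul (ps z N), norm_mul (ps z M), hbn (N + 1) (by omega), hbn (M + 1) (by omega),
        mul_one, mul_one]
      have h1 := hps N le_rfl
      have h2 := hps M hMN
      have h3 : 2 * √(N : ℝ) ≤ c / 4 * (N / w) := by
        rw [← mul_div_assoc, le_div_iff₀ hw0]
        have h4 : 8 / c * w ≤ √(N : ℝ) :=
          (mul_le_mul_of_nonneg_left (hwr.trans hrL) (by positivity)).trans ka2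
        rw [div_mul_eq_mul_div, div_le_iff₀ hc] at h4
        calc 2 * √(N : ℝ) * w = √(N : ℝ) * (8 * w) / 4 := by ring
          _ ≤ √(N : ℝ) * (√(N : ℝ) * c) / 4 := by gcongr
          _ = c / 4 * (√(N : ℝ) * √(N : ℝ)) := by ring
          _ = c / 4 * N := by rw [hss]
      linarith
    have hmain : c * N / w ≤ ‖1 - ee (-θ)‖ * ‖∑ n ∈ Finset.Ioc M N, ps z n * b n‖ +
        c / 4 * (N / w) + c / 4 * (N / w) := by
      have h1 : ∑ n ∈ Finset.Ioc M N, ps z n * (b n - b (n + 1)) + ps z N * b (N + 1) -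
          ps z M * b (M + 1) = (1 - ee (-θ)) * ∑ n ∈ Finset.Ioc M N, ps z n * b n +
          (∑ n ∈ Finset.Ioc M N, ps z n * (b n - b (n + 1)) -
            (1 - ee (-θ)) * ∑ n ∈ Finset.Ioc M N, ps z n * b n) +
          (ps z N * b (N + 1) - ps z M * b (M + 1)) := by ring
      rw [h1] at hlv
      refine hlv.trans ?_
      refine (norm_add_le _ _).trans (add_le_add ?_ hbd)
      refine (norm_add_le _ _).trans (add_le_add ?_ hR)
      rw [norm_mul]
    have hone : ‖1 - ee (-θ)‖ ≤ 2 * Real.pi * θ := by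
      have := caseA_one_sub (-θ)
      rwa [abs_neg, abs_of_pos hθ0] at this
    set X : ℝ := ‖∑ n ∈ Finset.Ioc M N, ps z n * b n‖ with hX
    have hX0 : 0 ≤ X := norm_nonneg _
    have h1 : c / 2 * (N / w) ≤ 2 * Real.pi * θ * X := by
      have h2 : c * N / w = c / 2 * (N / w) + c / 4 * (N / w) + c / 4 * (N / w) := by ring
      have h3 := mul_le_mul_of_nonneg_right hone hX0
      linarith
    have h2 : 2 * Real.pi * θ * X = 2 * Real.pi / q * (X / w) := by
      rw [hθ]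
      field_simp
    have h3 : c / 2 * (N / w) = c / 2 * N / w := by ring
    have h4 : 2 * Real.pi / q * (X / w) = 2 * Real.pi / q * X / w := by ring
    rw [h2, h3, h4, div_le_div_iff_of_pos_right hw0] at h1
    rw [hc₁]
    rw [div_mul_eq_mul_div, div_le_iff₀ (by positivity)]
    have h5 := mul_le_mul_of_nonneg_right h1 hq0.le
    have h6 : 2 * Real.pi / q * X * q = 2 * Real.pi * X := by field_simp
    rw [h6] at h5
    linarith
  -- Bessel
  have hB := bes (J := J + 1) (fun j => 1 / (q * (p : ℝ) ^ (j : ℕ))) (fun n => tws t n) (ps z)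
    (M := M) (N := N) (fun n hn => norm_tws t (by omega)) (B := q * r) (by positivity) ?_
  · have h1 : ((J : ℝ) + 1) * (c₁ * N) ^ 2 ≤ ∑ j : Fin (J + 1), ‖∑ n ∈ Finset.Ioc M N, ps z n *
        (tws t n * ee (-(n * (1 / (q * (p : ℝ) ^ (j : ℕ))))))‖ ^ 2 := by
      have h2 : ∑ j : Fin (J + 1), (c₁ * N) ^ 2 = ((J : ℝ) + 1) * (c₁ * N) ^ 2 := by
        rw [Finset.sum_const, Finset.card_univ, Fintype.card_fin, nsmul_eq_mul]
        push_cast
        ring
      rw [← h2]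
      refine Finset.sum_le_sum fun j _ => ?_
      exact pow_le_pow_left₀ (by positivity) (hlow j (by omega)) 2
    have h2 : ∑ n ∈ Finset.Ioc M N, ‖ps z n‖ ^ 2 ≤ N * AN z N := by
      rw [← caseA_SS hN5]
      refine Finset.sum_le_sum_of_subset_of_nonneg ?_ fun _ _ _ => by positivity
      intro n hn
      rw [Finset.mem_Ioc] at hn
      rw [Finset.mem_Icc]
      omega
    have hAN0 : 0 ≤ AN z N := by unfold AN; positivity
    have h3 : ((J + 1 : ℕ) : ℝ) * (q * r) ≤ N := by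
      push_cast
      calc ((J : ℝ) + 1) * (q * r) ≤ (2 * L) * (q * L) := by gcongr
        _ = (2 * q * L) * L := by ring
        _ ≤ √(N : ℝ) * √(N : ℝ) := by
            refine mul_le_mul ka3 ?_ hL0.le (Real.sqrt_nonneg _)
            linarith
        _ = N := hss
    have h4 : ((J : ℝ) + 1) * (c₁ * N) ^ 2 ≤ (2 * N) * (N * AN z N) := by
      refine (h1.trans hB).trans ?_
      refine mul_le_mul ?_ h2 (by positivity) (by positivity)
      linarith
    have h5 : ((J : ℝ) + 1) * c₁ ^ 2 ≤ 2 * AN z N := by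
      have h6 : (N : ℝ) ^ 2 * (((J : ℝ) + 1) * c₁ ^ 2) ≤ (N : ℝ) ^ 2 * (2 * AN z N) := by
        calc (N : ℝ) ^ 2 * (((J : ℝ) + 1) * c₁ ^ 2) = ((J : ℝ) + 1) * (c₁ * N) ^ 2 := by ring
          _ ≤ (2 * N) * (N * AN z N) := h4
          _ = (N : ℝ) ^ 2 * (2 * AN z N) := by ring
      exact le_of_mul_le_mul_left h6 (by positivity)
    have h7 : (1 / 400 : ℝ) * Real.log L / Real.log p * c₁ ^ 2 ≤ 2 * AN z N :=
      (mul_le_mul_of_nonneg_right hJ2.le (by positivity)).trans h5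
    calc min 1 (c₁ ^ 2 / (800 * Real.log p)) * Real.log L
        ≤ c₁ ^ 2 / (800 * Real.log p) * Real.log L :=
          mul_le_mul_of_nonneg_right (min_le_right _ _) (by linarith)
      _ = ((1 / 400 : ℝ) * Real.log L / Real.log p * c₁ ^ 2) / 2 := by field_simp; ring
      _ ≤ AN z N := by linarith
  · intro i j hij
    have key : ∀ i j : ℕ, i < j → j ≤ J → 1 / (2 * (q * r)) ≤
        1 / (q * (p : ℝ) ^ i) - 1 / (q * (p : ℝ) ^ j) := by
      intro i j hij hj
      have h1 : (p : ℝ) ^ i * p ≤ (p : ℝ) ^ j := by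
        rw [← pow_succ]
        exact pow_le_pow_right₀ (by linarith) hij
      have h2 : (p : ℝ) ^ i * 2 ≤ (p : ℝ) ^ j :=
        (mul_le_mul_of_nonneg_left hp2 (by positivity)).trans h1
      have h3 : 1 / (q * (p : ℝ) ^ j) ≤ 1 / (2 * (q * (p : ℝ) ^ i)) := by
        apply one_div_le_one_div_of_le (by positivity)
        calc 2 * (q * (p : ℝ) ^ i) = q * ((p : ℝ) ^ i * 2) := by ring
          _ ≤ q * (p : ℝ) ^ j := mul_le_mul_of_nonneg_left h2 hq0.le
      have h4 : 1 / (2 * (q * r)) ≤ 1 / (2 * (q * (p : ℝ) ^ i)) := by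
        apply one_div_le_one_div_of_le (by positivity)
        have := hpJ i (by omega)
        gcongr
      have h5 : 1 / (q * (p : ℝ) ^ i) = 1 / (2 * (q * (p : ℝ) ^ i)) + 1 / (2 * (q * (p : ℝ) ^ i)) := by
        field_simp
        norm_num
      linarith
    have hpos : ∀ i : ℕ, 0 < 1 / (q * (p : ℝ) ^ i) := fun i => by positivity
    have hle : ∀ i : ℕ, 1 / (q * (p : ℝ) ^ i) ≤ 1 / 2 := fun i => by
      apply one_div_le_one_div_of_le (by norm_num)
      have : (1 : ℝ) ≤ (p : ℝ) ^ i := one_le_pow₀ (by linarith)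
      nlinarith
    set α : ℝ := 1 / (q * (p : ℝ) ^ (i : ℕ)) - 1 / (q * (p : ℝ) ^ (j : ℕ)) with hα
    have hα1 : 1 / (2 * (q * r)) ≤ |α| := by
      rcases lt_or_gt_of_ne (fun h : (i : ℕ) = j => hij (Fin.ext h)) with h | h
      · exact (key i j h (by omega)).trans (le_abs_self _)
      · have h1 := key j i h (by omega)
        rw [abs_sub_comm]
        exact h1.trans (le_abs_self _)
    have hα0 : 0 < |α| := lt_of_lt_of_le (by positivity) hα1
    have hα2 : |α| ≤ 1 / 2 := by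
      rw [abs_le]
      have h1 := hpos i
      have h2 := hpos j
      have h3 := hle i
      have h4 := hle j
      constructor <;> linarith
    refine (geo (abs_pos.1 hα0) hα2 M N).trans ?_
    rw [div_le_iff₀ (by positivity)]
    rw [div_le_iff₀ (by positivity)] at hα1
    linarith

end Pool.Agent.Work.MP_2d9442_nt
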