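import Pool.Agent.Work.MP_2d9442_nt.WinMain
import Pool.Agent.Work.MP_2d9442_nt.Tst
import Pool.Agent.Work.MP_2d9442_nt.SumP

/-!
# Module CaseB: resonance, N/(log N)^{1/200} ≤ |t| ≤ B N (M/L)

`z n = u n * tws (-t) n`, `L = log N`, `b n = tws t n * ee(-(n/q))`.  Choose the integer
`k = ⌈B⌉ + 2` if `t > 0` and `k = -(⌈B⌉ + 2)` if `t < 0`, and `n₀ = t/(2π(k - 1/q)) > 0`.  Since
`|k - 1/q| ≥ B + 1` and `|t| ≤ BN`: `n₀ ≤ N/(2π) `; and `n₀ ≥ |t|/(2π(B+4)) ≥ N L^{-1/200}/(2π(B+4))`.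
`η = (1/2) L^{-1/100}`, `x₁ = ⌈n₀⌉`, `x₂ = ⌊n₀(1+η)⌋ ≤ N`; for large `N` the conditions of
`winMain` hold (`x₂ - x₁ ≥ η n₀ - 2 ≥ η n₀/2`).
For `x₁ < n ≤ x₂`: `t log(1+1/n) = t/n + O(|t|/n²)` and
`|t/n - 2π(k - 1/q)| = |t| |1/n - 1/n₀| ≤ |t| η/n₀ = 2π|k - 1/q| η`, so by `tst2` (`θ = 1/q`)
`‖b n - b (n+1)‖ ≤ C_B η` for large `N` (`|t|/n² ≤ BN/n₀² ≤ η`).
`abel` on `(x₁, x₂]` and `winMain`:
`c η n₀/2 ≤ C_B η ∑_{(x₁,x₂]} ‖ps z n‖ + ‖ps z x₁‖ + ‖ps z x₂‖
≤ C_B η (η n₀ + 1)^{1/2} (N AN)^{1/2} + 2 (8 N AN)^{1/3}` (Cauchy-Schwarz, `sN`).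
If `AN ≥ log log N` done.  Otherwise the last term is `≤ N^{1/2} ≤ c η n₀/4` and so
`c η n₀/4 ≤ C_B η (2 η n₀)^{1/2} (N AN)^{1/2}`, i.e. `AN ≥ c' n₀/(η N) ≥ c'' L^{-1/200} L^{1/100}
= c'' L^{1/200} ≥ log log N` for large `N`.
-/

open Finset MeasureTheory Filter Topology
open ArithmeticFunction (vonMangoldt)

namespace Pool.Agent.Work.MP_2d9442_nt

private theorem caseB_log (K : ℝ) : ∃ N0 : ℕ, ∀ N : ℕ, N0 ≤ N → K * Real.log N ≤ √(N : ℝ) := by
  have h := (isLittleO_log_rpow_atTop (show (0 : ℝ) < 1 / 2 by norm_num)).tendsto_div_nhds_zero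
  have h1 := (h.comp tendsto_natCast_atTop_atTop).const_mul K
  simp only [mul_zero] at h1
  obtain ⟨N0, hN0⟩ := Filter.eventually_atTop.1 (h1.eventually (gt_mem_nhds one_pos))
  refine ⟨max N0 1, fun N hN => ?_⟩
  have h2 := (hN0 N ((le_max_left _ _).trans hN)).le
  have hN1 : (0 : ℝ) < N := by exact_mod_cast (le_max_right N0 1).trans hN
  simp only [Function.comp] at h2
  have h3 : 0 < (N : ℝ) ^ (1 / 2 : ℝ) := by positivity
  rw [← mul_div_assoc, div_le_one h3] at h2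
  rw [Real.sqrt_eq_rpow]
  exact h2

private theorem caseB_loglog (K r : ℝ) (hr : 0 < r) : ∃ N0 : ℕ, ∀ N : ℕ, N0 ≤ N →
    K * Real.log (Real.log N) ≤ Real.log N ^ r := by
  have h := (isLittleO_log_rpow_atTop hr).tendsto_div_nhds_zero
  have hl : Tendsto (fun N : ℕ => Real.log (N : ℝ)) atTop atTop :=
    Real.tendsto_log_atTop.comp tendsto_natCast_atTop_atTop
  have h1 := (h.comp hl).const_mul K
  simp only [mul_zero] at h1
  obtain ⟨N0, hN0⟩ := Filter.eventually_atTop.1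
    ((h1.eventually (gt_mem_nhds one_pos)).and (hl.eventually (eventually_ge_atTop 1)))
  refine ⟨N0, fun N hN => ?_⟩
  obtain ⟨h2, h3⟩ := hN0 N hN
  simp only [Function.comp] at h2
  have h4 : 0 < Real.log N ^ r := by positivity
  rw [← mul_div_assoc] at h2
  exact (div_le_one h4).1 h2.le

private theorem caseB_big (K : ℝ) : ∃ N0 : ℕ, ∀ N : ℕ, N0 ≤ N → K ≤ Real.log N :=
  Filter.eventually_atTop.1 ((Real.tendsto_log_atTop.comp
    tendsto_natCast_atTop_atTop).eventually (eventually_ge_atTop K))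

private theorem caseB_tws (t : ℝ) {n : ℕ} (hn : 1 ≤ n) : tws (-t) n * tws t n = 1 := by
  have hn0 : (n : ℂ) ≠ 0 := by
    have : n ≠ 0 := by omega
    exact_mod_cast this
  unfold tws
  rw [← Complex.cpow_add _ _ hn0]
  simp

private theorem caseB_z {u : ℕ → ℂ} (hu : UM u) (t : ℝ) (n : ℕ) : ‖u n * tws (-t) n‖ ≤ 1 := by
  rcases Nat.eq_zero_or_pos n with h | h
  · rw [h, hu.cm.zero]
    simp
  · rw [norm_mul, norm_tws (-t) h, mul_one]
    exact hu.cm.le n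

private theorem caseB_SS {z : ℕ → ℂ} {N : ℕ} (hN : 1 ≤ N) :
    ∑ n ∈ Finset.Icc 1 N, ‖ps z n‖ ^ 2 = N * AN z N := by
  have : (N : ℝ) ≠ 0 := by
    have : N ≠ 0 := by omega
    exact_mod_cast this
  unfold AN
  field_simp

private theorem caseB_ps {z : ℕ → ℂ} (hz : ∀ n, ‖z n‖ ≤ 1) {M N : ℕ} (hMN : M ≤ N) (hN : 1 ≤ N)
    {Λ : ℝ} (hA : AN z N ≤ Λ) (hΛ : 8 * Λ ≤ √(N : ℝ)) : ‖ps z M‖ ≤ √(N : ℝ) := by
  have h1 := sN hz hMN
  rw [caseB_SS hN] at h1
  have h2 : ‖ps z M‖ ^ 3 ≤ √(N : ℝ) ^ 3 := by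
    have hs : √(N : ℝ) ^ 2 = N := Real.sq_sqrt (Nat.cast_nonneg N)
    calc ‖ps z M‖ ^ 3 ≤ 8 * (N * AN z N) := h1
      _ ≤ 8 * (N * Λ) := by gcongr
      _ = N * (8 * Λ) := by ring
      _ ≤ N * √(N : ℝ) := by gcongr
      _ = √(N : ℝ) ^ 3 := by
          have h3 : √(N : ℝ) ^ 3 = √(N : ℝ) ^ 2 * √(N : ℝ) := by ring
          rw [h3, hs]
  exact le_of_pow_le_pow_left₀ (by norm_num) (Real.sqrt_nonneg _) h2

private theorem caseB_CS {z : ℕ → ℂ} {M K N : ℕ} (hKN : K ≤ N) :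
    (∑ n ∈ Finset.Ioc M K, ‖ps z n‖) ^ 2 ≤
      ((K - M : ℕ) : ℝ) * ∑ n ∈ Finset.Icc 1 N, ‖ps z n‖ ^ 2 := by
  have h1 := sq_sum_le_card_mul_sum_sq (s := Finset.Ioc M K) (f := fun n => ‖ps z n‖)
  rw [Nat.card_Ioc] at h1
  refine h1.trans ?_
  refine mul_le_mul_of_nonneg_left ?_ (Nat.cast_nonneg _)
  refine Finset.sum_le_sum_of_subset_of_nonneg ?_ fun _ _ _ => by positivity
  intro n hn
  rw [Finset.mem_Ioc] at hn
  rw [Finset.mem_Icc]
  omega

private theorem caseB_ee (x : ℝ) : ‖ee x‖ = 1 := by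
  have h2 : ee x = Complex.exp (((2 * Real.pi * x : ℝ) : ℂ) * Complex.I) := by
    unfold ee
    congr 1
    push_cast
    ring
  rw [h2, Complex.norm_exp_ofReal_mul_I]

private theorem caseB_one_sub (x : ℝ) : ‖1 - ee x‖ ≤ 2 * Real.pi * |x| := by
  have h2 : ee x = Complex.exp (Complex.I * ((2 * Real.pi * x : ℝ) : ℂ)) := by
    unfold ee
    congr 1
    push_cast
    ring
  rw [h2, norm_sub_rev]
  have := Real.norm_exp_I_mul_ofReal_sub_one_le (x := 2 * Real.pi * x)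
  rw [Real.norm_eq_abs, abs_mul, abs_of_pos Real.two_pi_pos] at this
  exact this

private theorem caseB_logabs {x : ℝ} (hx : 0 ≤ x) : |Real.log (1 + x) - x| ≤ x ^ 2 := by
  have h1 : Real.log (1 + x) ≤ x := by
    have := Real.log_le_sub_one_of_pos (show 0 < 1 + x by linarith)
    linarith
  have h2 := Real.one_sub_inv_le_log_of_pos (show 0 < 1 + x by linarith)
  have h3 : x - x ^ 2 ≤ 1 - (1 + x)⁻¹ := by
    have h4 : 1 - (1 + x)⁻¹ = x / (1 + x) := by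
      field_simp
      ring
    rw [h4, le_div_iff₀ (by linarith)]
    nlinarith [pow_nonneg hx 3]
  rw [abs_le]
  constructor <;> nlinarith

theorem caseB {q : ℕ} (hq : 1 ≤ q) (χ : DirichletCharacter ℂ q) (hχ : χ.IsPrimitive) {δ B : ℝ}
    (hδ : 0 < δ) (hB : 0 < B) : ∃ N0 : ℕ, ∀ N : ℕ, N0 ≤ N → ∀ (u : ℕ → ℂ) (t : ℝ),
    UM u → (N : ℝ) / Real.log N ^ (1 / 200 : ℝ) ≤ |t| → |t| ≤ B * N → δ * N ≤ ‖S (tw u χ) N‖ →
    Real.log (Real.log N) ≤ AN (fun n => u n * tws (-t) n) N := by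
  obtain ⟨c, hc, N1, hwin⟩ := winMain hq χ hχ hδ
  have hq1 : (1 : ℝ) ≤ q := by exact_mod_cast hq
  have hq0 : (0 : ℝ) < q := by linarith
  set W : ℝ := 2 * Real.pi * (B + 4) with hW
  have hpi := Real.pi_gt_three
  have hW0 : 0 < W := by positivity
  have hW1 : 1 ≤ W := by
    rw [hW]
    nlinarith
  set CB : ℝ := 2 * W with hCB
  have hCB0 : 0 < CB := by positivity
  set c2 : ℝ := c ^ 2 / (8 * CB ^ 2 * W) with hc2
  have hc20 : 0 < c2 := by positivity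
  obtain ⟨K8, hK80, hK8⟩ : ∃ K8 : ℝ, 0 ≤ K8 ∧ 8 ≤ K8 ^ (1 / 150 : ℝ) := by
    refine ⟨(8 : ℝ) ^ (150 : ℝ), by positivity, ?_⟩
    rw [← Real.rpow_mul (by norm_num)]
    norm_num
  -- thresholds
  obtain ⟨Na, ha⟩ := caseB_log (max 8 (32 * W / c + 16 * W))
  obtain ⟨Nb, hb⟩ := caseB_loglog (2 / c2) (1 / 200) (by norm_num)
  obtain ⟨Nc, hcb⟩ := caseB_big (max 3 (max (W ^ 4) K8))
  refine ⟨max (max N1 Na) (max (max Nb Nc) 1), ?_⟩
  intro N hN u t hu ht1 ht2 hS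
  have hN1 : N1 ≤ N := ((le_max_left _ _).trans (le_max_left _ _)).trans hN
  have hN2 : Na ≤ N := ((le_max_right _ _).trans (le_max_left _ _)).trans hN
  have hN3 : Nb ≤ N := (((le_max_left _ _).trans (le_max_left _ _)).trans (le_max_right _ _)).trans hN
  have hN4 : Nc ≤ N := (((le_max_right _ _).trans (le_max_left _ _)).trans (le_max_right _ _)).trans hN
  have hN5 : 1 ≤ N := ((le_max_right _ _).trans (le_max_right _ _)).trans hN
  have hNpos : (0 : ℝ) < N := by exact_mod_cast hN5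
  have ka := ha N hN2
  have kb := hb N hN3
  have kc := hcb N hN4
  set L : ℝ := Real.log N with hL
  have hL3 : 3 ≤ L := (le_max_left _ _).trans kc
  have hL0 : 0 < L := by linarith
  have hL1 : 1 ≤ L := by linarith
  have hLW : W ^ 4 ≤ L := ((le_max_left _ _).trans (le_max_right _ _)).trans kc
  have hL8 : K8 ≤ L := ((le_max_right _ _).trans (le_max_right _ _)).trans kc
  have hll : 1 ≤ Real.log L := by
    rw [Real.le_log_iff_exp_le hL0]
    have := Real.exp_one_lt_d9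
    linarith
  have hllL : Real.log L ≤ L := (Real.log_le_sub_one_of_pos hL0).trans (by linarith)
  set z : ℕ → ℂ := fun n => u n * tws (-t) n with hz
  have hz1 : ∀ n, ‖z n‖ ≤ 1 := caseB_z hu t
  by_contra hcon
  push Not at hcon
  have hsN0 : 0 < √(N : ℝ) := Real.sqrt_pos.2 hNpos
  have hss : √(N : ℝ) * √(N : ℝ) = N := Real.mul_self_sqrt hNpos.le
  have ka1 : 8 * L ≤ √(N : ℝ) := (mul_le_mul_of_nonneg_right (le_max_left _ _) hL0.le).trans ka
  have ka2 : (32 * W / c + 16 * W) * L ≤ √(N : ℝ) :=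
    (mul_le_mul_of_nonneg_right (le_max_right _ _) hL0.le).trans ka
  have hps : ∀ K ≤ N, ‖ps z K‖ ≤ √(N : ℝ) := fun K hK =>
    caseB_ps hz1 hK hN5 hcon.le (by linarith)
  -- powers of `L`
  set r : ℝ := L ^ (1 / 200 : ℝ) with hr
  have hr0 : 0 < r := by positivity
  have hr1 : 1 ≤ r := Real.one_le_rpow (by linarith) (by norm_num)
  set η : ℝ := 1 / (2 * r ^ 2) with hη
  have hη0 : 0 < η := by positivity
  have hη1 : η ≤ 1 / 2 := by
    apply one_div_le_one_div_of_le (by norm_num)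
    have h0 := one_le_pow₀ hr1 (n := 2)
    linarith
  have hr2 : L ^ (-(1 / 100) : ℝ) = 2 * η := by
    rw [hη, Real.rpow_neg hL0.le, hr, ← Real.rpow_natCast, ← Real.rpow_mul hL0.le]
    have : (1 / 200 : ℝ) * ((2 : ℕ) : ℝ) = 1 / 100 := by norm_num
    rw [this]
    have h0 : L ^ (1 / 100 : ℝ) ≠ 0 := by positivity
    field_simp
  have hrL : r ≤ L := by
    calc r ≤ L ^ (1 : ℝ) := Real.rpow_le_rpow_of_exponent_le (by linarith) (by norm_num)
      _ = L := Real.rpow_one L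
  have hr2L : r ^ 2 ≤ L := by
    rw [hr, ← Real.rpow_natCast, ← Real.rpow_mul hL0.le]
    calc L ^ ((1 / 200 : ℝ) * ((2 : ℕ) : ℝ)) ≤ L ^ (1 : ℝ) :=
          Real.rpow_le_rpow_of_exponent_le (by linarith) (by norm_num)
      _ = L := Real.rpow_one L
  have hηL : 1 ≤ 2 * η * L := by
    have : 2 * η * L = L / r ^ 2 := by
      rw [hη]
      field_simp
    rw [this, le_div_iff₀ (by positivity)]
    linarith
  -- the integer `k`
  obtain ⟨k, D, n₀, hn0pos, hD1, hD2, hkt, htD⟩ : ∃ (k : ℤ) (D n₀ : ℝ), 0 < n₀ ∧ B + 1 ≤ D ∧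
      D ≤ B + 4 ∧ 2 * Real.pi * ((k : ℝ) - 1 / q) = t / n₀ ∧ |t| = 2 * Real.pi * D * n₀ := by
    have h1q : 0 < 1 / (q : ℝ) := by positivity
    have h1q' : 1 / (q : ℝ) ≤ 1 := by
      rw [div_le_one hq0]
      exact hq1
    set K : ℕ := ⌈B⌉₊ + 2 with hK
    have hK1 : B + 2 ≤ K := by
      rw [hK]
      push_cast
      have := Nat.le_ceil B
      linarith
    have hK2 : (K : ℝ) ≤ B + 3 := by
      rw [hK]
      push_cast
      have := (Nat.ceil_lt_add_one hB.le).le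
      linarith
    have ht0 : 0 < |t| := lt_of_lt_of_le (by positivity) ht1
    rcases lt_or_gt_of_ne (abs_pos.1 ht0) with hneg | hpos
    · refine ⟨-(K : ℤ), K + 1 / q, |t| / (2 * Real.pi * (K + 1 / q)), by positivity, by linarith,
        by linarith, ?_, ?_⟩
      · rw [abs_of_neg hneg]
        push_cast
        have h2 : (K : ℝ) + 1 / q ≠ 0 := by positivity
        have h3 : t ≠ 0 := hneg.ne
        rw [div_div_eq_mul_div, eq_div_iff (neg_ne_zero.2 h3)]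
        ring
      · have h2 : (K : ℝ) + 1 / q ≠ 0 := by positivity
        field_simp
    · have h2 : 0 < (K : ℝ) - 1 / q := by linarith
      refine ⟨(K : ℤ), K - 1 / q, |t| / (2 * Real.pi * (K - 1 / q)), by positivity, by linarith,
        by linarith, ?_, ?_⟩
      · rw [abs_of_pos hpos]
        push_cast
        have h3 : t ≠ 0 := hpos.ne'
        rw [div_div_eq_mul_div, eq_div_iff h3]
        ring
      · rw [mul_div_cancel₀]
        positivity
  have hD0 : 0 < D := by linarith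
  have hDW : 2 * Real.pi * D ≤ W := by
    rw [hW]
    gcongr
  -- size of `n₀`
  have hn0up : n₀ ≤ N / 2 := by
    have h1 : 2 * Real.pi * D * n₀ ≤ B * N := by rw [← htD]; exact ht2
    have h2 : B * n₀ * 2 ≤ 2 * Real.pi * D * n₀ := by
      have : B * 2 ≤ 2 * Real.pi * D := by
        have h6 : D * 1 ≤ D * Real.pi := mul_le_mul_of_nonneg_left (by linarith) hD0.le
        linarith
      calc B * n₀ * 2 = (B * 2) * n₀ := by ring
        _ ≤ 2 * Real.pi * D * n₀ := mul_le_mul_of_nonneg_right this hn0pos.le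
    have h3 : B * (n₀ * 2) ≤ B * N := by linarith
    have h4 := le_of_mul_le_mul_left h3 hB
    linarith
  have hn0low : N ≤ W * r * n₀ := by
    have h1 : (N : ℝ) / r ≤ 2 * Real.pi * D * n₀ := by rw [← htD]; exact ht1
    rw [div_le_iff₀ hr0] at h1
    calc (N : ℝ) ≤ 2 * Real.pi * D * n₀ * r := h1
      _ ≤ W * n₀ * r := by gcongr
      _ = W * r * n₀ := by ring
  have hr3 : r ^ 3 ≤ L := by
    rw [hr, ← Real.rpow_natCast, ← Real.rpow_mul hL0.le]
    calc L ^ ((1 / 200 : ℝ) * ((3 : ℕ) : ℝ)) ≤ L ^ (1 : ℝ) :=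
          Real.rpow_le_rpow_of_exponent_le (by linarith) (by norm_num)
      _ = L := Real.rpow_one L
  have hηr : η * (2 * r ^ 2) = 1 := by
    rw [hη]
    exact one_div_mul_cancel (by positivity)
  have hηn : (16 / c + 8) * √(N : ℝ) ≤ η * n₀ := by
    have h1 : (32 * W / c + 16 * W) * r ^ 3 * √(N : ℝ) ≤ W * r * n₀ := by
      calc (32 * W / c + 16 * W) * r ^ 3 * √(N : ℝ)
          ≤ (32 * W / c + 16 * W) * L * √(N : ℝ) := by gcongr
        _ ≤ √(N : ℝ) * √(N : ℝ) := by gcongr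
        _ = N := hss
        _ ≤ _ := hn0low
    have h2 : (2 * W * r ^ 3) * ((16 / c + 8) * √(N : ℝ)) ≤ (2 * W * r ^ 3) * (η * n₀) := by
      calc (2 * W * r ^ 3) * ((16 / c + 8) * √(N : ℝ))
          = (32 * W / c + 16 * W) * r ^ 3 * √(N : ℝ) := by ring
        _ ≤ W * r * n₀ := h1
        _ = W * r * n₀ * (η * (2 * r ^ 2)) := by rw [hηr, mul_one]
        _ = (2 * W * r ^ 3) * (η * n₀) := by ring
    exact le_of_mul_le_mul_left h2 (by positivity)
  have hηn2 : 8 * √(N : ℝ) ≤ η * n₀ := by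
    have : 0 ≤ 16 / c * √(N : ℝ) := by positivity
    linarith
  have hηn3 : 16 * √(N : ℝ) ≤ c * (η * n₀) := by
    have h1 := mul_le_mul_of_nonneg_left hηn hc.le
    have h2 : c * ((16 / c + 8) * √(N : ℝ)) = 16 * √(N : ℝ) + 8 * c * √(N : ℝ) := by
      field_simp
    have : 0 ≤ 8 * c * √(N : ℝ) := by positivity
    linarith
  have hηn4 : 4 ≤ η * n₀ := by linarith
  have hηhalf : η * n₀ ≤ 1 / 2 * n₀ := mul_le_mul_of_nonneg_right hη1 hn0pos.le
  have hn04 : 4 ≤ n₀ := by linarith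
  -- the window
  set x₁ : ℕ := ⌈n₀⌉₊ with hx₁
  set x₂ : ℕ := ⌊n₀ * (1 + η)⌋₊ with hx₂
  have hx1a : n₀ ≤ x₁ := Nat.le_ceil _
  have hx1b : (x₁ : ℝ) ≤ n₀ + 1 := (Nat.ceil_lt_add_one hn0pos.le).le
  have hx2a : (x₂ : ℝ) ≤ n₀ * (1 + η) := Nat.floor_le (by positivity)
  have hx2b : n₀ * (1 + η) < x₂ + 1 := Nat.lt_floor_add_one _
  have hgap : η * n₀ / 2 ≤ (x₂ : ℝ) - x₁ := by linarith
  have hgap2 : (x₂ : ℝ) - x₁ ≤ η * n₀ := by linarith
  have hlt : x₁ < x₂ := by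
    have : (x₁ : ℝ) < x₂ := by linarith
    exact_mod_cast this
  have hx2N : x₂ ≤ N := by
    have h1 : n₀ * (1 + η) ≤ N := by
      have e : n₀ * (1 + η) = n₀ + η * n₀ := by ring
      rw [e]
      linarith
    have : (x₂ : ℝ) ≤ N := by linarith
    exact_mod_cast this
  have hc1 : (N : ℝ) ≤ √L * x₁ := by
    have h1 : W * r ≤ √L := by
      apply Real.le_sqrt_of_sq_le
      have h2 : W ^ 2 ≤ √L := by
        apply Real.le_sqrt_of_sq_le
        calc (W ^ 2) ^ 2 = W ^ 4 := by ring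
          _ ≤ L := hLW
      have h3 : r ^ 2 ≤ √L := by
        rw [hr, ← Real.rpow_natCast, ← Real.rpow_mul hL0.le, Real.sqrt_eq_rpow]
        exact Real.rpow_le_rpow_of_exponent_le (by linarith) (by norm_num)
      calc (W * r) ^ 2 = W ^ 2 * r ^ 2 := by ring
        _ ≤ √L * √L := by gcongr
        _ = L := Real.mul_self_sqrt hL0.le
    calc (N : ℝ) ≤ W * r * n₀ := hn0low
      _ ≤ √L * x₁ := by gcongr
  have hc4 : (x₂ : ℝ) * L ^ (-(1 / 60) : ℝ) ≤ (x₂ : ℝ) - x₁ := by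
    have h1 : L ^ (-(1 / 60) : ℝ) = L ^ (-(1 / 100) : ℝ) * L ^ (-(1 / 150) : ℝ) := by
      rw [← Real.rpow_add hL0]
      norm_num
    have h2 : L ^ (-(1 / 150) : ℝ) ≤ 1 / 8 := by
      rw [Real.rpow_neg hL0.le, ← one_div]
      apply one_div_le_one_div_of_le (by norm_num)
      exact hK8.trans (Real.rpow_le_rpow hK80 hL8 (by norm_num))
    have h3 : L ^ (-(1 / 60) : ℝ) ≤ η / 4 := by
      rw [h1, hr2]
      calc 2 * η * L ^ (-(1 / 150) : ℝ) ≤ 2 * η * (1 / 8) := by gcongr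
        _ = η / 4 := by ring
    have h4 : (x₂ : ℝ) ≤ 2 * n₀ := by
      have e : n₀ * (1 + η) = n₀ + η * n₀ := by ring
      rw [e] at hx2a
      linarith
    calc (x₂ : ℝ) * L ^ (-(1 / 60) : ℝ) ≤ 2 * n₀ * (η / 4) := by gcongr
      _ = η * n₀ / 2 := by ring
      _ ≤ _ := hgap
  have hc5 : (x₂ : ℝ) - x₁ ≤ x₁ * L ^ (-(1 / 100) : ℝ) := by
    rw [hr2]
    have h0 := mul_le_mul_of_nonneg_right hx1a (show 0 ≤ 2 * η by positivity)
    linarith
  have hw := hwin N hN1 u hu hS x₁ x₂ hc1 hlt hx2N hc4 hc5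
  set b : ℕ → ℂ := fun n => tws t n * ee (-(n * (1 / (q : ℝ)))) with hbdef
  have hx11 : 1 ≤ x₁ := by
    have : (1 : ℝ) ≤ x₁ := by linarith
    exact_mod_cast this
  have e1 : ∑ n ∈ Finset.Ioc x₁ x₂, u n * ee (-(n : ℝ) / q) =
      ∑ n ∈ Finset.Ioc x₁ x₂, z n * b n := by
    refine Finset.sum_congr rfl fun n hn => ?_
    have hn1 : 1 ≤ n := by
      have := (Finset.mem_Ioc.1 hn).1
      omega
    have e2 : -(n : ℝ) / q = -(n * (1 / (q : ℝ))) := by ring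
    rw [e2, hz, hbdef]
    calc u n * ee (-(n * (1 / (q : ℝ)))) =
          u n * (tws (-t) n * tws t n) * ee (-(n * (1 / (q : ℝ)))) := by
          rw [caseB_tws t hn1, mul_one]
      _ = _ := by ring
  rw [e1, abel z b hlt.le] at hw
  have hbn : ∀ n, 1 ≤ n → ‖b n‖ = 1 := by
    intro n hn
    rw [hbdef]
    simp only
    rw [norm_mul, norm_tws t hn, caseB_ee, one_mul]
  have hdiff : ∀ n ∈ Finset.Ioc x₁ x₂, ‖b n - b (n + 1)‖ ≤ CB * η := by
    intro n hn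
    obtain ⟨hna, hnb⟩ := Finset.mem_Ioc.1 hn
    have hn1 : 1 ≤ n := by omega
    have hnr : n₀ ≤ n := hx1a.trans (by exact_mod_cast hna.le)
    have hnr2 : (n : ℝ) ≤ n₀ * (1 + η) := le_trans (by exact_mod_cast hnb) hx2a
    have hn0' : (0 : ℝ) < n := by linarith
    refine (tst2 t (1 / (q : ℝ)) hn1 k).trans ?_
    have h1 : 2 * Real.pi * (1 / (q : ℝ)) + t * Real.log (1 + 1 / n) - 2 * Real.pi * k =
        t * (Real.log (1 + 1 / n) - 1 / n₀) := by
      have : 2 * Real.pi * (1 / (q : ℝ)) + t * Real.log (1 + 1 / n) - 2 * Real.pi * k =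
          t * Real.log (1 + 1 / n) - 2 * Real.pi * ((k : ℝ) - 1 / q) := by ring
      rw [this, hkt]
      ring
    rw [h1, abs_mul]
    have h2 : |Real.log (1 + 1 / (n : ℝ)) - 1 / n₀| ≤ 2 * (η / n₀) := by
      have h3 := caseB_logabs (show 0 ≤ 1 / (n : ℝ) by positivity)
      have h4 : (1 / (n : ℝ)) ^ 2 ≤ η / n₀ := by
        have h5 : (1 / (n : ℝ)) ^ 2 ≤ (1 / n₀) ^ 2 := by
          apply pow_le_pow_left₀ (by positivity)
          exact one_div_le_one_div_of_le hn0pos hnr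
        have h6 : (1 / n₀) ^ 2 ≤ η / n₀ := by
          rw [div_pow, one_pow, div_le_div_iff₀ (by positivity) hn0pos]
          have h0 := mul_le_mul_of_nonneg_right (show 1 ≤ η * n₀ by linarith) hn0pos.le
          linarith
        exact h5.trans h6
      have h5 : |1 / (n : ℝ) - 1 / n₀| ≤ η / n₀ := by
        rw [abs_sub_comm, abs_of_nonneg (sub_nonneg.2 (one_div_le_one_div_of_le hn0pos hnr))]
        have h6 : 1 / n₀ - 1 / (n : ℝ) = (n - n₀) / (n₀ * n) := by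
          field_simp
        rw [h6, div_le_div_iff₀ (by positivity) hn0pos]
        have h7 : (n : ℝ) - n₀ ≤ η * n₀ := by linarith
        have h8 : η * n₀ * n₀ ≤ η * (n₀ * n) := by
          have := mul_le_mul_of_nonneg_left hnr (show 0 ≤ η * n₀ by positivity)
          linarith
        have h9 := mul_le_mul_of_nonneg_right h7 hn0pos.le
        linarith
      calc |Real.log (1 + 1 / (n : ℝ)) - 1 / n₀|
          = |(Real.log (1 + 1 / (n : ℝ)) - 1 / n) + (1 / (n : ℝ) - 1 / n₀)| := by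
            congr 1
            ring
        _ ≤ |Real.log (1 + 1 / (n : ℝ)) - 1 / n| + |1 / (n : ℝ) - 1 / n₀| := abs_add_le _ _
        _ ≤ η / n₀ + η / n₀ := by linarith
        _ = 2 * (η / n₀) := by ring
    calc |t| * |Real.log (1 + 1 / (n : ℝ)) - 1 / n₀| ≤ |t| * (2 * (η / n₀)) :=
          mul_le_mul_of_nonneg_left h2 (abs_nonneg t)
      _ = 2 * (2 * Real.pi * D) * η := by
          rw [htD]
          field_simp
      _ ≤ 2 * W * η := by gcongr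
      _ = CB * η := by rw [hCB]
  set T₁ : ℝ := ∑ n ∈ Finset.Ioc x₁ x₂, ‖ps z n‖ with hT1
  have hT10 : 0 ≤ T₁ := Finset.sum_nonneg fun _ _ => norm_nonneg _
  have hsum : ‖∑ n ∈ Finset.Ioc x₁ x₂, ps z n * (b n - b (n + 1))‖ ≤ CB * η * T₁ := by
    rw [hT1, Finset.mul_sum]
    refine norm_sum_le_of_le _ fun n hn => ?_
    rw [norm_mul, mul_comm]
    exact mul_le_mul_of_nonneg_right (hdiff n hn) (norm_nonneg _)
  have hbd : ‖ps z x₂ * b (x₂ + 1) - ps z x₁ * b (x₁ + 1)‖ ≤ 2 * √(N : ℝ) := by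
    refine (norm_sub_le _ _).trans ?_
    rw [norm_mul (ps z x₂), norm_mul (ps z x₁), hbn (x₂ + 1) (by omega), hbn (x₁ + 1) (by omega),
      mul_one, mul_one]
    have h1 := hps x₂ hx2N
    have h2 := hps x₁ (hlt.le.trans hx2N)
    linarith
  have hmain : c * (η * n₀) / 4 ≤ CB * η * T₁ := by
    have h1 : c * ((x₂ : ℝ) - x₁) ≤ CB * η * T₁ + 2 * √(N : ℝ) := by
      refine hw.trans ?_
      have h2 : ∑ n ∈ Finset.Ioc x₁ x₂, ps z n * (b n - b (n + 1)) + ps z x₂ * b (x₂ + 1) -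
          ps z x₁ * b (x₁ + 1) = ∑ n ∈ Finset.Ioc x₁ x₂, ps z n * (b n - b (n + 1)) +
          (ps z x₂ * b (x₂ + 1) - ps z x₁ * b (x₁ + 1)) := by ring
      rw [h2]
      exact (norm_add_le _ _).trans (add_le_add hsum hbd)
    have h2 := mul_le_mul_of_nonneg_left hgap hc.le
    linarith
  have hmain2 : c * n₀ / 4 ≤ CB * T₁ := by
    have h1 : η * (c * n₀ / 4) ≤ η * (CB * T₁) := by
      calc η * (c * n₀ / 4) = c * (η * n₀) / 4 := by ring
        _ ≤ CB * η * T₁ := hmain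
        _ = η * (CB * T₁) := by ring
    exact le_of_mul_le_mul_left h1 hη0
  have hAN0 : 0 ≤ AN z N := by unfold AN; positivity
  have hT12 : T₁ ^ 2 ≤ η * n₀ * (N * AN z N) := by
    have h1 := caseB_CS (z := z) (M := x₁) hx2N
    rw [caseB_SS hN5] at h1
    have h2 : ((x₂ - x₁ : ℕ) : ℝ) ≤ η * n₀ := by
      rw [Nat.cast_sub hlt.le]
      exact hgap2
    exact h1.trans (mul_le_mul_of_nonneg_right h2 (by positivity))
  have hfin : c ^ 2 * r ≤ 8 * CB ^ 2 * W * AN z N := by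
    have h1 : (c * n₀ / 4) ^ 2 ≤ CB ^ 2 * (η * n₀ * (N * AN z N)) := by
      calc (c * n₀ / 4) ^ 2 ≤ (CB * T₁) ^ 2 := pow_le_pow_left₀ (by positivity) hmain2 2
        _ = CB ^ 2 * T₁ ^ 2 := by ring
        _ ≤ _ := mul_le_mul_of_nonneg_left hT12 (by positivity)
    have h2 : CB ^ 2 * (η * n₀ * (N * AN z N)) ≤ CB ^ 2 * (η * n₀ * (W * r * n₀ * AN z N)) := by
      gcongr
    have h3 : n₀ ^ 2 * (c ^ 2 * r) ≤ n₀ ^ 2 * (8 * CB ^ 2 * W * AN z N) := by
      calc n₀ ^ 2 * (c ^ 2 * r) = 16 * r * (c * n₀ / 4) ^ 2 := by ring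
        _ ≤ 16 * r * (CB ^ 2 * (η * n₀ * (W * r * n₀ * AN z N))) := by
            exact mul_le_mul_of_nonneg_left (h1.trans h2) (by positivity)
        _ = (η * (2 * r ^ 2)) * (n₀ ^ 2 * (8 * CB ^ 2 * W * AN z N)) := by ring
        _ = n₀ ^ 2 * (8 * CB ^ 2 * W * AN z N) := by rw [hηr, one_mul]
    exact le_of_mul_le_mul_left h3 (by positivity)
  have hfin2 : c2 * r ≤ AN z N := by
    rw [hc2, div_mul_eq_mul_div, div_le_iff₀ (by positivity)]
    linarith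
  have hfin3 : 2 * Real.log L ≤ c2 * r := by
    have h1 := mul_le_mul_of_nonneg_left kb hc20.le
    have h2 : c2 * (2 / c2 * Real.log L) = 2 * Real.log L := by field_simp
    linarith
  linarith

end Pool.Agent.Work.MP_2d9442_nt
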