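import Pool.Agent.Work.MP_2d9442_nt.SumP
import Pool.Agent.Work.MP_2d9442_nt.Tst

open Finset MeasureTheory Filter Topology
open ArithmeticFunction (vonMangoldt)

namespace Pool.Agent.Work.MP_2d9442_nt

private theorem CaseC_ev1 {κ : ℝ} (hκ : 0 < κ) : ∀ᶠ N : ℕ in atTop,
    √(Real.log (Real.log N)) ≤ κ * Real.log N ^ (1 / 200 : ℝ) := by
  have h1 : ∀ᶠ y : ℝ in atTop, Real.log y ≤ κ ^ 2 * y ^ (1 / 100 : ℝ) := by
    have := (isLittleO_log_rpow_atTop (r := 1 / 100) (by norm_num)).def (c := κ ^ 2) (by positivity)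
    filter_upwards [this, eventually_ge_atTop 1] with y hy hy1
    rw [Real.norm_of_nonneg (Real.log_nonneg hy1), Real.norm_of_nonneg (by positivity)] at hy
    exact hy
  have h2 : Tendsto (fun N : ℕ => Real.log (N:ℝ)) atTop atTop :=
    Real.tendsto_log_atTop.comp tendsto_natCast_atTop_atTop
  filter_upwards [h2.eventually h1, h2.eventually_ge_atTop 1] with N hN hN1
  rw [Real.sqrt_le_left (by positivity), mul_pow]
  refine hN.trans (le_of_eq ?_)
  congr 1
  rw [← Real.rpow_natCast (Real.log N ^ (1 / 200 : ℝ)) 2, ← Real.rpow_mul (by linarith)]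
  norm_num

private theorem CaseC_ev2 {κ : ℝ} (hκ : 0 < κ) : ∀ᶠ N : ℕ in atTop,
    8 * (N * Real.log (Real.log N)) ≤ κ * (N:ℝ) ^ 3 := by
  have h2 : Tendsto (fun N : ℕ => κ * (N:ℝ)) atTop atTop :=
    Tendsto.const_mul_atTop hκ tendsto_natCast_atTop_atTop
  have h3 : Tendsto (fun N : ℕ => Real.log (N:ℝ)) atTop atTop :=
    Real.tendsto_log_atTop.comp tendsto_natCast_atTop_atTop
  filter_upwards [h2.eventually_ge_atTop 8, h3.eventually_ge_atTop 1, eventually_ge_atTop 1]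
    with N hN hN1 hN2
  have hN0 : (0:ℝ) < N := by exact_mod_cast hN2
  have e1 : Real.log (Real.log N) ≤ N := by
    have a := Real.log_le_sub_one_of_pos (show 0 < Real.log N by linarith)
    have b := Real.log_le_sub_one_of_pos hN0
    linarith
  have e2 : 8 * ((N:ℝ) * Real.log (Real.log N)) ≤ 8 * ((N:ℝ) * N) := by gcongr
  have e3 : 8 * ((N:ℝ) * N) ≤ (κ * N) * ((N:ℝ) * N) := by gcongr
  calc 8 * ((N:ℝ) * Real.log (Real.log N)) ≤ (κ * N) * ((N:ℝ) * N) := e2.trans e3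
    _ = κ * (N:ℝ) ^ 3 := by ring

theorem caseC {δ : ℝ} (hδ : 0 < δ) (hδ1 : δ ≤ 1) : ∃ N0 : ℕ, ∀ N : ℕ, N0 ≤ N →
    ∀ (u : ℕ → ℂ) (t : ℝ), UM u → |t| ≤ N / Real.log N ^ (1 / 200 : ℝ) → δ * N ≤ ‖S u N‖ →
    Real.log (Real.log N) ≤ AN (fun n => u n * tws (-t) n) N := by
  have h3 : Tendsto (fun N : ℕ => Real.log (N:ℝ)) atTop atTop :=
    Real.tendsto_log_atTop.comp tendsto_natCast_atTop_atTop
  have h4 : Tendsto (fun N : ℕ => δ * (N:ℝ)) atTop atTop :=
    Tendsto.const_mul_atTop hδ tendsto_natCast_atTop_atTop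
  obtain ⟨N0, hN0⟩ := eventually_atTop.mp
    (((CaseC_ev1 (κ := δ ^ 2 / 64) (by positivity)).and
      (CaseC_ev2 (κ := (δ / 16) ^ 3) (by positivity))).and
      ((h3.eventually_ge_atTop 1).and (h4.eventually_ge_atTop 8)))
  refine ⟨max N0 1, ?_⟩
  intro N hN u t hu ht hS
  obtain ⟨⟨E1, E2⟩, E3, E4⟩ := hN0 N (le_trans (le_max_left _ _) hN)
  have hN1 : 1 ≤ N := le_trans (le_max_right _ _) hN
  have hNR : (0:ℝ) < N := by exact_mod_cast hN1
  by_contra hcon
  push Not at hcon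
  set z : ℕ → ℂ := fun n => u n * tws (-t) n with hz
  have hzU : UM z := UM_tws hu (-t)
  set A := AN z N with hA
  set ℓ := Real.log (Real.log N) with hℓ
  have hA0 : 0 ≤ A := by rw [hA]; unfold AN; positivity
  have hsum : ∑ n ∈ Finset.Icc 1 N, ‖ps z n‖ ^ 2 = N * A := by
    rw [hA]; unfold AN; field_simp
  set M := ⌊δ / 2 * N⌋₊ with hM
  have hMle : (M:ℝ) ≤ δ / 2 * N := Nat.floor_le (by positivity)
  have hMge : δ / 4 * N ≤ M := by
    have := Nat.lt_floor_add_one (δ / 2 * (N:ℝ))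
    rw [← hM] at this
    linarith
  have hMpos : (0:ℝ) < M := by linarith [mul_pos (show 0 < δ / 4 by positivity) hNR]
  have hMN : M ≤ N := by
    have : (M:ℝ) ≤ N := by nlinarith
    exact_mod_cast this
  -- lower bound
  have hlow : δ / 2 * N ≤ ‖∑ n ∈ Finset.Ioc M N, u n‖ := by
    have e1 : S u N = ∑ n ∈ Finset.Ioc M N, u n + S u M := by
      rw [S_nat, S_nat]
      unfold ps
      have h1 : ∀ m : ℕ, ∑ n ∈ Finset.Icc 1 m, u n = ∑ n ∈ Finset.Ioc 0 m, u n := by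
        intro m; congr 1
      rw [h1, h1, add_comm]
      exact (Finset.sum_Ioc_consecutive u (Nat.zero_le _) hMN).symm
    have e2 : ‖S u M‖ ≤ M := norm_S_le hu.cm.le hMpos.le
    have e3 : ‖S u N‖ ≤ ‖∑ n ∈ Finset.Ioc M N, u n‖ + ‖S u M‖ := by
      rw [e1]; exact norm_add_le _ _
    linarith
  -- upper bound
  have hzu : ∀ n ∈ Finset.Ioc M N, z n * tws t n = u n := by
    intro n hn
    have hn1 : 1 ≤ n := by
      have := (Finset.mem_Ioc.mp hn).1
      omega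
    have hn0 : (n:ℂ) ≠ 0 := by
      have : n ≠ 0 := by omega
      exact_mod_cast this
    have e : tws (-t) n * tws t n = 1 := by
      unfold tws
      rw [← Complex.cpow_add _ _ hn0]
      have : -(((-t : ℝ) : ℂ) * Complex.I) + -((t:ℂ) * Complex.I) = 0 := by push_cast; ring
      rw [this, Complex.cpow_zero]
    simp only [hz]
    rw [mul_assoc, e, mul_one]
  have hdiff : ∀ n ∈ Finset.Ioc M N, ‖tws t n - tws t (n + 1)‖ ≤ |t| / M := by
    intro n hn
    rw [Finset.mem_Ioc] at hn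
    have hn1 : 1 ≤ n := by omega
    have h := tst1 t 0 hn1
    have e0 : ee 0 = 1 := by simp [ee]
    rw [mul_zero, mul_zero, neg_zero, e0] at h
    simp only [mul_one, sub_self, zero_mul, sub_zero] at h
    refine h.trans ?_
    have : (M:ℝ) ≤ n := by exact_mod_cast hn.1.le
    gcongr
  have hab := abel z (tws t) hMN
  rw [Finset.sum_congr rfl hzu] at hab
  have hcs : ∑ n ∈ Finset.Ioc M N, ‖ps z n‖ ≤ N * √A := by
    have h1 : ∑ n ∈ Finset.Ioc M N, ‖ps z n‖ ≤ ∑ n ∈ Finset.Icc 1 N, ‖ps z n‖ := by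
      apply Finset.sum_le_sum_of_subset_of_nonneg
      · intro n hn
        rw [Finset.mem_Ioc] at hn
        rw [Finset.mem_Icc]
        omega
      · intro _ _ _; positivity
    have h2 : (∑ n ∈ Finset.Icc 1 N, ‖ps z n‖) ^ 2 ≤ N * (N * A) := by
      have := sq_sum_le_card_mul_sum_sq (s := Finset.Icc 1 N) (f := fun n => ‖ps z n‖)
      rw [hsum] at this
      simpa using this
    have h3 : ∑ n ∈ Finset.Icc 1 N, ‖ps z n‖ ≤ N * √A := by
      apply (pow_le_pow_iff_left₀ (by positivity) (by positivity) (two_ne_zero)).mp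
      rw [mul_pow, Real.sq_sqrt hA0]
      nlinarith
    exact h1.trans h3
  have hcube : ∀ m : ℕ, m ≤ N → ‖ps z m‖ ≤ δ / 16 * N := by
    intro m hm
    have h1 := sN hzU.cm.le hm
    rw [hsum] at h1
    have h2 : ‖ps z m‖ ^ 3 ≤ (δ / 16 * N) ^ 3 := by
      calc ‖ps z m‖ ^ 3 ≤ 8 * (N * A) := h1
        _ ≤ 8 * (N * ℓ) := by gcongr
        _ ≤ (δ / 16) ^ 3 * (N:ℝ) ^ 3 := E2
        _ = _ := by ring
    exact le_of_pow_le_pow_left₀ (by norm_num) (by positivity) h2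
  have hup : ‖∑ n ∈ Finset.Ioc M N, u n‖ ≤ |t| / M * (N * √A) + δ / 16 * N + δ / 16 * N := by
    rw [hab]
    have hb1 : ‖tws t (N + 1)‖ ≤ 1 := norm_tws_le t _
    have hb2 : ‖tws t (M + 1)‖ ≤ 1 := norm_tws_le t _
    have h1 : ‖∑ n ∈ Finset.Ioc M N, ps z n * (tws t n - tws t (n + 1))‖ ≤ |t| / M * (N * √A) := by
      calc ‖∑ n ∈ Finset.Ioc M N, ps z n * (tws t n - tws t (n + 1))‖ ≤
          ∑ n ∈ Finset.Ioc M N, ‖ps z n‖ * (|t| / M) := by
            refine norm_sum_le_of_le _ fun n hn => ?_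
            rw [norm_mul]
            exact mul_le_mul_of_nonneg_left (hdiff n hn) (norm_nonneg _)
        _ = |t| / M * ∑ n ∈ Finset.Ioc M N, ‖ps z n‖ := by rw [← Finset.sum_mul, mul_comm]
        _ ≤ _ := by gcongr
    have h2 : ‖ps z N * tws t (N + 1)‖ ≤ δ / 16 * N := by
      rw [norm_mul]
      calc ‖ps z N‖ * ‖tws t (N + 1)‖ ≤ (δ / 16 * N) * 1 :=
            mul_le_mul (hcube N le_rfl) hb1 (norm_nonneg _) (by positivity)
        _ = _ := mul_one _
    have h3 : ‖ps z M * tws t (M + 1)‖ ≤ δ / 16 * N := by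
      rw [norm_mul]
      calc ‖ps z M‖ * ‖tws t (M + 1)‖ ≤ (δ / 16 * N) * 1 :=
            mul_le_mul (hcube M hMN) hb2 (norm_nonneg _) (by positivity)
        _ = _ := mul_one _
    refine (norm_sub_le _ _).trans (add_le_add ((norm_add_le _ _).trans (add_le_add h1 h2)) h3)
  -- the first term
  have hLpos : 0 < Real.log N ^ (1 / 200 : ℝ) := by positivity
  have hfirst : |t| / M * (N * √A) ≤ δ / 16 * N := by
    have h1 : √A ≤ δ ^ 2 / 64 * Real.log N ^ (1 / 200 : ℝ) :=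
      (Real.sqrt_le_sqrt hcon.le).trans E1
    have h2 : |t| / M ≤ (N / Real.log N ^ (1 / 200 : ℝ)) / (δ / 4 * N) := by gcongr
    calc |t| / M * (N * √A) ≤ (N / Real.log N ^ (1 / 200 : ℝ)) / (δ / 4 * N) *
          (N * (δ ^ 2 / 64 * Real.log N ^ (1 / 200 : ℝ))) := by gcongr
      _ = δ / 16 * N := by field_simp; ring
  have : 0 < δ * N := by positivity
  linarith

end Pool.Agent.Work.MP_2d9442_nt
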