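import Pool.Agent.Work.MP_2d9442_nt.Defs

/-!
# Module Cond: a character which agrees with a primitive one (S)

`Same χ ψ` says that `χ` and `ψ` agree at level `q k` (values at units; `changeLevel`), so
`DirichletCharacter.factorsThrough_gcd` gives `χ.FactorsThrough (q.gcd k)`, and
`conductor_dvd_of_mem_conductorSet` gives `conductor χ = q ∣ q.gcd k`, i.e. `q ∣ k`.
`cond_eq`: if `n` is prime to `q` then it is prime to `k` (every prime factor of `k` divides `q`), so
`Same` applies; if `n` is not prime to `q` then it is not prime to `k` (as `q ∣ k`) and both values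
vanish (`MulChar.map_nonunit`, `ZMod.isUnit_iff_coprime`).
-/

open Finset MeasureTheory Filter Topology
open ArithmeticFunction (vonMangoldt)

namespace Pool.Agent.Work.MP_2d9442_nt

theorem cond_dvd {q k : ℕ} (hq : 1 ≤ q) (hk : 1 ≤ k) (χ : DirichletCharacter ℂ q)
    (ψ : DirichletCharacter ℂ k) (hχ : χ.IsPrimitive) (h : Same χ ψ) : q ∣ k := by
  have hq0 : NeZero q := ⟨by omega⟩
  have hk0 : NeZero k := ⟨by omega⟩
  have hqk : NeZero (q * k) := ⟨Nat.mul_ne_zero hq0.out hk0.out⟩
  have h1 : χ.changeLevel (q.dvd_mul_right k) = ψ.changeLevel (k.dvd_mul_left q) := by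
    apply MulChar.ext
    intro a
    rw [DirichletCharacter.changeLevel_eq_cast_of_dvd, DirichletCharacter.changeLevel_eq_cast_of_dvd,
      ← ZMod.natCast_val, ← ZMod.natCast_val]
    exact h _ (ZMod.val_coe_unit_coprime a)
  have h2 := DirichletCharacter.factorsThrough_gcd χ ψ h1
  have h3 : χ.conductor ∣ q.gcd k := DirichletCharacter.conductor_dvd_of_mem_conductorSet χ h2
  rw [(DirichletCharacter.isPrimitive_def χ).1 hχ] at h3
  exact h3.trans (Nat.gcd_dvd_right q k)

theorem cond_eq {q k : ℕ} (hq : 1 ≤ q) (hk : 1 ≤ k) (χ : DirichletCharacter ℂ q)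
    (ψ : DirichletCharacter ℂ k) (hχ : χ.IsPrimitive) (h : Same χ ψ)
    (hp : ∀ p : ℕ, p.Prime → p ∣ k → p ∣ q) (n : ℕ) :
    ψ (n : ZMod k) = χ (n : ZMod q) := by
  by_cases hn : n.Coprime q
  · have hnk : n.Coprime k := by
      rw [Nat.coprime_iff_gcd_eq_one]
      by_contra hne
      obtain ⟨p, hpp, hpd⟩ := Nat.exists_prime_and_dvd hne
      have h1 : p ∣ q := hp p hpp (hpd.trans (Nat.gcd_dvd_right n k))
      have h2 : p ∣ n := hpd.trans (Nat.gcd_dvd_left n k)
      have h3 : p ∣ n.gcd q := Nat.dvd_gcd h2 h1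
      rw [Nat.coprime_iff_gcd_eq_one.1 hn] at h3
      exact hpp.one_lt.ne' (Nat.dvd_one.1 h3)
    exact (h n (Nat.Coprime.mul_right hn hnk)).symm
  · have h1 : ¬ n.Coprime k := fun h2 =>
      hn (h2.coprime_dvd_right (cond_dvd hq hk χ ψ hχ h))
    rw [MulChar.map_nonunit ψ (by rwa [ZMod.isUnit_iff_coprime]),
      MulChar.map_nonunit χ (by rwa [ZMod.isUnit_iff_coprime])]

end Pool.Agent.Work.MP_2d9442_nt
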