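import Mathlib

/-!
# MP_2d9442_nt: mean square partial sums of completely multiplicative unimodular sequences

Definitions for the theorem: a completely multiplicative unimodular `z` which correlates at the
scale `N` with `n^{it} e(nθ)` for some `|t| ≤ B N` and some real `θ` has
`(1/N) ∑_{n ≤ N} |z_1 + ... + z_n|² ≥ c log log N`.
-/

namespace Pool.Agent.Work.MP_2d9442_nt

/-- completely multiplicative functions bounded by one (value zero at zero) -/
structure CM (f : ℕ → ℂ) : Prop where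
  zero : f 0 = 0
  one : f 1 = 1
  mul : ∀ m n : ℕ, f (m * n) = f m * f n
  le : ∀ n : ℕ, ‖f n‖ ≤ 1

/-- completely multiplicative unimodular functions (value zero at zero) -/
structure UM (f : ℕ → ℂ) : Prop where
  cm : CM f
  norm : ∀ n : ℕ, 1 ≤ n → ‖f n‖ = 1

/-- the summatory function `∑_{1 ≤ n ≤ x} f(n)` -/
noncomputable def S (f : ℕ → ℂ) (x : ℝ) : ℂ := ∑ n ∈ Finset.Icc 1 ⌊x⌋₊, f n

/-- the mean value `S(x)/x` -/
noncomputable def G (f : ℕ → ℂ) (x : ℝ) : ℂ := S f x / (x : ℂ)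

/-- the shifted difference `G(x) - c G(x/w)` -/
noncomputable def H (f : ℕ → ℂ) (c : ℂ) (w x : ℝ) : ℂ := G f x - c * G f (x / w)

/-- the complex number `σ + iτ` -/
noncomputable def pt (σ τ : ℝ) : ℂ := (σ : ℂ) + (τ : ℂ) * Complex.I

/-- the Dirichlet series of `f` at `1 + σ + iτ` -/
noncomputable def F (f : ℕ → ℂ) (σ τ : ℝ) : ℂ := LSeries f (1 + pt σ τ)

/-- the Dirichlet series of `Λ f` at `1 + σ + iτ` -/
noncomputable def Z (f : ℕ → ℂ) (σ τ : ℝ) : ℂ :=
  LSeries (fun n => (ArithmeticFunction.vonMangoldt n : ℂ) * f n) (1 + pt σ τ)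

/-- `n^{-iτ}` -/
noncomputable def tws (τ : ℝ) (n : ℕ) : ℂ := (n : ℂ) ^ (-((τ : ℂ) * Complex.I))

/-- primes up to `x` -/
noncomputable def P (x : ℝ) : Finset ℕ := (Finset.Icc 1 ⌊x⌋₊).filter Nat.Prime

/-- the square of the distance: `∑_{p ≤ x} (1 - Re f(p) p^{-iτ})/p` -/
noncomputable def D2 (f : ℕ → ℂ) (τ x : ℝ) : ℝ :=
  ∑ p ∈ P x, (1 - (f p * tws τ p).re) / (p : ℝ)

/-- the function equal to one at all positive integers -/
noncomputable def oneF (n : ℕ) : ℂ := if n = 0 then 0 else 1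

/-- `e(x) = exp(2 π i x)` -/
noncomputable def ee (x : ℝ) : ℂ := Complex.exp (2 * Real.pi * x * Complex.I)

/-- twist of `z` by the Dirichlet character `χ` -/
noncomputable def tw (z : ℕ → ℂ) {q : ℕ} (χ : DirichletCharacter ℂ q) (n : ℕ) : ℂ :=
  z n * χ (n : ZMod q)

/-- the product `conj χ · ψ` as a function on the positive integers -/
noncomputable def hc {q k : ℕ} (χ : DirichletCharacter ℂ q) (ψ : DirichletCharacter ℂ k)
    (n : ℕ) : ℂ :=
  if n = 0 then 0 else (starRingEnd ℂ) (χ (n : ZMod q)) * ψ (n : ZMod k)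

/-- two characters agree on the integers prime to both moduli -/
def Same {q k : ℕ} (χ : DirichletCharacter ℂ q) (ψ : DirichletCharacter ℂ k) : Prop :=
  ∀ n : ℕ, n.Coprime (q * k) → χ (n : ZMod q) = ψ (n : ZMod k)

/-- the Fourier coefficient `(1/φ(k)) ∑_{b mod k, (b,k)=1} conj ψ(b) e(-b/k)` -/
noncomputable def coef {k : ℕ} (ψ : DirichletCharacter ℂ k) : ℂ :=
  (∑ b ∈ (Finset.range k).filter (fun b => b.Coprime k),
    (starRingEnd ℂ) (ψ (b : ZMod k)) * ee (-(b : ℝ) / k)) / (Nat.totient k : ℂ)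

/-- partial sums -/
noncomputable def ps (z : ℕ → ℂ) (n : ℕ) : ℂ := ∑ i ∈ Finset.Icc 1 n, z i

/-- the mean square of the partial sums -/
noncomputable def AN (z : ℕ → ℂ) (N : ℕ) : ℝ :=
  (∑ n ∈ Finset.Icc 1 N, ‖ps z n‖ ^ 2) / (N : ℝ)

end Pool.Agent.Work.MP_2d9442_nt
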