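import Pool.Agent.Work.MP_2d9442_nt.MelF

/-!
# Module DerH: the Mellin transform of H(v) log v (M/L)

Write `s = pt σ τ`, `A(s) = LSeries f (1+s)` (`= F f σ τ`), `𝓗(s) = ∫_{v>1} H(v) v^{-(1+s)} dv`.
(1) `𝓗(s) = (1 - c w^{-s}) A(s)/(1+s)` for `Re s > 0`: by `melF` (`B = 1`) for `G f v`, and for
`G f (v/w)`: `∫_{v>1} G f (v/w) v^{-(1+s)} dv = ∫_{u > 1/w} G f (u) (w u)^{-(1+s)} w du
= w^{-s} ∫_{u>1} G f(u) u^{-(1+s)} du` because `G f u = 0` for `u < 1` (`G_zero`) and `w ≥ 1`.
(2) Differentiate in `s` (complex derivative, or only along `σ` or `τ`):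
`𝓗'(s) = - ∫_{v>1} H(v) log v · v^{-(1+s)} dv` (`hasDerivAt_integral_of_dominated_loc_of_deriv_le`,
dominated by `2 log v · v^{-1-σ/2}` near `s`, or Mathlib's `mellin_hasDerivAt_of_isBigO_rpow`).
(3) `A'(s) = - A(s) Z f σ τ`: `LSeries_hasDerivAt`/`LSeries_deriv` gives
`A' = - LSeries (logMul f)`, and `LSeries (logMul f) = LSeries (Λ f) · LSeries f` for completely
multiplicative `f` (`log = Λ * 1`, as in Mathlib for characters:
`DirichletCharacter.convolution_twist_vonMangoldt`, `LSeries_convolution'`, here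
`(Λ f) ⍟ f = f log` termwise on divisor pairs).
(4) `𝓗' = c log w w^{-s} A/(1+s) + (1 - c w^{-s}) A'/(1+s) - (1 - c w^{-s}) A/(1+s)²`, so
`-𝓗'` is the right-hand side below.
-/

open Finset MeasureTheory Filter Topology
open ArithmeticFunction (vonMangoldt)

namespace Pool.Agent.Work.MP_2d9442_nt

section aux

variable {U : ℝ → ℂ} {C : ℝ}

private theorem dh_loc (hm : Measurable U) (hC : ∀ v, ‖U v‖ ≤ C) :
    LocallyIntegrableOn U (Set.Ioi 0) := by
  have h1 : LocallyIntegrable U := by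
    refine (locallyIntegrable_const C).mono hm.aestronglyMeasurable
      (Eventually.of_forall fun v => ?_)
    exact (hC v).trans (le_abs_self C)
  exact h1.locallyIntegrableOn _

private theorem dh_top (hC : ∀ v, ‖U v‖ ≤ C) : U =O[atTop] (fun v : ℝ => v ^ (-(0:ℝ))) := by
  refine Asymptotics.IsBigO.of_bound C (Eventually.of_forall fun v => ?_)
  simpa using hC v

private theorem dh_bot (h0 : ∀ v, v < 1 → U v = 0) (b : ℝ) :
    U =O[𝓝[>] 0] (fun v : ℝ => v ^ (-b)) := by
  refine Asymptotics.IsBigO.of_bound 1 ?_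
  have : ∀ᶠ v : ℝ in 𝓝[>] 0, v < 1 := by
    filter_upwards [Ioo_mem_nhdsGT (one_pos : (0:ℝ) < 1)] with v hv
    exact hv.2
  filter_upwards [this] with v hv
  rw [h0 v hv, norm_zero]
  positivity

private theorem dh_conv (hm : Measurable U) (hC : ∀ v, ‖U v‖ ≤ C) (h0 : ∀ v, v < 1 → U v = 0)
    {s : ℂ} (hs : s.re < 0) : MellinConvergent U s :=
  mellinConvergent_of_isBigO_rpow (dh_loc hm hC) (dh_top hC) hs (dh_bot h0 (s.re - 1))
    (by linarith)

private theorem dh_der (hm : Measurable U) (hC : ∀ v, ‖U v‖ ≤ C) (h0 : ∀ v, v < 1 → U v = 0)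
    {s : ℂ} (hs : s.re < 0) :
    HasDerivAt (mellin U) (mellin (fun t => Real.log t • U t) s) s :=
  (mellin_hasDerivAt_of_isBigO_rpow (dh_loc hm hC) (dh_top hC) hs (dh_bot h0 (s.re - 1))
    (by linarith)).2

/-- the Mellin transform of a function that vanishes below one -/
private theorem dh_mellin (h0 : ∀ v, v < 1 → U v = 0) (s : ℂ) :
    mellin U (-s) = ∫ v in Set.Ioi (1:ℝ), U v * (v : ℂ) ^ (-(1 + s)) := by
  unfold mellin
  have h1 : ∀ v : ℝ, (v : ℂ) ^ (-s - 1) • U v = U v * (v : ℂ) ^ (-(1 + s)) := by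
    intro v
    rw [smul_eq_mul, mul_comm]
    congr 2
    ring
  simp only [h1]
  refine setIntegral_eq_of_subset_of_ae_sdiff_eq_zero measurableSet_Ioi.nullMeasurableSet
    (Set.Ioi_subset_Ioi zero_le_one) ?_
  have h2 : ∀ᵐ v : ℝ, v ≠ 1 := by
    simp [ae_iff]
  filter_upwards [h2] with v hv1 hv2
  have h3 : v < 1 := by
    have := hv2.2
    rw [Set.mem_Ioi, not_lt] at this
    exact lt_of_le_of_ne this hv1
  rw [h0 v h3, zero_mul]

end aux

private theorem dh_pt (s : ℂ) : pt s.re s.im = s := by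
  unfold pt
  exact Complex.re_add_im s

/-- completely multiplicative functions: `log f = (Λ f) * f` -/
private theorem dh_logMul {f : ℕ → ℂ} (hf : CM f) {s : ℂ} (hs : 0 < s.re) :
    LSeries (LSeries.logMul f) (1 + s) =
      LSeries (fun n => (vonMangoldt n : ℂ) * f n) (1 + s) * LSeries f (1 + s) := by
  have h1 := summable_CM hf.le hs s.im
  have h2 := summable_Z hf.le hs s.im
  rw [dh_pt] at h1 h2
  rw [← LSeries_convolution' h2 h1]
  refine LSeries_congr (fun {n} hn => ?_) (1 + s)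
  rw [LSeries.convolution_def]
  have h3 : ∀ p ∈ n.divisorsAntidiagonal, (vonMangoldt p.1 : ℂ) * f p.1 * f p.2 =
      (vonMangoldt p.1 : ℂ) * f n := by
    intro p hp
    rw [mul_assoc, ← hf.mul, (Nat.mem_divisorsAntidiagonal.1 hp).1]
  show LSeries.logMul f n = ∑ p ∈ n.divisorsAntidiagonal, (vonMangoldt p.1 : ℂ) * f p.1 * f p.2
  rw [Finset.sum_congr rfl h3, ← Finset.sum_mul,
    Nat.sum_divisorsAntidiagonal (fun d _ => (vonMangoldt d : ℂ)), ← Complex.ofReal_sum,
    ArithmeticFunction.vonMangoldt_sum]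
  unfold LSeries.logMul
  rw [Complex.ofReal_log (Nat.cast_nonneg n), Complex.ofReal_natCast]

private theorem dh_F {f : ℕ → ℂ} (hf : CM f) {s : ℂ} (hs : 0 < s.re) :
    mellin (G f) (-s) = LSeries f (1 + s) / (1 + s) := by
  rw [dh_mellin (fun v hv => G_zero hv)]
  have h1 := melF (a := f) (B := 1) (σ := s.re) (fun v hv => by
    rw [one_mul]
    exact norm_S_le hf.le (by linarith)) hs s.im (summable_CM hf.le hs s.im)
  rw [dh_pt] at h1
  exact h1

private theorem dh_H {f : ℕ → ℂ} (hf : CM f) {c : ℂ} {w : ℝ} (hw : 1 ≤ w) {s : ℂ}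
    (hs : 0 < s.re) :
    mellin (H f c w) (-s) = (1 - c * (w : ℂ) ^ (-s)) * (LSeries f (1 + s) / (1 + s)) := by
  have hw0 : 0 < w := by linarith
  have hs' : (-s).re < 0 := by
    rw [Complex.neg_re]
    linarith
  have hG := dh_conv (measurable_G f) (norm_G_le hf.le) (fun v hv => G_zero hv) hs'
  have hGw : MellinConvergent (fun t => G f (w⁻¹ * t)) (-s) :=
    (MellinConvergent.comp_mul_left (inv_pos.2 hw0)).2 hG
  have h1 := (hasMellin_sub hG (hGw.const_smul c)).2
  have h2 : (fun t => G f t - c • G f (w⁻¹ * t)) = H f c w := by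
    funext t
    unfold H
    rw [smul_eq_mul, div_eq_inv_mul]
  rw [h2] at h1
  rw [h1, mellin_const_smul, mellin_comp_mul_left _ _ (inv_pos.2 hw0), dh_F hf hs, neg_neg]
  have h3 : ((w⁻¹ : ℝ) : ℂ) ^ s = (w : ℂ) ^ (-s) := by
    rw [Complex.ofReal_inv, Complex.inv_cpow _ _ ?_, Complex.cpow_neg]
    rw [Complex.arg_ofReal_of_nonneg hw0.le]
    exact Real.pi_pos.ne
  rw [h3]
  simp only [smul_eq_mul]
  ring

theorem derH {f : ℕ → ℂ} (hf : CM f) {c : ℂ} (hc : ‖c‖ ≤ 1) {w σ : ℝ} (hw : 1 ≤ w) (hσ : 0 < σ)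
    (τ : ℝ) :
    ∫ v in Set.Ioi (1:ℝ), (H f c w v * (Real.log v : ℂ)) * (v : ℂ) ^ (-(1 + pt σ τ)) =
      (1 - c * (w : ℂ) ^ (-(pt σ τ))) * F f σ τ * Z f σ τ / (1 + pt σ τ)
      + (1 - c * (w : ℂ) ^ (-(pt σ τ))) * F f σ τ / (1 + pt σ τ) ^ 2
      - c * (Real.log w : ℂ) * (w : ℂ) ^ (-(pt σ τ)) * F f σ τ / (1 + pt σ τ) := by
  have hre : (pt σ τ).re = σ := pt_re σ τ
  set s := pt σ τ with hsdef
  have hs : 0 < s.re := by rw [hre]; exact hσ
  have hs' : (-s).re < 0 := by
    rw [Complex.neg_re]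
    linarith
  have hw0 : 0 < w := by linarith
  have hwne : (w : ℂ) ≠ 0 := by exact_mod_cast hw0.ne'
  have h0 : ∀ v, v < 1 → H f c w v = 0 := by
    intro v hv
    unfold H
    have h1 : v / w < 1 := by
      rw [div_lt_one hw0]
      linarith
    rw [G_zero hv, G_zero h1]
    simp
  have hD := dh_der (measurable_H f c w) (norm_H_le hf.le hc w) h0 hs'
  -- the derivative of `s ↦ mellin H (-s)`
  have hD2 : HasDerivAt (fun z : ℂ => mellin (H f c w) (-z))
      (-(mellin (fun t => Real.log t • H f c w t) (-s))) s := by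
    have h := hD.comp s (hasDerivAt_neg s)
    rw [mul_neg_one] at h
    exact h
  have hlog0 : ∀ v : ℝ, v < 1 → Real.log v • H f c w v = 0 := by
    intro v hv
    rw [h0 v hv, smul_zero]
  have hI := dh_mellin hlog0 s
  have hI2 : ∫ v in Set.Ioi (1:ℝ), (H f c w v * (Real.log v : ℂ)) * (v : ℂ) ^ (-(1 + s)) =
      mellin (fun t => Real.log t • H f c w t) (-s) := by
    rw [hI]
    refine setIntegral_congr_fun measurableSet_Ioi fun v _ => ?_
    simp only [Complex.real_smul]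
    ring
  rw [hI2]
  -- the closed formula
  have h1s : (1 + s) ≠ 0 := by
    intro h
    have := congrArg Complex.re h
    rw [Complex.add_re, Complex.one_re, Complex.zero_re] at this
    linarith
  have habs : LSeries.abscissaOfAbsConv f < ((1 + s).re : EReal) := by
    have h2 : (0:ℝ) < s.re / 2 := by linarith
    have h3 := (summable_CM hf.le h2 0).abscissaOfAbsConv_le
    refine lt_of_le_of_lt h3 ?_
    rw [Complex.add_re, Complex.add_re, pt_re, Complex.one_re]
    exact_mod_cast (by linarith : 1 + s.re / 2 < 1 + s.re)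
  have hL : HasDerivAt (fun z : ℂ => LSeries f (1 + z)) (-(LSeries (LSeries.logMul f) (1 + s))) s :=
    (LSeries_hasDerivAt habs).comp_const_add 1 s
  have hq : HasDerivAt (fun z : ℂ => (1 + z)) 1 s := by
    simpa using (hasDerivAt_id s).const_add 1
  have hw1 : HasDerivAt (fun z : ℂ => (w : ℂ) ^ (-z)) ((w : ℂ) ^ (-s) * Complex.log w * (-1)) s :=
    (hasDerivAt_neg s).const_cpow (Or.inl hwne)
  have hw2 : HasDerivAt (fun z : ℂ => 1 - c * (w : ℂ) ^ (-z))
      (-(c * ((w : ℂ) ^ (-s) * Complex.log w * (-1)))) s := by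
    have := (hw1.const_mul c).const_sub 1
    simpa using this
  have hR : HasDerivAt (fun z : ℂ => (1 - c * (w : ℂ) ^ (-z)) * (LSeries f (1 + z) / (1 + z)))
      (-(c * ((w : ℂ) ^ (-s) * Complex.log w * (-1))) * (LSeries f (1 + s) / (1 + s)) +
        (1 - c * (w : ℂ) ^ (-s)) * ((-(LSeries (LSeries.logMul f) (1 + s)) * (1 + s) -
          LSeries f (1 + s) * 1) / (1 + s) ^ 2)) s := hw2.mul (hL.div hq h1s)
  have hev : (fun z : ℂ => mellin (H f c w) (-z)) =ᶠ[𝓝 s]
      fun z => (1 - c * (w : ℂ) ^ (-z)) * (LSeries f (1 + z) / (1 + z)) := by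
    have hopen : IsOpen {z : ℂ | 0 < z.re} := isOpen_lt continuous_const Complex.continuous_re
    filter_upwards [hopen.mem_nhds hs] with z hz
    exact dh_H hf hw hz
  have hR2 := hR.congr_of_eventuallyEq hev
  have huniq := hD2.unique hR2
  rw [dh_logMul hf hs] at huniq
  have hlogw : Complex.log w = (Real.log w : ℂ) := (Complex.ofReal_log hw0.le).symm
  rw [hlogw] at huniq
  have hfin : mellin (fun t => Real.log t • H f c w t) (-s) = -(-(mellin (fun t => Real.log t • H f c w t) (-s))) := by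
    rw [neg_neg]
  rw [hfin, huniq]
  unfold F Z
  rw [← hsdef]
  field_simp
  ring

end Pool.Agent.Work.MP_2d9442_nt
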