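import Pool.Agent.Work.MP_2d9442_nt.Defs

/-!
# Module Gau: Gauss sums (M)

* `norm_coef_le`: triangle inequality, `φ(k)` terms of norm at most one (for `k = 0` the sum is empty).
* `coef_zero`: `k = q p^l`, `l ≥ 1`, `p ∣ q`; the `b < k` prime to `k` are `b = b₀ + q i`, `b₀ < q`
  prime to `q`, `0 ≤ i < p^l` (`k` and `q` have the same prime factors), `ψ(b) = χ(b) = χ(b₀)` and
  `∑_i e(-i/p^l) = 0` (geometric sum / primitive root of unity).
* `coef_ne`: for primitive `χ` modulo `q`:  if the sum vanished then, by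
  `gaussSum_mulShift_of_isPrimitive` (or `IsPrimitive.fourierTransform_eq_inv_mul_gaussSum`,
  Mathlib.Analysis.Fourier.ZMod) for `χ⁻¹` (primitive: `conductor_inv`), the discrete Fourier transform
  of `conj χ` would vanish identically, hence `conj χ = 0` (`ZMod.dft` is injective), but
  `χ(1) = 1`.  `ee(-b/q) = ZMod.stdAddChar (-b)`.
-/

open Finset MeasureTheory Filter Topology
open ArithmeticFunction (vonMangoldt)

namespace Pool.Agent.Work.MP_2d9442_nt

private theorem Gau_norm_ee (x : ℝ) : ‖ee x‖ = 1 := by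
  unfold ee
  have h : (2 * (Real.pi : ℂ) * (x : ℂ) * Complex.I) = ((2 * Real.pi * x : ℝ) : ℂ) * Complex.I := by
    push_cast
    ring
  rw [h, Complex.norm_exp_ofReal_mul_I]

theorem norm_coef_le {k : ℕ} (ψ : DirichletCharacter ℂ k) : ‖coef ψ‖ ≤ 1 := by
  unfold coef
  rw [norm_div, Complex.norm_natCast]
  have h1 : ‖∑ b ∈ (Finset.range k).filter (fun b => b.Coprime k),
      (starRingEnd ℂ) (ψ (b : ZMod k)) * ee (-(b : ℝ) / k)‖ ≤ (Nat.totient k : ℝ) := by
    refine (norm_sum_le _ _).trans ?_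
    have h2 : ∀ b ∈ (Finset.range k).filter (fun b => b.Coprime k),
        ‖(starRingEnd ℂ) (ψ (b : ZMod k)) * ee (-(b : ℝ) / k)‖ ≤ 1 := by
      intro b _
      rw [norm_mul, RCLike.norm_conj, Gau_norm_ee, mul_one]
      exact DirichletCharacter.norm_le_one ψ _
    refine (Finset.sum_le_card_nsmul _ _ 1 h2).trans ?_
    rw [nsmul_eq_mul, mul_one, Nat.totient]
    have h3 : (Finset.range k).filter (fun b => b.Coprime k) =
        (Finset.range k).filter (fun b => k.Coprime b) := by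
      apply Finset.filter_congr
      intro b _
      exact Nat.coprime_comm
    rw [h3]
  rcases Nat.eq_zero_or_pos (Nat.totient k) with h0 | h0
  · rw [h0, Nat.cast_zero, div_zero]
    exact zero_le_one
  · have h4 : (0 : ℝ) < (Nat.totient k : ℝ) := by exact_mod_cast h0
    rw [div_le_one h4]
    exact h1

private theorem Gau_ee_add (x y : ℝ) : ee (x + y) = ee x * ee y := by
  unfold ee
  rw [← Complex.exp_add]
  congr 1
  push_cast
  ring

private theorem Gau_sum_mul (q P : ℕ) (f : ℕ → ℂ) :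
    ∑ b ∈ Finset.range (q * P), f b =
      ∑ i ∈ Finset.range P, ∑ b ∈ Finset.range q, f (q * i + b) := by
  induction P with
  | zero => simp
  | succ P ih => rw [Nat.mul_succ, Finset.sum_range_add, ih, Finset.sum_range_succ]

private theorem Gau_geom (P : ℕ) (hP : 2 ≤ P) :
    ∑ i ∈ Finset.range P, ee (-(i : ℝ) / P) = 0 := by
  have hP0 : (P : ℂ) ≠ 0 := by
    have : P ≠ 0 := by omega
    exact_mod_cast this
  set ζ : ℂ := ee (-1 / P) with hζ
  have h1 : ∀ i : ℕ, ee (-(i : ℝ) / P) = ζ ^ i := by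
    intro i
    rw [hζ]
    unfold ee
    rw [← Complex.exp_nat_mul]
    congr 1
    push_cast
    ring
  have h2 : ζ ^ P = 1 := by
    rw [← h1]
    unfold ee
    rw [Complex.exp_eq_one_iff]
    refine ⟨-1, ?_⟩
    push_cast
    field_simp
  have h3 : ζ ≠ 1 := by
    intro h4
    rw [hζ] at h4
    unfold ee at h4
    rw [Complex.exp_eq_one_iff] at h4
    obtain ⟨n, hn⟩ := h4
    have hpi : (2 * (Real.pi : ℂ) * Complex.I) ≠ 0 := Complex.two_pi_I_ne_zero
    have h5 : (-1 / (P : ℂ)) = n := by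
      have h6 : (2 * (Real.pi : ℂ) * Complex.I) * (-1 / (P : ℂ)) =
          (2 * (Real.pi : ℂ) * Complex.I) * n := by
        push_cast at hn
        linear_combination hn
      exact mul_left_cancel₀ hpi h6
    have h7 : (-1 : ℂ) = n * P := by
      rw [← h5]
      field_simp
    have h8 : (-1 : ℤ) = n * P := by exact_mod_cast h7
    have h9 : (P : ℤ) ∣ 1 := ⟨-n, by linarith⟩
    have h10 : P ∣ 1 := by exact_mod_cast h9
    have := Nat.dvd_one.1 h10
    omega
  simp only [h1]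
  have h4 := geom_sum_mul ζ P
  rw [h2, sub_self] at h4
  exact (mul_eq_zero.1 h4).resolve_right (sub_ne_zero.2 h3)

private theorem Gau_drop {k : ℕ} (ψ : DirichletCharacter ℂ k) :
    ∑ b ∈ (Finset.range k).filter (fun b => b.Coprime k),
      (starRingEnd ℂ) (ψ (b : ZMod k)) * ee (-(b : ℝ) / k) =
    ∑ b ∈ Finset.range k, (starRingEnd ℂ) (ψ (b : ZMod k)) * ee (-(b : ℝ) / k) := by
  apply Finset.sum_subset (Finset.filter_subset _ _)
  intro b hb hb'
  have h1 : ¬ b.Coprime k := fun h => hb' (Finset.mem_filter.2 ⟨hb, h⟩)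
  rw [MulChar.map_nonunit ψ (by rwa [ZMod.isUnit_iff_coprime]), map_zero, zero_mul]

theorem coef_zero {q p l : ℕ} (hq : 1 ≤ q) (hp : p.Prime) (hpq : p ∣ q) (hl : 1 ≤ l)
    (χ : DirichletCharacter ℂ q) (ψ : DirichletCharacter ℂ (q * p ^ l))
    (h : ∀ n : ℕ, ψ (n : ZMod (q * p ^ l)) = χ (n : ZMod q)) : coef ψ = 0 := by
  have _ := hpq
  have hP : 2 ≤ p ^ l := hp.two_le.trans (Nat.le_self_pow (by omega) p)
  have hq0 : (q : ℝ) ≠ 0 := by
    have : q ≠ 0 := by omega
    exact_mod_cast this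
  have hP0 : ((p ^ l : ℕ) : ℝ) ≠ 0 := by
    have : p ^ l ≠ 0 := by omega
    exact_mod_cast this
  unfold coef
  rw [Gau_drop, Gau_sum_mul]
  have h1 : ∀ i b : ℕ, (starRingEnd ℂ) (ψ ((q * i + b : ℕ) : ZMod (q * p ^ l))) *
      ee (-((q * i + b : ℕ) : ℝ) / ((q * p ^ l : ℕ) : ℝ)) =
      ee (-(i : ℝ) / ((p ^ l : ℕ) : ℝ)) * ((starRingEnd ℂ) (χ (b : ZMod q)) *
        ee (-(b : ℝ) / ((q * p ^ l : ℕ) : ℝ))) := by
    intro i b
    have h2 : ψ ((q * i + b : ℕ) : ZMod (q * p ^ l)) = χ (b : ZMod q) := by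
      rw [h]
      congr 1
      push_cast
      simp
    have h3 : (-((q * i + b : ℕ) : ℝ) / ((q * p ^ l : ℕ) : ℝ)) =
        -(i : ℝ) / ((p ^ l : ℕ) : ℝ) + -(b : ℝ) / ((q * p ^ l : ℕ) : ℝ) := by
      rw [Nat.cast_mul q (p ^ l), Nat.cast_add, Nat.cast_mul q i]
      field_simp
      ring
    rw [h2, h3, Gau_ee_add]
    ring
  have h4 : ∑ i ∈ Finset.range (p ^ l), ∑ b ∈ Finset.range q,
      (starRingEnd ℂ) (ψ ((q * i + b : ℕ) : ZMod (q * p ^ l))) *
      ee (-((q * i + b : ℕ) : ℝ) / ((q * p ^ l : ℕ) : ℝ)) = 0 := by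
    simp only [h1]
    simp only [← Finset.mul_sum]
    rw [← Finset.sum_mul, Gau_geom _ hP, zero_mul]
  rw [h4, zero_div]

theorem coef_ne {q : ℕ} (hq : 1 ≤ q) (χ : DirichletCharacter ℂ q) (hχ : χ.IsPrimitive) :
    coef χ ≠ 0 := by
  have hq0 : NeZero q := ⟨by omega⟩
  intro h0
  unfold coef at h0
  have ht : (Nat.totient q : ℂ) ≠ 0 := by
    have : Nat.totient q ≠ 0 := (Nat.totient_pos.2 (by omega)).ne'
    exact_mod_cast this
  rw [div_eq_zero_iff] at h0
  have h1 := h0.resolve_right ht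
  rw [Gau_drop] at h1
  have hconj : ∀ a : ZMod q, (starRingEnd ℂ) (χ a) = χ⁻¹ a := by
    intro a
    exact MulChar.star_apply' χ a
  have h2 : ∑ b ∈ Finset.range q, (starRingEnd ℂ) (χ (b : ZMod q)) * ee (-(b : ℝ) / q) =
      ZMod.dft (fun j : ZMod q => χ⁻¹ j) 1 := by
    rw [ZMod.dft_apply]
    refine Finset.sum_nbij' (fun b : ℕ => (b : ZMod q)) (fun j : ZMod q => j.val) ?_ ?_ ?_ ?_ ?_
    · intro b _
      exact Finset.mem_univ _
    · intro j _
      exact Finset.mem_range.2 (ZMod.val_lt j)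
    · intro b hb
      exact ZMod.val_natCast_of_lt (Finset.mem_range.1 hb)
    · intro j _
      exact ZMod.natCast_zmod_val j
    · intro b _
      have h3 : ZMod.stdAddChar (-((b : ZMod q) * 1)) = ee (-(b : ℝ) / q) := by
        have h4 : (-((b : ZMod q) * 1)) = ((-(b : ℤ) : ℤ) : ZMod q) := by
          push_cast
          ring
        rw [h4, ZMod.stdAddChar_coe]
        unfold ee
        congr 1
        push_cast
        ring
      rw [h3, hconj, smul_eq_mul, mul_comm]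
  rw [h2] at h1
  have hprim : (χ⁻¹).IsPrimitive := by
    rw [DirichletCharacter.isPrimitive_def, DirichletCharacter.conductor_inv]
    exact hχ
  have h5 : ∀ k : ZMod q, ZMod.dft (fun j : ZMod q => χ⁻¹ j) k =
      (χ⁻¹)⁻¹ (-k) * gaussSum χ⁻¹ ZMod.stdAddChar := by
    intro k
    exact DirichletCharacter.IsPrimitive.fourierTransform_eq_inv_mul_gaussSum hprim k
  have h6 : gaussSum χ⁻¹ (ZMod.stdAddChar (N := q)) = 0 := by
    rw [h5] at h1
    rcases mul_eq_zero.1 h1 with h7 | h7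
    · exfalso
      have h8 : IsUnit (-1 : ZMod q) := isUnit_one.neg
      have h9 : IsUnit ((χ⁻¹)⁻¹ (-1 : ZMod q)) := h8.map _
      rw [h7] at h9
      exact not_isUnit_zero h9
    · exact h7
  have h7 : ZMod.dft (fun j : ZMod q => χ⁻¹ j) = 0 := by
    funext k
    rw [h5, h6, mul_zero]
    rfl
  have h8 : (fun j : ZMod q => χ⁻¹ j) = 0 := (LinearEquiv.map_eq_zero_iff _).1 h7
  have h9 := congrFun h8 1
  simp only [map_one, Pi.zero_apply, one_ne_zero] at h9

end Pool.Agent.Work.MP_2d9442_nt
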