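import Pool.Agent.Work.MP_2d9442_nt.Expand
import Pool.Agent.Work.MP_2d9442_nt.Cond
import Pool.Agent.Work.MP_2d9442_nt.Gau

/-!
# Module EMain: the main term of an exponential sum at a fraction (M)

Apply `expand` with `r = q p^j`.  For `d k = r`, `ψ` modulo `k`:
* if `¬ Same χ ψ`: the term is at most `‖z_d‖ ‖coef ψ‖ E N/d ≤ E N/d` (`norm_coef_le`), and there are
  at most `φ(k) ≤ r/d` characters (`DirichletCharacter.card_eq_totient_of_hasEnoughRootsOfUnity`,
  `Nat.card`), so all these terms together are at most `∑_{d ∣ r} (r/d)(E N/d) ≤ E N r ∑ 1/d² ≤ 2 E N r`;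
* if `Same χ ψ`: `q ∣ k` (`cond_dvd`), `k ∣ q p^j`, so `k = q p^l` with `l ≤ j` and `d = p^(j-l)`
  (if `j = 0`: `k = q`, `d = 1`), and `ψ = χ` on all integers (`cond_eq`; the prime factors of `k`
  divide `q`); if `l ≥ 1` then (`p ∣ q`, because `j ≥ 1`) `coef ψ = 0` (`coef_zero`); if `l = 0` then
  `k = q`, `ψ = χ` (a character is determined by its values at naturals), `d = p^j`, and the term is
  the main term.  Conversely `d = p^j`, `ψ = χ` occurs exactly once (`Same χ χ`).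
The sum over characters is a `finsum` over a finite type (`DirichletCharacter ℂ k`, `k ≠ 0`):
`finsum_eq_sum_of_fintype`.
-/

open Finset MeasureTheory Filter Topology
open ArithmeticFunction (vonMangoldt)

namespace Pool.Agent.Work.MP_2d9442_nt

private theorem EMain_sq_sum (n : ℕ) (hn : 1 ≤ n) :
    ∑ d ∈ Finset.Icc 1 n, (1 : ℝ) / (d : ℝ) ^ 2 ≤ 2 - 1 / (n : ℝ) := by
  induction n, hn using Nat.le_induction with
  | base => norm_num
  | succ n hn ih =>
    rw [Finset.sum_Icc_succ_top (by omega)]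
    have hn0 : (0 : ℝ) < n := by exact_mod_cast hn
    have h1 : (1 : ℝ) / ((n + 1 : ℕ) : ℝ) ^ 2 ≤ 1 / (n : ℝ) - 1 / ((n + 1 : ℕ) : ℝ) := by
      push_cast
      rw [div_sub_div _ _ hn0.ne' (by positivity), div_le_div_iff₀ (by positivity) (by positivity)]
      nlinarith
    linarith

private theorem EMain_divisors (r : ℕ) (hr : 1 ≤ r) :
    ∑ d ∈ r.divisors, (1 : ℝ) / (d : ℝ) ^ 2 ≤ 2 := by
  have h1 : ∑ d ∈ r.divisors, (1 : ℝ) / (d : ℝ) ^ 2 ≤
      ∑ d ∈ Finset.Icc 1 r, (1 : ℝ) / (d : ℝ) ^ 2 := by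
    apply Finset.sum_le_sum_of_subset_of_nonneg
    · intro d hd
      have h2 := Nat.mem_divisors.1 hd
      exact Finset.mem_Icc.2 ⟨Nat.pos_of_dvd_of_pos h2.1 (by omega), Nat.le_of_dvd (by omega) h2.1⟩
    · intro d _ _
      positivity
  have h2 := EMain_sq_sum r hr
  have h3 : (0 : ℝ) ≤ 1 / (r : ℝ) := by positivity
  linarith

private theorem EMain_ext {q : ℕ} (hq : 1 ≤ q) {χ ψ : DirichletCharacter ℂ q}
    (h : ∀ n : ℕ, ψ (n : ZMod q) = χ (n : ZMod q)) : ψ = χ := by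
  have hq0 : NeZero q := ⟨by omega⟩
  apply MulChar.ext
  intro a
  have h1 := h (a : ZMod q).val
  rw [ZMod.natCast_zmod_val] at h1
  exact h1

open Classical in
private theorem EMain_same {z : ℕ → ℂ} {q p j N : ℕ} (hq : 1 ≤ q) (hp : p.Prime)
    (hpq : p ∣ q ∨ j = 0) (χ : DirichletCharacter ℂ q) (hχ : χ.IsPrimitive) (d k : ℕ)
    (hdk : d * k = q * p ^ j) :
    ∑ ψ ∈ (Finset.univ : Finset (DirichletCharacter ℂ k)).filter (fun ψ => Same χ ψ),
      coef ψ * S (tw z ψ) ((N : ℝ) / d) =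
      if d = p ^ j then coef χ * S (tw z χ) ((N : ℝ) / (p ^ j : ℕ)) else 0 := by
  have hpj : 0 < p ^ j := pow_pos hp.pos j
  have hr : 0 < q * p ^ j := Nat.mul_pos (by omega) hpj
  have hk : 1 ≤ k := by
    rcases Nat.eq_zero_or_pos k with h | h
    · rw [h, mul_zero] at hdk
      omega
    · exact h
  split_ifs with hd
  · have hkq : k = q := by
      rw [hd, mul_comm] at hdk
      exact Nat.eq_of_mul_eq_mul_right hpj hdk
    subst hkq
    have h1 : (Finset.univ : Finset (DirichletCharacter ℂ k)).filter (fun ψ => Same χ ψ) =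
        {χ} := by
      ext ψ
      rw [Finset.mem_filter, Finset.mem_singleton]
      constructor
      · rintro ⟨-, h⟩
        exact EMain_ext hq (cond_eq hq hk χ ψ hχ h (fun p _ hp => hp))
      · rintro rfl
        exact ⟨Finset.mem_univ _, fun n _ => rfl⟩
    rw [h1, Finset.sum_singleton, hd]
  · refine Finset.sum_eq_zero (fun ψ hψ => ?_)
    have hs : Same χ ψ := (Finset.mem_filter.1 hψ).2
    obtain ⟨m, rfl⟩ := cond_dvd hq hk χ ψ hχ hs
    have h1 : d * m = p ^ j := by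
      have h2 : q * (d * m) = q * p ^ j := by
        rw [← hdk]
        ring
      exact Nat.eq_of_mul_eq_mul_left (by omega) h2
    obtain ⟨l, hl, rfl⟩ := (Nat.dvd_prime_pow hp).1 (Dvd.intro_left d h1)
    have hl1 : 1 ≤ l := by
      rcases Nat.eq_zero_or_pos l with h | h
      · exfalso
        apply hd
        rw [h, pow_zero, mul_one] at h1
        exact h1
      · exact h
    have hpq' : p ∣ q := hpq.resolve_right (by omega)
    have h2 : coef ψ = 0 := by
      refine coef_zero hq hp hpq' hl1 χ ψ (cond_eq hq hk χ ψ hχ hs ?_)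
      intro p' hp' hdvd
      rcases (Nat.Prime.dvd_mul hp').1 hdvd with h | h
      · exact h
      · have h3 := hp'.dvd_of_dvd_pow h
        rw [(Nat.prime_dvd_prime_iff_eq hp' hp).1 h3]
        exact hpq'
    rw [h2, zero_mul]

open Classical in
private theorem EMain_diff {z : ℕ → ℂ} {q N : ℕ}
    (χ : DirichletCharacter ℂ q) {E : ℝ} (hE : 0 ≤ E) (d k : ℕ) (hk : 1 ≤ k)
    (h : ∀ (ψ : DirichletCharacter ℂ k), ¬ Same χ ψ →
      ‖S (tw z ψ) ((N : ℝ) / d)‖ ≤ E * ((N : ℝ) / d)) :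
    ‖∑ ψ ∈ (Finset.univ : Finset (DirichletCharacter ℂ k)).filter (fun ψ => ¬ Same χ ψ),
      coef ψ * S (tw z ψ) ((N : ℝ) / d)‖ ≤ (k : ℝ) * (E * ((N : ℝ) / d)) := by
  have hk0 : NeZero k := ⟨by omega⟩
  have hnn : 0 ≤ E * ((N : ℝ) / d) := by positivity
  refine (norm_sum_le _ _).trans ?_
  have h1 : ∀ ψ ∈ (Finset.univ : Finset (DirichletCharacter ℂ k)).filter (fun ψ => ¬ Same χ ψ),
      ‖coef ψ * S (tw z ψ) ((N : ℝ) / d)‖ ≤ E * ((N : ℝ) / d) := by
    intro ψ hψ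
    rw [norm_mul]
    have h2 := h ψ (Finset.mem_filter.1 hψ).2
    have h3 := norm_coef_le ψ
    calc ‖coef ψ‖ * ‖S (tw z ψ) ((N : ℝ) / d)‖ ≤ 1 * ‖S (tw z ψ) ((N : ℝ) / d)‖ :=
          mul_le_mul_of_nonneg_right h3 (norm_nonneg _)
      _ ≤ E * ((N : ℝ) / d) := by rw [one_mul]; exact h2
  refine (Finset.sum_le_card_nsmul _ _ _ h1).trans ?_
  rw [nsmul_eq_mul]
  refine mul_le_mul_of_nonneg_right ?_ hnn
  have h4 : ((Finset.univ : Finset (DirichletCharacter ℂ k)).filter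
      (fun ψ => ¬ Same χ ψ)).card ≤ k := by
    refine (Finset.card_filter_le _ _).trans ?_
    rw [Finset.card_univ, ← Nat.card_eq_fintype_card,
      DirichletCharacter.card_eq_totient_of_hasEnoughRootsOfUnity ℂ k]
    exact Nat.totient_le k
  exact_mod_cast h4

theorem eMain {z : ℕ → ℂ} (hz : UM z) {q p j N : ℕ} (hq : 1 ≤ q) (hp : p.Prime)
    (hpq : p ∣ q ∨ j = 0) (χ : DirichletCharacter ℂ q) (hχ : χ.IsPrimitive) {E : ℝ} (hE : 0 ≤ E)
    (h : ∀ (d k : ℕ) (ψ : DirichletCharacter ℂ k), d * k = q * p ^ j → ¬ Same χ ψ →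
      ‖S (tw z ψ) ((N : ℝ) / d)‖ ≤ E * ((N : ℝ) / d)) :
    ‖∑ n ∈ Finset.Icc 1 N, z n * ee (-(n : ℝ) / (q * p ^ j : ℕ)) -
      z (p ^ j) * coef χ * S (tw z χ) ((N : ℝ) / (p ^ j : ℕ))‖ ≤
        2 * E * N * (q * p ^ j : ℕ) := by
  classical
  have hpj : 0 < p ^ j := pow_pos hp.pos j
  have hr : 1 ≤ q * p ^ j := Nat.mul_pos (by omega) hpj
  rw [expand hz.cm hr N]
  set r : ℕ := q * p ^ j with hrdef
  -- split each inner sum
  have h1 : ∀ d ∈ r.divisors, z d * ∑ᶠ ψ : DirichletCharacter ℂ (r / d),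
        coef ψ * S (tw z ψ) ((N : ℝ) / d) =
      (if d = p ^ j then z (p ^ j) * coef χ * S (tw z χ) ((N : ℝ) / (p ^ j : ℕ)) else 0) +
      z d * ∑ ψ ∈ (Finset.univ : Finset (DirichletCharacter ℂ (r / d))).filter
        (fun ψ => ¬ Same χ ψ), coef ψ * S (tw z ψ) ((N : ℝ) / d) := by
    intro d hd
    have hdr := (Nat.mem_divisors.1 hd).1
    have hdk : d * (r / d) = q * p ^ j := Nat.mul_div_cancel' hdr
    rw [finsum_eq_sum_of_fintype, ← Finset.sum_filter_add_sum_filter_not Finset.univ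
      (fun ψ : DirichletCharacter ℂ (r / d) => Same χ ψ),
      EMain_same hq hp hpq χ hχ d (r / d) hdk, mul_add]
    congr 1
    split_ifs with h2
    · rw [h2, mul_assoc]
    · rw [mul_zero]
  rw [Finset.sum_congr rfl h1, Finset.sum_add_distrib, Finset.sum_ite_eq', if_pos
    (Nat.mem_divisors.2 ⟨Dvd.intro_left q rfl, by omega⟩), add_sub_cancel_left]
  refine (norm_sum_le _ _).trans ?_
  have h2 : ∀ d ∈ r.divisors, ‖z d * ∑ ψ ∈ (Finset.univ :
      Finset (DirichletCharacter ℂ (r / d))).filter (fun ψ => ¬ Same χ ψ),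
        coef ψ * S (tw z ψ) ((N : ℝ) / d)‖ ≤ (E * N * r) * (1 / (d : ℝ) ^ 2) := by
    intro d hd
    have hdr := (Nat.mem_divisors.1 hd).1
    have hd0 : 0 < d := Nat.pos_of_dvd_of_pos hdr (by omega)
    have hdk : d * (r / d) = q * p ^ j := Nat.mul_div_cancel' hdr
    have hk : 1 ≤ r / d := Nat.div_pos (Nat.le_of_dvd (by omega) hdr) hd0
    have h3 := EMain_diff (z := z) (N := N) χ hE d (r / d) hk (fun ψ hψ => h d (r / d) ψ hdk hψ)
    rw [norm_mul]
    have hd0' : (d : ℝ) ≠ 0 := by exact_mod_cast hd0.ne'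
    calc ‖z d‖ * ‖∑ ψ ∈ (Finset.univ :
          Finset (DirichletCharacter ℂ (r / d))).filter (fun ψ => ¬ Same χ ψ),
          coef ψ * S (tw z ψ) ((N : ℝ) / d)‖
        ≤ 1 * (((r / d : ℕ) : ℝ) * (E * ((N : ℝ) / d))) :=
          mul_le_mul (hz.cm.le d) h3 (norm_nonneg _) zero_le_one
      _ = (E * N * r) * (1 / (d : ℝ) ^ 2) := by
          rw [Nat.cast_div hdr hd0', one_mul]
          field_simp
  refine (Finset.sum_le_sum h2).trans ?_
  rw [← Finset.mul_sum]
  have h3 := EMain_divisors r hr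
  have h4 : 0 ≤ E * N * r := by positivity
  calc (E * N * r) * ∑ d ∈ r.divisors, (1 : ℝ) / (d : ℝ) ^ 2 ≤ (E * N * r) * 2 :=
        mul_le_mul_of_nonneg_left h3 h4
    _ = 2 * E * N * r := by ring

end Pool.Agent.Work.MP_2d9442_nt
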