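import Pool.Agent.Work.MP_2d9442_nt.HB

open Finset MeasureTheory Filter Topology
open ArithmeticFunction (vonMangoldt)

namespace Pool.Agent.Work.MP_2d9442_nt

private theorem Tri_prime {x : ℝ} {p : ℕ} (hp : p ∈ P x) : 1 ≤ p := by
  unfold P at hp
  rw [Finset.mem_filter, Finset.mem_Icc] at hp
  exact hp.1.1

private theorem Tri_re {f : ℕ → ℂ} (hf : ∀ n, ‖f n‖ ≤ 1) (τ : ℝ) (p : ℕ) :
    (f p * tws τ p).re ≤ 1 := by
  calc (f p * tws τ p).re ≤ ‖f p * tws τ p‖ := Complex.re_le_norm _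
    _ = ‖f p‖ * ‖tws τ p‖ := norm_mul _ _
    _ ≤ 1 := mul_le_one₀ (hf p) (norm_nonneg _) (norm_tws_le τ p)

theorem D2_nonneg {f : ℕ → ℂ} (hf : ∀ n, ‖f n‖ ≤ 1) (τ x : ℝ) : 0 ≤ D2 f τ x := by
  unfold D2
  refine Finset.sum_nonneg fun p _ => div_nonneg ?_ (by positivity)
  linarith [Tri_re hf τ p]

theorem D2_mono {f : ℕ → ℂ} (hf : ∀ n, ‖f n‖ ≤ 1) (τ : ℝ) {x y : ℝ} (hxy : x ≤ y) :
    D2 f τ x ≤ D2 f τ y := by
  unfold D2
  refine Finset.sum_le_sum_of_subset_of_nonneg ?_ fun p _ _ => div_nonneg ?_ (by positivity)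
  · unfold P
    exact Finset.filter_subset_filter _ (Finset.Icc_subset_Icc_right (Nat.floor_le_floor hxy))
  · linarith [Tri_re hf τ p]

/-- for unimodular `α` and `‖c‖ ≤ 1` -/
private theorem Tri_aux {α c : ℂ} (hα : ‖α‖ = 1) (hc : ‖c‖ ≤ 1) :
    ‖α - c‖ ^ 2 ≤ 2 * (1 - (c * (starRingEnd ℂ) α).re) := by
  have h1 : ‖α - c‖ ^ 2 = ‖α‖ ^ 2 + ‖c‖ ^ 2 - 2 * (c * (starRingEnd ℂ) α).re := by
    rw [← Complex.normSq_eq_norm_sq, ← Complex.normSq_eq_norm_sq, ← Complex.normSq_eq_norm_sq,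
      Complex.normSq_sub]
    have : (α * (starRingEnd ℂ) c).re = (c * (starRingEnd ℂ) α).re := by
      simp only [Complex.mul_re, Complex.conj_re, Complex.conj_im]
      ring
    rw [this]
  rw [h1, hα]
  have : ‖c‖ ^ 2 ≤ 1 := by
    have := norm_nonneg c
    nlinarith
  nlinarith

private theorem Tri_aux2 {α β : ℂ} (hα : ‖α‖ = 1) (hβ : ‖β‖ = 1) :
    2 * (1 - (α * (starRingEnd ℂ) β).re) = ‖α - β‖ ^ 2 := by
  have h1 : ‖α - β‖ ^ 2 = ‖α‖ ^ 2 + ‖β‖ ^ 2 - 2 * (α * (starRingEnd ℂ) β).re := by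
    rw [← Complex.normSq_eq_norm_sq, ← Complex.normSq_eq_norm_sq, ← Complex.normSq_eq_norm_sq,
      Complex.normSq_sub]
  rw [h1, hα, hβ]
  ring

private theorem Tri_tri (a b c : ℂ) : ‖a - b‖ ^ 2 ≤ 2 * ‖a - c‖ ^ 2 + 2 * ‖b - c‖ ^ 2 := by
  have h1 : ‖a - b‖ ≤ ‖a - c‖ + ‖b - c‖ := by
    calc ‖a - b‖ = ‖(a - c) - (b - c)‖ := by congr 1; ring
      _ ≤ _ := norm_sub_le _ _
  have h2 := norm_nonneg (a - b)
  have h3 := norm_nonneg (a - c)
  have h4 := norm_nonneg (b - c)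
  nlinarith [sq_nonneg (‖a - c‖ - ‖b - c‖)]

private theorem Tri_twsneg (τ : ℝ) {p : ℕ} (hp : 1 ≤ p) :
    (starRingEnd ℂ) (tws τ p) = tws (-τ) p := by
  have hp0 : (p:ℂ) ≠ 0 := by
    have : p ≠ 0 := by omega
    exact_mod_cast this
  have h1 : tws τ p * tws (-τ) p = 1 := by
    unfold tws
    rw [← Complex.cpow_add _ _ hp0]
    have : -((τ:ℂ) * Complex.I) + -(((-τ : ℝ) : ℂ) * Complex.I) = 0 := by push_cast; ring
    rw [this, Complex.cpow_zero]
  have h2 : tws τ p * (starRingEnd ℂ) (tws τ p) = 1 := by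
    rw [Complex.mul_conj, Complex.normSq_eq_norm_sq, norm_tws τ hp]
    norm_num
  have h3 : tws τ p ≠ 0 := by
    intro h
    rw [h] at h1
    simp at h1
  exact mul_left_cancel₀ h3 (h2.trans h1.symm)

private theorem Tri_twsadd (τ t : ℝ) {p : ℕ} (hp : 1 ≤ p) :
    tws (τ - t) p = tws τ p * tws (-t) p := by
  have hp0 : (p:ℂ) ≠ 0 := by
    have : p ≠ 0 := by omega
    exact_mod_cast this
  unfold tws
  rw [← Complex.cpow_add _ _ hp0]
  congr 1
  push_cast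
  ring

theorem tri_one {f : ℕ → ℂ} (hf : ∀ n, ‖f n‖ ≤ 1) (τ t x : ℝ) :
    D2 oneF (τ - t) x ≤ 2 * D2 f τ x + 2 * D2 f t x := by
  unfold D2
  rw [Finset.mul_sum, Finset.mul_sum, ← Finset.sum_add_distrib]
  refine Finset.sum_le_sum fun p hp => ?_
  have hp1 := Tri_prime hp
  have hp0 : (0:ℝ) < p := by exact_mod_cast hp1
  have e0 : oneF p = 1 := by
    have : p ≠ 0 := by omega
    simp [oneF, this]
  -- unimodular numbers
  set α := tws (-τ) p with hα
  set β := tws (-t) p with hβ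
  have nα : ‖α‖ = 1 := norm_tws _ hp1
  have nβ : ‖β‖ = 1 := norm_tws _ hp1
  have cα : (starRingEnd ℂ) α = tws τ p := by rw [hα, Tri_twsneg _ hp1, neg_neg]
  have cβ : (starRingEnd ℂ) β = tws t p := by rw [hβ, Tri_twsneg _ hp1, neg_neg]
  have h1 := Tri_aux nα (hf p)
  have h2 := Tri_aux nβ (hf p)
  rw [cα] at h1
  rw [cβ] at h2
  have h3 := Tri_aux2 nβ nα
  have h4 := Tri_tri β α (f p)
  have h5 : oneF p * tws (τ - t) p = β * (starRingEnd ℂ) α := by
    rw [e0, one_mul, cα, Tri_twsadd τ t hp1, hβ, mul_comm]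
  rw [h5]
  have h6 : 1 - (β * (starRingEnd ℂ) α).re ≤
      2 * (1 - (f p * tws τ p).re) + 2 * (1 - (f p * tws t p).re) := by linarith
  calc (1 - (β * (starRingEnd ℂ) α).re) / (p:ℝ) ≤
      (2 * (1 - (f p * tws τ p).re) + 2 * (1 - (f p * tws t p).re)) / p := by gcongr
    _ = _ := by ring

theorem tri_tw {z : ℕ → ℂ} (hz : UM z) {q k : ℕ} (χ : DirichletCharacter ℂ q)
    (ψ : DirichletCharacter ℂ k) (τ t x : ℝ) :
    D2 (hc χ ψ) (τ - t) x ≤ 2 * D2 (tw z ψ) τ x + 2 * D2 (tw z χ) t x := by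
  unfold D2
  rw [Finset.mul_sum, Finset.mul_sum, ← Finset.sum_add_distrib]
  refine Finset.sum_le_sum fun p hp => ?_
  have hp1 := Tri_prime hp
  have hp0 : (0:ℝ) < p := by exact_mod_cast hp1
  have hpn : p ≠ 0 := by omega
  have zp : ‖z p‖ = 1 := hz.norm p hp1
  have b1 : (tw z ψ p * tws τ p).re ≤ 1 := Tri_re (CM_tw hz.cm ψ).le τ p
  have b2 : (tw z χ p * tws t p).re ≤ 1 := Tri_re (CM_tw hz.cm χ).le t p
  have key : 1 - (hc χ ψ p * tws (τ - t) p).re ≤
      2 * (1 - (tw z ψ p * tws τ p).re) + 2 * (1 - (tw z χ p * tws t p).re) := by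
    by_cases hχ : χ (p : ZMod q) = 0
    · have e1 : hc χ ψ p = 0 := by simp [hc, hχ]
      have e2 : tw z χ p = 0 := by simp [tw, hχ]
      rw [e1, e2]
      simp only [zero_mul, Complex.zero_re, sub_zero]
      linarith
    by_cases hψ : ψ (p : ZMod k) = 0
    · have e1 : hc χ ψ p = 0 := by simp [hc, hψ]
      have e2 : tw z ψ p = 0 := by simp [tw, hψ]
      rw [e1, e2]
      simp only [zero_mul, Complex.zero_re, sub_zero]
      linarith
    have nχ : ‖χ (p : ZMod q)‖ = 1 := by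
      have hu : IsUnit (p : ZMod q) := by
        by_contra h
        exact hχ (χ.map_nonunit h)
      obtain ⟨v, hv⟩ := hu
      rw [← hv]
      exact DirichletCharacter.unit_norm_eq_one χ v
    have nψ : ‖ψ (p : ZMod k)‖ = 1 := by
      have hu : IsUnit (p : ZMod k) := by
        by_contra h
        exact hψ (ψ.map_nonunit h)
      obtain ⟨v, hv⟩ := hu
      rw [← hv]
      exact DirichletCharacter.unit_norm_eq_one ψ v
    set a := tw z χ p * tws t p with ha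
    set b := tw z ψ p * tws τ p with hb
    have na : ‖a‖ = 1 := by rw [ha, norm_mul, tw, norm_mul, zp, nχ, norm_tws t hp1]; norm_num
    have nb : ‖b‖ = 1 := by rw [hb, norm_mul, tw, norm_mul, zp, nψ, norm_tws τ hp1]; norm_num
    have e1 : hc χ ψ p * tws (τ - t) p = b * (starRingEnd ℂ) a := by
      rw [ha, hb, map_mul, Tri_twsneg t hp1, Tri_twsadd τ t hp1]
      simp only [hc, hpn, if_false, tw, map_mul]
      have hzz : z p * (starRingEnd ℂ) (z p) = 1 := by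
        rw [Complex.mul_conj, Complex.normSq_eq_norm_sq, zp]; norm_num
      calc (starRingEnd ℂ) (χ (p : ZMod q)) * ψ (p : ZMod k) * (tws τ p * tws (-t) p) =
          (starRingEnd ℂ) (χ (p : ZMod q)) * ψ (p : ZMod k) * (tws τ p * tws (-t) p) * 1 := by ring
        _ = (starRingEnd ℂ) (χ (p : ZMod q)) * ψ (p : ZMod k) * (tws τ p * tws (-t) p) *
            (z p * (starRingEnd ℂ) (z p)) := by rw [hzz]
        _ = _ := by ring
    rw [e1]
    have h1 := Tri_aux2 nb na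
    have h2 := Tri_tri b a 1
    have h3 := Tri_aux2 nb (norm_one (α := ℂ))
    have h4 := Tri_aux2 na (norm_one (α := ℂ))
    rw [map_one, mul_one] at h3 h4
    linarith
  calc (1 - (hc χ ψ p * tws (τ - t) p).re) / (p:ℝ) ≤
      (2 * (1 - (tw z ψ p * tws τ p).re) + 2 * (1 - (tw z χ p * tws t p).re)) / p := by gcongr
    _ = _ := by ring

end Pool.Agent.Work.MP_2d9442_nt
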