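import Pool.Agent.Work.MP_2d9442_nt.NonPr
import Pool.Agent.Work.MP_2d9442_nt.EMain
import Pool.Agent.Work.MP_2d9442_nt.SumP
import Pool.Agent.Work.MP_2d9442_nt.Tri

/-!
# The exponential sums at fractions of a function pretending to be a twisted character
-/

open Finset MeasureTheory Filter Topology
open ArithmeticFunction (vonMangoldt)

namespace Pool.Agent.Work.MP_2d9442_nt

theorem eMainC (T C0 : ℝ) (q : ℕ) (hq : 1 ≤ q) : ∃ C x0 : ℝ, 0 < C ∧ 3 ≤ x0 ∧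
    ∀ (z : ℕ → ℂ) (χ : DirichletCharacter ℂ q) (t : ℝ) (N M p j : ℕ), UM z → χ.IsPrimitive →
    p.Prime → (p ∣ q ∨ j = 0) → x0 ≤ √(N : ℝ) → |t| ≤ T → D2 (tw z χ) t N ≤ C0 → M ≤ N →
    √(N : ℝ) * (q * p ^ j : ℕ) ≤ M → 2 * ((q * p ^ j : ℕ) : ℝ) ≤ Real.log N →
    ‖∑ n ∈ Finset.Icc 1 M, z n * ee (-(n : ℝ) / (q * p ^ j : ℕ)) -
      z (p ^ j) * coef χ * S (tw z χ) ((M : ℝ) / (p ^ j : ℕ))‖ ≤
        C * Real.log N ^ (-(1 / 48) : ℝ) * M * (q * p ^ j : ℕ) := by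
  obtain ⟨C, x0, hC, hx0, h⟩ := nonPr T C0 q hq
  refine ⟨4 * C, x0, by positivity, hx0, ?_⟩
  intro z χ t N M p j hz hχ hp hpq hN ht hD hMN hM hlog
  have hNpos : (0:ℝ) < N := by
    have : 0 < √(N:ℝ) := by linarith
    exact Real.sqrt_pos.1 this
  have hr1 : 1 ≤ q * p ^ j := Nat.one_le_iff_ne_zero.2 (by
    have := hp.pos
    positivity)
  have hr1R : (1:ℝ) ≤ (q * p ^ j : ℕ) := by exact_mod_cast hr1
  have hL2 : 2 ≤ Real.log N := by linarith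
  have hL0 : 0 < Real.log N := by linarith
  have hE := eMain hz (N := M) hq hp hpq χ hχ (E := 2 * C * Real.log N ^ (-(1 / 48) : ℝ))
    (by positivity) ?_
  · refine hE.trans (le_of_eq ?_)
    ring
  intro d k ψ hdk hsame
  have hd1 : 1 ≤ d := Nat.one_le_iff_ne_zero.2 (by rintro rfl; omega)
  have hk1 : 1 ≤ k := Nat.one_le_iff_ne_zero.2 (by rintro rfl; omega)
  have hd0 : (0:ℝ) < d := by exact_mod_cast hd1
  have hdr : d ≤ q * p ^ j := hdk ▸ Nat.le_mul_of_pos_right d hk1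
  have hkr : k ≤ q * p ^ j := hdk ▸ Nat.le_mul_of_pos_left k hd1
  have hdrR : (d:ℝ) ≤ (q * p ^ j : ℕ) := by exact_mod_cast hdr
  have hkrR : (k:ℝ) ≤ (q * p ^ j : ℕ) := by exact_mod_cast hkr
  have hs0 : 0 < √(N:ℝ) := Real.sqrt_pos.2 hNpos
  have hxs : √(N:ℝ) ≤ (M:ℝ) / d := by
    rw [le_div_iff₀ hd0]
    calc √(N:ℝ) * d ≤ √(N:ℝ) * (q * p ^ j : ℕ) := by gcongr
      _ ≤ M := hM
  have hxN : (M:ℝ) / d ≤ N := by
    have h1 : (M:ℝ) ≤ N := by exact_mod_cast hMN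
    have h2 : (1:ℝ) ≤ d := by exact_mod_cast hd1
    calc (M:ℝ) / d ≤ M / 1 := by gcongr
      _ ≤ N := by linarith
  have hlogx : Real.log N / 2 ≤ Real.log ((M:ℝ) / d) := by
    rw [← Real.log_sqrt hNpos.le]
    exact Real.log_le_log hs0 hxs
  have h1 := h z χ t ((M:ℝ) / d) hz (hN.trans hxs) ht
    ((D2_mono (CM_tw hz.cm χ).le t hxN).trans hD) k ψ hk1 (by linarith) hsame
  refine h1.trans ?_
  have h2 : Real.log ((M:ℝ) / d) ^ (-(1 / 48) : ℝ) ≤ 2 * Real.log N ^ (-(1 / 48) : ℝ) := by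
    calc Real.log ((M:ℝ) / d) ^ (-(1 / 48) : ℝ) ≤ (Real.log N / 2) ^ (-(1 / 48) : ℝ) :=
          Real.rpow_le_rpow_of_nonpos (by positivity) hlogx (by norm_num)
      _ = Real.log N ^ (-(1 / 48) : ℝ) / (2:ℝ) ^ (-(1 / 48) : ℝ) := by
          rw [Real.div_rpow hL0.le (by norm_num)]
      _ = Real.log N ^ (-(1 / 48) : ℝ) * (2:ℝ) ^ (1 / 48 : ℝ) := by
          rw [Real.rpow_neg (by norm_num : (0:ℝ) ≤ 2), div_inv_eq_mul]
      _ ≤ Real.log N ^ (-(1 / 48) : ℝ) * (2:ℝ) ^ (1 : ℝ) := by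
          gcongr
          · norm_num
          · norm_num
      _ = 2 * Real.log N ^ (-(1 / 48) : ℝ) := by rw [Real.rpow_one]; ring
  have hx0' : 0 ≤ (M:ℝ) / d := by positivity
  calc C * ((M:ℝ) / d) * Real.log ((M:ℝ) / d) ^ (-(1 / 48) : ℝ)
      ≤ C * ((M:ℝ) / d) * (2 * Real.log N ^ (-(1 / 48) : ℝ)) := by gcongr
    _ = 2 * C * Real.log N ^ (-(1 / 48) : ℝ) * ((M:ℝ) / d) := by ring

end Pool.Agent.Work.MP_2d9442_nt
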