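import Pool.Agent.Work.MP_2d9442_nt.HB

/-!
# Module Expand: expansion of an additive character in Dirichlet characters (M)

(1) For `k ≥ 1` and `m` prime to `k`: `e(-m/k) = ∑_{ψ mod k} coef ψ · ψ(m)`: insert the definition
of `coef`, exchange, `∑_ψ conj ψ(b) ψ(m) = φ(k) [b = m mod k]` (`DirichletCharacter.sum_char_inv_mul_char_eq`).
For `m` not prime to `k` the right-hand side is `0`.
(2) Split `1 ≤ n ≤ N` by `d = gcd(n, r)`, `n = d m`, `k = r/d`, `gcd(m, k) = 1`, `1 ≤ m ≤ N/d`: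
`z_n e(-n/r) = z_d z_m e(-m/k) = z_d ∑_ψ coef ψ (tw z ψ)(m)`; for `m` not prime to `k` the terms
`tw z ψ m` vanish, so the sum over `m` may be taken over all `1 ≤ m ≤ N/d` (`⌊(N:ℝ)/d⌋₊ = N/d`,
`Nat.floor_div_natCast`).
-/

open Finset MeasureTheory Filter Topology
open ArithmeticFunction (vonMangoldt)

namespace Pool.Agent.Work.MP_2d9442_nt

private theorem Expand_ee_nat_add (x : ℝ) (n : ℤ) : ee (x + n) = ee x := by
  unfold ee
  rw [Complex.exp_eq_exp_iff_exists_int]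
  refine ⟨n, ?_⟩
  push_cast
  ring

/-- periodicity -/
private theorem Expand_ee_mod {k : ℕ} (hk : 1 ≤ k) (m : ℕ) :
    ee (-((m % k : ℕ) : ℝ) / k) = ee (-(m : ℝ) / k) := by
  have hk0 : (k : ℝ) ≠ 0 := by
    have : k ≠ 0 := by omega
    exact_mod_cast this
  have h1 : (m : ℝ) = k * ((m / k : ℕ) : ℝ) + ((m % k : ℕ) : ℝ) := by
    exact_mod_cast (Nat.div_add_mod m k).symm
  have h2 : (-((m % k : ℕ) : ℝ) / k) = -(m : ℝ) / k + (((m / k : ℕ) : ℤ) : ℝ) := by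
    rw [Int.cast_natCast]
    generalize ((m / k : ℕ) : ℝ) = x at h1 ⊢
    rw [h1]
    field_simp
    ring
  rw [h2, Expand_ee_nat_add]

private theorem Expand_char {k : ℕ} (hk : 1 ≤ k) (m : ℕ) :
    ∑ ψ : DirichletCharacter ℂ k, coef ψ * ψ (m : ZMod k) =
      if m.Coprime k then ee (-(m : ℝ) / k) else 0 := by
  have hk0 : NeZero k := ⟨by omega⟩
  split_ifs with hm
  · have ht : (Nat.totient k : ℂ) ≠ 0 := by
      have : Nat.totient k ≠ 0 := (Nat.totient_pos.2 (by omega)).ne'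
      exact_mod_cast this
    have hconj : ∀ (ψ : DirichletCharacter ℂ k) (b : ℕ), b.Coprime k →
        (starRingEnd ℂ) (ψ (b : ZMod k)) = ψ ((b : ZMod k)⁻¹) := by
      intro ψ b hb
      have h1 : (starRingEnd ℂ) (ψ (b : ZMod k)) = ψ⁻¹ (b : ZMod k) := MulChar.star_apply' ψ _
      have hu : IsUnit (b : ZMod k) := (ZMod.isUnit_iff_coprime b k).2 hb
      rw [h1, MulChar.inv_apply, ← hu.unit_spec, Ring.inverse_unit, ZMod.inv_coe_unit]
    have h1 : ∀ ψ : DirichletCharacter ℂ k, coef ψ * ψ (m : ZMod k) =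
        ∑ b ∈ (Finset.range k).filter (fun b => b.Coprime k),
          (ee (-(b : ℝ) / k) / (Nat.totient k : ℂ)) * (ψ ((b : ZMod k)⁻¹) * ψ (m : ZMod k)) := by
      intro ψ
      unfold coef
      rw [Finset.sum_div, Finset.sum_mul]
      refine Finset.sum_congr rfl (fun b hb => ?_)
      rw [hconj ψ b (Finset.mem_filter.1 hb).2]
      ring
    simp only [h1]
    rw [Finset.sum_comm]
    have h2 : ∀ b ∈ (Finset.range k).filter (fun b => b.Coprime k),
        ∑ ψ : DirichletCharacter ℂ k,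
          (ee (-(b : ℝ) / k) / (Nat.totient k : ℂ)) * (ψ ((b : ZMod k)⁻¹) * ψ (m : ZMod k)) =
        if b = m % k then ee (-(m : ℝ) / k) else 0 := by
      intro b hb
      obtain ⟨hb1, hb2⟩ := Finset.mem_filter.1 hb
      rw [← Finset.mul_sum, DirichletCharacter.sum_char_inv_mul_char_eq ℂ
        ((ZMod.isUnit_iff_coprime b k).2 hb2)]
      have h3 : ((b : ZMod k) = (m : ZMod k)) ↔ b = m % k := by
        rw [ZMod.natCast_eq_natCast_iff']
        rw [Nat.mod_eq_of_lt (Finset.mem_range.1 hb1)]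
      by_cases h4 : b = m % k
      · rw [if_pos (h3.2 h4), if_pos h4, div_mul_cancel₀ _ ht, h4, Expand_ee_mod hk]
      · rw [if_neg (fun h => h4 (h3.1 h)), if_neg h4, mul_zero]
    rw [Finset.sum_congr rfl h2, Finset.sum_ite_eq', if_pos]
    rw [Finset.mem_filter, Finset.mem_range]
    refine ⟨Nat.mod_lt _ (by omega), ?_⟩
    have h5 : Nat.gcd (m % k) k = Nat.gcd m k := by
      rw [Nat.gcd_comm, Nat.gcd_comm m k, Nat.gcd_rec k m, Nat.gcd_comm]
    rw [Nat.coprime_iff_gcd_eq_one, h5]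
    exact hm
  · refine Finset.sum_eq_zero (fun ψ _ => ?_)
    rw [MulChar.map_nonunit ψ (by rwa [ZMod.isUnit_iff_coprime]), mul_zero]

private theorem Expand_inner {z : ℕ → ℂ} {k : ℕ} (hk : 1 ≤ k) (N d : ℕ) :
    ∑ᶠ ψ : DirichletCharacter ℂ k, coef ψ * S (tw z ψ) ((N : ℝ) / d) =
      ∑ m ∈ (Finset.Icc 1 (N / d)).filter (fun m => m.Coprime k), z m * ee (-(m : ℝ) / k) := by
  rw [finsum_eq_sum_of_fintype]
  have h0 : ⌊(N : ℝ) / (d : ℝ)⌋₊ = N / d := by
    rw [Nat.floor_div_natCast, Nat.floor_natCast]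
  have h1 : ∀ ψ : DirichletCharacter ℂ k, coef ψ * S (tw z ψ) ((N : ℝ) / d) =
      ∑ m ∈ Finset.Icc 1 (N / d), z m * (coef ψ * ψ (m : ZMod k)) := by
    intro ψ
    unfold S
    rw [h0, Finset.mul_sum]
    refine Finset.sum_congr rfl (fun m _ => ?_)
    unfold tw
    ring
  simp only [h1]
  rw [Finset.sum_comm]
  simp only [← Finset.mul_sum, Expand_char hk]
  rw [Finset.sum_filter]
  refine Finset.sum_congr rfl (fun m _ => ?_)
  split_ifs
  · rfl
  · rw [mul_zero]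

theorem expand {z : ℕ → ℂ} (hz : CM z) {r : ℕ} (hr : 1 ≤ r) (N : ℕ) :
    ∑ n ∈ Finset.Icc 1 N, z n * ee (-(n : ℝ) / r) =
      ∑ d ∈ r.divisors, z d * ∑ᶠ ψ : DirichletCharacter ℂ (r / d),
        coef ψ * S (tw z ψ) ((N : ℝ) / d) := by
  have hr0 : r ≠ 0 := by omega
  have h1 : ∀ n ∈ Finset.Icc 1 N, Nat.gcd n r ∈ r.divisors := by
    intro n _
    exact Nat.mem_divisors.2 ⟨Nat.gcd_dvd_right n r, hr0⟩
  rw [← Finset.sum_fiberwise_of_maps_to h1]
  refine Finset.sum_congr rfl (fun d hd => ?_)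
  obtain ⟨hdr, -⟩ := Nat.mem_divisors.1 hd
  have hd0 : 0 < d := Nat.pos_of_dvd_of_pos hdr (by omega)
  have hk : 1 ≤ r / d := Nat.div_pos (Nat.le_of_dvd (by omega) hdr) hd0
  rw [Expand_inner hk N d, Finset.mul_sum]
  refine Finset.sum_nbij' (fun n => n / d) (fun m => d * m) ?_ ?_ ?_ ?_ ?_
  · intro n hn
    obtain ⟨hn1, hn2⟩ := Finset.mem_filter.1 hn
    obtain ⟨hn3, hn4⟩ := Finset.mem_Icc.1 hn1
    have hdn : d ∣ n := hn2 ▸ Nat.gcd_dvd_left n r
    rw [Finset.mem_filter, Finset.mem_Icc]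
    refine ⟨⟨Nat.div_pos (Nat.le_of_dvd (by omega) hdn) hd0, Nat.div_le_div_right hn4⟩, ?_⟩
    have h2 : Nat.gcd (n / d) (r / d) = Nat.gcd n r / d := Nat.gcd_div hdn hdr
    rw [Nat.coprime_iff_gcd_eq_one, h2, hn2, Nat.div_self hd0]
  · intro m hm
    obtain ⟨hm1, hm2⟩ := Finset.mem_filter.1 hm
    obtain ⟨hm3, hm4⟩ := Finset.mem_Icc.1 hm1
    rw [Finset.mem_filter, Finset.mem_Icc]
    refine ⟨⟨Nat.mul_pos hd0 hm3, ?_⟩, ?_⟩
    · have h2 := Nat.mul_le_mul_left d hm4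
      exact h2.trans (Nat.mul_div_le N d)
    · have h3 : r = d * (r / d) := (Nat.mul_div_cancel' hdr).symm
      rw [h3, Nat.gcd_mul_left, Nat.coprime_iff_gcd_eq_one.1 hm2, mul_one]
  · intro n hn
    obtain ⟨-, hn2⟩ := Finset.mem_filter.1 hn
    have hdn : d ∣ n := hn2 ▸ Nat.gcd_dvd_left n r
    exact Nat.mul_div_cancel' hdn
  · intro m _
    exact Nat.mul_div_cancel_left m hd0
  · intro n hn
    obtain ⟨-, hn2⟩ := Finset.mem_filter.1 hn
    have hdn : d ∣ n := hn2 ▸ Nat.gcd_dvd_left n r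
    have h2 : z n = z d * z (n / d) := by
      conv_lhs => rw [← Nat.mul_div_cancel' hdn]
      exact hz.mul d (n / d)
    have hd0' : (d : ℝ) ≠ 0 := by exact_mod_cast hd0.ne'
    have h3 : (-((n / d : ℕ) : ℝ) / ((r / d : ℕ) : ℝ)) = -(n : ℝ) / r := by
      rw [Nat.cast_div hdn hd0', Nat.cast_div hdr hd0']
      have hr0' : (r : ℝ) ≠ 0 := by exact_mod_cast hr0
      field_simp
    rw [h2, h3, mul_assoc]

end Pool.Agent.Work.MP_2d9442_nt
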