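import Pool.Agent.Work.MP_2d9442_nt.Defs

open Finset MeasureTheory Filter Topology
open ArithmeticFunction (vonMangoldt)

namespace Pool.Agent.Work.MP_2d9442_nt

theorem pt_re (σ τ : ℝ) : (pt σ τ).re = σ := by simp [pt]

theorem pt_im (σ τ : ℝ) : (pt σ τ).im = τ := by simp [pt]

theorem norm_S_le {f : ℕ → ℂ} (hf : ∀ n, ‖f n‖ ≤ 1) {x : ℝ} (hx : 0 ≤ x) : ‖S f x‖ ≤ x := by
  unfold S
  calc ‖∑ n ∈ Finset.Icc 1 ⌊x⌋₊, f n‖ ≤ ∑ n ∈ Finset.Icc 1 ⌊x⌋₊, (1:ℝ) :=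
        norm_sum_le_of_le _ fun n _ => hf n
    _ = ⌊x⌋₊ := by simp
    _ ≤ x := Nat.floor_le hx

theorem S_zero {f : ℕ → ℂ} {x : ℝ} (hx : x < 1) : S f x = 0 := by
  unfold S
  rw [Nat.floor_eq_zero.mpr hx]
  simp

theorem G_zero {f : ℕ → ℂ} {x : ℝ} (hx : x < 1) : G f x = 0 := by
  unfold G
  rw [S_zero hx, zero_div]

theorem norm_G_le {f : ℕ → ℂ} (hf : ∀ n, ‖f n‖ ≤ 1) (x : ℝ) : ‖G f x‖ ≤ 1 := by
  by_cases hx : x < 1
  · rw [G_zero hx]; simp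
  · push Not at hx
    unfold G
    have hx0 : 0 < x := by linarith
    rw [norm_div, Complex.norm_real, Real.norm_of_nonneg hx0.le, div_le_one hx0]
    exact norm_S_le hf hx0.le

theorem norm_H_le {f : ℕ → ℂ} (hf : ∀ n, ‖f n‖ ≤ 1) {c : ℂ} (hc : ‖c‖ ≤ 1) (w x : ℝ) :
    ‖H f c w x‖ ≤ 2 := by
  unfold H
  calc ‖G f x - c * G f (x / w)‖ ≤ ‖G f x‖ + ‖c * G f (x / w)‖ := norm_sub_le _ _
    _ ≤ 1 + 1 * 1 := by
        rw [norm_mul]
        gcongr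
        · exact norm_G_le hf _
        · exact norm_G_le hf _
    _ = 2 := by norm_num

theorem H_zero_one (f : ℕ → ℂ) (x : ℝ) : H f 0 1 x = G f x := by simp [H]

theorem measurable_S (f : ℕ → ℂ) : Measurable (S f) := by
  have : S f = (fun m : ℕ => ∑ n ∈ Finset.Icc 1 m, f n) ∘ Nat.floor := by
    funext x; rfl
  rw [this]
  exact (Measurable.of_discrete).comp Nat.measurable_floor

theorem measurable_G (f : ℕ → ℂ) : Measurable (G f) := by
  unfold G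
  exact (measurable_S f).div Complex.measurable_ofReal

theorem measurable_H (f : ℕ → ℂ) (c : ℂ) (w : ℝ) : Measurable (H f c w) := by
  unfold H
  exact (measurable_G f).sub (((measurable_G f).comp (measurable_id.div_const w)).const_mul c)

theorem summable_CM {f : ℕ → ℂ} (hf : ∀ n, ‖f n‖ ≤ 1) {σ : ℝ} (hσ : 0 < σ) (τ : ℝ) :
    LSeriesSummable f (1 + pt σ τ) := by
  apply LSeriesSummable_of_bounded_of_one_lt_re (m := 1) (fun n _ => hf n)
  rw [Complex.add_re, pt_re]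
  simp [hσ]

theorem summable_Z {f : ℕ → ℂ} (hf : ∀ n, ‖f n‖ ≤ 1) {σ : ℝ} (hσ : 0 < σ) (τ : ℝ) :
    LSeriesSummable (fun n => (vonMangoldt n : ℂ) * f n) (1 + pt σ τ) := by
  have h1 : LSeriesSummable (fun n => (vonMangoldt n : ℂ)) (1 + pt σ τ) := by
    apply ArithmeticFunction.LSeriesSummable_vonMangoldt
    rw [Complex.add_re, pt_re]
    simp [hσ]
  refine Summable.of_norm_bounded h1.norm fun n => ?_
  apply LSeries.norm_term_le
  rw [norm_mul]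
  calc ‖(vonMangoldt n : ℂ)‖ * ‖f n‖ ≤ ‖(vonMangoldt n : ℂ)‖ * 1 := by
        gcongr; exact hf n
    _ = _ := mul_one _

theorem norm_tws (τ : ℝ) {n : ℕ} (hn : 1 ≤ n) : ‖tws τ n‖ = 1 := by
  unfold tws
  rw [Complex.norm_natCast_cpow_of_pos (by omega)]
  simp

theorem norm_tws_le (τ : ℝ) (n : ℕ) : ‖tws τ n‖ ≤ 1 := by
  rcases Nat.eq_zero_or_pos n with rfl | hn
  · unfold tws
    by_cases h : -((τ:ℂ) * Complex.I) = 0
    · rw [h, Complex.cpow_zero]; simp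
    · rw [Nat.cast_zero, Complex.zero_cpow h]; simp
  · exact (norm_tws τ hn).le

theorem tws_mul (τ : ℝ) {m n : ℕ} (hm : 1 ≤ m) (hn : 1 ≤ n) :
    tws τ (m * n) = tws τ m * tws τ n := by
  unfold tws
  rw [Nat.cast_mul, Complex.natCast_mul_natCast_cpow]

theorem CM_tws {f : ℕ → ℂ} (hf : CM f) (t : ℝ) : CM (fun n => f n * tws t n) := by
  refine ⟨?_, ?_, ?_, ?_⟩
  · simp [hf.zero]
  · simp [hf.one, tws]
  · intro m n
    rcases Nat.eq_zero_or_pos m with rfl | hm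
    · simp [hf.zero]
    rcases Nat.eq_zero_or_pos n with rfl | hn
    · simp [hf.zero]
    show f (m * n) * tws t (m * n) = f m * tws t m * (f n * tws t n)
    rw [hf.mul, tws_mul t hm hn]
    ring
  · intro n
    rw [norm_mul]
    exact mul_le_one₀ (hf.le n) (norm_nonneg _) (norm_tws_le t n)

theorem UM_tws {f : ℕ → ℂ} (hf : UM f) (t : ℝ) : UM (fun n => f n * tws t n) := by
  refine ⟨CM_tws hf.cm t, fun n hn => ?_⟩
  rw [norm_mul, hf.norm n hn, norm_tws t hn, one_mul]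

theorem term_shift (a : ℕ → ℂ) (σ τ t : ℝ) (n : ℕ) :
    LSeries.term (fun n => a n * tws t n) (1 + pt σ τ) n =
      LSeries.term a (1 + pt σ (τ + t)) n := by
  rcases Nat.eq_zero_or_pos n with rfl | hn
  · simp
  · have hn0 : n ≠ 0 := by omega
    have hnC : (n:ℂ) ≠ 0 := by exact_mod_cast hn0
    rw [LSeries.term_of_ne_zero hn0, LSeries.term_of_ne_zero hn0]
    have e : (n:ℂ) ^ (1 + pt σ (τ + t)) = (n:ℂ) ^ (1 + pt σ τ) * (n:ℂ) ^ ((t:ℂ) * Complex.I) := by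
      rw [← Complex.cpow_add _ _ hnC]
      congr 1
      unfold pt
      push_cast
      ring
    rw [e]
    unfold tws
    rw [Complex.cpow_neg]
    have h1 : (n:ℂ) ^ ((t:ℂ) * Complex.I) ≠ 0 := by
      rw [Ne, Complex.cpow_eq_zero_iff]; tauto
    have h2 : (n:ℂ) ^ (1 + pt σ τ) ≠ 0 := by
      rw [Ne, Complex.cpow_eq_zero_iff]; tauto
    field_simp

theorem F_shift (f : ℕ → ℂ) (σ τ t : ℝ) :
    F (fun n => f n * tws t n) σ τ = F f σ (τ + t) := by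
  unfold F LSeries
  exact tsum_congr fun n => term_shift f σ τ t n

theorem Z_shift (f : ℕ → ℂ) (σ τ t : ℝ) :
    Z (fun n => f n * tws t n) σ τ = Z f σ (τ + t) := by
  unfold Z LSeries
  refine tsum_congr fun n => ?_
  rw [← term_shift]
  congr 1
  funext m
  ring

theorem CM_tw {z : ℕ → ℂ} (hz : CM z) {q : ℕ} (χ : DirichletCharacter ℂ q) : CM (tw z χ) := by
  refine ⟨?_, ?_, ?_, ?_⟩
  · simp [tw, hz.zero]
  · simp [tw, hz.one]
  · intro m n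
    simp only [tw, hz.mul, Nat.cast_mul, map_mul]
    ring
  · intro n
    simp only [tw, norm_mul]
    exact mul_le_one₀ (hz.le n) (norm_nonneg _) (DirichletCharacter.norm_le_one χ _)

theorem CM_oneF : CM oneF := by
  refine ⟨by simp [oneF], by simp [oneF], ?_, ?_⟩
  · intro m n
    by_cases hm : m = 0
    · simp [oneF, hm]
    · by_cases hn : n = 0
      · simp [oneF, hn]
      · simp [oneF, hm, hn]
  · intro n
    by_cases hn : n = 0
    · simp [oneF, hn]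
    · simp [oneF, hn]

private theorem HB_step {σ : ℝ} (h0 : 0 < σ) {n : ℕ} (hn : 1 ≤ n) :
    ((n + 1 : ℕ) : ℝ) ^ (-(1 + σ)) ≤ (1 / σ) * ((n:ℝ) ^ (-σ) - ((n + 1 : ℕ) : ℝ) ^ (-σ)) := by
  have hn0 : (0:ℝ) < n := by exact_mod_cast hn
  have hm0 : (0:ℝ) < ((n + 1 : ℕ) : ℝ) := by positivity
  have e1 : ((n + 1 : ℕ) : ℝ) ^ (-(1 + σ)) = ((n + 1 : ℕ) : ℝ) ^ (-σ) * (1 / ((n + 1 : ℕ) : ℝ)) := by
    rw [show -(1 + σ) = -σ + (-1) by ring, Real.rpow_add hm0, Real.rpow_neg_one, one_div]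
  have e2 : (1 + σ * (1 / ((n + 1 : ℕ) : ℝ))) * ((n + 1 : ℕ) : ℝ) ^ (-σ) ≤ (n:ℝ) ^ (-σ) := by
    have h1 : (n:ℝ) ^ (-σ) = ((n + 1 : ℕ) : ℝ) ^ (-σ) * ((n:ℝ) / ((n + 1 : ℕ) : ℝ)) ^ (-σ) := by
      rw [← Real.mul_rpow hm0.le (by positivity)]
      congr 1
      field_simp
    have h2 : 1 + σ * (1 / ((n + 1 : ℕ) : ℝ)) ≤ ((n:ℝ) / ((n + 1 : ℕ) : ℝ)) ^ (-σ) := by
      rw [Real.rpow_def_of_pos (by positivity)]
      have h3 : Real.log ((n:ℝ) / ((n + 1 : ℕ) : ℝ)) ≤ (n:ℝ) / ((n + 1 : ℕ) : ℝ) - 1 :=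
        Real.log_le_sub_one_of_pos (by positivity)
      have h4 : (n:ℝ) / ((n + 1 : ℕ) : ℝ) - 1 = -(1 / ((n + 1 : ℕ) : ℝ)) := by
        field_simp
        push_cast
        ring
      have h5 : σ * (1 / ((n + 1 : ℕ) : ℝ)) ≤ Real.log ((n:ℝ) / ((n + 1 : ℕ) : ℝ)) * -σ := by
        rw [h4] at h3
        nlinarith
      calc 1 + σ * (1 / ((n + 1 : ℕ) : ℝ)) ≤ 1 + Real.log ((n:ℝ) / ((n + 1 : ℕ) : ℝ)) * -σ := by
            linarith
        _ ≤ _ := by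
            have := Real.add_one_le_exp (Real.log ((n:ℝ) / ((n + 1 : ℕ) : ℝ)) * -σ)
            linarith
    rw [h1, mul_comm]
    gcongr
  have e3 : σ * (((n + 1 : ℕ) : ℝ) ^ (-σ) * (1 / ((n + 1 : ℕ) : ℝ))) ≤
      (n:ℝ) ^ (-σ) - ((n + 1 : ℕ) : ℝ) ^ (-σ) := by nlinarith
  rw [e1]
  calc ((n + 1 : ℕ) : ℝ) ^ (-σ) * (1 / ((n + 1 : ℕ) : ℝ)) =
      (1 / σ) * (σ * (((n + 1 : ℕ) : ℝ) ^ (-σ) * (1 / ((n + 1 : ℕ) : ℝ)))) := by
        field_simp
    _ ≤ _ := by gcongr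

theorem norm_F_le {f : ℕ → ℂ} (hf : ∀ n, ‖f n‖ ≤ 1) {σ : ℝ} (h0 : 0 < σ) (h1 : σ ≤ 1) (τ : ℝ) :
    ‖F f σ τ‖ ≤ 2 / σ := by
  have hs := (summable_CM hf h0 τ).norm
  have hre : (1 + pt σ τ).re = 1 + σ := by rw [Complex.add_re, pt_re]; simp
  have hb : ∀ n : ℕ, ‖LSeries.term f (1 + pt σ τ) n‖ ≤ if n = 0 then 0 else (n:ℝ) ^ (-(1 + σ)) := by
    intro n
    rcases Nat.eq_zero_or_pos n with rfl | hn
    · simp
    · have hn0 : n ≠ 0 := by omega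
      rw [LSeries.term_of_ne_zero hn0, if_neg hn0, norm_div,
        Complex.norm_natCast_cpow_of_pos hn, hre, Real.rpow_neg (by positivity), ← one_div]
      gcongr
      exact hf n
  have hb2 : ∀ N : ℕ, ∑ n ∈ Finset.range (N + 2), ‖LSeries.term f (1 + pt σ τ) n‖ ≤
      1 + (1 / σ) * (1 - ((N + 1 : ℕ) : ℝ) ^ (-σ)) := by
    intro N
    induction N with
    | zero =>
      rw [Finset.sum_range_succ, Finset.sum_range_one]
      have h0 := hb 0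
      have h1 := hb 1
      simp at h0 h1
      simp
      linarith
    | succ N ih =>
      rw [Finset.sum_range_succ]
      have h1 := hb (N + 2)
      rw [if_neg (by omega)] at h1
      have h2 := HB_step h0 (n := N + 1) (by omega)
      have e : N + 1 + 1 = N + 2 := by omega
      rw [e] at h2 ⊢
      nlinarith
  have hb3 : ∑' n : ℕ, ‖LSeries.term f (1 + pt σ τ) n‖ ≤ 1 + 1 / σ := by
    apply Real.tsum_le_of_sum_range_le (fun n => norm_nonneg _)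
    intro n
    calc ∑ i ∈ Finset.range n, ‖LSeries.term f (1 + pt σ τ) i‖ ≤
        ∑ i ∈ Finset.range (n + 2), ‖LSeries.term f (1 + pt σ τ) i‖ :=
          Finset.sum_le_sum_of_subset_of_nonneg (by simp) fun _ _ _ => norm_nonneg _
      _ ≤ 1 + (1 / σ) * (1 - ((n + 1 : ℕ) : ℝ) ^ (-σ)) := hb2 n
      _ ≤ 1 + 1 / σ := by
          have h3 : 0 ≤ ((n + 1 : ℕ) : ℝ) ^ (-σ) := by positivity
          have h4 : 0 ≤ 1 / σ := by positivity
          nlinarith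
  calc ‖F f σ τ‖ ≤ ∑' n : ℕ, ‖LSeries.term f (1 + pt σ τ) n‖ := norm_tsum_le_tsum_norm hs
    _ ≤ 1 + 1 / σ := hb3
    _ ≤ 2 / σ := by
        rw [div_eq_mul_one_div 2 σ]
        have : 1 ≤ 1 / σ := by rw [le_div_iff₀ h0]; linarith
        linarith

end Pool.Agent.Work.MP_2d9442_nt
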