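import Pool.Agent.Work.MP_2d9442_nt.Blk
import Pool.Agent.Work.MP_2d9442_nt.DerH

/-!
# Module IB: the mean square of H log (M)

`L = log x ≥ 1`, `σ = 1/L ≤ 1`.  For `1 ≤ v ≤ 2x`: `v^{2σ} ≤ (2x)^{2/L} = e^{2 + 2 log 2/L} ≤ e^4`, so
`∫_1^{2x} ‖H‖² log² v/v ≤ e^4 ∫_{v>1} ‖H log v‖² v^{-1-2σ} dv = (e^4/2π) ∫ ‖T(τ)‖² dτ` by `melP`
applied to `U(v) = H(v) log v` (`‖U‖ ≤ 2 log v ≤ 2(1 + log v)`), where `T(τ)` is the right-hand side of
`derH`.  `‖T‖² ≤ 3(T1² + T2² + T3²)` with, `s = pt σ τ`,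
* `T1 = Φ ‖Z‖`, `Φ = ‖1 - c w^{-s}‖ ‖F‖/‖1+s‖ ≤ ε L` (hypothesis) and also
  `Φ ≤ 2 · (2/σ)/‖1+s‖ = 4L/‖1+s‖` (`norm_F_le`, `‖w^{-s}‖ = w^{-σ} ≤ 1`); so
  `Φ² = Φ^{1/2} Φ^{3/2} ≤ (εL)^{1/2} (4L)^{3/2} ‖1+s‖^{-3/2} = 8 ε^{1/2} L² ‖1+s‖^{-3/2}` and
  `∫ T1² ≤ 8 ε^{1/2} L² · C/σ = 8 C ε^{1/2} L³` by `blk`;
* `T2 ≤ 4L/‖1+s‖²`, `∫ ‖1+s‖^{-4} ≤ ∫ (1+τ²)^{-1} = π`: `∫ T2² ≤ 16 π L²`;
* `T3 ≤ log w ‖F‖/‖1+s‖`: `∫ T3² ≤ (log w)² π L` by `melL2` with `B = 1`.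
-/

open Finset MeasureTheory Filter Topology
open ArithmeticFunction (vonMangoldt)

namespace Pool.Agent.Work.MP_2d9442_nt

theorem ib : ∃ C : ℝ, 0 < C ∧ ∀ (f : ℕ → ℂ) (c : ℂ) (w x ε : ℝ), CM f → ‖c‖ ≤ 1 → 1 ≤ w →
    3 ≤ x → 0 ≤ ε →
    (∀ τ : ℝ, ‖1 - c * (w : ℂ) ^ (-(pt (1 / Real.log x) τ))‖ * ‖F f (1 / Real.log x) τ‖ /
      ‖1 + pt (1 / Real.log x) τ‖ ≤ ε * Real.log x) →
    ∫ v in (1:ℝ)..(2 * x), ‖H f c w v‖ ^ 2 * Real.log v ^ 2 / v ≤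
      C * (√ε * Real.log x ^ 3 + Real.log x ^ 2 + Real.log x * Real.log w ^ 2) := by
  obtain ⟨Cb, hCb, hblk⟩ := blk
  refine ⟨Real.exp 4 * (3 * (8 * Cb + 16 * Real.pi + Real.pi)), by positivity, ?_⟩
  intro f c w x ε hf hc hw hx hε hyp
  have hfle := hf.le
  have hL1 : 1 < Real.log x := by
    rw [Real.lt_log_iff_exp_lt (by linarith)]
    have := Real.exp_one_lt_d9
    linarith
  set L := Real.log x with hL
  have hL0 : 0 < L := by linarith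
  have hw0 : 0 < w := by linarith
  have hlw0 : 0 ≤ Real.log w := Real.log_nonneg hw
  set σ := 1 / L with hσ
  have hσ0 : 0 < σ := by positivity
  have hσ1 : σ ≤ 1 := by
    rw [hσ, div_le_one hL0]
    exact hL1.le
  have hσL : σ * L = 1 := by rw [hσ]; field_simp
  have hinvσ : 1 / σ = L := by rw [hσ, one_div_one_div]
  -- the function U
  set U : ℝ → ℂ := fun v => H f c w v * (Real.log v : ℂ) with hU
  have hUm : Measurable U :=
    (measurable_H f c w).mul (Complex.measurable_ofReal.comp Real.measurable_log)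
  have hUn : ∀ v, ‖U v‖ ^ 2 = ‖H f c w v‖ ^ 2 * Real.log v ^ 2 := by
    intro v
    rw [hU, norm_mul, Complex.norm_real, mul_pow, Real.norm_eq_abs, sq_abs]
  have hUb : ∀ v, 1 ≤ v → ‖U v‖ ≤ 2 * (1 + Real.log v) := by
    intro v hv
    have h1 : 0 ≤ Real.log v := Real.log_nonneg hv
    rw [hU, norm_mul, Complex.norm_real, Real.norm_of_nonneg h1]
    have := norm_H_le hfle hc w v
    nlinarith
  obtain ⟨hI1, hI2, hI3⟩ := melP hUm (B := 2) (by norm_num) hUb hσ0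
  -- step one: comparison with the weighted integral
  have hstep1 : ∫ v in (1:ℝ)..(2 * x), ‖H f c w v‖ ^ 2 * Real.log v ^ 2 / v ≤
      Real.exp 4 * ∫ v in Set.Ioi (1:ℝ), ‖U v‖ ^ 2 * v ^ (-1 - 2 * σ) := by
    rw [intervalIntegral.integral_of_le (by linarith), ← integral_const_mul]
    have hsub : Set.Ioc (1:ℝ) (2 * x) ⊆ Set.Ioi 1 := fun v hv => hv.1
    calc ∫ v in Set.Ioc (1:ℝ) (2 * x), ‖H f c w v‖ ^ 2 * Real.log v ^ 2 / v
        ≤ ∫ v in Set.Ioc (1:ℝ) (2 * x), Real.exp 4 * (‖U v‖ ^ 2 * v ^ (-1 - 2 * σ)) := by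
          refine integral_mono_of_nonneg ?_ ((hI3.mono_set hsub).const_mul _) ?_
          · filter_upwards [ae_restrict_mem measurableSet_Ioc] with v hv
            have : 0 < v := by linarith [hv.1]
            exact div_nonneg (by positivity) this.le
          · filter_upwards [ae_restrict_mem measurableSet_Ioc] with v hv
            have hv0 : 0 < v := by linarith [hv.1]
            show ‖H f c w v‖ ^ 2 * Real.log v ^ 2 / v ≤ Real.exp 4 * (‖U v‖ ^ 2 * v ^ (-1 - 2 * σ))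
            rw [← hUn v]
            have h1 : v⁻¹ ≤ Real.exp 4 * v ^ (-1 - 2 * σ) := by
              have h2 : v ^ (-1 - 2 * σ) = v⁻¹ * v ^ (-(2 * σ)) := by
                rw [show (-1 - 2 * σ : ℝ) = -1 + -(2 * σ) by ring, Real.rpow_add hv0,
                  Real.rpow_neg_one]
              have h3 : 1 ≤ Real.exp 4 * v ^ (-(2 * σ)) := by
                rw [Real.rpow_def_of_pos hv0, ← Real.exp_add, Real.one_le_exp_iff]
                have h4 : Real.log v ≤ Real.log (2 * x) := Real.log_le_log hv0 hv.2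
                rw [Real.log_mul (by norm_num) (by linarith)] at h4
                have h5 : Real.log 2 ≤ 1 := by linarith [Real.log_two_lt_d9]
                have h6 : Real.log v * σ ≤ 2 := by
                  calc Real.log v * σ ≤ (1 + L) * σ :=
                        mul_le_mul_of_nonneg_right (by linarith) hσ0.le
                    _ = σ + σ * L := by ring
                    _ ≤ 2 := by rw [hσL]; linarith
                nlinarith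
              rw [h2]
              calc v⁻¹ = v⁻¹ * 1 := (mul_one _).symm
                _ ≤ v⁻¹ * (Real.exp 4 * v ^ (-(2 * σ))) :=
                    mul_le_mul_of_nonneg_left h3 (inv_pos.2 hv0).le
                _ = _ := by ring
            calc ‖U v‖ ^ 2 / v = ‖U v‖ ^ 2 * v⁻¹ := div_eq_mul_inv _ _
              _ ≤ ‖U v‖ ^ 2 * (Real.exp 4 * v ^ (-1 - 2 * σ)) :=
                  mul_le_mul_of_nonneg_left h1 (by positivity)
              _ = _ := by ring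
      _ ≤ ∫ v in Set.Ioi (1:ℝ), Real.exp 4 * (‖U v‖ ^ 2 * v ^ (-1 - 2 * σ)) := by
          refine setIntegral_mono_set (hI3.const_mul _) ?_ hsub.eventuallyLE
          filter_upwards [ae_restrict_mem measurableSet_Ioi] with v hv
          have hv0 : (0:ℝ) < v := lt_trans one_pos hv
          positivity
  -- step two: the bound for the transform
  set N : ℝ → ℝ := fun τ => ‖1 + pt σ τ‖ with hN
  have hNre : ∀ τ, (1 + pt σ τ).re = 1 + σ := fun τ => by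
    rw [Complex.add_re, pt_re, Complex.one_re]
  have hNim : ∀ τ, (1 + pt σ τ).im = τ := fun τ => by
    rw [Complex.add_im, pt_im, Complex.one_im, zero_add]
  have hNsq : ∀ τ, 1 + τ ^ 2 ≤ N τ ^ 2 := by
    intro τ
    rw [hN]
    simp only
    rw [Complex.sq_norm, Complex.normSq_apply, hNre, hNim]
    nlinarith
  have hN1 : ∀ τ, 1 ≤ N τ := by
    intro τ
    have := hNsq τ
    by_contra h
    push Not at h
    have h0 : 0 ≤ N τ := norm_nonneg _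
    nlinarith [sq_nonneg τ]
  have hwn : ∀ τ, ‖(w : ℂ) ^ (-(pt σ τ))‖ ≤ 1 := by
    intro τ
    rw [Complex.norm_cpow_eq_rpow_re_of_pos hw0, Complex.neg_re, pt_re]
    exact Real.rpow_le_one_of_one_le_of_nonpos hw (by linarith)
  have hcw : ∀ τ, ‖1 - c * (w : ℂ) ^ (-(pt σ τ))‖ ≤ 2 := by
    intro τ
    calc ‖1 - c * (w : ℂ) ^ (-(pt σ τ))‖ ≤ ‖(1 : ℂ)‖ + ‖c * (w : ℂ) ^ (-(pt σ τ))‖ :=
          norm_sub_le _ _
      _ ≤ 1 + 1 * 1 := by
          rw [norm_one, norm_mul]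
          have := mul_le_mul hc (hwn τ) (norm_nonneg _) zero_le_one
          linarith
      _ = 2 := by norm_num
  have hF : ∀ τ, ‖F f σ τ‖ ≤ 2 * L := by
    intro τ
    have := norm_F_le hfle hσ0 hσ1 τ
    calc ‖F f σ τ‖ ≤ 2 / σ := this
      _ = 2 * L := by rw [div_eq_mul_one_div, hinvσ]
  obtain ⟨hb1, hb2⟩ := hblk f hfle σ hσ0 hσ1
  obtain ⟨hl1, hl2⟩ := melL2 (a := f) (B := 1) (σ := σ) (by norm_num)
    (fun v hv => by rw [one_mul]; exact norm_S_le hfle (by linarith)) hσ0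
    (fun τ => summable_CM hfle hσ0 τ)
  have hpt : ∀ τ : ℝ, ‖∫ v in Set.Ioi (1:ℝ), U v * (v : ℂ) ^ (-(1 + pt σ τ))‖ ^ 2 ≤
      3 * (8 * √ε * L ^ 2 * (‖1 + pt σ τ‖ ^ (-(3/2) : ℝ) * ‖Z f σ τ‖ ^ 2) +
        16 * L ^ 2 * (1 + τ ^ 2)⁻¹ +
        Real.log w ^ 2 * (‖LSeries f (1 + pt σ τ)‖ ^ 2 / ‖1 + pt σ τ‖ ^ 2)) := by
    intro τ
    have hder := derH hf hc hw hσ0 τ
    have hrw : ∫ v in Set.Ioi (1:ℝ), U v * (v : ℂ) ^ (-(1 + pt σ τ)) =
        ∫ v in Set.Ioi (1:ℝ), (H f c w v * (Real.log v : ℂ)) * (v : ℂ) ^ (-(1 + pt σ τ)) := rfl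
    rw [hrw, hder]
    have hNp : 0 < ‖1 + pt σ τ‖ := by linarith [hN1 τ]
    have hN1' : 1 ≤ ‖1 + pt σ τ‖ := hN1 τ
    have hNsq' : 1 + τ ^ 2 ≤ ‖1 + pt σ τ‖ ^ 2 := hNsq τ
    set n := ‖1 + pt σ τ‖ with hn
    set a := ‖1 - c * (w : ℂ) ^ (-(pt σ τ))‖ with ha
    set b := ‖F f σ τ‖ with hb
    set z := ‖Z f σ τ‖ with hz
    have ha0 : 0 ≤ a := norm_nonneg _
    have hb0 : 0 ≤ b := norm_nonneg _
    have hz0 : 0 ≤ z := norm_nonneg _
    have ha2 : a ≤ 2 := hcw τ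
    have hb2 : b ≤ 2 * L := hF τ
    have hΦ1 : a * b / n ≤ ε * L := hyp τ
    have hΦ2 : a * b / n ≤ 4 * L / n := by
      refine div_le_div_of_nonneg_right ?_ hNp.le
      nlinarith
    set Φ := a * b / n with hΦ
    have hΦ0 : 0 ≤ Φ := by positivity
    -- the norm of the three terms
    have t1 : ‖(1 - c * (w : ℂ) ^ (-(pt σ τ))) * F f σ τ * Z f σ τ / (1 + pt σ τ)‖ = Φ * z := by
      rw [norm_div, norm_mul, norm_mul, hΦ]
      ring
    have t2 : ‖(1 - c * (w : ℂ) ^ (-(pt σ τ))) * F f σ τ / (1 + pt σ τ) ^ 2‖ = a * b / n ^ 2 := by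
      rw [norm_div, norm_mul, norm_pow]
    have t3 : ‖c * (Real.log w : ℂ) * (w : ℂ) ^ (-(pt σ τ)) * F f σ τ / (1 + pt σ τ)‖ ≤
        Real.log w * b / n := by
      rw [norm_div, norm_mul, norm_mul, norm_mul, Complex.norm_real, Real.norm_of_nonneg hlw0]
      refine div_le_div_of_nonneg_right ?_ hNp.le
      refine mul_le_mul_of_nonneg_right ?_ hb0
      calc ‖c‖ * Real.log w * ‖(w : ℂ) ^ (-(pt σ τ))‖ ≤ 1 * Real.log w * 1 := by
            refine mul_le_mul (mul_le_mul_of_nonneg_right hc hlw0) (hwn τ) (norm_nonneg _) ?_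
            positivity
        _ = Real.log w := by ring
    have s1 : (Φ * z) ^ 2 ≤ 8 * √ε * L ^ 2 * (n ^ (-(3/2) : ℝ) * z ^ 2) := by
      have h1 : Φ ^ 2 ≤ 8 * √ε * L ^ 2 * n ^ (-(3/2) : ℝ) := by
        set m := n ^ (-(1/2) : ℝ) with hm
        have hm0 : 0 < m := Real.rpow_pos_of_pos hNp _
        have hm3 : n ^ (-(3/2) : ℝ) = m ^ 3 := by
          rw [hm, ← Real.rpow_natCast, ← Real.rpow_mul hNp.le]
          norm_num
        have hm2 : m ^ 2 = 1 / n := by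
          rw [hm, ← Real.rpow_natCast, ← Real.rpow_mul hNp.le]
          norm_num
          rw [Real.rpow_neg_one]
        have hs1 : √Φ ≤ √ε * √L := by
          rw [← Real.sqrt_mul hε]
          exact Real.sqrt_le_sqrt hΦ1
        have hs2 : √Φ ≤ 2 * √L * m := by
          have : (2 * √L * m) ^ 2 = 4 * L / n := by
            rw [mul_pow, mul_pow, Real.sq_sqrt hL0.le, hm2]
            ring
          rw [← Real.sqrt_sq (by positivity : 0 ≤ 2 * √L * m), this]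
          exact Real.sqrt_le_sqrt hΦ2
        have hsL : √L ^ 2 = L := Real.sq_sqrt hL0.le
        have hΦ4 : Φ ^ 2 = √Φ * √Φ ^ 3 := by
          have : √Φ ^ 2 = Φ := Real.sq_sqrt hΦ0
          calc Φ ^ 2 = (√Φ ^ 2) ^ 2 := by rw [this]
            _ = _ := by ring
        rw [hΦ4, hm3]
        calc √Φ * √Φ ^ 3 ≤ (√ε * √L) * (2 * √L * m) ^ 3 := by
              refine mul_le_mul hs1 (pow_le_pow_left₀ (Real.sqrt_nonneg _) hs2 3) (by positivity)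
                (by positivity)
          _ = 8 * √ε * (√L ^ 2) ^ 2 * m ^ 3 := by ring
          _ = _ := by rw [hsL]
      calc (Φ * z) ^ 2 = Φ ^ 2 * z ^ 2 := mul_pow _ _ _
        _ ≤ (8 * √ε * L ^ 2 * n ^ (-(3/2) : ℝ)) * z ^ 2 :=
            mul_le_mul_of_nonneg_right h1 (by positivity)
        _ = _ := by ring
    have s2 : (a * b / n ^ 2) ^ 2 ≤ 16 * L ^ 2 * (1 + τ ^ 2)⁻¹ := by
      have h1 : a * b ≤ 4 * L := by nlinarith
      have h2 : (a * b) ^ 2 ≤ 16 * L ^ 2 := by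
        calc (a * b) ^ 2 ≤ (4 * L) ^ 2 := pow_le_pow_left₀ (by positivity) h1 2
          _ = _ := by ring
      have h3 : 1 + τ ^ 2 ≤ (n ^ 2) ^ 2 := by
        have : 1 ≤ n ^ 2 := one_le_pow₀ hN1'
        nlinarith
      rw [div_pow]
      calc (a * b) ^ 2 / (n ^ 2) ^ 2 ≤ 16 * L ^ 2 / (n ^ 2) ^ 2 :=
            div_le_div_of_nonneg_right h2 (by positivity)
        _ ≤ 16 * L ^ 2 / (1 + τ ^ 2) :=
            div_le_div_of_nonneg_left (by positivity) (by positivity) h3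
        _ = _ := div_eq_mul_inv _ _
    have s3 : (Real.log w * b / n) ^ 2 =
        Real.log w ^ 2 * (‖LSeries f (1 + pt σ τ)‖ ^ 2 / n ^ 2) := by
      rw [div_pow, mul_pow, mul_div_assoc]
      rfl
    rw [← t1] at s1
    rw [← t2] at s2
    have s3' := pow_le_pow_left₀ (norm_nonneg _) t3 2
    rw [s3] at s3'
    refine le_trans ?_ (mul_le_mul_of_nonneg_left (add_le_add (add_le_add s1 s2) s3')
      (by norm_num : (0:ℝ) ≤ 3))
    set A1 := (1 - c * (w : ℂ) ^ (-(pt σ τ))) * F f σ τ * Z f σ τ / (1 + pt σ τ)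
    set A2 := (1 - c * (w : ℂ) ^ (-(pt σ τ))) * F f σ τ / (1 + pt σ τ) ^ 2
    set A3 := c * (Real.log w : ℂ) * (w : ℂ) ^ (-(pt σ τ)) * F f σ τ / (1 + pt σ τ)
    have hn3 : ‖A1 + A2 - A3‖ ≤ ‖A1‖ + ‖A2‖ + ‖A3‖ :=
      (norm_sub_le _ _).trans (add_le_add_left (norm_add_le _ _) _)
    calc ‖A1 + A2 - A3‖ ^ 2 ≤ (‖A1‖ + ‖A2‖ + ‖A3‖) ^ 2 := pow_le_pow_left₀ (norm_nonneg _) hn3 2
      _ ≤ 3 * (‖A1‖ ^ 2 + ‖A2‖ ^ 2 + ‖A3‖ ^ 2) := by
          nlinarith [sq_nonneg (‖A1‖ - ‖A2‖), sq_nonneg (‖A1‖ - ‖A3‖), sq_nonneg (‖A2‖ - ‖A3‖)]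
  have hg1 : Integrable (fun τ : ℝ => 8 * √ε * L ^ 2 *
      (‖1 + pt σ τ‖ ^ (-(3/2) : ℝ) * ‖Z f σ τ‖ ^ 2)) := hb1.const_mul _
  have hg2 : Integrable (fun τ : ℝ => 16 * L ^ 2 * (1 + τ ^ 2)⁻¹) :=
    integrable_inv_one_add_sq.const_mul _
  have hg3 : Integrable (fun τ : ℝ => Real.log w ^ 2 *
      (‖LSeries f (1 + pt σ τ)‖ ^ 2 / ‖1 + pt σ τ‖ ^ 2)) := hl1.const_mul _
  have hstep2 : ∫ τ : ℝ, ‖∫ v in Set.Ioi (1:ℝ), U v * (v : ℂ) ^ (-(1 + pt σ τ))‖ ^ 2 ≤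
      3 * (8 * √ε * L ^ 2 * (Cb * L) + 16 * L ^ 2 * Real.pi + Real.log w ^ 2 * (Real.pi * L)) := by
    have hg12 : Integrable (fun τ : ℝ => 8 * √ε * L ^ 2 *
        (‖1 + pt σ τ‖ ^ (-(3/2) : ℝ) * ‖Z f σ τ‖ ^ 2) + 16 * L ^ 2 * (1 + τ ^ 2)⁻¹) :=
      hg1.add hg2
    have hg123 : Integrable (fun τ : ℝ => 8 * √ε * L ^ 2 *
        (‖1 + pt σ τ‖ ^ (-(3/2) : ℝ) * ‖Z f σ τ‖ ^ 2) + 16 * L ^ 2 * (1 + τ ^ 2)⁻¹ +
        Real.log w ^ 2 * (‖LSeries f (1 + pt σ τ)‖ ^ 2 / ‖1 + pt σ τ‖ ^ 2)) :=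
      hg12.add hg3
    refine (integral_mono hI1 (hg123.const_mul 3) hpt).trans ?_
    rw [integral_const_mul]
    refine mul_le_mul_of_nonneg_left ?_ (by norm_num)
    have e : ∫ τ : ℝ, (8 * √ε * L ^ 2 *
        (‖1 + pt σ τ‖ ^ (-(3/2) : ℝ) * ‖Z f σ τ‖ ^ 2) + 16 * L ^ 2 * (1 + τ ^ 2)⁻¹ +
        Real.log w ^ 2 * (‖LSeries f (1 + pt σ τ)‖ ^ 2 / ‖1 + pt σ τ‖ ^ 2)) =
        8 * √ε * L ^ 2 * (∫ τ : ℝ, ‖1 + pt σ τ‖ ^ (-(3/2) : ℝ) * ‖Z f σ τ‖ ^ 2) +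
        16 * L ^ 2 * (∫ τ : ℝ, (1 + τ ^ 2)⁻¹) +
        Real.log w ^ 2 * (∫ τ : ℝ, ‖LSeries f (1 + pt σ τ)‖ ^ 2 / ‖1 + pt σ τ‖ ^ 2) := by
      rw [integral_add hg12 hg3, integral_add hg1 hg2, integral_const_mul,
        integral_const_mul, integral_const_mul]
    rw [e, integral_univ_inv_one_add_sq]
    have hb2' : ∫ τ : ℝ, ‖1 + pt σ τ‖ ^ (-(3/2) : ℝ) * ‖Z f σ τ‖ ^ 2 ≤ Cb * L := by
      refine hb2.trans (le_of_eq ?_)
      rw [div_eq_mul_one_div, hinvσ]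
    have hl2' : ∫ τ : ℝ, ‖LSeries f (1 + pt σ τ)‖ ^ 2 / ‖1 + pt σ τ‖ ^ 2 ≤ Real.pi * L := by
      refine hl2.trans (le_of_eq ?_)
      rw [div_eq_mul_one_div, hinvσ]
      ring
    have h1 := mul_le_mul_of_nonneg_left hb2' (by positivity : 0 ≤ 8 * √ε * L ^ 2)
    have h2 := mul_le_mul_of_nonneg_left hl2' (by positivity : 0 ≤ Real.log w ^ 2)
    linarith
  -- conclusion
  rw [hI2] at hstep2
  set W := ∫ v in Set.Ioi (1:ℝ), ‖U v‖ ^ 2 * v ^ (-1 - 2 * σ) with hW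
  have hW0 : 0 ≤ W := by
    refine setIntegral_nonneg measurableSet_Ioi fun v hv => ?_
    have hv0 : (0:ℝ) < v := lt_trans one_pos hv
    positivity
  have hWle : W ≤ 2 * Real.pi * W := by
    have := Real.pi_gt_three
    nlinarith
  have h8 : 3 * (8 * √ε * L ^ 2 * (Cb * L) + 16 * L ^ 2 * Real.pi +
      Real.log w ^ 2 * (Real.pi * L)) ≤ 3 * (8 * Cb + 16 * Real.pi + Real.pi) *
        (√ε * L ^ 3 + L ^ 2 + L * Real.log w ^ 2) := by
    have hp := Real.pi_pos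
    have a1 : 0 ≤ √ε * L ^ 3 := by positivity
    have a2 : 0 ≤ L ^ 2 := by positivity
    have a3 : 0 ≤ L * Real.log w ^ 2 := by positivity
    have b1 : 0 ≤ Cb * L ^ 2 := by positivity
    have b2 : 0 ≤ Cb * (L * Real.log w ^ 2) := by positivity
    have b3 : 0 ≤ Real.pi * (√ε * L ^ 3) := by positivity
    have b4 : 0 ≤ Real.pi * L ^ 2 := by positivity
    have b5 : 0 ≤ Real.pi * (L * Real.log w ^ 2) := by positivity
    nlinarith
  calc ∫ v in (1:ℝ)..(2 * x), ‖H f c w v‖ ^ 2 * Real.log v ^ 2 / v ≤ Real.exp 4 * W := hstep1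
    _ ≤ Real.exp 4 * (3 * (8 * Cb + 16 * Real.pi + Real.pi) *
        (√ε * L ^ 3 + L ^ 2 + L * Real.log w ^ 2)) :=
        mul_le_mul_of_nonneg_left (hWle.trans (hstep2.trans h8)) (Real.exp_pos _).le
    _ = _ := by ring

end Pool.Agent.Work.MP_2d9442_nt
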