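import Pool.Agent.Work.MP_2d9442_nt.Avg
import Pool.Agent.Work.MP_2d9442_nt.CSI
import Pool.Agent.Work.MP_2d9442_nt.IB

/-!
# Module Hal: the Halasz-Montgomery inequality with a shift (M)

`L = log x ≥ log 3 > 1`.  Put `ε₁ = ε^{1/4} + L^{-1/2}`.
If `ε₁ ≥ 1` then `‖H‖ ≤ 2 ≤ 2 ε₁^{1/3} ≤ 2 (ε^{1/12} + L^{-1/6})` (subadditivity of `t ↦ t^{1/3}`,
`Real.rpow_add_le_add_rpow`).  Otherwise take `κ' = ε₁^{2/3}` in `cs` (with `h v = ‖H f c w v‖`), and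
`κ = ε₁^{1/3}` in `avg`.
By `ib` and `w² ≤ L` (so `log w ≤ w ≤ L^{1/2}`):
`I := ∫_1^{2x} ‖H‖² log²v/v ≤ C(ε^{1/2} L³ + 2 L²)`, hence `√(I/(κ' L)) ≤ C κ'^{-1/2}(ε^{1/4} L + 2 L^{1/2})
≤ 2 C κ'^{-1/2} ε₁ L = 2 C ε₁^{2/3} L`, and
`∫_1^{2x} ‖H‖/v ≤ (2 + 2C) ε₁^{2/3} L`.
`avg`: `‖H‖ L ≤ (C/κ)(2+2C) ε₁^{2/3} L + 4 κ L + C w ≤ C' ε₁^{1/3} L + C L^{1/2}`; divide by `L`:
`‖H‖ ≤ C' ε₁^{1/3} + C L^{-1/2} ≤ C''(ε^{1/12} + L^{-1/6})`.
-/

open Finset MeasureTheory Filter Topology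
open ArithmeticFunction (vonMangoldt)

namespace Pool.Agent.Work.MP_2d9442_nt

theorem halasz : ∃ C : ℝ, 0 < C ∧ ∀ (f : ℕ → ℂ) (c : ℂ) (w x ε : ℝ), CM f → ‖c‖ ≤ 1 → 1 ≤ w →
    3 ≤ x → w ^ 2 ≤ Real.log x → 0 ≤ ε →
    (∀ τ : ℝ, ‖1 - c * (w : ℂ) ^ (-(pt (1 / Real.log x) τ))‖ * ‖F f (1 / Real.log x) τ‖ /
      ‖1 + pt (1 / Real.log x) τ‖ ≤ ε * Real.log x) →
    ‖H f c w x‖ ≤ C * (ε ^ (1 / 12 : ℝ) + Real.log x ^ (-(1 / 6) : ℝ)) := by
  obtain ⟨C₁, hC₁, hib⟩ := ib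
  obtain ⟨C₂, hC₂, havg⟩ := avg
  refine ⟨C₂ * (2 + √(2 * C₁)) + 4 + C₂, by positivity, ?_⟩
  intro f c w x ε hf hc hw hx hwL hε hyp
  have hfle := hf.le
  have hL1 : 1 < Real.log x := by
    rw [Real.lt_log_iff_exp_lt (by linarith)]
    have := Real.exp_one_lt_d9
    linarith
  set L := Real.log x with hL
  have hL0 : 0 < L := by linarith
  set a := ε ^ (1 / 12 : ℝ) with ha
  set b := L ^ (-(1 / 6) : ℝ) with hb
  have ha0 : 0 ≤ a := Real.rpow_nonneg hε _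
  have hb0 : 0 < b := Real.rpow_pos_of_pos hL0 _
  have ha12 : a ^ 12 = ε := by
    rw [ha, ← Real.rpow_natCast, ← Real.rpow_mul hε]
    norm_num
  have hb6 : b ^ 6 * L = 1 := by
    rw [hb, ← Real.rpow_natCast, ← Real.rpow_mul hL0.le]
    norm_num
    rw [Real.rpow_neg_one]
    exact inv_mul_cancel₀ hL0.ne'
  have hsε : √ε = a ^ 6 := by
    rw [← ha12, show a ^ 12 = (a ^ 6) ^ 2 by ring, Real.sqrt_sq (by positivity)]
  have hsC : 0 ≤ √(2 * C₁) := Real.sqrt_nonneg _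
  rcases le_or_gt 1 (a + b) with hq | hq
  · have h1 : ‖H f c w x‖ ≤ 2 := norm_H_le hfle hc w x
    have h2 : (4 : ℝ) ≤ C₂ * (2 + √(2 * C₁)) + 4 + C₂ := by
      have : 0 ≤ C₂ * (2 + √(2 * C₁)) := by positivity
      linarith
    nlinarith
  · set q := a + b with hqdef
    have hq0 : 0 < q := by positivity
    have hb1 : b < 1 := by linarith
    have haq : a ≤ q := by linarith
    have hbq : b ≤ q := by linarith
    -- the size of w
    have hw0 : 0 < w := by linarith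
    have hwb : w ≤ L * b := by
      have h1 : w ^ 2 ≤ (L * b) ^ 2 := by
        have h2 : b ^ 6 ≤ b ^ 2 := pow_le_pow_of_le_one hb0.le hb1.le (by norm_num)
        calc w ^ 2 ≤ L := hwL
          _ = L ^ 2 * b ^ 6 := by
            rw [show L ^ 2 * b ^ 6 = L * (b ^ 6 * L) by ring, hb6, mul_one]
          _ ≤ L ^ 2 * b ^ 2 := mul_le_mul_of_nonneg_left h2 (by positivity)
          _ = (L * b) ^ 2 := by ring
      exact le_of_sq_le_sq h1 (by positivity)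
    have hlogw : Real.log w ^ 2 ≤ L := by
      have h1 : 0 ≤ Real.log w := Real.log_nonneg hw
      have h2 : Real.log w ≤ w := (Real.log_le_sub_one_of_pos hw0).trans (by linarith)
      exact (pow_le_pow_left₀ h1 h2 2).trans hwL
    -- the mean square
    have hI := hib f c w x ε hf hc hw hx hε hyp
    rw [← hL, hsε] at hI
    have hI2 : ∫ v in (1:ℝ)..(2 * x), ‖H f c w v‖ ^ 2 * Real.log v ^ 2 / v ≤
        2 * C₁ * (q ^ 6 * L ^ 3) := by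
      refine hI.trans ?_
      have h1 : a ^ 6 + b ^ 6 ≤ q ^ 6 := by
        have e : q ^ 6 = a ^ 6 + b ^ 6 + (6 * a ^ 5 * b + 15 * a ^ 4 * b ^ 2 + 20 * a ^ 3 * b ^ 3 +
          15 * a ^ 2 * b ^ 4 + 6 * a * b ^ 5) := by rw [hqdef]; ring
        have : 0 ≤ 6 * a ^ 5 * b + 15 * a ^ 4 * b ^ 2 + 20 * a ^ 3 * b ^ 3 +
          15 * a ^ 2 * b ^ 4 + 6 * a * b ^ 5 := by positivity
        linarith
      have h2 : L ^ 2 = b ^ 6 * L ^ 3 := by
        rw [show b ^ 6 * L ^ 3 = (b ^ 6 * L) * L ^ 2 by ring, hb6, one_mul]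
      have h3 : L * Real.log w ^ 2 ≤ L ^ 2 := by
        rw [pow_two L]
        exact mul_le_mul_of_nonneg_left hlogw hL0.le
      have h4 : a ^ 6 * L ^ 3 + L ^ 2 + L * Real.log w ^ 2 ≤ 2 * (q ^ 6 * L ^ 3) := by
        have h5 : (a ^ 6 + b ^ 6) * L ^ 3 ≤ q ^ 6 * L ^ 3 :=
          mul_le_mul_of_nonneg_right h1 (by positivity)
        have h6 : 0 ≤ a ^ 6 * L ^ 3 := by positivity
        nlinarith
      calc C₁ * (a ^ 6 * L ^ 3 + L ^ 2 + L * Real.log w ^ 2) ≤ C₁ * (2 * (q ^ 6 * L ^ 3)) :=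
            mul_le_mul_of_nonneg_left h4 hC₁.le
        _ = _ := by ring
    -- Cauchy-Schwarz
    have hq2 : q ^ 2 ≤ 1 := by nlinarith
    have hcs := cs (h := fun v => ‖H f c w v‖) (measurable_H f c w).norm
      (fun v => norm_nonneg _) (fun v => norm_H_le hfle hc w v) hx (κ := q ^ 2) (by positivity) hq2
    rw [← hL] at hcs
    have hJ : ∫ v in (1:ℝ)..(2 * x), ‖H f c w v‖ / v ≤ (2 + √(2 * C₁)) * (q ^ 2 * L) := by
      refine hcs.trans ?_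
      have h1 : (∫ v in (1:ℝ)..(2 * x), ‖H f c w v‖ ^ 2 * Real.log v ^ 2 / v) / (q ^ 2 * L) ≤
          2 * C₁ * (q ^ 2 * L) ^ 2 := by
        rw [div_le_iff₀ (by positivity)]
        refine hI2.trans (le_of_eq ?_)
        ring
      have h2 : √((∫ v in (1:ℝ)..(2 * x), ‖H f c w v‖ ^ 2 * Real.log v ^ 2 / v) / (q ^ 2 * L)) ≤
          √(2 * C₁) * (q ^ 2 * L) := by
        refine (Real.sqrt_le_sqrt h1).trans (le_of_eq ?_)
        rw [Real.sqrt_mul (by positivity), Real.sqrt_sq (by positivity)]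
      linarith
    have hA := havg f c w x q hf hc hw (by linarith) hq0 hq.le
    rw [← hL] at hA
    have hfin : ‖H f c w x‖ * L ≤ ((C₂ * (2 + √(2 * C₁)) + 4 + C₂) * q) * L := by
      have h1 : C₂ / q * (∫ v in (1:ℝ)..(2 * x), ‖H f c w v‖ / v) ≤
          C₂ / q * ((2 + √(2 * C₁)) * (q ^ 2 * L)) :=
        mul_le_mul_of_nonneg_left hJ (by positivity)
      have h2 : C₂ / q * ((2 + √(2 * C₁)) * (q ^ 2 * L)) = C₂ * (2 + √(2 * C₁)) * (q * L) := by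
        field_simp
      have h3 : C₂ * w ≤ C₂ * (q * L) := by
        refine mul_le_mul_of_nonneg_left ?_ hC₂.le
        calc w ≤ L * b := hwb
          _ ≤ L * q := mul_le_mul_of_nonneg_left hbq hL0.le
          _ = q * L := mul_comm _ _
      rw [h2] at h1
      calc ‖H f c w x‖ * L ≤ _ := hA
        _ ≤ C₂ * (2 + √(2 * C₁)) * (q * L) + 4 * q * L + C₂ * (q * L) := by linarith
        _ = _ := by ring
    exact le_of_mul_le_mul_right hfin hL0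

end Pool.Agent.Work.MP_2d9442_nt
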