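import Pool.Agent.Work.MP_2d9442_nt.LogF

/-!
# Module UpLow: the size of F in terms of the distance (S)

`∑_{p ≤ x} Re(f(p) p^{-iτ})/p = ∑_{p ≤ x} 1/p - D2 f τ x = log log x - D2 f τ x + O(1)` (`ps_mert`);
exponentiate `logF`.
-/

open Finset MeasureTheory Filter Topology
open ArithmeticFunction (vonMangoldt)

namespace Pool.Agent.Work.MP_2d9442_nt

private lemma uplow_aux : ∃ C : ℝ, 0 < C ∧ ∀ f : ℕ → ℂ, CM f → ∀ x τ : ℝ, 3 ≤ x →
    F f (1 / Real.log x) τ ≠ 0 ∧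
    Real.log ‖F f (1 / Real.log x) τ‖ ≤ C + Real.log (Real.log x) - D2 f τ x ∧
    Real.log (Real.log x) - D2 f τ x ≤ C + Real.log ‖F f (1 / Real.log x) τ‖ := by
  obtain ⟨C₁, hC₁, h₁⟩ := logF
  obtain ⟨C₂, hC₂, h₂⟩ := ps_mert
  refine ⟨C₁ + C₂, by positivity, fun f hf x τ hx => ?_⟩
  obtain ⟨h0, h3⟩ := h₁ f hf x τ hx
  have h4 := h₂ x hx
  have h5 : D2 f τ x = ∑ p ∈ P x, 1 / (p : ℝ) - ∑ p ∈ P x, (f p * tws τ p).re / (p : ℝ) := by
    unfold D2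
    rw [← Finset.sum_sub_distrib]
    exact Finset.sum_congr rfl fun p _ => sub_div _ _ _
  rw [abs_le] at h3 h4
  exact ⟨h0, by linarith [h3.1, h3.2, h4.1, h4.2], by linarith [h3.1, h3.2, h4.1, h4.2]⟩

theorem F_upper : ∃ C : ℝ, 0 < C ∧ ∀ f : ℕ → ℂ, CM f → ∀ x τ : ℝ, 3 ≤ x →
    ‖F f (1 / Real.log x) τ‖ ≤ C * Real.log x * Real.exp (-D2 f τ x) := by
  obtain ⟨C, hC, h⟩ := uplow_aux
  refine ⟨Real.exp C, Real.exp_pos _, fun f hf x τ hx => ?_⟩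
  obtain ⟨h0, h1, h2⟩ := h f hf x τ hx
  have hL : 0 < Real.log x := Real.log_pos (by linarith)
  have hF : 0 < ‖F f (1 / Real.log x) τ‖ := norm_pos_iff.2 h0
  calc ‖F f (1 / Real.log x) τ‖ = Real.exp (Real.log ‖F f (1 / Real.log x) τ‖) :=
        (Real.exp_log hF).symm
    _ ≤ Real.exp (C + Real.log (Real.log x) + -D2 f τ x) := by
        rw [Real.exp_le_exp]
        linarith
    _ = Real.exp C * Real.log x * Real.exp (-D2 f τ x) := by
        rw [Real.exp_add, Real.exp_add, Real.exp_log hL]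

theorem F_lower : ∃ C : ℝ, 0 < C ∧ ∀ f : ℕ → ℂ, CM f → ∀ x τ : ℝ, 3 ≤ x →
    Real.log x * Real.exp (-D2 f τ x) ≤ C * ‖F f (1 / Real.log x) τ‖ := by
  obtain ⟨C, hC, h⟩ := uplow_aux
  refine ⟨Real.exp C, Real.exp_pos _, fun f hf x τ hx => ?_⟩
  obtain ⟨h0, h1, h2⟩ := h f hf x τ hx
  have hL : 0 < Real.log x := Real.log_pos (by linarith)
  have hF : 0 < ‖F f (1 / Real.log x) τ‖ := norm_pos_iff.2 h0
  calc Real.log x * Real.exp (-D2 f τ x) = Real.exp (Real.log (Real.log x) + -D2 f τ x) := by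
        rw [Real.exp_add, Real.exp_log hL]
    _ ≤ Real.exp (C + Real.log ‖F f (1 / Real.log x) τ‖) := by
        rw [Real.exp_le_exp]
        linarith
    _ = Real.exp C * ‖F f (1 / Real.log x) τ‖ := by
        rw [Real.exp_add, Real.exp_log hF]

end Pool.Agent.Work.MP_2d9442_nt
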