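import Pool.Agent.Work.MP_2d9442_nt.Hal
import Pool.Agent.Work.MP_2d9442_nt.UpLow

open Finset MeasureTheory Filter Topology
open ArithmeticFunction (vonMangoldt)

namespace Pool.Agent.Work.MP_2d9442_nt

theorem halT {δ : ℝ} (hδ : 0 < δ) : ∃ T C0 x0 : ℝ, 0 < T ∧ 3 ≤ x0 ∧
    ∀ (f : ℕ → ℂ) (x : ℝ), CM f → x0 ≤ x → δ ≤ ‖G f x‖ → ∃ t : ℝ, |t| ≤ T ∧ D2 f t x ≤ C0 := by
  obtain ⟨C₁, hC₁, hup⟩ := F_upper
  obtain ⟨C₃, hC₃, hhal⟩ := halasz
  set ρ : ℝ := δ / (3 * C₃) with hρ
  have hρ0 : 0 < ρ := by positivity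
  set ε : ℝ := ρ ^ 12 with hε
  have hε0 : 0 < ε := by positivity
  have hlim : Tendsto (fun x : ℝ => C₃ * Real.log x ^ (-(1 / 6) : ℝ)) atTop (𝓝 0) := by
    have h1 : Tendsto (fun x : ℝ => Real.log x ^ (-(1 / 6) : ℝ)) atTop (𝓝 0) :=
      (tendsto_rpow_neg_atTop (by norm_num)).comp Real.tendsto_log_atTop
    simpa using h1.const_mul C₃
  obtain ⟨x1, hx1⟩ := eventually_atTop.mp
    (hlim.eventually (gt_mem_nhds (show (0:ℝ) < δ / 3 by positivity)))
  refine ⟨2 / ε, Real.log (C₁ / ε), max x1 3, by positivity, le_max_right _ _, ?_⟩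
  intro f x hf hx hG
  have hx3 : 3 ≤ x := le_trans (le_max_right _ _) hx
  have hxx1 : x1 ≤ x := le_trans (le_max_left _ _) hx
  have hL1 : 1 < Real.log x := by
    rw [Real.lt_log_iff_exp_lt (by linarith)]
    have := Real.exp_one_lt_d9
    linarith
  set L := Real.log x with hL
  have hL0 : 0 < L := by linarith
  have hσ0 : 0 < 1 / L := by positivity
  have hσ1 : 1 / L ≤ 1 := by rw [div_le_one hL0]; exact hL1.le
  obtain ⟨t, ht⟩ : ∃ t : ℝ, ε * L < ‖F f (1 / L) t‖ / ‖1 + pt (1 / L) t‖ := by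
    by_contra hcon
    push Not at hcon
    have h1 := hhal f 0 1 x ε hf (by simp) le_rfl hx3 (by rw [one_pow]; exact hL1.le) hε0.le (by
      intro τ
      rw [zero_mul, sub_zero, norm_one, one_mul]
      exact hcon τ)
    rw [H_zero_one] at h1
    have h2 : ε ^ (1 / 12 : ℝ) = ρ := by
      rw [hε, ← Real.rpow_natCast, ← Real.rpow_mul hρ0.le]
      norm_num
    have h3 := hx1 x hxx1
    rw [h2, mul_add] at h1
    have h4 : C₃ * ρ = δ / 3 := by rw [hρ]; field_simp
    linarith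
  have hre : (1 + pt (1 / L) t).re = 1 + 1 / L := by rw [Complex.add_re, pt_re, Complex.one_re]
  have him : (1 + pt (1 / L) t).im = t := by rw [Complex.add_im, pt_im, Complex.one_im, zero_add]
  set B := ‖1 + pt (1 / L) t‖ with hB
  have hB1 : 1 ≤ B := by
    have := Complex.abs_re_le_norm (1 + pt (1 / L) t)
    rw [hre, abs_of_pos (by linarith)] at this
    linarith
  have hBt : |t| ≤ B := by
    have := Complex.abs_im_le_norm (1 + pt (1 / L) t)
    rwa [him] at this
  have hB0 : 0 < B := by linarith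
  rw [lt_div_iff₀ hB0] at ht
  have hF2 : ‖F f (1 / L) t‖ ≤ 2 * L := by
    have := norm_F_le hf.le hσ0 hσ1 t
    rwa [div_div_eq_mul_div, div_one] at this
  refine ⟨t, ?_, ?_⟩
  · rw [le_div_iff₀ hε0]
    have h1 : ε * B * L < 2 * L := by nlinarith
    have h2 : ε * B < 2 := lt_of_mul_lt_mul_right h1 hL0.le
    nlinarith
  · have h1 := hup f hf x t hx3
    rw [← hL] at h1
    have h2 : ε * L ≤ C₁ * L * Real.exp (-D2 f t x) := by
      have : ε * L ≤ ε * L * B := le_mul_of_one_le_right (by positivity) hB1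
      linarith
    have h3 : ε ≤ C₁ * Real.exp (-D2 f t x) := by
      have : ε * L ≤ (C₁ * Real.exp (-D2 f t x)) * L := by linarith
      exact le_of_mul_le_mul_right this hL0
    have h4 : Real.exp (D2 f t x) ≤ C₁ / ε := by
      rw [le_div_iff₀ hε0]
      have h5 : Real.exp (D2 f t x) * ε ≤ Real.exp (D2 f t x) * (C₁ * Real.exp (-D2 f t x)) :=
        mul_le_mul_of_nonneg_left h3 (Real.exp_pos _).le
      have h6 : Real.exp (D2 f t x) * (C₁ * Real.exp (-D2 f t x)) = C₁ := by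
        rw [mul_left_comm, ← Real.exp_add, add_neg_cancel, Real.exp_zero, mul_one]
      linarith
    rw [Real.le_log_iff_exp_le (by positivity)]
    exact h4

end Pool.Agent.Work.MP_2d9442_nt
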