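import Pool.Agent.Work.MP_2d9442_nt.Planch

/-!
# Module LapP: Plancherel on a half line (S)

Proof.  Apply `planch` to `h = indicator (Ioi 0) u`; `𝓕 h ξ = ∫_{y>0} u(y) e^{-2πi ξ y} dy`
(`Real.fourier_eq'`), and change variables `τ = 2π ξ` (`integral_comp_mul_left`):
`∫ ‖Φ(τ)‖² dτ = 2π ∫ ‖Φ(2πξ)‖² dξ = 2π ∫ ‖u‖²`.
-/

open Finset MeasureTheory Filter Topology
open ArithmeticFunction (vonMangoldt)

namespace Pool.Agent.Work.MP_2d9442_nt

theorem lapP {u : ℝ → ℂ} (h1 : IntegrableOn u (Set.Ioi 0))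
    (h2 : IntegrableOn (fun y => ‖u y‖ ^ 2) (Set.Ioi 0)) :
    Integrable (fun τ : ℝ => ‖∫ y in Set.Ioi (0:ℝ), u y * Complex.exp (-((τ * y : ℝ) : ℂ) * Complex.I)‖ ^ 2) ∧
    ∫ τ : ℝ, ‖∫ y in Set.Ioi (0:ℝ), u y * Complex.exp (-((τ * y : ℝ) : ℂ) * Complex.I)‖ ^ 2 =
      2 * Real.pi * ∫ y in Set.Ioi (0:ℝ), ‖u y‖ ^ 2 := by
  set Φ : ℝ → ℂ := fun τ => ∫ y in Set.Ioi (0:ℝ), u y * Complex.exp (-((τ * y : ℝ) : ℂ) * Complex.I)
    with hΦ
  set h : ℝ → ℂ := Set.indicator (Set.Ioi 0) u with hh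
  have hi : Integrable h := (integrable_indicator_iff measurableSet_Ioi).2 h1
  have hsq : ∀ x, ‖h x‖ ^ 2 = Set.indicator (Set.Ioi 0) (fun y => ‖u y‖ ^ 2) x := by
    intro x
    rw [hh]
    by_cases hx : x ∈ Set.Ioi (0:ℝ)
    · rw [Set.indicator_of_mem hx, Set.indicator_of_mem hx]
    · rw [Set.indicator_of_notMem hx, Set.indicator_of_notMem hx]
      simp
  have hm : MemLp h 2 := by
    rw [memLp_two_iff_integrable_sq_norm hi.aestronglyMeasurable]
    simp only [hsq]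
    exact (integrable_indicator_iff measurableSet_Ioi).2 h2
  obtain ⟨p1, p2⟩ := planch hi hm
  have hF : ∀ ξ : ℝ, FourierTransform.fourier h ξ = Φ (2 * Real.pi * ξ) := by
    intro ξ
    rw [Real.fourier_eq', hΦ]
    simp only []
    rw [← integral_indicator measurableSet_Ioi]
    refine integral_congr_ae (Filter.Eventually.of_forall fun y => ?_)
    simp only [hh, smul_eq_mul]
    by_cases hy : y ∈ Set.Ioi (0:ℝ)
    · rw [Set.indicator_of_mem hy, Set.indicator_of_mem hy, mul_comm]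
      congr 2
      simp only [RCLike.inner_apply, conj_trivial]
      push_cast
      ring
    · rw [Set.indicator_of_notMem hy, Set.indicator_of_notMem hy, mul_zero]
  simp only [hF] at p1 p2
  have hpi : (2 * Real.pi : ℝ) ≠ 0 := by positivity
  have q1 : Integrable (fun τ : ℝ => ‖Φ τ‖ ^ 2) :=
    (integrable_comp_mul_left_iff (fun τ : ℝ => ‖Φ τ‖ ^ 2) hpi).1 p1
  refine ⟨q1, ?_⟩
  rw [Measure.integral_comp_mul_left (fun τ : ℝ => ‖Φ τ‖ ^ 2) (2 * Real.pi)] at p2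
  simp only [hsq] at p2
  rw [integral_indicator measurableSet_Ioi, smul_eq_mul, abs_of_pos (by positivity)] at p2
  rw [← p2, ← mul_assoc, mul_inv_cancel₀ hpi, one_mul]

end Pool.Agent.Work.MP_2d9442_nt
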