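import Pool.Agent.Work.MP_2d9442_nt.HB

/-!
# Module ZetaB: an upper bound for the zeta function and for series with bounded partial sums (S/M)

`s = 1 + pt σ τ`, `‖s‖ ≤ 1 + σ + |τ| ≤ 2 + |τ|`, `Re s = 1 + σ`.
* `zetaB`: `LSeries_eq_mul_integral` for `oneF` (`S oneF v = ⌊v⌋`): `F = s ∫_1^∞ ⌊v⌋ v^{-s-1} dv =
  s ∫_1^∞ v^{-s} dv - s ∫_1^∞ {v} v^{-s-1} dv`; the first term is `s/(s-1)`, norm
  `≤ 1 + 1/‖pt σ τ‖` (`s - 1 = pt σ τ`), the second is at most `‖s‖/(1+σ) ≤ 1 + |τ|`.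
* `lb`: `‖LSeries a s‖ ≤ ‖s‖ ∫_1^∞ ‖S a v‖ v^{-2-σ} dv ≤ ‖s‖(∫_1^m v^{-1} dv + m ∫_m^∞ v^{-2} dv)
  = ‖s‖ (log m + 1)`, using `‖S a v‖ ≤ min(v, m)`.
-/

open Finset MeasureTheory Filter Topology
open ArithmeticFunction (vonMangoldt)

namespace Pool.Agent.Work.MP_2d9442_nt

private lemma zetab_repr {a : ℕ → ℂ} (ha : ∀ n, ‖a n‖ ≤ 1) {σ : ℝ} (h0 : 0 < σ) (τ : ℝ) :
    F a σ τ = (1 + pt σ τ) * ∫ t in Set.Ioi (1 : ℝ), S a t * (t : ℂ) ^ (-((1 + pt σ τ) + 1)) := by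
  have hre : (1 : ℝ) < (1 + pt σ τ).re := by
    rw [Complex.add_re, pt_re, Complex.one_re]
    linarith
  refine LSeries_eq_mul_integral a zero_le_one hre (summable_CM ha h0 τ) ?_
  refine Asymptotics.IsBigO.of_bound 1 ?_
  filter_upwards with n
  rw [Real.rpow_one, one_mul]
  have := norm_S_le ha (x := (n : ℝ)) (Nat.cast_nonneg n)
  unfold S at this
  rw [Nat.floor_natCast] at this
  rw [Real.norm_of_nonneg (Nat.cast_nonneg n)]
  exact this

private lemma zetab_norm {σ : ℝ} (τ : ℝ) {t : ℝ} (ht : 1 < t) :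
    ‖(t : ℂ) ^ (-((1 + pt σ τ) + 1))‖ = t ^ (-(2 + σ)) := by
  rw [Complex.norm_cpow_eq_rpow_re_of_pos (by linarith)]
  congr 1
  rw [Complex.neg_re, Complex.add_re, Complex.add_re, pt_re, Complex.one_re]
  ring

private lemma zetab_s {σ : ℝ} (h0 : 0 < σ) (h1 : σ ≤ 1) (τ : ℝ) : ‖1 + pt σ τ‖ ≤ 2 + |τ| := by
  refine (Complex.norm_le_abs_re_add_abs_im _).trans ?_
  rw [Complex.add_re, pt_re, Complex.one_re, Complex.add_im, pt_im, Complex.one_im, zero_add,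
    abs_of_pos (by linarith)]
  linarith

theorem zetaB {σ : ℝ} (h0 : 0 < σ) (h1 : σ ≤ 1) (τ : ℝ) :
    ‖F oneF σ τ‖ ≤ 1 / ‖pt σ τ‖ + 3 + |τ| := by
  have hone : ∀ n, ‖oneF n‖ ≤ 1 := CM_oneF.le
  rw [zetab_repr hone h0 τ]
  set s := 1 + pt σ τ with hs
  have hsre : s.re = 1 + σ := by rw [hs, Complex.add_re, pt_re, Complex.one_re]
  have hptn : 0 < ‖pt σ τ‖ := by
    rw [norm_pos_iff]
    intro h
    have := pt_re σ τ
    rw [h, Complex.zero_re] at this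
    linarith
  have hS : ∀ t : ℝ, S oneF t = (⌊t⌋₊ : ℂ) := by
    intro t
    unfold S
    have : ∀ n ∈ Finset.Icc 1 ⌊t⌋₊, oneF n = 1 := by
      intro n hn
      rw [Finset.mem_Icc] at hn
      unfold oneF
      rw [if_neg (by omega)]
    rw [Finset.sum_congr rfl this, Finset.sum_const, Nat.card_Icc, nsmul_eq_mul, mul_one]
    congr 1
  -- the main part
  have hI1 : IntegrableOn (fun t : ℝ => (t : ℂ) * (t : ℂ) ^ (-(s + 1))) (Set.Ioi 1) := by
    have h := integrableOn_Ioi_cpow_of_lt (a := -s) (c := 1) (by rw [Complex.neg_re, hsre]; linarith)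
      one_pos
    refine h.congr_fun (fun t ht => ?_) measurableSet_Ioi
    have ht0 : (t : ℂ) ≠ 0 := by
      have : (0 : ℝ) < t := lt_trans one_pos ht
      exact_mod_cast this.ne'
    show (t : ℂ) ^ (-s) = (t : ℂ) * (t : ℂ) ^ (-(s + 1))
    rw [show -s = 1 + -(s + 1) by ring, Complex.cpow_add _ _ ht0, Complex.cpow_one]
  have hv1 : ∫ t in Set.Ioi (1:ℝ), (t : ℂ) * (t : ℂ) ^ (-(s + 1)) = 1 / pt σ τ := by
    have e : ∫ t in Set.Ioi (1:ℝ), (t : ℂ) * (t : ℂ) ^ (-(s + 1)) =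
        ∫ t in Set.Ioi (1:ℝ), (t : ℂ) ^ (-s) := by
      refine setIntegral_congr_fun measurableSet_Ioi fun t ht => ?_
      have ht0 : (t : ℂ) ≠ 0 := by
        have : (0 : ℝ) < t := lt_trans one_pos ht
        exact_mod_cast this.ne'
      show (t : ℂ) * (t : ℂ) ^ (-(s + 1)) = (t : ℂ) ^ (-s)
      rw [show -s = 1 + -(s + 1) by ring, Complex.cpow_add _ _ ht0, Complex.cpow_one]
    rw [e, integral_Ioi_cpow_of_lt (by rw [Complex.neg_re, hsre]; linarith) one_pos,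
      Complex.ofReal_one, Complex.one_cpow]
    have : -s + 1 = -pt σ τ := by rw [hs]; ring
    rw [this, neg_div_neg_eq]
  -- the remainder
  have hfr : ∀ t : ℝ, 1 < t → ‖((⌊t⌋₊ : ℂ) - (t : ℂ))‖ ≤ 1 := by
    intro t ht
    have h1 : (⌊t⌋₊ : ℝ) ≤ t := Nat.floor_le (by linarith)
    have h2 : t < ⌊t⌋₊ + 1 := Nat.lt_floor_add_one t
    have e : ((⌊t⌋₊ : ℂ) - (t : ℂ)) = (((⌊t⌋₊ : ℝ) - t : ℝ) : ℂ) := by push_cast; rfl
    rw [e, Complex.norm_real, Real.norm_eq_abs, abs_le]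
    constructor <;> linarith
  have hrint : IntegrableOn (fun t : ℝ => t ^ (-(2 + σ))) (Set.Ioi 1) :=
    integrableOn_Ioi_rpow_of_lt (by linarith) one_pos
  have hrval : ∫ t in Set.Ioi (1:ℝ), t ^ (-(2 + σ)) = 1 / (1 + σ) := by
    rw [integral_Ioi_rpow_of_lt (by linarith) one_pos, Real.one_rpow]
    rw [show -(2 + σ) + 1 = -(1 + σ) by ring, neg_div_neg_eq]
  have hmeas : AEStronglyMeasurable (fun t : ℝ => ((⌊t⌋₊ : ℂ) - (t : ℂ)) * (t : ℂ) ^ (-(s + 1)))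
      (volume.restrict (Set.Ioi (1:ℝ))) := by
    refine Measurable.aestronglyMeasurable ?_
    refine Measurable.mul ?_ ?_
    · refine Measurable.sub ?_ Complex.measurable_ofReal
      have : Measurable fun t : ℝ => ((⌊t⌋₊ : ℕ) : ℂ) :=
        (measurable_from_nat (f := fun n : ℕ => (n : ℂ))).comp Nat.measurable_floor
      exact this
    · exact Complex.measurable_ofReal.pow_const _
  have hI2 : IntegrableOn (fun t : ℝ => ((⌊t⌋₊ : ℂ) - (t : ℂ)) * (t : ℂ) ^ (-(s + 1)))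
      (Set.Ioi 1) := by
    refine Integrable.mono' hrint hmeas ?_
    filter_upwards [ae_restrict_mem measurableSet_Ioi] with t ht
    rw [norm_mul, hs, zetab_norm τ ht]
    have ht0 : (0 : ℝ) < t := lt_trans one_pos ht
    exact mul_le_of_le_one_left (by positivity) (hfr t ht)
  have hv2 : ‖∫ t in Set.Ioi (1:ℝ), ((⌊t⌋₊ : ℂ) - (t : ℂ)) * (t : ℂ) ^ (-(s + 1))‖ ≤
      1 / (1 + σ) := by
    rw [← hrval]
    refine norm_integral_le_of_norm_le hrint ?_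
    filter_upwards [ae_restrict_mem measurableSet_Ioi] with t ht
    rw [norm_mul, hs, zetab_norm τ ht]
    have ht0 : (0 : ℝ) < t := lt_trans one_pos ht
    exact mul_le_of_le_one_left (by positivity) (hfr t ht)
  have hsplit : ∫ t in Set.Ioi (1:ℝ), S oneF t * (t : ℂ) ^ (-(s + 1)) =
      1 / pt σ τ + ∫ t in Set.Ioi (1:ℝ), ((⌊t⌋₊ : ℂ) - (t : ℂ)) * (t : ℂ) ^ (-(s + 1)) := by
    rw [← hv1, ← integral_add hI1 hI2]
    refine setIntegral_congr_fun measurableSet_Ioi fun t _ => ?_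
    show S oneF t * (t : ℂ) ^ (-(s + 1)) = _
    rw [hS]
    ring
  rw [hsplit, mul_add]
  refine (norm_add_le _ _).trans ?_
  have hA : ‖s * (1 / pt σ τ)‖ ≤ 1 / ‖pt σ τ‖ + 1 := by
    have hpt0 : pt σ τ ≠ 0 := norm_pos_iff.1 hptn
    have e : s * (1 / pt σ τ) = 1 / pt σ τ + 1 := by
      rw [hs]
      field_simp
    rw [e]
    refine (norm_add_le _ _).trans ?_
    rw [norm_div, norm_one]
  have hB : ‖s * ∫ t in Set.Ioi (1:ℝ), ((⌊t⌋₊ : ℂ) - (t : ℂ)) * (t : ℂ) ^ (-(s + 1))‖ ≤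
      2 + |τ| := by
    rw [norm_mul]
    calc ‖s‖ * ‖∫ t in Set.Ioi (1:ℝ), ((⌊t⌋₊ : ℂ) - (t : ℂ)) * (t : ℂ) ^ (-(s + 1))‖
        ≤ (2 + |τ|) * (1 / (1 + σ)) :=
          mul_le_mul (zetab_s h0 h1 τ) hv2 (norm_nonneg _) (by positivity)
      _ ≤ (2 + |τ|) * 1 := by
          refine mul_le_mul_of_nonneg_left ?_ (by positivity)
          rw [div_le_one (by linarith)]
          linarith
      _ = 2 + |τ| := mul_one _
  linarith

theorem lb {a : ℕ → ℂ} {m : ℝ} (hm : 1 ≤ m) (ha : ∀ n, ‖a n‖ ≤ 1) (hS : ∀ v : ℝ, ‖S a v‖ ≤ m)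
    {σ : ℝ} (h0 : 0 < σ) (h1 : σ ≤ 1) (τ : ℝ) :
    ‖F a σ τ‖ ≤ (2 + |τ|) * (1 + Real.log m) := by
  rw [zetab_repr ha h0 τ, norm_mul]
  have hm0 : 0 < m := by linarith
  have hlm : 0 ≤ Real.log m := Real.log_nonneg hm
  -- the majorant
  have hint1 : IntegrableOn (fun t : ℝ => t⁻¹) (Set.Ioc 1 m) := by
    have : IntervalIntegrable (fun t : ℝ => t⁻¹) volume 1 m := by
      refine intervalIntegral.intervalIntegrable_inv (fun t ht => ?_) continuousOn_id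
      rw [Set.uIcc_of_le hm] at ht
      exact (lt_of_lt_of_le one_pos ht.1).ne'
    exact this.1
  have hint2 : IntegrableOn (fun t : ℝ => m * t ^ (-2 : ℝ)) (Set.Ioi m) :=
    (integrableOn_Ioi_rpow_of_lt (by norm_num) hm0).const_mul m
  have hval1 : ∫ t in Set.Ioc 1 m, t⁻¹ = Real.log m := by
    rw [← intervalIntegral.integral_of_le hm, integral_inv_of_pos one_pos hm0, div_one]
  have hval2 : ∫ t in Set.Ioi m, m * t ^ (-2 : ℝ) = 1 := by
    rw [integral_const_mul, integral_Ioi_rpow_of_lt (by norm_num) hm0]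
    norm_num
    rw [Real.rpow_neg_one]
    exact mul_inv_cancel₀ hm0.ne'
  have hbd1 : ∀ t ∈ Set.Ioc 1 m, ‖S a t * (t : ℂ) ^ (-((1 + pt σ τ) + 1))‖ ≤ t⁻¹ := by
    intro t ht
    have ht0 : 0 < t := by linarith [ht.1]
    rw [norm_mul, zetab_norm τ ht.1]
    have h2 : ‖S a t‖ ≤ t := norm_S_le ha ht0.le
    have h3 : t ^ (-(2 + σ)) ≤ t ^ (-2 : ℝ) :=
      Real.rpow_le_rpow_of_exponent_le ht.1.le (by linarith)
    calc ‖S a t‖ * t ^ (-(2 + σ)) ≤ t * t ^ (-2 : ℝ) :=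
          mul_le_mul h2 h3 (by positivity) ht0.le
      _ = t⁻¹ := by
          rw [← Real.rpow_one_add' ht0.le (by norm_num)]
          norm_num
          rw [Real.rpow_neg_one]
  have hbd2 : ∀ t ∈ Set.Ioi m, ‖S a t * (t : ℂ) ^ (-((1 + pt σ τ) + 1))‖ ≤ m * t ^ (-2 : ℝ) := by
    intro t ht
    have ht1 : 1 < t := lt_of_le_of_lt hm ht
    have ht0 : 0 < t := by linarith
    rw [norm_mul, zetab_norm τ ht1]
    have h3 : t ^ (-(2 + σ)) ≤ t ^ (-2 : ℝ) :=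
      Real.rpow_le_rpow_of_exponent_le ht1.le (by linarith)
    exact mul_le_mul (hS t) h3 (by positivity) hm0.le
  have hmeas : Measurable (fun t : ℝ => S a t * (t : ℂ) ^ (-((1 + pt σ τ) + 1))) :=
    (measurable_S a).mul (Complex.measurable_ofReal.pow_const _)
  have hJ1 : IntegrableOn (fun t : ℝ => S a t * (t : ℂ) ^ (-((1 + pt σ τ) + 1))) (Set.Ioc 1 m) := by
    refine Integrable.mono' hint1 hmeas.aestronglyMeasurable ?_
    filter_upwards [ae_restrict_mem measurableSet_Ioc] with t ht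
    exact hbd1 t ht
  have hJ2 : IntegrableOn (fun t : ℝ => S a t * (t : ℂ) ^ (-((1 + pt σ τ) + 1))) (Set.Ioi m) := by
    refine Integrable.mono' hint2 hmeas.aestronglyMeasurable ?_
    filter_upwards [ae_restrict_mem measurableSet_Ioi] with t ht
    exact hbd2 t ht
  have hunion : Set.Ioi (1 : ℝ) = Set.Ioc 1 m ∪ Set.Ioi m := (Set.Ioc_union_Ioi_eq_Ioi hm).symm
  have hle : ‖∫ t in Set.Ioi (1 : ℝ), S a t * (t : ℂ) ^ (-((1 + pt σ τ) + 1))‖ ≤
      1 + Real.log m := by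
    rw [hunion, setIntegral_union (Set.Ioc_disjoint_Ioi le_rfl) measurableSet_Ioi hJ1 hJ2]
    refine (norm_add_le _ _).trans ?_
    have h2 : ‖∫ t in Set.Ioc 1 m, S a t * (t : ℂ) ^ (-((1 + pt σ τ) + 1))‖ ≤ Real.log m := by
      rw [← hval1]
      refine norm_integral_le_of_norm_le hint1 ?_
      filter_upwards [ae_restrict_mem measurableSet_Ioc] with t ht
      exact hbd1 t ht
    have h3 : ‖∫ t in Set.Ioi m, S a t * (t : ℂ) ^ (-((1 + pt σ τ) + 1))‖ ≤ 1 := by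
      rw [← hval2]
      refine norm_integral_le_of_norm_le hint2 ?_
      filter_upwards [ae_restrict_mem measurableSet_Ioi] with t ht
      exact hbd2 t ht
    linarith
  exact mul_le_mul (zetab_s h0 h1 τ) hle (norm_nonneg _) (by positivity)

end Pool.Agent.Work.MP_2d9442_nt
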