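import Pool.Agent.Work.MP_2d9442_nt.Hal
import Pool.Agent.Work.MP_2d9442_nt.UpLow
import Pool.Agent.Work.MP_2d9442_nt.ZetaB
import Pool.Agent.Work.MP_2d9442_nt.Tri

/-!
# Module Lip: Lipschitz property of mean values (M)

`σ = 1/log x`, `τ' = τ - t`, `u = pt σ τ'`.
`c w^{-pt σ τ} = w^{-u}` for `c = w^{it}`, and `‖1 - w^{-u}‖ ≤ min(2, ‖u‖ log w)` (`Re u > 0`;
`‖1 - e^{-ζ}‖ ≤ ‖ζ‖` for `Re ζ ≥ 0`).
`F_upper`: `‖F f σ τ‖ ≤ C log x e^{-D2 f τ x}`; `tri_one`: `-D2 f τ x ≤ D2 f t x - D2 oneF τ' x/2`;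
`F_lower` for `oneF` and `zetaB`: `e^{-D2 oneF τ' x} ≤ C (1/‖u‖ + 3 + |τ'|)/log x`.  So
`‖F f σ τ‖ ≤ C e^{C0} (log x)^{1/2} (1/‖u‖ + 3 + |τ'|)^{1/2} ≤ C e^{C0} (log x)^{1/2}
(‖u‖^{-1/2} + (3+|τ'|)^{1/2})`.
`min(2, ‖u‖ log w) ‖u‖^{-1/2} ≤ √2 (log w)^{1/2}` (as `min(2,y)² ≤ 2y`), and
`2 (3 + |τ'|)^{1/2} ≤ 2 (3 + T + |τ|)^{1/2} ≤ C_T ‖1 + pt σ τ‖` (`‖1 + pt σ τ‖ ≥ (1+|τ|)/√2`).
So the hypothesis of `halasz` holds with `ε = C_T' (1 + (log w)^{1/2}) (log x)^{-1/2} ≤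
2 C_T' (log x)^{-1/4}` because `(log w)^{1/2} ≤ w^{1/2} ≤ (log x)^{1/4}`.
Then `‖H‖ ≤ C (ε^{1/12} + (log x)^{-1/6}) ≤ C'' (log x)^{-1/48}`.
-/

open Finset MeasureTheory Filter Topology
open ArithmeticFunction (vonMangoldt)

namespace Pool.Agent.Work.MP_2d9442_nt

private lemma lip_exp {ζ : ℂ} (h : 0 ≤ ζ.re) : ‖1 - Complex.exp (-ζ)‖ ≤ ‖ζ‖ := by
  have hconv : Convex ℝ {z : ℂ | z.re ≤ 0} := convex_halfSpace_re_le 0
  have := hconv.norm_image_sub_le_of_norm_deriv_le (f := Complex.exp) (C := 1)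
    (fun z _ => Complex.differentiableAt_exp) (fun z hz => by
      rw [Complex.deriv_exp, Complex.norm_exp]
      exact Real.exp_le_one_iff.2 hz) (x := 0) (y := -ζ) (by simp) (by simpa using h)
  rw [Complex.exp_zero, sub_zero, norm_neg, one_mul] at this
  rwa [norm_sub_rev]

theorem lip (T C0 : ℝ) : ∃ C x0 : ℝ, 0 < C ∧ 3 ≤ x0 ∧ ∀ (f : ℕ → ℂ) (t x w : ℝ), CM f →
    x0 ≤ x → |t| ≤ T → D2 f t x ≤ C0 → 1 ≤ w → w ^ 2 ≤ Real.log x →
    ‖H f ((w : ℂ) ^ ((t : ℂ) * Complex.I)) w x‖ ≤ C * Real.log x ^ (-(1 / 48) : ℝ) := by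
  obtain ⟨C₁, hC₁, hup⟩ := F_upper
  obtain ⟨C₂, hC₂, hlow⟩ := F_lower
  obtain ⟨C₃, hC₃, hhal⟩ := halasz
  set K : ℝ := C₁ * Real.exp C0 * √C₂ * √(18 + 4 * |T|) with hK
  have hK0 : 0 < K := by
    have : 0 ≤ |T| := abs_nonneg T
    have h1 : 0 < √(18 + 4 * |T|) := Real.sqrt_pos.2 (by linarith)
    have h2 : 0 < √C₂ := Real.sqrt_pos.2 hC₂
    positivity
  refine ⟨C₃ * (K ^ (1 / 12 : ℝ) + 1), 3, by positivity, le_rfl, ?_⟩
  intro f t x w hf hx ht hD hw hwL
  have hL1 : 1 < Real.log x := by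
    rw [Real.lt_log_iff_exp_lt (by linarith)]
    have := Real.exp_one_lt_d9
    linarith
  set L := Real.log x with hL
  have hL0 : 0 < L := by linarith
  -- the parameter r
  set r := L ^ (1 / 48 : ℝ) with hr
  have hr1 : 1 ≤ r := Real.one_le_rpow hL1.le (by norm_num)
  have hr0 : 0 < r := by linarith
  have hr48 : r ^ 48 = L := by
    rw [hr, ← Real.rpow_natCast, ← Real.rpow_mul hL0.le]
    norm_num
  have hrinv : L ^ (-(1 / 48) : ℝ) = r⁻¹ := by
    rw [hr, Real.rpow_neg hL0.le]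
  have hw0 : 0 < w := by linarith
  have hwr : w ≤ r ^ 24 := by
    refine le_of_sq_le_sq ?_ (by positivity)
    rw [← pow_mul]
    norm_num
    rw [hr48]
    exact hwL
  have hlw0 : 0 ≤ Real.log w := Real.log_nonneg hw
  have hlw : Real.log w ≤ r ^ 24 := by
    have : Real.log w ≤ w := (Real.log_le_sub_one_of_pos hw0).trans (by linarith)
    exact this.trans hwr
  set σ := 1 / L with hσ
  have hσ0 : 0 < σ := by positivity
  have hσ1 : σ ≤ 1 := by
    rw [hσ, div_le_one hL0]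
    exact hL1.le
  have hσL : σ * L = 1 := by rw [hσ]; field_simp
  have hwc : (w : ℂ) ≠ 0 := by exact_mod_cast hw0.ne'
  set c : ℂ := (w : ℂ) ^ ((t : ℂ) * Complex.I) with hc
  have hcn : ‖c‖ ≤ 1 := by
    rw [hc, Complex.norm_cpow_eq_rpow_re_of_pos hw0]
    simp
  -- the hypothesis of the theorem of Halasz
  have hyp : ∀ τ : ℝ, ‖1 - c * (w : ℂ) ^ (-(pt (1 / Real.log x) τ))‖ *
      ‖F f (1 / Real.log x) τ‖ / ‖1 + pt (1 / Real.log x) τ‖ ≤ (K * (r⁻¹) ^ 12) * Real.log x := by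
    intro τ
    rw [← hL, ← hσ]
    set u := pt σ (τ - t) with hu
    have hure : u.re = σ := pt_re _ _
    have hun : 0 < ‖u‖ := by
      rw [norm_pos_iff]
      intro h
      rw [h] at hure
      simp at hure
      linarith
    have hcw : c * (w : ℂ) ^ (-(pt σ τ)) = Complex.exp (-(u * Real.log w)) := by
      rw [hc, ← Complex.cpow_add _ _ hwc, Complex.cpow_def_of_ne_zero hwc,
        ← Complex.ofReal_log hw0.le]
      congr 1
      rw [hu]
      unfold pt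
      push_cast
      ring
    have hre : 0 ≤ (u * (Real.log w : ℂ)).re := by
      rw [Complex.re_mul_ofReal, hure]
      positivity
    set M := ‖1 - c * (w : ℂ) ^ (-(pt σ τ))‖ with hM
    have hM0 : 0 ≤ M := norm_nonneg _
    have hM2 : M ≤ 2 := by
      rw [hM, hcw]
      calc ‖1 - Complex.exp (-(u * Real.log w))‖ ≤ ‖(1 : ℂ)‖ + ‖Complex.exp (-(u * Real.log w))‖ :=
            norm_sub_le _ _
        _ ≤ 1 + 1 := by
            rw [norm_one, Complex.norm_exp]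
            have : Real.exp (-(u * (Real.log w : ℂ))).re ≤ 1 := by
              rw [Complex.neg_re]
              exact Real.exp_le_one_iff.2 (by linarith)
            linarith
        _ = 2 := by norm_num
    have hMu : M ≤ ‖u‖ * Real.log w := by
      rw [hM, hcw]
      refine (lip_exp hre).trans (le_of_eq ?_)
      rw [norm_mul, Complex.norm_real, Real.norm_of_nonneg hlw0]
    -- the size of F
    have h1 := hup f hf x τ hx
    have h2 := hlow oneF CM_oneF x (τ - t) hx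
    have h3 := zetaB hσ0 hσ1 (τ - t)
    have h4 := tri_one hf.le τ t x
    rw [← hL, ← hσ] at h1 h2
    rw [← hu] at h3
    set A := 1 / ‖u‖ + 3 + |τ - t| with hA
    have hA0 : 0 < A := by
      have := abs_nonneg (τ - t)
      positivity
    have h5 : L * Real.exp (-D2 oneF (τ - t) x) ≤ C₂ * A :=
      h2.trans (mul_le_mul_of_nonneg_left h3 hC₂.le)
    have h6 : Real.exp (-D2 f τ x) ≤ Real.exp C0 * √(C₂ * A / L) := by
      have h7 : Real.exp (-D2 oneF (τ - t) x) ≤ C₂ * A / L := by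
        rw [le_div_iff₀ hL0, mul_comm]
        exact h5
      have h8 : Real.exp (-D2 oneF (τ - t) x / 2) ≤ √(C₂ * A / L) := by
        rw [Real.exp_half]
        exact Real.sqrt_le_sqrt h7
      calc Real.exp (-D2 f τ x) ≤ Real.exp (C0 + -D2 oneF (τ - t) x / 2) := by
            rw [Real.exp_le_exp]
            linarith
        _ = Real.exp C0 * Real.exp (-D2 oneF (τ - t) x / 2) := Real.exp_add _ _
        _ ≤ _ := mul_le_mul_of_nonneg_left h8 (Real.exp_pos _).le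
    have h9 : √(C₂ * A / L) = √C₂ * √A / r ^ 24 := by
      rw [Real.sqrt_div (by positivity), Real.sqrt_mul hC₂.le]
      congr 1
      rw [← hr48, show r ^ 48 = (r ^ 24) ^ 2 by ring, Real.sqrt_sq (by positivity)]
    have h10 : ‖F f σ τ‖ ≤ C₁ * Real.exp C0 * √C₂ * r ^ 24 * √A := by
      calc ‖F f σ τ‖ ≤ C₁ * L * Real.exp (-D2 f τ x) := h1
        _ ≤ C₁ * L * (Real.exp C0 * √(C₂ * A / L)) := mul_le_mul_of_nonneg_left h6 (by positivity)
        _ = _ := by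
          rw [h9, ← hr48]
          field_simp
    -- the size of M * sqrt A
    set B := ‖1 + pt σ τ‖ with hB
    have hBre : (1 + pt σ τ).re = 1 + σ := by rw [Complex.add_re, pt_re, Complex.one_re]
    have hBim : (1 + pt σ τ).im = τ := by rw [Complex.add_im, pt_im, Complex.one_im, zero_add]
    have hB1 : 1 ≤ B := by
      have := Complex.abs_re_le_norm (1 + pt σ τ)
      rw [hBre, abs_of_pos (by linarith)] at this
      linarith
    have hBt : |τ| ≤ B := by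
      have := Complex.abs_im_le_norm (1 + pt σ τ)
      rwa [hBim] at this
    have hB0 : 0 < B := by linarith
    have h11 : M ^ 2 * A ≤ (18 + 4 * |T|) * (r ^ 24 * B ^ 2) := by
      have hT : |t| ≤ |T| := ht.trans (le_abs_self T)
      have ha : M ^ 2 * (1 / ‖u‖) ≤ 2 * Real.log w := by
        rw [mul_one_div, div_le_iff₀ hun]
        nlinarith
      have hb : M ^ 2 ≤ 4 := by nlinarith
      have hab : |τ - t| ≤ |τ| + |t| := abs_sub _ _
      have hcc : M ^ 2 * (3 + |τ - t|) ≤ 4 * (3 + |T| + |τ|) := by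
        have h0 : 0 ≤ 3 + |τ - t| := by positivity
        calc M ^ 2 * (3 + |τ - t|) ≤ 4 * (3 + |τ - t|) := mul_le_mul_of_nonneg_right hb h0
          _ ≤ _ := by linarith
      have hd : M ^ 2 * A ≤ 2 * Real.log w + 4 * (3 + |T| + |τ|) := by
        calc M ^ 2 * A = M ^ 2 * (1 / ‖u‖) + M ^ 2 * (3 + |τ - t|) := by rw [hA]; ring
          _ ≤ _ := add_le_add ha hcc
      have hBB : 1 ≤ B ^ 2 := one_le_pow₀ hB1
      have hBt2 : |τ| ≤ B ^ 2 := hBt.trans (by nlinarith)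
      have hr24 : 1 ≤ r ^ 24 := one_le_pow₀ hr1
      have hprod : r ^ 24 ≤ r ^ 24 * B ^ 2 := le_mul_of_one_le_right (by positivity) hBB
      have hprod2 : B ^ 2 ≤ r ^ 24 * B ^ 2 := le_mul_of_one_le_left (by positivity) hr24
      have hTB : |T| ≤ |T| * (r ^ 24 * B ^ 2) :=
        le_mul_of_one_le_right (abs_nonneg T) (hr24.trans hprod)
      nlinarith
    have h12 : M * √A ≤ √(18 + 4 * |T|) * (r ^ 12 * B) := by
      have h13 := Real.sqrt_le_sqrt h11
      have h14 : √(M ^ 2 * A) = M * √A := by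
        rw [Real.sqrt_mul (by positivity), Real.sqrt_sq hM0]
      have h15 : √((18 + 4 * |T|) * (r ^ 24 * B ^ 2)) = √(18 + 4 * |T|) * (r ^ 12 * B) := by
        rw [Real.sqrt_mul (by positivity), show r ^ 24 * B ^ 2 = (r ^ 12 * B) ^ 2 by ring,
          Real.sqrt_sq (by positivity)]
      rw [h14, h15] at h13
      exact h13
    rw [div_le_iff₀ hB0]
    calc M * ‖F f σ τ‖ ≤ M * (C₁ * Real.exp C0 * √C₂ * r ^ 24 * √A) :=
          mul_le_mul_of_nonneg_left h10 hM0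
      _ = (C₁ * Real.exp C0 * √C₂ * r ^ 24) * (M * √A) := by ring
      _ ≤ (C₁ * Real.exp C0 * √C₂ * r ^ 24) * (√(18 + 4 * |T|) * (r ^ 12 * B)) :=
          mul_le_mul_of_nonneg_left h12 (by positivity)
      _ = K * (r⁻¹) ^ 12 * L * B := by
          rw [hK, ← hr48]
          field_simp
  have hmain := hhal f c w x (K * (r⁻¹) ^ 12) hf hcn hw hx hwL (by positivity) hyp
  rw [← hL] at hmain
  refine hmain.trans ?_
  have e1 : (K * (r⁻¹) ^ 12) ^ (1 / 12 : ℝ) = K ^ (1 / 12 : ℝ) * r⁻¹ := by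
    rw [Real.mul_rpow hK0.le (by positivity), ← Real.rpow_natCast, ← Real.rpow_mul (by positivity)]
    norm_num
  have e2 : L ^ (-(1 / 6) : ℝ) ≤ r⁻¹ := by
    rw [← hrinv]
    exact Real.rpow_le_rpow_of_exponent_le hL1.le (by norm_num)
  rw [e1, hrinv, mul_assoc]
  refine mul_le_mul_of_nonneg_left ?_ hC₃.le
  rw [add_mul, one_mul]
  linarith

end Pool.Agent.Work.MP_2d9442_nt
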