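import Pool.Agent.Work.MP_2d9442_nt.HalT
import Pool.Agent.Work.MP_2d9442_nt.Lip
import Pool.Agent.Work.MP_2d9442_nt.EMainC

/-!
# Module LevMain: large exponential sums at all levels q p^j
-/

open Finset MeasureTheory Filter Topology
open ArithmeticFunction (vonMangoldt)

namespace Pool.Agent.Work.MP_2d9442_nt

private theorem lev_ev {q : ℕ} (hq : 1 ≤ q) {a κ ε : ℝ} (ha : 0 < a) (hκ : 0 < κ) (hε : 0 < ε)
    (x0 : ℝ) : ∃ N0 : ℕ, ∀ N : ℕ, N0 ≤ N →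
    x0 ≤ √(N : ℝ) ∧ a * Real.log N ^ (-(1 / 48) : ℝ) ≤ ε ∧
    a * (Real.log N ^ (1 / 400 : ℝ)) ^ 2 * Real.log N ^ (-(1 / 48) : ℝ) ≤ ε ∧
    √(N : ℝ) * (q * Real.log N ^ (1 / 400 : ℝ)) ≤ κ * N / 2 ∧ 2 ≤ κ * N ∧
    2 * (q * Real.log N ^ (1 / 400 : ℝ)) ≤ Real.log N ∧ 1 ≤ Real.log N := by
  have hT : Tendsto (fun N : ℕ => (N : ℝ)) atTop atTop := tendsto_natCast_atTop_atTop
  have hL : Tendsto (fun N : ℕ => Real.log N) atTop atTop := Real.tendsto_log_atTop.comp hT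
  have e1 : ∀ᶠ N : ℕ in atTop, x0 ≤ √(N : ℝ) :=
    ((Real.tendsto_sqrt_atTop.comp hT).eventually_ge_atTop x0)
  have e2 : ∀ᶠ N : ℕ in atTop, a * Real.log N ^ (-(1 / 48) : ℝ) ≤ ε := by
    have h1 : Tendsto (fun N : ℕ => a * Real.log N ^ (-(1 / 48) : ℝ)) atTop (𝓝 (a * 0)) :=
      ((tendsto_rpow_neg_atTop (by norm_num)).comp hL).const_mul a
    rw [mul_zero] at h1
    exact h1.eventually_le_const hε
  have e6 : ∀ᶠ N : ℕ in atTop, 1 ≤ Real.log N := hL.eventually_ge_atTop 1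
  have e3 : ∀ᶠ N : ℕ in atTop,
      a * (Real.log N ^ (1 / 400 : ℝ)) ^ 2 * Real.log N ^ (-(1 / 48) : ℝ) ≤ ε := by
    have h1 : Tendsto (fun N : ℕ => a * Real.log N ^ (-(1 / 100) : ℝ)) atTop (𝓝 (a * 0)) :=
      ((tendsto_rpow_neg_atTop (by norm_num)).comp hL).const_mul a
    rw [mul_zero] at h1
    filter_upwards [h1.eventually_le_const hε, e6] with N hN h6
    refine le_trans ?_ hN
    rw [mul_assoc, ← Real.rpow_natCast, ← Real.rpow_mul (by linarith), ← Real.rpow_add (by linarith)]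
    refine mul_le_mul_of_nonneg_left (Real.rpow_le_rpow_of_exponent_le h6 (by norm_num)) ha.le
  have e5 : ∀ᶠ N : ℕ in atTop, 2 ≤ κ * N := (hT.const_mul_atTop hκ).eventually_ge_atTop 2
  have e4 : ∀ᶠ N : ℕ in atTop, √(N : ℝ) * (q * Real.log N ^ (1 / 400 : ℝ)) ≤ κ * N / 2 := by
    have hq0 : (0:ℝ) < q := by exact_mod_cast hq
    have h1 : (fun x : ℝ => Real.log x ^ (1 / 400 : ℝ)) =o[atTop] fun x => x ^ (1 / 2 : ℝ) :=
      isLittleO_log_rpow_rpow_atTop (1 / 400) (by norm_num)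
    have h2 := h1.bound (c := κ / (2 * q)) (by positivity)
    filter_upwards [hT.eventually h2, e6] with N hN h6
    have hN0 : (0:ℝ) ≤ N := Nat.cast_nonneg N
    rw [Real.norm_of_nonneg (by positivity), Real.norm_of_nonneg (by positivity),
      ← Real.sqrt_eq_rpow] at hN
    calc √(N : ℝ) * (q * Real.log N ^ (1 / 400 : ℝ))
        ≤ √(N : ℝ) * (q * (κ / (2 * q) * √(N:ℝ))) := by gcongr
      _ = κ * (√(N:ℝ) * √(N:ℝ)) / 2 := by field_simp
      _ = κ * N / 2 := by rw [Real.mul_self_sqrt hN0]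
  have e7 : ∀ᶠ N : ℕ in atTop, 2 * (q * Real.log N ^ (1 / 400 : ℝ)) ≤ Real.log N := by
    have hq0 : (0:ℝ) < q := by exact_mod_cast hq
    have h1 : Tendsto (fun N : ℕ => 2 * q * Real.log N ^ (-(399 / 400) : ℝ)) atTop (𝓝 (2 * q * 0)) :=
      ((tendsto_rpow_neg_atTop (by norm_num)).comp hL).const_mul (2 * (q:ℝ))
    rw [mul_zero] at h1
    filter_upwards [h1.eventually_le_const zero_lt_one, e6] with N hN h6
    have h8 : Real.log N ^ (1 / 400 : ℝ) = Real.log N ^ (-(399 / 400) : ℝ) * Real.log N := by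
      rw [← Real.rpow_add_one (by linarith)]
      norm_num
    calc 2 * (q * Real.log N ^ (1 / 400 : ℝ)) =
        (2 * q * Real.log N ^ (-(399 / 400) : ℝ)) * Real.log N := by rw [h8]; ring
      _ ≤ 1 * Real.log N := by gcongr
      _ = Real.log N := one_mul _
  obtain ⟨N0, h⟩ := eventually_atTop.1
    (e1.and (e2.and (e3.and (e4.and (e5.and (e7.and e6))))))
  exact ⟨N0, h⟩

theorem levMain {q p : ℕ} (hq : 1 ≤ q) (hp : p.Prime) (hpq : p ∣ q) (χ : DirichletCharacter ℂ q)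
    (hχ : χ.IsPrimitive) {δ : ℝ} (hδ : 0 < δ) : ∃ c : ℝ, 0 < c ∧ ∃ N0 : ℕ, ∀ N : ℕ, N0 ≤ N →
    ∀ u : ℕ → ℂ, UM u → δ * N ≤ ‖S (tw u χ) N‖ → ∀ j : ℕ,
    ((p ^ j : ℕ) : ℝ) ≤ Real.log N ^ (1 / 400 : ℝ) →
    c * N / (p ^ j : ℕ) ≤
      ‖∑ n ∈ Finset.Ioc ⌊δ / 8 * N⌋₊ N, u n * ee (-(n : ℝ) / (q * p ^ j : ℕ))‖ := by
  obtain ⟨T, C0, x0, hT, hx0, hhalT⟩ := halT hδ
  obtain ⟨C₂, x2, hC₂, hx2, hlip⟩ := lip T C0
  obtain ⟨C₃, x3, hC₃, hx3, hem⟩ := eMainC T C0 q hq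
  have hg0 : 0 < ‖coef χ‖ := norm_pos_iff.2 (coef_ne hq χ hχ)
  set g := ‖coef χ‖ with hg
  have hqR : (1:ℝ) ≤ q := by exact_mod_cast hq
  obtain ⟨N0, hN0⟩ := lev_ev hq (a := C₂ + 2 * C₃ * q) (κ := δ / 8) (ε := min (δ / 2) (g * δ / 8))
    (by positivity) (by positivity) (by positivity) (max x0 (max x2 x3))
  refine ⟨g * δ / 4, by positivity, N0, ?_⟩
  intro N hN u hu hS j hj
  obtain ⟨h1, h2, h3, h4, h5, h6, h7⟩ := hN0 N hN
  have hx0N : x0 ≤ √(N:ℝ) := (le_max_left _ _).trans h1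
  have hx2N : x2 ≤ √(N:ℝ) := ((le_max_left _ _).trans (le_max_right _ _)).trans h1
  have hx3N : x3 ≤ √(N:ℝ) := ((le_max_right _ _).trans (le_max_right _ _)).trans h1
  have hs1 : 1 ≤ √(N:ℝ) := by linarith
  have hNnn : (0:ℝ) ≤ N := Nat.cast_nonneg N
  have hsq : √(N:ℝ) * √(N:ℝ) = N := Real.mul_self_sqrt hNnn
  have hsN : √(N:ℝ) ≤ N := by nlinarith
  have hN1 : (1:ℝ) ≤ N := hs1.trans hsN
  have hNpos : (0:ℝ) < N := by linarith
  set L := Real.log N with hL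
  set w : ℝ := ((p ^ j : ℕ) : ℝ) with hw
  have hw1 : 1 ≤ w := by
    rw [hw]
    exact_mod_cast Nat.one_le_iff_ne_zero.2 (by have := hp.pos; positivity)
  have hw0 : 0 < w := by linarith
  have hR : ((q * p ^ j : ℕ) : ℝ) = q * w := by rw [hw]; push_cast; ring
  set f := tw u χ with hf
  have hfc : CM f := CM_tw hu.cm χ
  have hGN : δ ≤ ‖G f N‖ := by
    unfold G
    rw [norm_div, Complex.norm_real, Real.norm_of_nonneg hNnn, le_div_iff₀ hNpos]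
    exact hS
  obtain ⟨t, ht, hD⟩ := hhalT f N hfc (hx0N.trans hsN) hGN
  -- the value at N/w
  have hwL : w ^ 2 ≤ L := by
    have ha : w ^ 2 ≤ (L ^ (1 / 400 : ℝ)) ^ 2 := by gcongr
    have hb : (L ^ (1 / 400 : ℝ)) ^ 2 = L ^ (1 / 200 : ℝ) := by
      rw [← Real.rpow_natCast, ← Real.rpow_mul (by linarith)]
      norm_num
    have hc : L ^ (1 / 200 : ℝ) ≤ L ^ (1 : ℝ) := Real.rpow_le_rpow_of_exponent_le h7 (by norm_num)
    rw [Real.rpow_one] at hc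
    linarith
  have hli := hlip f t N w hfc (hx2N.trans hsN) ht hD hw1 hwL
  have hnw : ‖(w : ℂ) ^ ((t : ℂ) * Complex.I)‖ = 1 := by
    rw [Complex.norm_cpow_eq_rpow_re_of_pos hw0]
    simp
  have hGw : δ / 2 ≤ ‖G f (N / w)‖ := by
    unfold H at hli
    have ha : ‖G f N‖ ≤ ‖G f N - (w : ℂ) ^ ((t : ℂ) * Complex.I) * G f (N / w)‖ +
        ‖(w : ℂ) ^ ((t : ℂ) * Complex.I) * G f (N / w)‖ := by
      calc ‖G f N‖ = ‖(G f N - (w : ℂ) ^ ((t : ℂ) * Complex.I) * G f (N / w)) +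
        (w : ℂ) ^ ((t : ℂ) * Complex.I) * G f (N / w)‖ := by congr 1; ring
        _ ≤ _ := norm_add_le _ _
    rw [norm_mul, hnw, one_mul] at ha
    have hb : C₂ * L ^ (-(1 / 48) : ℝ) ≤ (C₂ + 2 * C₃ * q) * L ^ (-(1 / 48) : ℝ) := by
      have : 0 ≤ 2 * C₃ * q := by positivity
      gcongr
      linarith
    have hc : (C₂ + 2 * C₃ * q) * L ^ (-(1 / 48) : ℝ) ≤ δ / 2 := h2.trans (min_le_left _ _)
    linarith
  have hSw : δ / 2 * (N / w) ≤ ‖S f (N / w)‖ := by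
    have hNw : 0 < (N:ℝ) / w := by positivity
    have ha : ‖S f (N / w)‖ = ‖G f (N / w)‖ * (N / w) := by
      unfold G
      rw [norm_div, Complex.norm_real, Real.norm_of_nonneg hNw.le]
      field_simp
    rw [ha]
    gcongr
  set M := ⌊δ / 8 * N⌋₊ with hM
  have hκ0 : 0 ≤ δ / 8 * (N:ℝ) := by positivity
  have hMle : (M:ℝ) ≤ δ / 8 * N := Nat.floor_le hκ0
  have hMge : δ / 8 * N / 2 ≤ M := by
    have : δ / 8 * N < M + 1 := Nat.lt_floor_add_one _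
    linarith
  have hδ1 : δ ≤ 1 := hGN.trans (norm_G_le hfc.le _)
  have hMN : M ≤ N := by
    have : (M:ℝ) ≤ N := hMle.trans (by nlinarith)
    exact_mod_cast this
  have hSM : ‖S f (M / w)‖ ≤ δ / 8 * (N / w) := by
    calc ‖S f (M / w)‖ ≤ M / w := norm_S_le hfc.le (by positivity)
      _ ≤ (δ / 8 * N) / w := by gcongr
      _ = δ / 8 * (N / w) := by ring
  -- the exponential sums
  have hRL : ((q * p ^ j : ℕ) : ℝ) ≤ q * L ^ (1 / 400 : ℝ) := by rw [hR]; gcongr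
  have hlow : √(N:ℝ) * ((q * p ^ j : ℕ) : ℝ) ≤ δ / 8 * N / 2 :=
    (mul_le_mul_of_nonneg_left hRL (by positivity)).trans h4
  have hlog : 2 * ((q * p ^ j : ℕ) : ℝ) ≤ L := by linarith
  have hEN := hem u χ t N N p j hu hχ hp (Or.inl hpq) hx3N ht hD le_rfl
    (hlow.trans (by nlinarith)) hlog
  have hEM := hem u χ t N M p j hu hχ hp (Or.inl hpq) hx3N ht hD hMN (hlow.trans hMge) hlog
  rw [← hf, ← hw] at hEN hEM
  set b : ℕ → ℂ := fun n => u n * ee (-(n : ℝ) / (q * p ^ j : ℕ)) with hb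
  have hsplit : ∑ n ∈ Finset.Ioc M N, b n =
      ∑ n ∈ Finset.Icc 1 N, b n - ∑ n ∈ Finset.Icc 1 M, b n := by
    have hunion : Finset.Icc 1 N = Finset.Icc 1 M ∪ Finset.Ioc M N := by
      ext n
      simp only [Finset.mem_union, Finset.mem_Icc, Finset.mem_Ioc]
      omega
    have hdisj : Disjoint (Finset.Icc 1 M) (Finset.Ioc M N) := by
      rw [Finset.disjoint_left]
      intro n
      simp only [Finset.mem_Icc, Finset.mem_Ioc]
      omega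
    rw [hunion, Finset.sum_union hdisj]
    ring
  have hup : ‖u (p ^ j)‖ = 1 := hu.norm _ (Nat.one_le_iff_ne_zero.2 (by
    have := hp.pos
    positivity))
  set sumN := ∑ n ∈ Finset.Icc 1 N, b n with hsumN
  set sumM := ∑ n ∈ Finset.Icc 1 M, b n with hsumM
  have hmain : ‖u (p ^ j) * coef χ * S f (N / w) - u (p ^ j) * coef χ * S f (M / w)‖ =
      g * ‖S f (N / w) - S f (M / w)‖ := by
    rw [← mul_sub, norm_mul, norm_mul, hup, one_mul]
  have hdiff : δ / 2 * (N / w) - δ / 8 * (N / w) ≤ ‖S f (N / w) - S f (M / w)‖ := by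
    have := norm_sub_norm_le (S f (N / w)) (S f (M / w))
    linarith
  have htri : ‖u (p ^ j) * coef χ * S f (N / w) - u (p ^ j) * coef χ * S f (M / w)‖ ≤
      ‖sumN - sumM‖ + ‖sumN - u (p ^ j) * coef χ * S f (N / w)‖ +
        ‖sumM - u (p ^ j) * coef χ * S f (M / w)‖ := by
    calc ‖u (p ^ j) * coef χ * S f (N / w) - u (p ^ j) * coef χ * S f (M / w)‖ =
        ‖(sumN - sumM) - (sumN - u (p ^ j) * coef χ * S f (N / w)) +
          (sumM - u (p ^ j) * coef χ * S f (M / w))‖ := by congr 1; ring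
      _ ≤ ‖(sumN - sumM) - (sumN - u (p ^ j) * coef χ * S f (N / w))‖ + _ := norm_add_le _ _
      _ ≤ _ := by gcongr; exact norm_sub_le _ _
  have hMN' : (M:ℝ) ≤ N := by exact_mod_cast hMN
  have hEM' : C₃ * L ^ (-(1 / 48) : ℝ) * M * (q * p ^ j : ℕ) ≤
      C₃ * L ^ (-(1 / 48) : ℝ) * N * (q * p ^ j : ℕ) := by gcongr
  -- the error term
  have herr : 2 * (C₃ * L ^ (-(1 / 48) : ℝ) * N * (q * p ^ j : ℕ)) ≤ g * δ / 8 * (N / w) := by
    have ha : (C₂ + 2 * C₃ * q) * w ^ 2 * L ^ (-(1 / 48) : ℝ) ≤ g * δ / 8 := by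
      refine le_trans ?_ (h3.trans (min_le_right _ _))
      gcongr
    have hb : 2 * C₃ * q * w ^ 2 * L ^ (-(1 / 48) : ℝ) ≤ g * δ / 8 := by
      refine le_trans ?_ ha
      gcongr
      linarith
    calc 2 * (C₃ * L ^ (-(1 / 48) : ℝ) * N * (q * p ^ j : ℕ)) =
        (2 * C₃ * q * w ^ 2 * L ^ (-(1 / 48) : ℝ)) * (N / w) := by
          rw [hR]; field_simp
      _ ≤ g * δ / 8 * (N / w) := by gcongr
  rw [hsplit]
  have hfin : g * (δ / 2 * (N / w) - δ / 8 * (N / w)) ≤ g * ‖S f (N / w) - S f (M / w)‖ := by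
    gcongr
  have : g * δ / 4 * N / w = g * (δ / 2 * (N / w) - δ / 8 * (N / w)) - g * δ / 8 * (N / w) := by
    ring
  rw [this]
  linarith

end Pool.Agent.Work.MP_2d9442_nt
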