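import Pool.Agent.Work.MP_2d9442_nt.Defs
import Pool.Agent.Work.MP_73869e_nt.N1

/-!
# Module PS: prime sums (M)

* `lam_div`: from `∑_{n ≤ x} log n = ∑_{d ≤ x} Λ(d) ⌊x/d⌋` and Chebyshev (`Chebyshev.psi`), or quote
  `sum_Lam_div` of `Pool.Agent.Work.MP_2dba45_nt.Mert` (import allowed).
* `ps_mert` (Mertens' second theorem with an error `O(1)`): partial summation from
  `∑_{p ≤ x} log p/p = log x + O(1)`; available: `mB_le` in `Pool.Agent.Work.MP_c971ef_nt.Mertens`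
  (upper bound), `exists_M` in `Pool.Agent.Work.MP_73869e_nt.N1` (full), Mathlib may have more.
* `ps_low`: `1/p - p^{-1-σ} = (1 - e^{-σ log p})/p ≤ σ log p/p`, `σ = 1/log x`, and
  `∑_{p ≤ x} log p/p ≤ log x + C`.
* `ps_high`: `∑_{2^k x < p ≤ 2^{k+1} x} p^{-1-σ} ≤ (2^k x)^{-1-σ} (θ(2^{k+1}x)/log(2^k x))
  ≤ C 2^{-kσ} e^{-1}/(log x)` (`x^{-σ} = e^{-1}`; Chebyshev), and
  `∑_k 2^{-kσ} = 1/(1 - 2^{-σ}) ≤ C/σ = C log x`.  Alternatively partial summation
  `∑_{p > x} p^{-1-σ} = ∫_x^∞ ...`.  The tail of the sum over primes is a `tsum` over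
  `Nat.Primes`; summability is `Nat.Primes.summable_rpow`.
-/

open Finset MeasureTheory Filter Topology
open ArithmeticFunction (vonMangoldt)

namespace Pool.Agent.Work.MP_2d9442_nt

private lemma ps_Icc (n : ℕ) : Finset.Icc 1 n = Finset.Ioc 0 n := by
  ext k
  simp only [Finset.mem_Icc, Finset.mem_Ioc]
  omega

theorem lam_div : ∃ C : ℝ, 0 < C ∧ ∀ x : ℝ, 1 ≤ x →
    ∑ d ∈ Finset.Icc 1 ⌊x⌋₊, vonMangoldt d / (d : ℝ) ≤ Real.log x + C := by
  refine ⟨6, by norm_num, fun x hx => ?_⟩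
  have hN : 0 < ⌊x⌋₊ := Nat.floor_pos.2 hx
  have h := (abs_le.1 (Pool.Agent.Work.MP_2dba45_nt.Mert.sum_Lam_div ⌊x⌋₊ hN)).2
  have h2 : Real.log (⌊x⌋₊ : ℝ) ≤ Real.log x :=
    Real.log_le_log (by exact_mod_cast hN) (Nat.floor_le (by linarith))
  rw [ps_Icc]
  linarith

theorem ps_mert : ∃ C : ℝ, 0 < C ∧ ∀ x : ℝ, 3 ≤ x →
    |∑ p ∈ P x, 1 / (p : ℝ) - Real.log (Real.log x)| ≤ C := by
  obtain ⟨M, hM⟩ := Pool.Agent.Work.MP_73869e_nt.M3.exists_M
  obtain ⟨C, hC⟩ := hM.norm.bddAbove_range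
  refine ⟨|C| + 1, by positivity, fun x hx => ?_⟩
  have hN3 : 3 ≤ ⌊x⌋₊ := Nat.le_floor (by exact_mod_cast hx)
  set N := ⌊x⌋₊ with hN
  have hNx : (N : ℝ) ≤ x := Nat.floor_le (by linarith)
  have hxN : x < N + 1 := Nat.lt_floor_add_one x
  have hN3' : (3 : ℝ) ≤ N := by exact_mod_cast hN3
  have h1 : |Pool.Agent.Work.MP_73869e_nt.M3.PP N - Real.log (Real.log N)| ≤ C :=
    hC ⟨N, rfl⟩
  have h2 : ∑ p ∈ P x, 1 / (p : ℝ) = Pool.Agent.Work.MP_73869e_nt.M3.PP N := by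
    unfold P Pool.Agent.Work.MP_73869e_nt.M3.PP
    rw [ps_Icc]
  have hlN : 1 ≤ Real.log N := by
    rw [Real.le_log_iff_exp_le (by linarith)]
    have := Real.exp_one_lt_d9
    linarith
  have h3 : Real.log (Real.log N) ≤ Real.log (Real.log x) :=
    Real.log_le_log (by linarith) (Real.log_le_log (by linarith) hNx)
  have h4 : Real.log (Real.log x) ≤ Real.log (Real.log N) + 1 := by
    have h5 : Real.log x ≤ 2 * Real.log N := by
      have : Real.log x ≤ Real.log ((N : ℝ) ^ 2) :=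
        Real.log_le_log (by linarith) (by nlinarith)
      rwa [Real.log_pow] at this
    have h6 : Real.log (Real.log x) ≤ Real.log (2 * Real.log N) := by
      refine Real.log_le_log ?_ h5
      exact Real.log_pos (by linarith)
    rw [Real.log_mul (by norm_num) (by linarith)] at h6
    linarith [Real.log_two_lt_d9]
  have h7 : C ≤ |C| := le_abs_self C
  rw [h2]
  rw [abs_le] at h1 ⊢
  constructor <;> linarith [h1.1, h1.2]

theorem ps_low : ∃ C : ℝ, 0 < C ∧ ∀ x : ℝ, 3 ≤ x →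
    ∑ p ∈ P x, (1 / (p : ℝ) - (p : ℝ) ^ (-(1 + 1 / Real.log x))) ≤ C := by
  obtain ⟨C, hC, h⟩ := lam_div
  refine ⟨1 + C, by positivity, fun x hx => ?_⟩
  have hL1 : 1 ≤ Real.log x := by
    rw [Real.le_log_iff_exp_le (by linarith)]
    have := Real.exp_one_lt_d9
    linarith
  have hL0 : 0 < Real.log x := by linarith
  have h1 : ∀ p ∈ P x, (1 / (p : ℝ) - (p : ℝ) ^ (-(1 + 1 / Real.log x))) ≤
      (1 / Real.log x) * (vonMangoldt p / (p : ℝ)) := by
    intro p hp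
    unfold P at hp
    rw [Finset.mem_filter] at hp
    have hp0 : (0 : ℝ) < p := by exact_mod_cast hp.2.pos
    rw [ArithmeticFunction.vonMangoldt_apply_prime hp.2]
    have e : (p : ℝ) ^ (-(1 + 1 / Real.log x)) = (1 / p) * Real.exp (-(Real.log p / Real.log x)) := by
      have e0 : Real.log p * -(1 / Real.log x) = -(Real.log p / Real.log x) := by ring
      rw [neg_add, Real.rpow_add hp0, Real.rpow_neg_one, Real.rpow_def_of_pos hp0, e0,
        inv_eq_one_div]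
    rw [e]
    have h2 := Real.add_one_le_exp (-(Real.log p / Real.log x))
    have h3 : 0 < 1 / (p : ℝ) := by positivity
    have h4 := mul_le_mul_of_nonneg_left h2 h3.le
    have h5 : 1 / (p : ℝ) * (-(Real.log p / Real.log x) + 1) =
        1 / p - (1 / Real.log x) * (Real.log p / p) := by
      field_simp
      ring
    linarith
  calc ∑ p ∈ P x, (1 / (p : ℝ) - (p : ℝ) ^ (-(1 + 1 / Real.log x)))
      ≤ ∑ p ∈ P x, (1 / Real.log x) * (vonMangoldt p / (p : ℝ)) := Finset.sum_le_sum h1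
    _ ≤ ∑ p ∈ Finset.Icc 1 ⌊x⌋₊, (1 / Real.log x) * (vonMangoldt p / (p : ℝ)) := by
        refine Finset.sum_le_sum_of_subset_of_nonneg (Finset.filter_subset _ _) fun n _ _ => ?_
        have := ArithmeticFunction.vonMangoldt_nonneg (n := n)
        positivity
    _ = (1 / Real.log x) * ∑ p ∈ Finset.Icc 1 ⌊x⌋₊, (vonMangoldt p / (p : ℝ)) := by
        rw [Finset.mul_sum]
    _ ≤ (1 / Real.log x) * (Real.log x + C) :=
        mul_le_mul_of_nonneg_left (h x (by linarith)) (by positivity)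
    _ = 1 + C / Real.log x := by field_simp
    _ ≤ 1 + C := by
        have := div_le_self hC.le hL1
        linarith

private lemma ps_psi (N : ℕ) : ∑ n ∈ Finset.Ico 1 N, vonMangoldt n ≤ ∑ n ∈ Finset.Ico 1 N, (8 : ℝ) := by
  have hlog4 : Real.log 4 ≤ 2 := by
    have : Real.log 4 = 2 * Real.log 2 := by
      rw [show (4 : ℝ) = 2 ^ 2 by norm_num, Real.log_pow]; norm_num
    rw [this]; linarith [Real.log_two_lt_d9]
  rcases Nat.eq_zero_or_pos N with h0 | h0
  · subst h0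
    simp
  · have e : Finset.Ico 1 N = Finset.Ioc 0 ⌊((N - 1 : ℕ) : ℝ)⌋₊ := by
      rw [Nat.floor_natCast]
      ext k
      simp only [Finset.mem_Ico, Finset.mem_Ioc]
      omega
    have h1 := Chebyshev.psi_le_const_mul_self (x := ((N - 1 : ℕ) : ℝ)) (Nat.cast_nonneg _)
    have h2 : ∑ n ∈ Finset.Ico 1 N, vonMangoldt n ≤ (Real.log 4 + 4) * ((N - 1 : ℕ) : ℝ) := by
      rw [e]
      exact h1
    refine h2.trans ?_
    rw [Finset.sum_const, Nat.card_Ico, nsmul_eq_mul, mul_comm]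
    exact mul_le_mul_of_nonneg_left (by linarith) (Nat.cast_nonneg _)

/-- comparison of weighted sums by partial summation -/
private lemma ps_compare (g : ℕ → ℝ) (hg0 : ∀ n, 1 ≤ n → 0 ≤ g n)
    (hg : ∀ n, 1 ≤ n → g (n + 1) ≤ g n) (N : ℕ) (hN : 1 ≤ N) :
    ∑ n ∈ Finset.Ico 1 N, vonMangoldt n * g n ≤ ∑ n ∈ Finset.Ico 1 N, 8 * g n := by
  have h := Pool.Agent.Work.MP_2dba45_nt.Mert.parts (fun n => 8 - vonMangoldt n) g 1 N hN
  have hpos : ∀ m, 0 ≤ ∑ j ∈ Finset.Ico 1 m, ((8 : ℝ) - vonMangoldt j) := by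
    intro m
    rw [Finset.sum_sub_distrib]
    have := ps_psi m
    linarith
  have h1 : 0 ≤ ∑ n ∈ Finset.Ico 1 N, ((8 : ℝ) - vonMangoldt n) * g n := by
    rw [h]
    refine add_nonneg (mul_nonneg (hpos N) (hg0 N hN)) (Finset.sum_nonneg fun n hn => ?_)
    rw [Finset.mem_Ico] at hn
    exact mul_nonneg (hpos _) (sub_nonneg.2 (hg n hn.1))
  have h2 : ∑ n ∈ Finset.Ico 1 N, ((8 : ℝ) - vonMangoldt n) * g n =
      ∑ n ∈ Finset.Ico 1 N, 8 * g n - ∑ n ∈ Finset.Ico 1 N, vonMangoldt n * g n := by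
    rw [← Finset.sum_sub_distrib]
    exact Finset.sum_congr rfl fun n _ => by ring
  linarith

private lemma ps_zeta {σ : ℝ} (hσ : 0 < σ) (N : ℕ) (hN : 1 ≤ N) :
    ∑ n ∈ Finset.Ico 1 N, (n : ℝ) ^ (-(1 + σ)) ≤ 1 + 1 / σ := by
  rcases Nat.lt_or_ge 1 N with h1 | h1
  · rw [Finset.sum_eq_sum_Ico_succ_bot h1]
    have hanti : AntitoneOn (fun v : ℝ => v ^ (-(1 + σ))) (Set.Icc ((1 : ℕ) : ℝ) ((N - 1 : ℕ) : ℝ)) := by
      intro a ha b hb hab
      have ha0 : 0 < a := by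
        have := ha.1
        push_cast at this
        linarith
      exact Real.rpow_le_rpow_of_nonpos ha0 hab (by linarith)
    have h2 := AntitoneOn.sum_le_integral_Ico (show 1 ≤ N - 1 by omega) hanti
    have h3 : ∑ i ∈ Finset.Ico 1 (N - 1), (((i + 1 : ℕ) : ℝ)) ^ (-(1 + σ)) =
        ∑ n ∈ Finset.Ico (1 + 1) N, (n : ℝ) ^ (-(1 + σ)) := by
      rw [Finset.sum_Ico_add' (fun n : ℕ => (n : ℝ) ^ (-(1 + σ))) 1 (N - 1) 1]
      congr 2
      omega
    rw [h3] at h2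
    have hN1 : (1 : ℝ) ≤ ((N - 1 : ℕ) : ℝ) := by exact_mod_cast (by omega : 1 ≤ N - 1)
    have h4 : ∫ v in ((1 : ℕ) : ℝ)..((N - 1 : ℕ) : ℝ), v ^ (-(1 + σ)) ≤ 1 / σ := by
      rw [integral_rpow (Or.inr ⟨by linarith, by
        rw [Set.uIcc_of_le (by push_cast at hN1 ⊢; linarith)]
        intro h
        have := h.1
        norm_num at this⟩)]
      have e : -(1 + σ) + 1 = -σ := by ring
      rw [e, Nat.cast_one, Real.one_rpow]
      have h5 : 0 ≤ ((N - 1 : ℕ) : ℝ) ^ (-σ) := Real.rpow_nonneg (by linarith) _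
      have e2 : (((N - 1 : ℕ) : ℝ) ^ (-σ) - 1) / -σ = (1 - ((N - 1 : ℕ) : ℝ) ^ (-σ)) / σ := by
        rw [div_neg, ← neg_div, neg_sub]
      rw [e2]
      exact div_le_div_of_nonneg_right (by linarith) hσ.le
    have h6 : ((1 : ℕ) : ℝ) ^ (-(1 + σ)) = 1 := by
      rw [Nat.cast_one, Real.one_rpow]
    have h7 := h2.trans h4
    rw [h6]
    exact add_le_add le_rfl h7
  · have : N = 1 := by omega
    subst this
    simp
    positivity

theorem ps_high : ∃ C : ℝ, 0 < C ∧ ∀ x : ℝ, 3 ≤ x →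
    ∑' p : Nat.Primes, (if ((p : ℕ) : ℝ) ≤ x then 0 else
      ((p : ℕ) : ℝ) ^ (-(1 + 1 / Real.log x))) ≤ C := by
  refine ⟨16, by norm_num, fun x hx => ?_⟩
  have hL1 : 1 ≤ Real.log x := by
    rw [Real.le_log_iff_exp_le (by linarith)]
    have := Real.exp_one_lt_d9
    linarith
  have hL0 : 0 < Real.log x := by linarith
  set σ := 1 / Real.log x with hσ
  have hσ0 : 0 < σ := by positivity
  refine Real.tsum_le_of_sum_le (fun p => ?_) (fun s => ?_)
  · show 0 ≤ (if ((p : ℕ) : ℝ) ≤ x then 0 else ((p : ℕ) : ℝ) ^ (-(1 + σ)))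
    split_ifs
    · exact le_rfl
    · positivity
  · have h1 : ∀ p ∈ s, (if ((p : ℕ) : ℝ) ≤ x then 0 else ((p : ℕ) : ℝ) ^ (-(1 + σ))) ≤
        σ * (vonMangoldt (p : ℕ) * ((p : ℕ) : ℝ) ^ (-(1 + σ))) := by
      intro p _
      have hp0 : (0 : ℝ) < (p : ℕ) := by exact_mod_cast p.2.pos
      have hr : 0 ≤ ((p : ℕ) : ℝ) ^ (-(1 + σ)) := by positivity
      split_ifs with h
      · exact mul_nonneg hσ0.le (mul_nonneg ArithmeticFunction.vonMangoldt_nonneg hr)
      · rw [ArithmeticFunction.vonMangoldt_apply_prime p.2, ← mul_assoc]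
        refine le_mul_of_one_le_left hr ?_
        have h2 : Real.log x ≤ Real.log (p : ℕ) := Real.log_le_log (by linarith) (not_le.1 h).le
        rw [hσ, one_div_mul_eq_div, le_div_iff₀ hL0, one_mul]
        exact h2
    set N := (s.sup fun p => (p : ℕ)) + 1 with hN
    have hinj : Set.InjOn (fun p : Nat.Primes => (p : ℕ)) s := fun a _ b _ h => Subtype.ext h
    calc ∑ p ∈ s, (if ((p : ℕ) : ℝ) ≤ x then 0 else ((p : ℕ) : ℝ) ^ (-(1 + σ)))
        ≤ ∑ p ∈ s, σ * (vonMangoldt (p : ℕ) * ((p : ℕ) : ℝ) ^ (-(1 + σ))) := Finset.sum_le_sum h1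
      _ = ∑ n ∈ s.image (fun p : Nat.Primes => (p : ℕ)),
            σ * (vonMangoldt n * (n : ℝ) ^ (-(1 + σ))) := by
          rw [Finset.sum_image hinj]
      _ ≤ ∑ n ∈ Finset.Ico 1 N, σ * (vonMangoldt n * (n : ℝ) ^ (-(1 + σ))) := by
          refine Finset.sum_le_sum_of_subset_of_nonneg ?_ fun n _ _ => ?_
          · intro n hn
            rw [Finset.mem_image] at hn
            obtain ⟨p, hp, rfl⟩ := hn
            rw [Finset.mem_Ico]
            exact ⟨p.2.pos, Nat.lt_succ_of_le (Finset.le_sup (f := fun p : Nat.Primes => (p : ℕ)) hp)⟩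
          · have := ArithmeticFunction.vonMangoldt_nonneg (n := n)
            positivity
      _ = σ * ∑ n ∈ Finset.Ico 1 N, vonMangoldt n * (n : ℝ) ^ (-(1 + σ)) := by
          rw [Finset.mul_sum]
      _ ≤ σ * ∑ n ∈ Finset.Ico 1 N, 8 * (n : ℝ) ^ (-(1 + σ)) := by
          refine mul_le_mul_of_nonneg_left ?_ hσ0.le
          refine ps_compare (fun n => (n : ℝ) ^ (-(1 + σ))) (fun n _ => by positivity) ?_ N
            (by omega)
          intro n hn
          have hn0 : (0 : ℝ) < n := by exact_mod_cast hn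
          exact Real.rpow_le_rpow_of_nonpos hn0 (by push_cast; linarith) (by linarith)
      _ ≤ σ * (8 * (1 + 1 / σ)) := by
          refine mul_le_mul_of_nonneg_left ?_ hσ0.le
          rw [← Finset.mul_sum]
          exact mul_le_mul_of_nonneg_left (ps_zeta hσ0 N (by omega)) (by norm_num)
      _ = 8 * σ + 8 := by field_simp
      _ ≤ 16 := by
          have : σ ≤ 1 := by
            rw [hσ, div_le_one hL0]
            exact hL1
          linarith

end Pool.Agent.Work.MP_2d9442_nt
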