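import Pool.Agent.Work.MP_2d9442_nt.HB
import Pool.Agent.Work.MP_2d9442_nt.PS

/-!
# Module LogF: the logarithm of a Dirichlet series and prime sums (M)

`s = 1 + pt σ τ`, `σ = 1/log x ∈ (0, 1]`.  Put `g(n) = f(n) n^{-s}` as a `ℕ →*₀ ℂ`
(`CM f`; `LSeries.term`), `∑ ‖g n‖ < ∞` (`summable_CM`).
Mathlib: `EulerProduct.exp_tsum_primes_log_eq_tsum : exp (∑' p : Nat.Primes, -log (1 - g p)) = ∑' n, g n`,
so `F f σ τ = exp(...) ≠ 0` and `log ‖F‖ = ∑' p, Re(-log(1 - g p))` (real part of the exponent).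
`‖-log(1-u) - u‖ ≤ ‖u‖²` for `‖u‖ ≤ 1/2` (`Complex.norm_log_one_sub_inv_sub_self_le` or
`norm_log_one_add_sub_self_le`), `‖g p‖ ≤ 1/p ≤ 1/2`, so the difference to `∑' p, Re g(p)` is at most
`∑_p p^{-2} ≤ 2`.
`Re g(p) = Re(f(p) p^{-iτ}) p^{-1-σ}` (`tws τ p`).  For `p ≤ x` replace `p^{-1-σ}` by `1/p`: the error
is at most `ps_low`; the terms `p > x` contribute at most `ps_high`.
-/

open Finset MeasureTheory Filter Topology
open ArithmeticFunction (vonMangoldt)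

namespace Pool.Agent.Work.MP_2d9442_nt

private lemma logf_tsum {x : ℝ} (hx : 0 ≤ x) (h : ℕ → ℝ) :
    (Summable fun p : Nat.Primes => if ((p : ℕ) : ℝ) ≤ x then h p else 0) ∧
    ∑' p : Nat.Primes, (if ((p : ℕ) : ℝ) ≤ x then h p else 0) = ∑ p ∈ P x, h p := by
  have e : ∀ p : Nat.Primes, (p : ℕ) ∈ P x ↔ ((p : ℕ) : ℝ) ≤ x := by
    intro p
    unfold P
    rw [Finset.mem_filter, Finset.mem_Icc, Nat.le_floor_iff hx]
    exact ⟨fun h => h.1.2, fun h => ⟨⟨p.2.pos, h⟩, p.2⟩⟩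
  set T : Finset Nat.Primes := (P x).subtype Nat.Prime with hT
  have hmem : ∀ p : Nat.Primes, p ∈ T ↔ ((p : ℕ) : ℝ) ≤ x := by
    intro p
    have h1 : p ∈ T ↔ (p : ℕ) ∈ P x := Finset.mem_subtype (p := Nat.Prime) (s := P x) (a := p)
    exact h1.trans (e p)
  have hz : ∀ p ∉ T, (if ((p : ℕ) : ℝ) ≤ x then h p else 0) = 0 := by
    intro p hp
    rw [hmem] at hp
    rw [if_neg hp]
  refine ⟨summable_of_ne_finset_zero hz, ?_⟩
  rw [tsum_eq_sum hz]
  have h1 : ∑ p ∈ T, (if ((p : ℕ) : ℝ) ≤ x then h p else 0) = ∑ p ∈ T, h p :=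
    Finset.sum_congr rfl fun p hp => by rw [if_pos ((hmem p).1 hp)]
  rw [h1, hT]
  have h2 := Finset.sum_subtype_eq_sum_filter (s := P x) (f := h) (p := Nat.Prime)
  have h3 : (P x).filter Nat.Prime = P x := by
    unfold P
    rw [Finset.filter_filter]
    congr 1
    ext n
    simp
  rw [h3] at h2
  exact h2

theorem logF : ∃ C : ℝ, 0 < C ∧ ∀ f : ℕ → ℂ, CM f → ∀ x τ : ℝ, 3 ≤ x →
    F f (1 / Real.log x) τ ≠ 0 ∧
    |Real.log ‖F f (1 / Real.log x) τ‖ - ∑ p ∈ P x, (f p * tws τ p).re / (p : ℝ)| ≤ C := by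
  obtain ⟨C₁, hC₁, hlow⟩ := ps_low
  obtain ⟨C₂, hC₂, hhigh⟩ := ps_high
  have hS2 : Summable fun p : Nat.Primes => ((p : ℕ) : ℝ) ^ (-2 : ℝ) :=
    Nat.Primes.summable_rpow.2 (by norm_num)
  set C₃ := ∑' p : Nat.Primes, ((p : ℕ) : ℝ) ^ (-2 : ℝ) with hC₃
  have hC₃0 : 0 ≤ C₃ := tsum_nonneg fun p => by positivity
  refine ⟨C₃ + C₁ + C₂, by positivity, ?_⟩
  intro f hf x τ hx
  have hfle := hf.le
  have hL1 : 1 < Real.log x := by
    rw [Real.lt_log_iff_exp_lt (by linarith)]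
    have := Real.exp_one_lt_d9
    linarith
  have hL0 : 0 < Real.log x := by linarith
  set σ := 1 / Real.log x with hσ
  have hσ0 : 0 < σ := by positivity
  set s : ℂ := 1 + pt σ τ with hs
  have hsum := summable_CM hfle hσ0 τ
  rw [← hs] at hsum
  have hsre : s.re = 1 + σ := by rw [hs, Complex.add_re, pt_re, Complex.one_re]
  -- the completely multiplicative function
  let g : ℕ →*₀ ℂ :=
    { toFun := fun n => LSeries.term f s n
      map_zero' := LSeries.term_zero f s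
      map_one' := by
        rw [LSeries.term_of_ne_zero one_ne_zero, hf.one]
        simp
      map_mul' := by
        intro m n
        rcases Nat.eq_zero_or_pos m with hm | hm
        · subst hm
          rw [zero_mul, LSeries.term_zero, zero_mul]
        · rcases Nat.eq_zero_or_pos n with hn | hn
          · subst hn
            rw [mul_zero, LSeries.term_zero, mul_zero]
          · rw [LSeries.term_of_ne_zero (by positivity), LSeries.term_of_ne_zero (by positivity),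
              LSeries.term_of_ne_zero (by positivity), hf.mul]
            push_cast
            rw [Complex.natCast_mul_natCast_cpow, mul_div_mul_comm] }
  have hgdef : ∀ n : ℕ, g n = LSeries.term f s n := fun n => rfl
  have hgsum : Summable fun n => ‖g n‖ := hsum.norm
  have hexp := EulerProduct.exp_tsum_primes_log_eq_tsum (f := g) hgsum
  have hFe : F f σ τ = Complex.exp (∑' p : Nat.Primes, -Complex.log (1 - g p)) := by
    rw [hexp]
    rfl
  have hF0 : F f σ τ ≠ 0 := by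
    rw [hFe]
    exact Complex.exp_ne_zero _
  have hSlog : Summable fun p : Nat.Primes => -Complex.log (1 - g p) :=
    (hgsum.of_norm.clog_one_sub.neg).subtype Nat.Prime
  have hlogF : Real.log ‖F f σ τ‖ = ∑' p : Nat.Primes, (-Complex.log (1 - g p)).re := by
    rw [hFe, Complex.norm_exp, Real.log_exp, Complex.re_tsum hSlog]
  have hSA : Summable fun p : Nat.Primes => (-Complex.log (1 - g p)).re :=
    (Complex.hasSum_re hSlog.hasSum).summable
  -- the values at primes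
  have hgp : ∀ p : Nat.Primes, g p = (f p * tws τ p) * (((p : ℕ) : ℝ) ^ (-(1 + σ)) : ℝ) := by
    intro p
    have hp0 : ((p : ℕ) : ℂ) ≠ 0 := by exact_mod_cast p.2.ne_zero
    have hp0' : (0 : ℝ) < (p : ℕ) := by exact_mod_cast p.2.pos
    rw [hgdef, LSeries.term_of_ne_zero p.2.ne_zero, div_eq_mul_inv, ← Complex.cpow_neg, mul_assoc]
    congr 1
    unfold tws
    rw [Complex.ofReal_cpow hp0'.le, Complex.ofReal_natCast, ← Complex.cpow_add _ _ hp0]
    congr 1
    rw [hs]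
    unfold pt
    push_cast
    ring
  have hanorm : ∀ p : Nat.Primes, ‖f p * tws τ p‖ ≤ 1 := by
    intro p
    rw [norm_mul]
    have h1 := hfle p
    have h2 := norm_tws_le τ p
    have h3 := norm_nonneg (f p)
    have h4 := norm_nonneg (tws τ p)
    nlinarith
  have hrle : ∀ p : Nat.Primes, ((p : ℕ) : ℝ) ^ (-(1 + σ)) ≤ ((p : ℕ) : ℝ) ^ (-1 : ℝ) := by
    intro p
    refine Real.rpow_le_rpow_of_exponent_le ?_ (by linarith)
    exact_mod_cast p.2.one_lt.le
  have hr0 : ∀ p : Nat.Primes, 0 ≤ ((p : ℕ) : ℝ) ^ (-(1 + σ)) := fun p => by positivity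
  have hgn : ∀ p : Nat.Primes, ‖g p‖ ≤ ((p : ℕ) : ℝ) ^ (-1 : ℝ) := by
    intro p
    rw [hgp, norm_mul, Complex.norm_real, Real.norm_of_nonneg (hr0 p)]
    calc ‖f p * tws τ p‖ * ((p : ℕ) : ℝ) ^ (-(1 + σ)) ≤ 1 * ((p : ℕ) : ℝ) ^ (-(1 + σ)) :=
          mul_le_mul_of_nonneg_right (hanorm p) (hr0 p)
      _ ≤ _ := by rw [one_mul]; exact hrle p
  have hAB : ∀ p : Nat.Primes, |(-Complex.log (1 - g p)).re - (g p).re| ≤
      ((p : ℕ) : ℝ) ^ (-2 : ℝ) := by
    intro p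
    have hp2 : (2 : ℝ) ≤ (p : ℕ) := by exact_mod_cast p.2.two_le
    have hp0 : (0 : ℝ) < (p : ℕ) := by linarith
    have hhalf : ((p : ℕ) : ℝ) ^ (-1 : ℝ) ≤ 1 / 2 := by
      rw [Real.rpow_neg_one, inv_eq_one_div]
      exact one_div_le_one_div_of_le (by norm_num) hp2
    have h1 : ‖g p‖ ≤ 1 / 2 := (hgn p).trans hhalf
    have h2 := Complex.norm_log_one_add_sub_self_le (z := -g p) (by rw [norm_neg]; linarith)
    rw [norm_neg] at h2
    have h3 : (1 - ‖g p‖)⁻¹ ≤ 2 := by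
      rw [inv_eq_one_div, div_le_iff₀ (by linarith)]
      linarith
    have h4 : ‖Complex.log (1 + -g p) - -g p‖ ≤ ‖g p‖ ^ 2 := by
      refine h2.trans ?_
      have := mul_le_mul_of_nonneg_left h3 (sq_nonneg ‖g p‖)
      linarith
    have h5 : (-Complex.log (1 - g p)).re - (g p).re =
        -(Complex.log (1 + -g p) - -g p).re := by
      rw [← sub_eq_add_neg, Complex.neg_re, Complex.sub_re, Complex.neg_re]
      ring
    rw [h5, abs_neg]
    refine (Complex.abs_re_le_norm _).trans (h4.trans ?_)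
    calc ‖g p‖ ^ 2 ≤ (((p : ℕ) : ℝ) ^ (-1 : ℝ)) ^ 2 := pow_le_pow_left₀ (norm_nonneg _) (hgn p) 2
      _ = _ := by
        rw [← Real.rpow_natCast, ← Real.rpow_mul hp0.le]
        norm_num
  -- the truncated sums
  obtain ⟨hSD, hTD⟩ := logf_tsum (x := x) (by linarith) (fun n => (f n * tws τ n).re / (n : ℝ))
  obtain ⟨hSE, hTE⟩ := logf_tsum (x := x) (by linarith)
    (fun n => 1 / (n : ℝ) - (n : ℝ) ^ (-(1 + σ)))
  have hSr : Summable fun p : Nat.Primes => ((p : ℕ) : ℝ) ^ (-(1 + σ)) :=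
    Nat.Primes.summable_rpow.2 (by linarith)
  have hSR : Summable fun p : Nat.Primes => (if ((p : ℕ) : ℝ) ≤ x then 0 else
      ((p : ℕ) : ℝ) ^ (-(1 + σ))) := by
    refine Summable.of_nonneg_of_le (fun p => ?_) (fun p => ?_) hSr
    · split_ifs
      · exact le_rfl
      · exact hr0 p
    · split_ifs
      · exact hr0 p
      · exact le_rfl
  have hBD : ∀ p : Nat.Primes, |(g p).re - (if ((p : ℕ) : ℝ) ≤ x then
      (f p * tws τ p).re / ((p : ℕ) : ℝ) else 0)| ≤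
      (if ((p : ℕ) : ℝ) ≤ x then 1 / ((p : ℕ) : ℝ) - ((p : ℕ) : ℝ) ^ (-(1 + σ)) else 0) +
      (if ((p : ℕ) : ℝ) ≤ x then 0 else ((p : ℕ) : ℝ) ^ (-(1 + σ))) := by
    intro p
    have ha : |(f p * tws τ p).re| ≤ 1 := (Complex.abs_re_le_norm _).trans (hanorm p)
    have hre : (g p).re = (f p * tws τ p).re * ((p : ℕ) : ℝ) ^ (-(1 + σ)) := by
      rw [hgp, Complex.re_mul_ofReal]
    have hle := hrle p
    rw [Real.rpow_neg_one, inv_eq_one_div] at hle
    split_ifs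
    · rw [add_zero, hre]
      have e : (f p * tws τ p).re * ((p : ℕ) : ℝ) ^ (-(1 + σ)) -
          (f p * tws τ p).re / ((p : ℕ) : ℝ) =
          -((f p * tws τ p).re * (1 / ((p : ℕ) : ℝ) - ((p : ℕ) : ℝ) ^ (-(1 + σ)))) := by ring
      rw [e, abs_neg, abs_mul, abs_of_nonneg (sub_nonneg.2 hle)]
      exact mul_le_of_le_one_left (sub_nonneg.2 hle) ha
    · rw [zero_add, sub_zero, hre, abs_mul, abs_of_nonneg (hr0 p)]
      exact mul_le_of_le_one_left (hr0 p) ha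
  refine ⟨hF0, ?_⟩
  rw [hlogF, ← hTD, ← hSA.tsum_sub hSD]
  have hfin : ∀ p : Nat.Primes, ‖(-Complex.log (1 - g p)).re - (if ((p : ℕ) : ℝ) ≤ x then
      (f p * tws τ p).re / ((p : ℕ) : ℝ) else 0)‖ ≤ ((p : ℕ) : ℝ) ^ (-2 : ℝ) +
      ((if ((p : ℕ) : ℝ) ≤ x then 1 / ((p : ℕ) : ℝ) - ((p : ℕ) : ℝ) ^ (-(1 + σ)) else 0) +
      (if ((p : ℕ) : ℝ) ≤ x then 0 else ((p : ℕ) : ℝ) ^ (-(1 + σ)))) := by
    intro p
    rw [Real.norm_eq_abs]
    exact (abs_sub_le _ (g p).re _).trans (add_le_add (hAB p) (hBD p))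
  have hSfin := hS2.add (hSE.add hSR)
  have h1 := tsum_of_norm_bounded hSfin.hasSum hfin
  rw [Real.norm_eq_abs] at h1
  refine h1.trans ?_
  rw [hS2.tsum_add (hSE.add hSR), hSE.tsum_add hSR, hTE]
  have h2 := hlow x hx
  have h3 := hhigh x hx
  rw [← hσ] at h2 h3
  linarith

end Pool.Agent.Work.MP_2d9442_nt
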