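import Pool.Agent.Work.MP_2d9442_nt.MelP

/-!
# Module MelF: Mellin transform of mean values, mean square of a Dirichlet series (S/M)

`melF`: Mathlib's `LSeries_eq_mul_integral` with `r = 1` and `s = 1 + pt σ τ` (real part
`1 + σ > 1`): `LSeries a s = s ∫_{t>1} (∑_{k ≤ t} a_k) t^{-(s+1)} dt`, and
`S a v · v^{-(s+1)} = (S a v / v) v^{-s}` for `v > 1`; divide by `s ≠ 0`.
The O-hypothesis follows from `hB` at natural numbers.
`melL2`: `melP` with `U = G a` (bounded by `B`: `‖G a v‖ = ‖S a v‖/v ≤ B` for `v ≥ 1`), `melF`,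
and `∫_{v>1} ‖G a v‖² v^{-1-2σ} dv ≤ B² ∫_1^∞ v^{-1-2σ} dv = B²/(2σ)`.
-/

open Finset MeasureTheory Filter Topology
open ArithmeticFunction (vonMangoldt)

namespace Pool.Agent.Work.MP_2d9442_nt

theorem melF {a : ℕ → ℂ} {B σ : ℝ} (hB : ∀ v : ℝ, 1 ≤ v → ‖S a v‖ ≤ B * v) (hσ : 0 < σ) (τ : ℝ)
    (hs : LSeriesSummable a (1 + pt σ τ)) :
    ∫ v in Set.Ioi (1:ℝ), G a v * (v : ℂ) ^ (-(1 + pt σ τ)) =
      LSeries a (1 + pt σ τ) / (1 + pt σ τ) := by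
  have hre : (1 + pt σ τ).re = 1 + σ := by
    rw [Complex.add_re, pt_re, Complex.one_re]
  have hs0 : (1 + pt σ τ) ≠ 0 := by
    intro h
    rw [h, Complex.zero_re] at hre
    linarith
  have hO : (fun n : ℕ => ∑ k ∈ Icc 1 n, a k) =O[atTop] fun n => (n : ℝ) ^ (1 : ℝ) := by
    refine Asymptotics.IsBigO.of_bound B ?_
    filter_upwards [eventually_ge_atTop 1] with n hn
    have h1 := hB n (by exact_mod_cast hn)
    unfold S at h1
    rw [Nat.floor_natCast] at h1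
    rw [Real.rpow_one, Real.norm_of_nonneg (Nat.cast_nonneg n)]
    exact h1
  have h2 := LSeries_eq_mul_integral a zero_le_one (s := 1 + pt σ τ) (by rw [hre]; linarith) hs hO
  rw [h2, mul_div_cancel_left₀ _ hs0]
  refine setIntegral_congr_fun measurableSet_Ioi fun v hv => ?_
  have hv0 : (0:ℝ) < v := lt_trans one_pos hv
  have hvne : (v : ℂ) ≠ 0 := by exact_mod_cast hv0.ne'
  have h3 : (v : ℂ) ^ (-(1 + pt σ τ + 1)) = (v : ℂ) ^ (-(1 + pt σ τ)) / (v : ℂ) := by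
    rw [show -(1 + pt σ τ + 1) = -(1 + pt σ τ) - 1 by ring, Complex.cpow_sub _ _ hvne,
      Complex.cpow_one]
  rw [h3]
  unfold G S
  ring

theorem melL2 {a : ℕ → ℂ} {B σ : ℝ} (hB0 : 0 ≤ B) (hB : ∀ v : ℝ, 1 ≤ v → ‖S a v‖ ≤ B * v)
    (hσ : 0 < σ) (hs : ∀ τ : ℝ, LSeriesSummable a (1 + pt σ τ)) :
    Integrable (fun τ : ℝ => ‖LSeries a (1 + pt σ τ)‖ ^ 2 / ‖1 + pt σ τ‖ ^ 2) ∧
    ∫ τ : ℝ, ‖LSeries a (1 + pt σ τ)‖ ^ 2 / ‖1 + pt σ τ‖ ^ 2 ≤ Real.pi * B ^ 2 / σ := by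
  have hlog : ∀ v : ℝ, 1 ≤ v → ‖G a v‖ ≤ B := by
    intro v hv
    have hv0 : 0 < v := by linarith
    unfold G
    rw [norm_div, Complex.norm_real, Real.norm_of_nonneg hv0.le, div_le_iff₀ hv0]
    exact hB v hv
  obtain ⟨h1, h2, h3⟩ := melP (measurable_G a) hB0 (fun v hv => (hlog v hv).trans (by
    have := Real.log_nonneg hv
    nlinarith)) hσ
  have h4 : ∀ τ : ℝ, ‖∫ v in Set.Ioi (1:ℝ), G a v * (v : ℂ) ^ (-(1 + pt σ τ))‖ ^ 2 =
      ‖LSeries a (1 + pt σ τ)‖ ^ 2 / ‖1 + pt σ τ‖ ^ 2 := by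
    intro τ
    rw [melF hB hσ τ (hs τ), norm_div, div_pow]
  simp only [h4] at h1 h2
  refine ⟨h1, ?_⟩
  rw [h2]
  have h5 : ∫ v in Set.Ioi (1:ℝ), ‖G a v‖ ^ 2 * v ^ (-1 - 2 * σ) ≤
      ∫ v in Set.Ioi (1:ℝ), B ^ 2 * v ^ (-1 - 2 * σ) := by
    refine setIntegral_mono_on h3
      ((integrableOn_Ioi_rpow_of_lt (by linarith) one_pos).const_mul _) measurableSet_Ioi
      fun v hv => ?_
    have hv0 : (0:ℝ) < v := lt_trans one_pos hv
    exact mul_le_mul_of_nonneg_right (pow_le_pow_left₀ (norm_nonneg _) (hlog v (le_of_lt hv)) 2)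
      (Real.rpow_nonneg hv0.le _)
  rw [integral_const_mul, integral_Ioi_rpow_of_lt (by linarith) one_pos, Real.one_rpow] at h5
  calc 2 * Real.pi * ∫ v in Set.Ioi (1:ℝ), ‖G a v‖ ^ 2 * v ^ (-1 - 2 * σ)
      ≤ 2 * Real.pi * (B ^ 2 * (-1 / (-1 - 2 * σ + 1))) :=
        mul_le_mul_of_nonneg_left h5 (by positivity)
    _ = Real.pi * B ^ 2 / σ := by
        have : (-1 : ℝ) / (-1 - 2 * σ + 1) = 1 / (2 * σ) := by
          rw [show (-1 - 2 * σ + 1 : ℝ) = -(2 * σ) by ring, neg_div_neg_eq]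
        rw [this]
        field_simp

end Pool.Agent.Work.MP_2d9442_nt
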