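import Pool.Agent.Work.MP_2d9442_nt.LapP
import Pool.Agent.Work.MP_2d9442_nt.HB

/-!
# Module MelP: Plancherel for Mellin transforms (M)

Proof.  Substitute `v = e^y` (`integral_comp_mul_deriv`-type statement on `Ioi`, e.g.
`MeasureTheory.integral_image_eq_integral_abs_deriv_smul` for `exp '' Ioi 0 = Ioi 1`):
`∫_{v>1} U(v) v^{-(1+σ+iτ)} dv = ∫_{y>0} U(e^y) e^{-σy} e^{-iτy} dy`, and apply `lapP` to
`u(y) = U(e^y) e^{-σ y}`; `‖u(y)‖ ≤ B(1+y)e^{-σy}` is integrable and square integrable on `Ioi 0`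
(`y e^{-σy}` etc.; e.g. `1 + y ≤ (1+4/σ) e^{σy/4}`), measurable.
Finally `∫_{y>0} ‖U(e^y)‖² e^{-2σy} dy = ∫_{v>1} ‖U(v)‖² v^{-1-2σ} dv` by the same substitution.
-/

open Finset MeasureTheory Filter Topology
open ArithmeticFunction (vonMangoldt)

namespace Pool.Agent.Work.MP_2d9442_nt

private theorem exp_image : Real.exp '' Set.Ioi (0:ℝ) = Set.Ioi (1:ℝ) := by
  ext x
  constructor
  · rintro ⟨y, hy, rfl⟩
    exact Real.one_lt_exp_iff.2 hy
  · intro hx
    have hx0 : 0 < x := lt_trans one_pos hx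
    exact ⟨Real.log x, Real.log_pos hx, Real.exp_log hx0⟩

private theorem exp_subst {E : Type*} [NormedAddCommGroup E] [NormedSpace ℝ E] (g : ℝ → E) :
    ∫ v in Set.Ioi (1:ℝ), g v = ∫ y in Set.Ioi (0:ℝ), Real.exp y • g (Real.exp y) := by
  rw [← exp_image, integral_image_eq_integral_abs_deriv_smul measurableSet_Ioi
    (fun x _ => (Real.hasDerivAt_exp x).hasDerivWithinAt) Real.exp_injective.injOn]
  simp only [abs_of_pos (Real.exp_pos _)]

private theorem exp_subst_int {E : Type*} [NormedAddCommGroup E] [NormedSpace ℝ E] (g : ℝ → E) :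
    IntegrableOn g (Set.Ioi (1:ℝ)) ↔
      IntegrableOn (fun y => Real.exp y • g (Real.exp y)) (Set.Ioi (0:ℝ)) := by
  rw [← exp_image, integrableOn_image_iff_integrableOn_abs_deriv_smul measurableSet_Ioi
    (fun x _ => (Real.hasDerivAt_exp x).hasDerivWithinAt) Real.exp_injective.injOn]
  simp only [abs_of_pos (Real.exp_pos _)]

theorem melP {U : ℝ → ℂ} (hm : Measurable U) {B σ : ℝ} (hB0 : 0 ≤ B)
    (hB : ∀ v, 1 ≤ v → ‖U v‖ ≤ B * (1 + Real.log v)) (hσ : 0 < σ) :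
    Integrable (fun τ : ℝ => ‖∫ v in Set.Ioi (1:ℝ), U v * (v : ℂ) ^ (-(1 + pt σ τ))‖ ^ 2) ∧
    ∫ τ : ℝ, ‖∫ v in Set.Ioi (1:ℝ), U v * (v : ℂ) ^ (-(1 + pt σ τ))‖ ^ 2 =
      2 * Real.pi * ∫ v in Set.Ioi (1:ℝ), ‖U v‖ ^ 2 * v ^ (-1 - 2 * σ) ∧
    IntegrableOn (fun v => ‖U v‖ ^ 2 * v ^ (-1 - 2 * σ)) (Set.Ioi (1:ℝ)) := by
  set u : ℝ → ℂ := fun y => U (Real.exp y) * (Real.exp (-σ * y) : ℂ) with hu
  have hmu : Measurable u := by
    refine (hm.comp Real.measurable_exp).mul ?_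
    exact (Complex.measurable_ofReal.comp (Real.measurable_exp.comp (measurable_const.mul
      measurable_id)))
  set C : ℝ := B * (1 + 4 / σ) with hC
  have hC0 : 0 ≤ C := by positivity
  have hbd : ∀ y : ℝ, 0 < y → ‖u y‖ ≤ C * Real.exp (-(3 / 4 * σ) * y) := by
    intro y hy
    have h1 : ‖U (Real.exp y)‖ ≤ B * (1 + y) := by
      have := hB (Real.exp y) (Real.one_le_exp_iff.2 hy.le)
      rwa [Real.log_exp] at this
    have h2 : 1 + y ≤ (1 + 4 / σ) * Real.exp (σ / 4 * y) := by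
      have h3 : 1 ≤ Real.exp (σ / 4 * y) := Real.one_le_exp_iff.2 (by positivity)
      have h4 : σ / 4 * y ≤ Real.exp (σ / 4 * y) := by
        have := Real.add_one_le_exp (σ / 4 * y)
        linarith
      have h5 : y ≤ 4 / σ * Real.exp (σ / 4 * y) := by
        calc y = 4 / σ * (σ / 4 * y) := by field_simp
          _ ≤ _ := mul_le_mul_of_nonneg_left h4 (by positivity)
      linarith
    have h3 : ‖(Real.exp (-σ * y) : ℂ)‖ = Real.exp (-σ * y) := by
      rw [Complex.norm_real, Real.norm_of_nonneg (Real.exp_pos _).le]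
    calc ‖u y‖ = ‖U (Real.exp y)‖ * Real.exp (-σ * y) := by rw [hu]; simp only [norm_mul, h3]
      _ ≤ (B * ((1 + 4 / σ) * Real.exp (σ / 4 * y))) * Real.exp (-σ * y) :=
          mul_le_mul_of_nonneg_right (h1.trans (mul_le_mul_of_nonneg_left h2 hB0))
            (Real.exp_pos _).le
      _ = C * (Real.exp (σ / 4 * y) * Real.exp (-σ * y)) := by rw [hC]; ring
      _ = C * Real.exp (-(3 / 4 * σ) * y) := by
          rw [← Real.exp_add]
          congr 2
          ring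
  have hi1 : IntegrableOn u (Set.Ioi 0) := by
    refine Integrable.mono' ((exp_neg_integrableOn_Ioi 0 (b := 3 / 4 * σ) (by positivity)).const_mul C)
      hmu.aestronglyMeasurable ?_
    exact (ae_restrict_iff' measurableSet_Ioi).2 (Eventually.of_forall fun y hy => hbd y hy)
  have hi2 : IntegrableOn (fun y => ‖u y‖ ^ 2) (Set.Ioi 0) := by
    refine Integrable.mono' ((exp_neg_integrableOn_Ioi 0 (b := 3 / 2 * σ)
      (by positivity)).const_mul (C ^ 2)) (hmu.norm.pow_const 2).aestronglyMeasurable ?_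
    refine (ae_restrict_iff' measurableSet_Ioi).2 (Eventually.of_forall fun y hy => ?_)
    have h1 := hbd y hy
    have h2 : Real.exp (-(3 / 4 * σ) * y) ^ 2 = Real.exp (-(3 / 2 * σ) * y) := by
      rw [← Real.exp_nat_mul]
      congr 1
      push_cast
      ring
    rw [Real.norm_of_nonneg (by positivity)]
    calc ‖u y‖ ^ 2 ≤ (C * Real.exp (-(3 / 4 * σ) * y)) ^ 2 :=
          pow_le_pow_left₀ (norm_nonneg _) h1 2
      _ = C ^ 2 * Real.exp (-(3 / 2 * σ) * y) := by rw [mul_pow, h2]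
  obtain ⟨p1, p2⟩ := lapP hi1 hi2
  have hΦ : ∀ τ : ℝ, ∫ v in Set.Ioi (1:ℝ), U v * (v : ℂ) ^ (-(1 + pt σ τ)) =
      ∫ y in Set.Ioi (0:ℝ), u y * Complex.exp (-((τ * y : ℝ) : ℂ) * Complex.I) := by
    intro τ
    rw [exp_subst]
    refine setIntegral_congr_fun measurableSet_Ioi fun y _ => ?_
    have hne : ((Real.exp y : ℝ) : ℂ) ≠ 0 := by
      exact_mod_cast (Real.exp_pos y).ne'
    simp only [hu]
    rw [Complex.cpow_def_of_ne_zero hne, ← Complex.ofReal_log (Real.exp_pos y).le, Real.log_exp,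
      Complex.real_smul, Complex.ofReal_exp, Complex.ofReal_exp]
    have h1 : Complex.exp (y : ℂ) * (U (Real.exp y) * Complex.exp ((y : ℂ) * -(1 + pt σ τ))) =
        U (Real.exp y) * (Complex.exp (y : ℂ) * Complex.exp ((y : ℂ) * -(1 + pt σ τ))) := by ring
    rw [h1, mul_assoc, ← Complex.exp_add, ← Complex.exp_add]
    congr 2
    unfold pt
    push_cast
    ring
  have hsq : ∀ y : ℝ, Real.exp y • (‖U (Real.exp y)‖ ^ 2 * (Real.exp y) ^ (-1 - 2 * σ)) =
      ‖u y‖ ^ 2 := by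
    intro y
    have h3 : ‖(Real.exp (-σ * y) : ℂ)‖ = Real.exp (-σ * y) := by
      rw [Complex.norm_real, Real.norm_of_nonneg (Real.exp_pos _).le]
    have h4 : ‖u y‖ = ‖U (Real.exp y)‖ * Real.exp (-σ * y) := by rw [hu]; simp only [norm_mul, h3]
    rw [h4, mul_pow, smul_eq_mul, ← Real.exp_mul, ← Real.exp_nat_mul]
    have h5 : Real.exp y * (‖U (Real.exp y)‖ ^ 2 * Real.exp (y * (-1 - 2 * σ))) =
        ‖U (Real.exp y)‖ ^ 2 * (Real.exp y * Real.exp (y * (-1 - 2 * σ))) := by ring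
    rw [h5, ← Real.exp_add]
    congr 2
    push_cast
    ring
  simp only [hΦ]
  refine ⟨p1, ?_, ?_⟩
  · rw [p2, exp_subst]
    simp only [hsq]
  · rw [exp_subst_int]
    simp only [hsq]
    exact hi2

end Pool.Agent.Work.MP_2d9442_nt
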