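import Pool.Agent.Work.MP_2d9442_nt.HB

/-!
# Module PerS: partial sums of the product of two different characters (M)

`θ = changeLevel χ⁻¹ * changeLevel ψ` is a Dirichlet character modulo `q k` with
`θ(n) = conj χ(n) ψ(n)` for all `n ≥ 1` (both sides vanish if `(n, qk) > 1`; otherwise
`changeLevel_eq_cast_of_dvd`, and `χ⁻¹(n) = conj χ(n)`: `MulChar.star_apply'`/`MulChar.inv_apply_eq_inv'`).
`θ ≠ 1` because `χ` and `ψ` do not agree somewhere (`¬ Same`).  `∑ over ZMod (qk) of θ = 0`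
(`MulChar.sum_eq_zero_of_ne_one`), so sums over full periods vanish and every partial sum has norm
at most the number of terms in an incomplete period, `≤ q k`.
(For `v < 1` the sum is empty.)
-/

open Finset MeasureTheory Filter Topology
open ArithmeticFunction (vonMangoldt)

namespace Pool.Agent.Work.MP_2d9442_nt

theorem CM_hc {q k : ℕ} (hq : 1 ≤ q) (hk : 1 ≤ k) (χ : DirichletCharacter ℂ q)
    (ψ : DirichletCharacter ℂ k) : CM (hc χ ψ) := by
  refine ⟨by simp [hc], by simp [hc], ?_, ?_⟩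
  · intro m n
    by_cases hm : m = 0
    · simp [hc, hm]
    · by_cases hn : n = 0
      · simp [hc, hn]
      · have hmn : m * n ≠ 0 := Nat.mul_ne_zero hm hn
        unfold hc
        rw [if_neg hmn, if_neg hm, if_neg hn, Nat.cast_mul, Nat.cast_mul, map_mul, map_mul, map_mul]
        ring
  · intro n
    by_cases hn : n = 0
    · simp [hc, hn]
    · unfold hc
      rw [if_neg hn, norm_mul, RCLike.norm_conj]
      exact mul_le_one₀ (DirichletCharacter.norm_le_one χ _) (norm_nonneg _)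
        (DirichletCharacter.norm_le_one ψ _)

private theorem pers_inv {q : ℕ} (χ : DirichletCharacter ℂ q) (a : ZMod q) :
    χ⁻¹ a = (starRingEnd ℂ) (χ a) := by
  have h := MulChar.star_apply' χ a
  rw [← h]
  rfl

private theorem pers_range {Q : ℕ} [NeZero Q] (g : ZMod Q → ℂ) :
    ∑ i ∈ Finset.range Q, g (i : ZMod Q) = ∑ x : ZMod Q, g x := by
  refine Finset.sum_nbij' (fun i => (i : ZMod Q)) (fun x => x.val) (fun i _ => Finset.mem_univ _)
    (fun x _ => Finset.mem_range.2 (ZMod.val_lt x)) (fun i hi => ?_) (fun x _ => ?_) fun i _ => rfl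
  · exact ZMod.val_cast_of_lt (Finset.mem_range.1 hi)
  · exact ZMod.natCast_zmod_val x

private theorem pers_bd {Q : ℕ} (hQ : 1 ≤ Q) (g : ℕ → ℂ) (hg : ∀ n, ‖g n‖ ≤ 1)
    (hper : ∀ n, g (Q + n) = g n) (h0 : ∑ n ∈ Finset.range Q, g n = 0) (m : ℕ) :
    ‖∑ n ∈ Finset.range m, g n‖ ≤ (Q : ℝ) := by
  induction m using Nat.strong_induction_on with
  | _ m ih =>
    rcases lt_or_ge m Q with h | h
    · refine (norm_sum_le_of_le _ fun n _ => hg n).trans ?_
      rw [Finset.sum_const, Finset.card_range, nsmul_eq_mul, mul_one]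
      exact_mod_cast h.le
    · obtain ⟨r, rfl⟩ := Nat.exists_eq_add_of_le h
      rw [Finset.sum_range_add, h0, zero_add]
      simp only [hper]
      exact ih r (by omega)

theorem perS {q k : ℕ} (hq : 1 ≤ q) (hk : 1 ≤ k) (χ : DirichletCharacter ℂ q)
    (ψ : DirichletCharacter ℂ k) (h : ¬ Same χ ψ) (v : ℝ) :
    ‖S (hc χ ψ) v‖ ≤ (q : ℝ) * k := by
  have hQ : 1 ≤ q * k := Nat.mul_pos hq hk
  haveI : NeZero (q * k) := ⟨by omega⟩
  set θ : DirichletCharacter ℂ (q * k) :=
    DirichletCharacter.changeLevel (Nat.dvd_mul_right q k) χ⁻¹ *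
      DirichletCharacter.changeLevel (Nat.dvd_mul_left k q) ψ with hθ
  have hcop : ∀ n : ℕ, n.Coprime (q * k) → θ (n : ZMod (q * k)) =
      (starRingEnd ℂ) (χ (n : ZMod q)) * ψ (n : ZMod k) := by
    intro n hn
    have hn' : IsCoprime (n : ℤ) ((q * k : ℕ) : ℤ) := Nat.isCoprime_iff_coprime.2 hn
    have h1 := DirichletCharacter.changeLevel_eq_cast_of_dvd' χ⁻¹ (Nat.dvd_mul_right q k) hn'
    have h2 := DirichletCharacter.changeLevel_eq_cast_of_dvd' ψ (Nat.dvd_mul_left k q) hn'
    rw [Int.cast_natCast, Int.cast_natCast] at h1 h2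
    rw [hθ, MulChar.mul_apply, h1, h2, pers_inv]
  have heq : ∀ n : ℕ, n ≠ 0 → hc χ ψ n = θ (n : ZMod (q * k)) := by
    intro n hn
    unfold hc
    rw [if_neg hn]
    by_cases hc' : n.Coprime (q * k)
    · exact (hcop n hc').symm
    · have h1 : θ (n : ZMod (q * k)) = 0 :=
        MulChar.map_nonunit θ (fun hu => hc' ((ZMod.isUnit_iff_coprime n (q * k)).1 hu))
      rw [h1]
      by_cases hnq : n.Coprime q
      · have hnk : ¬ n.Coprime k := fun h' => hc' (Nat.Coprime.mul_right hnq h')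
        have h2 : ψ (n : ZMod k) = 0 :=
          MulChar.map_nonunit ψ (fun hu => hnk ((ZMod.isUnit_iff_coprime n k).1 hu))
        rw [h2, mul_zero]
      · have h2 : χ (n : ZMod q) = 0 :=
          MulChar.map_nonunit χ (fun hu => hnq ((ZMod.isUnit_iff_coprime n q).1 hu))
        rw [h2, map_zero, zero_mul]
  have hne : θ ≠ 1 := by
    intro h1
    apply h
    intro n hn
    have h2 := hcop n hn
    have hu : IsUnit (n : ZMod (q * k)) := (ZMod.isUnit_iff_coprime n (q * k)).2 hn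
    rw [h1, MulChar.one_apply hu] at h2
    have hnq : n.Coprime q := Nat.Coprime.coprime_dvd_right (Nat.dvd_mul_right q k) hn
    have huq : IsUnit (n : ZMod q) := (ZMod.isUnit_iff_coprime n q).2 hnq
    haveI : NeZero q := ⟨by omega⟩
    have h3 : ‖χ (n : ZMod q)‖ = 1 := by
      obtain ⟨a, ha⟩ := huq
      rw [← ha]
      exact DirichletCharacter.unit_norm_eq_one χ a
    have h4 : χ (n : ZMod q) * (starRingEnd ℂ) (χ (n : ZMod q)) = 1 := by
      rw [Complex.mul_conj, Complex.normSq_eq_norm_sq, h3]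
      norm_num
    calc χ (n : ZMod q) = χ (n : ZMod q) * 1 := (mul_one _).symm
      _ = χ (n : ZMod q) * ((starRingEnd ℂ) (χ (n : ZMod q)) * ψ (n : ZMod k)) := by rw [← h2]
      _ = (χ (n : ZMod q) * (starRingEnd ℂ) (χ (n : ZMod q))) * ψ (n : ZMod k) := by ring
      _ = ψ (n : ZMod k) := by rw [h4, one_mul]
  have hsum : ∑ n ∈ Finset.range (q * k), θ ((n + 1 : ℕ) : ZMod (q * k)) = 0 := by
    have h1 := pers_range (Q := q * k) (fun x => θ (x + 1))
    have h2 : ∑ x : ZMod (q * k), θ (x + 1) = ∑ x : ZMod (q * k), θ x :=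
      Equiv.sum_comp (Equiv.addRight (1 : ZMod (q * k))) (fun x => θ x)
    rw [h2, MulChar.sum_eq_zero_of_ne_one hne] at h1
    rw [← h1]
    refine Finset.sum_congr rfl fun n _ => ?_
    rw [Nat.cast_add, Nat.cast_one]
  have hS : S (hc χ ψ) v = ∑ n ∈ Finset.range ⌊v⌋₊, θ ((n + 1 : ℕ) : ZMod (q * k)) := by
    unfold S
    generalize ⌊v⌋₊ = m
    induction m with
    | zero => simp
    | succ m ih =>
      rw [Finset.sum_Icc_succ_top (by omega), ih, Finset.sum_range_succ, heq _ (by omega)]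
  rw [hS]
  have h1 := pers_bd hQ (fun n => θ ((n + 1 : ℕ) : ZMod (q * k)))
    (fun n => DirichletCharacter.norm_le_one θ _) (fun n => ?_) hsum ⌊v⌋₊
  · push_cast at h1 ⊢
    exact h1
  · congr 1
    have h2 : ((q * k + n + 1 : ℕ) : ZMod (q * k)) = ((q * k : ℕ) : ZMod (q * k)) +
      ((n + 1 : ℕ) : ZMod (q * k)) := by
      push_cast
      ring
    rw [h2, ZMod.natCast_self, zero_add]

end Pool.Agent.Work.MP_2d9442_nt
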