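import Pool.Agent.Work.MP_2d9442_nt.Hal
import Pool.Agent.Work.MP_2d9442_nt.UpLow
import Pool.Agent.Work.MP_2d9442_nt.ZetaB
import Pool.Agent.Work.MP_2d9442_nt.Tri
import Pool.Agent.Work.MP_2d9442_nt.PerS

open Finset MeasureTheory Filter Topology
open ArithmeticFunction (vonMangoldt)

namespace Pool.Agent.Work.MP_2d9442_nt

theorem nonPr (T C0 : ℝ) (q : ℕ) (hq : 1 ≤ q) : ∃ C x0 : ℝ, 0 < C ∧ 3 ≤ x0 ∧
    ∀ (z : ℕ → ℂ) (χ : DirichletCharacter ℂ q) (t x : ℝ), UM z → x0 ≤ x → |t| ≤ T →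
    D2 (tw z χ) t x ≤ C0 → ∀ (k : ℕ) (ψ : DirichletCharacter ℂ k), 1 ≤ k → (k : ℝ) ≤ Real.log x →
    ¬ Same χ ψ → ‖S (tw z ψ) x‖ ≤ C * x * Real.log x ^ (-(1 / 48) : ℝ) := by
  obtain ⟨C₁, hC₁, hup⟩ := F_upper
  obtain ⟨C₂, hC₂, hlow⟩ := F_lower
  obtain ⟨C₃, hC₃, hhal⟩ := halasz
  have hlq : 0 ≤ Real.log q := Real.log_natCast_nonneg q
  have hqR : (1:ℝ) ≤ q := by exact_mod_cast hq
  set K' : ℝ := (49 + Real.log q) * (3 + |T|) with hK'
  have hK'0 : 0 < K' := by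
    have : 0 ≤ |T| := abs_nonneg T
    positivity
  set K : ℝ := C₁ * Real.exp C0 * √C₂ * √K' with hK
  have hK0 : 0 < K := by
    have h1 : 0 < √K' := Real.sqrt_pos.2 hK'0
    have h2 : 0 < √C₂ := Real.sqrt_pos.2 hC₂
    positivity
  refine ⟨C₃ * (K ^ (1 / 12 : ℝ) + 1), 3, by positivity, le_rfl, ?_⟩
  intro z χ t x hz hx ht hD k ψ hk hkL hsame
  have hx0 : 0 < x := by linarith
  have hf : CM (tw z ψ) := CM_tw hz.cm ψ
  have hkR : (1:ℝ) ≤ k := by exact_mod_cast hk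
  have hL1 : 1 < Real.log x := by
    rw [Real.lt_log_iff_exp_lt (by linarith)]
    have := Real.exp_one_lt_d9
    linarith
  set L := Real.log x with hL
  have hL0 : 0 < L := by linarith
  -- the parameter r
  set r := L ^ (1 / 48 : ℝ) with hr
  have hr1 : 1 ≤ r := Real.one_le_rpow hL1.le (by norm_num)
  have hr0 : 0 < r := by linarith
  have hr48 : r ^ 48 = L := by
    rw [hr, ← Real.rpow_natCast, ← Real.rpow_mul hL0.le]
    norm_num
  have hrinv : L ^ (-(1 / 48) : ℝ) = r⁻¹ := by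
    rw [hr, Real.rpow_neg hL0.le]
  have hr24 : 1 ≤ r ^ 24 := one_le_pow₀ hr1
  have hlk : Real.log k ≤ 48 * r ^ 24 := by
    have h1 : Real.log k ≤ Real.log L := Real.log_le_log (by linarith) hkL
    have h2 : Real.log L = 48 * Real.log r := by
      rw [← hr48, Real.log_pow]; norm_num
    have h3 : Real.log r ≤ r := (Real.log_le_sub_one_of_pos hr0).trans (by linarith)
    have h4 : r ≤ r ^ 24 := le_self_pow₀ hr1 (by norm_num)
    rw [h2] at h1
    linarith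
  have hlqk : 1 + Real.log ((q:ℝ) * k) ≤ (49 + Real.log q) * r ^ 24 := by
    rw [Real.log_mul (by linarith) (by linarith)]
    have h1 : Real.log q ≤ Real.log q * r ^ 24 := le_mul_of_one_le_right hlq hr24
    nlinarith
  have hlqk0 : 0 ≤ Real.log ((q:ℝ) * k) := Real.log_nonneg (by nlinarith)
  set σ := 1 / L with hσ
  have hσ0 : 0 < σ := by positivity
  have hσ1 : σ ≤ 1 := by
    rw [hσ, div_le_one hL0]
    exact hL1.le
  -- the hypothesis of the theorem of Halasz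
  have hyp : ∀ τ : ℝ, ‖1 - (0:ℂ) * ((1:ℝ) : ℂ) ^ (-(pt (1 / Real.log x) τ))‖ *
      ‖F (tw z ψ) (1 / Real.log x) τ‖ / ‖1 + pt (1 / Real.log x) τ‖ ≤
        (K * (r⁻¹) ^ 12) * Real.log x := by
    intro τ
    rw [← hL, ← hσ, zero_mul, sub_zero, norm_one, one_mul]
    have h1 := hup (tw z ψ) hf x τ hx
    have h2 := hlow (hc χ ψ) (CM_hc hq hk χ ψ) x (τ - t) hx
    have h3 := lb (a := hc χ ψ) (m := (q:ℝ) * k) (by nlinarith) (CM_hc hq hk χ ψ).le
      (perS hq hk χ ψ hsame) hσ0 hσ1 (τ - t)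
    have h4 := tri_tw hz χ ψ τ t x
    rw [← hL, ← hσ] at h1 h2
    set A := (2 + |τ - t|) * (1 + Real.log ((q:ℝ) * k)) with hA
    have hA0 : 0 < A := by
      have := abs_nonneg (τ - t)
      positivity
    have h5 : L * Real.exp (-D2 (hc χ ψ) (τ - t) x) ≤ C₂ * A :=
      h2.trans (mul_le_mul_of_nonneg_left h3 hC₂.le)
    have h6 : Real.exp (-D2 (tw z ψ) τ x) ≤ Real.exp C0 * √(C₂ * A / L) := by
      have h7 : Real.exp (-D2 (hc χ ψ) (τ - t) x) ≤ C₂ * A / L := by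
        rw [le_div_iff₀ hL0, mul_comm]
        exact h5
      have h8 : Real.exp (-D2 (hc χ ψ) (τ - t) x / 2) ≤ √(C₂ * A / L) := by
        rw [Real.exp_half]
        exact Real.sqrt_le_sqrt h7
      calc Real.exp (-D2 (tw z ψ) τ x) ≤ Real.exp (C0 + -D2 (hc χ ψ) (τ - t) x / 2) := by
            rw [Real.exp_le_exp]
            linarith
        _ = Real.exp C0 * Real.exp (-D2 (hc χ ψ) (τ - t) x / 2) := Real.exp_add _ _
        _ ≤ _ := mul_le_mul_of_nonneg_left h8 (Real.exp_pos _).le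
    have h9 : √(C₂ * A / L) = √C₂ * √A / r ^ 24 := by
      rw [Real.sqrt_div (by positivity), Real.sqrt_mul hC₂.le]
      congr 1
      rw [← hr48, show r ^ 48 = (r ^ 24) ^ 2 by ring, Real.sqrt_sq (by positivity)]
    have h10 : ‖F (tw z ψ) σ τ‖ ≤ C₁ * Real.exp C0 * √C₂ * r ^ 24 * √A := by
      calc ‖F (tw z ψ) σ τ‖ ≤ C₁ * L * Real.exp (-D2 (tw z ψ) τ x) := h1
        _ ≤ C₁ * L * (Real.exp C0 * √(C₂ * A / L)) := mul_le_mul_of_nonneg_left h6 (by positivity)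
        _ = _ := by
          rw [h9, ← hr48]
          field_simp
    set B := ‖1 + pt σ τ‖ with hB
    have hBre : (1 + pt σ τ).re = 1 + σ := by rw [Complex.add_re, pt_re, Complex.one_re]
    have hBim : (1 + pt σ τ).im = τ := by rw [Complex.add_im, pt_im, Complex.one_im, zero_add]
    have hB1 : 1 ≤ B := by
      have := Complex.abs_re_le_norm (1 + pt σ τ)
      rw [hBre, abs_of_pos (by linarith)] at this
      linarith
    have hBt : |τ| ≤ B := by
      have := Complex.abs_im_le_norm (1 + pt σ τ)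
      rwa [hBim] at this
    have hB0 : 0 < B := by linarith
    have h11 : A ≤ K' * (r ^ 24 * B ^ 2) := by
      have hT : |t| ≤ |T| := ht.trans (le_abs_self T)
      have hab : |τ - t| ≤ |τ| + |t| := abs_sub _ _
      have hBB : B ≤ B ^ 2 := by nlinarith
      have hT0 : 0 ≤ |T| := abs_nonneg T
      have ha : 2 + |τ - t| ≤ (3 + |T|) * B ^ 2 := by
        have : |T| ≤ |T| * B ^ 2 := le_mul_of_one_le_right hT0 (hB1.trans hBB)
        nlinarith
      have h0 : 0 ≤ 2 + |τ - t| := by positivity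
      calc A ≤ ((3 + |T|) * B ^ 2) * ((49 + Real.log q) * r ^ 24) := by
            rw [hA]
            exact mul_le_mul ha hlqk (by linarith) (by positivity)
        _ = K' * (r ^ 24 * B ^ 2) := by rw [hK']; ring
    have h12 : √A ≤ √K' * (r ^ 12 * B) := by
      have h13 := Real.sqrt_le_sqrt h11
      have h15 : √(K' * (r ^ 24 * B ^ 2)) = √K' * (r ^ 12 * B) := by
        rw [Real.sqrt_mul (by positivity), show r ^ 24 * B ^ 2 = (r ^ 12 * B) ^ 2 by ring,
          Real.sqrt_sq (by positivity)]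
      rwa [h15] at h13
    rw [div_le_iff₀ hB0]
    calc ‖F (tw z ψ) σ τ‖ ≤ C₁ * Real.exp C0 * √C₂ * r ^ 24 * √A := h10
      _ ≤ (C₁ * Real.exp C0 * √C₂ * r ^ 24) * (√K' * (r ^ 12 * B)) :=
          mul_le_mul_of_nonneg_left h12 (by positivity)
      _ = K * (r⁻¹) ^ 12 * L * B := by
          rw [hK, ← hr48]
          field_simp
  have hmain := hhal (tw z ψ) 0 1 x (K * (r⁻¹) ^ 12) hf (by simp) le_rfl hx
    (by rw [one_pow]; exact hL1.le) (by positivity) hyp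
  rw [← hL, H_zero_one] at hmain
  have e1 : (K * (r⁻¹) ^ 12) ^ (1 / 12 : ℝ) = K ^ (1 / 12 : ℝ) * r⁻¹ := by
    rw [Real.mul_rpow hK0.le (by positivity), ← Real.rpow_natCast, ← Real.rpow_mul (by positivity)]
    norm_num
  have e2 : L ^ (-(1 / 6) : ℝ) ≤ r⁻¹ := by
    rw [← hrinv]
    exact Real.rpow_le_rpow_of_exponent_le hL1.le (by norm_num)
  have e3 : ‖G (tw z ψ) x‖ ≤ C₃ * (K ^ (1 / 12 : ℝ) + 1) * r⁻¹ := by
    refine hmain.trans ?_
    rw [e1, mul_assoc]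
    refine mul_le_mul_of_nonneg_left ?_ hC₃.le
    rw [add_mul, one_mul]
    linarith
  have e4 : ‖S (tw z ψ) x‖ = x * ‖G (tw z ψ) x‖ := by
    unfold G
    rw [norm_div, Complex.norm_real, Real.norm_of_nonneg hx0.le]
    field_simp
  rw [e4, hrinv]
  calc x * ‖G (tw z ψ) x‖ ≤ x * (C₃ * (K ^ (1 / 12 : ℝ) + 1) * r⁻¹) :=
        mul_le_mul_of_nonneg_left e3 hx0.le
    _ = _ := by ring

end Pool.Agent.Work.MP_2d9442_nt
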