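import Pool.Agent.Work.MP_2d9442_nt.Defs

/-!
# Module Planch: Plancherel for functions in L¹ ∩ L² (M, Mathlib only)

Let `h ∈ L¹ ∩ L²`, `T = h2.toLp`, `U = 𝓕 T` its `L²` Fourier transform (`Lp.norm_fourier_eq :
‖𝓕 T‖ = ‖T‖`, Mathlib.Analysis.Fourier.LpSpace).  Claim: `U = 𝓕 h` (the integral) almost
everywhere.  For every Schwartz `φ`:
`∫ U φ = ∫ h 𝓕φ` by `MeasureTheory.Lp.fourier_toTemperedDistribution_eq` (or by continuity: both sides
are continuous in `T ∈ L²` and agree for Schwartz `T`: `SchwartzMap.toLp_fourier_eq` and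
`SchwartzMap.integral_fourier_mul_eq`/`VectorFourier.integral_fourierIntegral_smul_eq_flip`), and
`∫ (𝓕 h) φ = ∫ h 𝓕φ` by `VectorFourier.integral_fourierIntegral_smul_eq_flip`
(Real.integral_fourier_smul_eq).  So the locally integrable function `U - 𝓕 h` integrates to zero
against all smooth compactly supported functions, and
`ae_eq_zero_of_integral_contDiff_smul_eq_zero` gives `U = 𝓕 h` a.e.  Then
`∫ ‖𝓕 h‖² = ‖U‖² = ‖T‖² = ∫ ‖h‖²` (`L2.norm...`, `MeasureTheory.L2.eLpNorm...`,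
`Memℒp`/`MemLp` conversion).
-/

open Finset MeasureTheory Filter Topology
open ArithmeticFunction (vonMangoldt)

namespace Pool.Agent.Work.MP_2d9442_nt

open FourierTransform in
private theorem planch_sq (f : Lp ℂ 2 (volume : Measure ℝ)) :
    ((∫ x : ℝ, ‖f x‖ ^ 2 : ℝ) : ℂ) = inner ℂ f f := by
  rw [L2.inner_def]
  refine (integral_ofReal (𝕜 := ℂ) (f := fun x : ℝ => ‖(f : ℝ → ℂ) x‖ ^ 2)).symm.trans ?_
  refine integral_congr_ae (Eventually.of_forall fun x => ?_)
  simp only [inner_self_eq_norm_sq_to_K]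
  push_cast
  rfl

open FourierTransform in
theorem planch {h : ℝ → ℂ} (h1 : Integrable h) (h2 : MemLp h 2) :
    Integrable (fun ξ : ℝ => ‖𝓕 h ξ‖ ^ 2) ∧ ∫ ξ : ℝ, ‖𝓕 h ξ‖ ^ 2 = ∫ x : ℝ, ‖h x‖ ^ 2 := by
  set T : Lp ℂ 2 (volume : Measure ℝ) := h2.toLp h with hT
  set U : Lp ℂ 2 (volume : Measure ℝ) := 𝓕 T with hU
  have hTh : (T : ℝ → ℂ) =ᵐ[volume] h := h2.coeFn_toLp
  have hcont : Continuous (𝓕 h) :=
    VectorFourier.fourierIntegral_continuous (μ := volume) (L := innerₗ ℝ)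
      Real.continuous_fourierChar (by exact continuous_inner) h1
  have hUφ : ∀ φ : SchwartzMap ℝ ℂ, ∫ x, φ x • (U : ℝ → ℂ) x = ∫ x, φ x • 𝓕 h x := by
    intro φ
    have e := Lp.fourier_toTemperedDistribution_eq T
    have e2 := DFunLike.congr_fun e φ
    rw [TemperedDistribution.fourier_apply, Lp.toTemperedDistribution_apply,
      Lp.toTemperedDistribution_apply] at e2
    rw [hU, ← e2]
    have e3 : ∫ x, (𝓕 φ) x • (T : ℝ → ℂ) x = ∫ x, (𝓕 φ) x • h x := by
      refine integral_congr_ae ?_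
      filter_upwards [hTh] with x hx
      rw [hx]
    rw [e3]
    have e4 := VectorFourier.integral_fourierIntegral_smul_eq_flip (L := innerₗ ℝ) (f := φ)
      (g := h) (μ := volume) (ν := volume) Real.continuous_fourierChar
      (by exact continuous_inner) φ.integrable h1
    rw [flip_innerₗ] at e4
    exact e4
  have hae : ∀ᵐ x, (U : ℝ → ℂ) x = 𝓕 h x := by
    refine ae_eq_of_integral_contDiff_smul_eq ((Lp.memLp U).locallyIntegrable (by norm_num))
      hcont.locallyIntegrable fun g hg1 hg2 => ?_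
    have hg3 : HasCompactSupport (Complex.ofRealCLM ∘ g) := hg2.comp_left rfl
    have hg4 : ContDiff ℝ (⊤ : ℕ∞) (Complex.ofRealCLM ∘ g) := Complex.ofRealCLM.contDiff.comp hg1
    have := hUφ (hg3.toSchwartzMap hg4)
    simpa using this
  have hsqae : (fun x => ‖(U : ℝ → ℂ) x‖ ^ 2) =ᵐ[volume] fun x => ‖𝓕 h x‖ ^ 2 := by
    filter_upwards [hae] with x hx
    rw [hx]
  have hint : Integrable fun x => ‖(U : ℝ → ℂ) x‖ ^ 2 := (Lp.memLp U).integrable_norm_pow (by norm_num)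
  refine ⟨hint.congr hsqae, ?_⟩
  rw [← integral_congr_ae hsqae]
  have h3 : ∫ x : ℝ, ‖(T : ℝ → ℂ) x‖ ^ 2 = ∫ x : ℝ, ‖h x‖ ^ 2 := by
    refine integral_congr_ae ?_
    filter_upwards [hTh] with x hx
    rw [hx]
  rw [← h3]
  have h4 := planch_sq U
  have h5 := planch_sq T
  rw [hU, Lp.inner_fourier_eq, ← h5, ← hU] at h4
  exact_mod_cast h4

end Pool.Agent.Work.MP_2d9442_nt
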