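import Pool.Agent.Work.MP_2d9442_nt.HB

/-!
# Module Rec: the recurrence inequality (M)

Proof.  For `x ≥ 1` and `CM f`:
`∑_{n ≤ x} f(n) log n = ∑_{n ≤ x} f(n) ∑_{d ∣ n} Λ(d) = ∑_{d ≤ x} Λ(d) f(d) S f (x/d)`
(`ArithmeticFunction.vonMangoldt_sum : ∑ i ∈ n.divisors, Λ i = log n`, complete multiplicativity,
`⌊x/d⌋₊ = ⌊x⌋₊ / d` by `Nat.floor_div_natCast`; for the exchange of sums use
`Nat.sum_Icc_...`/`Finset.sum_sigma'` or write `n = d m`), and
`‖∑_{n ≤ x} f(n) log(x/n)‖ ≤ ∑_{n ≤ x} log(x/n) ≤ x`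
(e.g. `∑_{n ≤ m} log(x/n) = m log x - log m!` and `log m! ≥ m log m - m` [`Real.add_pow_le_pow_mul_pow_of_add_eq_one`
no; use `Nat.factorial` bound `m! ≥ (m/e)^m`, in Mathlib: `Real.exp_one...`, or simply induction /
`log(x/n) ≤ ∑...`; a simple proof: `log y ≤ y - 1`, hmm gives a factor; recommended: Stirling lower
bound `Nat.factorial_lt`/`Stirling.le_factorial_stirling`, then `m log(x/m) + m ≤ x` because
`log u ≤ u - 1` with `u = x/m`].
Hence `G f x * log x = ∑_{d ≤ x} (Λ(d)/d) f(d) G f (x/d) + R`, `‖R‖ ≤ 1`   (*)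
(multiply by `x`; `S f (x/d) = (x/d) G f (x/d)`).
The same identity at the point `x/w` (if `x/w ≥ 1`, otherwise `G f (x/w) = 0` and all the
`G f (x/(wd))` vanish too):  `G f (x/w) log (x/w) = ∑_{d ≤ x/w} (Λ(d)/d) f(d) G f (x/(wd)) + R'`;
the sum may be extended to all `d ≤ x` because `G f (x/(wd)) = 0` for `x/(wd) < 1` (`G_zero`).
Since `log(x/w) = log x - log w` and `‖G‖ ≤ 1`:
`H f c w x * log x = ∑_{d ≤ x} (Λ(d)/d) f(d) H f c w (x/d) + R''` with `‖R''‖ ≤ 2 + log w`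
(`(x/d)/w = (x/w)/d`).  Take norms.
-/

open Finset MeasureTheory Filter Topology
open ArithmeticFunction (vonMangoldt)

namespace Pool.Agent.Work.MP_2d9442_nt

private theorem rec_Icc (N : ℕ) : Finset.Icc 1 N = Finset.Ioc 0 N := by
  ext n
  simp only [Finset.mem_Icc, Finset.mem_Ioc]
  omega

private theorem rec_sum {f : ℕ → ℂ} (hf : CM f) (N : ℕ) :
    ∑ n ∈ Finset.Icc 1 N, f n * (Real.log n : ℂ) =
      ∑ d ∈ Finset.Icc 1 N, (vonMangoldt d : ℂ) * f d * ∑ m ∈ Finset.Icc 1 (N / d), f m := by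
  let fA : ArithmeticFunction ℂ := ⟨f, hf.zero⟩
  let gA : ArithmeticFunction ℂ := ⟨fun n => (vonMangoldt n : ℂ) * f n, by simp⟩
  have h1 : ∀ n, (gA * fA) n = f n * (Real.log n : ℂ) := by
    intro n
    rw [ArithmeticFunction.mul_apply]
    have h2 : ∀ x ∈ n.divisorsAntidiagonal, gA x.1 * fA x.2 = f n * (vonMangoldt x.1 : ℂ) := by
      intro x hx
      have h3 := (Nat.mem_divisorsAntidiagonal.1 hx).1
      change (vonMangoldt x.1 : ℂ) * f x.1 * f x.2 = _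
      rw [← h3, hf.mul]
      ring
    rw [Finset.sum_congr rfl h2, ← Finset.mul_sum]
    congr 1
    rw [Nat.sum_divisorsAntidiagonal (fun i _ => (vonMangoldt i : ℂ)),
      ← ArithmeticFunction.vonMangoldt_sum]
    push_cast
    rfl
  have h2 := ArithmeticFunction.sum_Ioc_mul_eq_sum_sum gA fA N
  rw [rec_Icc]
  simp only [h1] at h2
  rw [h2]
  refine Finset.sum_congr rfl fun d _ => ?_
  rw [rec_Icc]
  rfl

private theorem rec_logsum {x : ℝ} (hx : 1 ≤ x) :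
    ∑ n ∈ Finset.Icc 1 ⌊x⌋₊, (Real.log x - Real.log n) ≤ x := by
  have h0 : (0 : ℝ) < x := by linarith
  have h1 : ∀ N : ℕ, ∑ n ∈ Finset.Icc 1 N, Real.log n = Real.log (N.factorial : ℝ) := by
    intro N
    induction N with
    | zero => simp
    | succ N ih =>
      rw [Finset.sum_Icc_succ_top (by omega), ih, Nat.factorial_succ, Nat.cast_mul,
        Real.log_mul (by positivity) (by positivity)]
      ring
  rw [Finset.sum_sub_distrib, h1, Finset.sum_const, Nat.card_Icc, Nat.add_sub_cancel, nsmul_eq_mul]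
  have h2 : Real.log (x ^ ⌊x⌋₊ / (⌊x⌋₊.factorial : ℝ)) ≤ x := by
    rw [Real.log_le_iff_le_exp (by positivity)]
    exact Real.pow_div_factorial_le_exp _ h0.le _
  rw [Real.log_div (by positivity) (by positivity), Real.log_pow] at h2
  exact h2

private theorem rec_G1 {f : ℕ → ℂ} (hf : CM f) {x : ℝ} (hx : 1 ≤ x) :
    ‖G f x * (Real.log x : ℂ) -
      ∑ d ∈ Finset.Icc 1 ⌊x⌋₊, ((vonMangoldt d / (d : ℝ) : ℝ) : ℂ) * f d * G f (x / d)‖ ≤ 1 := by
  have h0 : (0 : ℝ) < x := by linarith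
  have hxC : (x : ℂ) ≠ 0 := by exact_mod_cast h0.ne'
  have h1 : ∑ d ∈ Finset.Icc 1 ⌊x⌋₊, ((vonMangoldt d / (d : ℝ) : ℝ) : ℂ) * f d * G f (x / d) =
      (∑ n ∈ Finset.Icc 1 ⌊x⌋₊, f n * (Real.log n : ℂ)) / x := by
    rw [rec_sum hf, Finset.sum_div]
    refine Finset.sum_congr rfl fun d hd => ?_
    have hd1 : 1 ≤ d := (Finset.mem_Icc.1 hd).1
    have hdC : (d : ℂ) ≠ 0 := by
      have : d ≠ 0 := by omega
      exact_mod_cast this
    unfold G S
    rw [Nat.floor_div_natCast]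
    push_cast
    field_simp
  have h2 : G f x * (Real.log x : ℂ) = (∑ n ∈ Finset.Icc 1 ⌊x⌋₊, f n * (Real.log x : ℂ)) / x := by
    unfold G S
    rw [← Finset.sum_mul]
    ring
  rw [h1, h2, ← sub_div, ← Finset.sum_sub_distrib, norm_div, Complex.norm_real,
    Real.norm_of_nonneg h0.le, div_le_one h0]
  refine (norm_sum_le _ _).trans ((Finset.sum_le_sum fun n hn => ?_).trans (rec_logsum hx))
  have hn1 : 1 ≤ n := (Finset.mem_Icc.1 hn).1
  have hnx : (n : ℝ) ≤ x := (Nat.le_floor_iff h0.le).1 (Finset.mem_Icc.1 hn).2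
  have h3 : f n * (Real.log x : ℂ) - f n * (Real.log n : ℂ) =
      f n * ((Real.log x - Real.log n : ℝ) : ℂ) := by
    push_cast
    ring
  have h4 : 0 ≤ Real.log x - Real.log n := by
    have : Real.log n ≤ Real.log x := Real.log_le_log (by exact_mod_cast hn1) hnx
    linarith
  rw [h3, norm_mul, Complex.norm_real, Real.norm_of_nonneg h4]
  exact mul_le_of_le_one_left h4 (hf.le n)

private theorem rec_G {f : ℕ → ℂ} (hf : CM f) {y : ℝ} (hy : 0 < y) {N : ℕ} (hN : ⌊y⌋₊ ≤ N) :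
    ‖G f y * (Real.log y : ℂ) -
      ∑ d ∈ Finset.Icc 1 N, ((vonMangoldt d / (d : ℝ) : ℝ) : ℂ) * f d * G f (y / d)‖ ≤ 1 := by
  by_cases hy1 : 1 ≤ y
  · have h1 : ∑ d ∈ Finset.Icc 1 N, ((vonMangoldt d / (d : ℝ) : ℝ) : ℂ) * f d * G f (y / d) =
        ∑ d ∈ Finset.Icc 1 ⌊y⌋₊, ((vonMangoldt d / (d : ℝ) : ℝ) : ℂ) * f d * G f (y / d) := by
      symm
      refine Finset.sum_subset (Finset.Icc_subset_Icc_right hN) fun d hd hd' => ?_
      have hd1 : 1 ≤ d := (Finset.mem_Icc.1 hd).1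
      have hd0 : (0 : ℝ) < d := by exact_mod_cast hd1
      have h2 : ⌊y⌋₊ < d := by
        by_contra hcon
        exact hd' (Finset.mem_Icc.2 ⟨hd1, not_lt.1 hcon⟩)
      have h3 : y < d := (Nat.floor_lt hy.le).1 h2
      rw [G_zero ((div_lt_one hd0).2 h3), mul_zero]
    rw [h1]
    exact rec_G1 hf hy1
  · have hy2 : y < 1 := not_le.1 hy1
    have h1 : ∑ d ∈ Finset.Icc 1 N, ((vonMangoldt d / (d : ℝ) : ℝ) : ℂ) * f d * G f (y / d) = 0 := by
      refine Finset.sum_eq_zero fun d hd => ?_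
      have hd1 : 1 ≤ d := (Finset.mem_Icc.1 hd).1
      have hd0 : (1 : ℝ) ≤ d := by exact_mod_cast hd1
      rw [G_zero ((div_le_self hy.le hd0).trans_lt hy2), mul_zero]
    rw [h1, G_zero hy2, zero_mul, sub_zero, norm_zero]
    exact zero_le_one

theorem rec_H {f : ℕ → ℂ} (hf : CM f) {c : ℂ} (hc : ‖c‖ ≤ 1) {w x : ℝ} (hw : 1 ≤ w)
    (hx : 1 ≤ x) :
    ‖H f c w x‖ * Real.log x ≤
      ∑ d ∈ Finset.Icc 1 ⌊x⌋₊, (vonMangoldt d / (d : ℝ)) * ‖H f c w (x / d)‖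
        + 2 + Real.log w := by
  have hx0 : 0 < x := by linarith
  have hw0 : 0 < w := by linarith
  have hlw : 0 ≤ Real.log w := Real.log_nonneg hw
  have hlx : 0 ≤ Real.log x := Real.log_nonneg hx
  have h1 := rec_G hf hx0 (le_refl ⌊x⌋₊)
  have h2 := rec_G hf (div_pos hx0 hw0)
    (Nat.floor_le_floor (div_le_self hx0.le hw) : ⌊x / w⌋₊ ≤ ⌊x⌋₊)
  set A := ∑ d ∈ Finset.Icc 1 ⌊x⌋₊, ((vonMangoldt d / (d : ℝ) : ℝ) : ℂ) * f d * G f (x / d) with hA
  set B := ∑ d ∈ Finset.Icc 1 ⌊x⌋₊, ((vonMangoldt d / (d : ℝ) : ℝ) : ℂ) * f d * G f (x / w / d)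
    with hB
  have hS : ∑ d ∈ Finset.Icc 1 ⌊x⌋₊, ((vonMangoldt d / (d : ℝ) : ℝ) : ℂ) * f d * H f c w (x / d) =
      A - c * B := by
    rw [hA, hB, Finset.mul_sum, ← Finset.sum_sub_distrib]
    refine Finset.sum_congr rfl fun d _ => ?_
    unfold H
    rw [div_right_comm x (d : ℝ) w]
    ring
  have h3 : H f c w x * (Real.log x : ℂ) = (A - c * B) + ((G f x * (Real.log x : ℂ) - A) -
      c * (G f (x / w) * (Real.log (x / w) : ℂ) - B) - c * G f (x / w) * (Real.log w : ℂ)) := by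
    unfold H
    rw [Real.log_div hx0.ne' hw0.ne']
    push_cast
    ring
  have h4 : ‖H f c w x‖ * Real.log x = ‖H f c w x * (Real.log x : ℂ)‖ := by
    rw [norm_mul, Complex.norm_real, Real.norm_of_nonneg hlx]
  have h5 : ‖A - c * B‖ ≤
      ∑ d ∈ Finset.Icc 1 ⌊x⌋₊, (vonMangoldt d / (d : ℝ)) * ‖H f c w (x / d)‖ := by
    rw [← hS]
    refine (norm_sum_le _ _).trans (Finset.sum_le_sum fun d _ => ?_)
    have h6 : 0 ≤ vonMangoldt d / (d : ℝ) :=
      div_nonneg ArithmeticFunction.vonMangoldt_nonneg (Nat.cast_nonneg d)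
    rw [norm_mul, norm_mul, Complex.norm_real, Real.norm_of_nonneg h6]
    have h7 : vonMangoldt d / (d : ℝ) * ‖f d‖ ≤ vonMangoldt d / (d : ℝ) :=
      mul_le_of_le_one_right h6 (hf.le d)
    exact mul_le_mul_of_nonneg_right h7 (norm_nonneg _)
  have h6 : ‖c * (G f (x / w) * (Real.log (x / w) : ℂ) - B)‖ ≤ 1 := by
    rw [norm_mul]
    exact mul_le_one₀ hc (norm_nonneg _) h2
  have h7 : ‖c * G f (x / w) * (Real.log w : ℂ)‖ ≤ Real.log w := by
    rw [norm_mul, norm_mul, Complex.norm_real, Real.norm_of_nonneg hlw]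
    exact mul_le_of_le_one_left hlw (mul_le_one₀ hc (norm_nonneg _) (norm_G_le hf.le _))
  rw [h4, h3]
  refine (norm_add_le _ _).trans ?_
  have h8 := norm_sub_le ((G f x * (Real.log x : ℂ) - A) -
      c * (G f (x / w) * (Real.log (x / w) : ℂ) - B)) (c * G f (x / w) * (Real.log w : ℂ))
  have h9 := norm_sub_le (G f x * (Real.log x : ℂ) - A)
      (c * (G f (x / w) * (Real.log (x / w) : ℂ) - B))
  linarith

end Pool.Agent.Work.MP_2d9442_nt
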