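import Pool.Agent.Work.MP_2d9442_nt.CaseA
import Pool.Agent.Work.MP_2d9442_nt.CaseB
import Pool.Agent.Work.MP_2d9442_nt.CaseC

open Finset MeasureTheory Filter Topology
open ArithmeticFunction (vonMangoldt)

namespace Pool.Agent.Work.MP_2d9442_nt

theorem thmP {q : ℕ} (hq : 1 ≤ q) (χ : DirichletCharacter ℂ q) (hχ : χ.IsPrimitive) {δ B : ℝ}
    (hδ : 0 < δ) (hB : 0 < B) : ∃ c : ℝ, 0 < c ∧ ∃ N0 : ℕ, ∀ N : ℕ, N0 ≤ N →
    ∀ (u : ℕ → ℂ) (t : ℝ), UM u → |t| ≤ B * N → δ * N ≤ ‖S (tw u χ) N‖ →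
    c * Real.log (Real.log N) ≤ AN (fun n => u n * tws (-t) n) N := by
  set δ' := min δ 1 with hδ'
  have hδ'0 : 0 < δ' := lt_min hδ one_pos
  have hδ'1 : δ' ≤ 1 := min_le_right _ _
  have hle : ∀ N : ℕ, ∀ X : ℝ, δ * N ≤ X → δ' * N ≤ X := fun N X h =>
    le_trans (mul_le_mul_of_nonneg_right (min_le_left _ _) (Nat.cast_nonneg _)) h
  obtain ⟨NB, hBB⟩ := caseB hq χ hχ hδ'0 hB
  have hll : ∀ N : ℕ, 3 ≤ N → 0 ≤ Real.log (Real.log N) := by
    intro N hN
    apply Real.log_nonneg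
    have h6 : (3:ℝ) ≤ N := by exact_mod_cast hN
    rw [Real.le_log_iff_exp_le (by linarith)]
    have := Real.exp_one_lt_d9
    linarith
  obtain ⟨c, hc, hc1, NA, hA⟩ : ∃ c : ℝ, 0 < c ∧ c ≤ 1 ∧ ∃ NA : ℕ, ∀ N : ℕ, NA ≤ N →
      ∀ (u : ℕ → ℂ) (t : ℝ), UM u → |t| ≤ N / Real.log N ^ (1 / 200 : ℝ) →
      δ' * N ≤ ‖S (tw u χ) N‖ →
      c * Real.log (Real.log N) ≤ AN (fun n => u n * tws (-t) n) N := by
    rcases Nat.lt_or_ge 1 q with h2 | h1
    · obtain ⟨c, hc, N0, h⟩ := caseA (by omega : 2 ≤ q) χ hχ hδ'0 hδ'1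
      refine ⟨min c 1, lt_min hc one_pos, min_le_right _ _, max N0 3, ?_⟩
      intro N hN u t hu ht hS
      refine le_trans (mul_le_mul_of_nonneg_right (min_le_left _ _) (hll N ?_))
        (h N (le_trans (le_max_left _ _) hN) u t hu ht hS)
      exact le_trans (le_max_right _ _) hN
    · have hq1 : q = 1 := by omega
      subst hq1
      obtain ⟨N0, h⟩ := caseC hδ'0 hδ'1
      refine ⟨1, one_pos, le_rfl, N0, ?_⟩
      intro N hN u t hu ht hS
      rw [one_mul]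
      refine h N hN u t hu ht (le_trans hS (le_of_eq ?_))
      congr 1
      unfold S
      apply Finset.sum_congr rfl
      intro n _
      have h3 : χ = 1 := DirichletCharacter.level_one χ
      have h4 : (n : ZMod 1) = 1 := Subsingleton.elim _ _
      rw [tw, h4, map_one, mul_one]
  refine ⟨c, hc, max (max NA NB) 3, ?_⟩
  intro N hN u t hu ht hS
  have hNA : NA ≤ N := le_trans (le_trans (le_max_left _ _) (le_max_left _ _)) hN
  have hNB : NB ≤ N := le_trans (le_trans (le_max_right _ _) (le_max_left _ _)) hN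
  have hN3 : 3 ≤ N := le_trans (le_max_right _ _) hN
  rcases le_total |t| (N / Real.log N ^ (1 / 200 : ℝ)) with h | h
  · exact hA N hNA u t hu h (hle N _ hS)
  · refine le_trans ?_ (hBB N hNB u t hu h ht (hle N _ hS))
    have := hll N hN3
    nlinarith

end Pool.Agent.Work.MP_2d9442_nt
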