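import Pool.Agent.Work.MP_2d9442_nt.HalT
import Pool.Agent.Work.MP_2d9442_nt.Lip
import Pool.Agent.Work.MP_2d9442_nt.EMainC

/-!
# Module WinMain: large exponential sums on short windows
-/

open Finset MeasureTheory Filter Topology
open ArithmeticFunction (vonMangoldt)

namespace Pool.Agent.Work.MP_2d9442_nt

private theorem win_ev {q : ℕ} (hq : 1 ≤ q) {a ε : ℝ} (hε : 0 < ε)
    (x0 : ℝ) : ∃ N0 : ℕ, ∀ N : ℕ, N0 ≤ N →
    x0 ≤ √(N : ℝ) ∧ a * Real.log N ^ (-(1 / 240) : ℝ) ≤ ε ∧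
    q * √(Real.log N) ≤ √(N : ℝ) ∧ 2 * (q : ℝ) ≤ Real.log N ∧ 1 ≤ Real.log N := by
  have hT : Tendsto (fun N : ℕ => (N : ℝ)) atTop atTop := tendsto_natCast_atTop_atTop
  have hL : Tendsto (fun N : ℕ => Real.log N) atTop atTop := Real.tendsto_log_atTop.comp hT
  have e1 : ∀ᶠ N : ℕ in atTop, x0 ≤ √(N : ℝ) :=
    ((Real.tendsto_sqrt_atTop.comp hT).eventually_ge_atTop x0)
  have e2 : ∀ᶠ N : ℕ in atTop, a * Real.log N ^ (-(1 / 240) : ℝ) ≤ ε := by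
    have h1 : Tendsto (fun N : ℕ => a * Real.log N ^ (-(1 / 240) : ℝ)) atTop (𝓝 (a * 0)) :=
      ((tendsto_rpow_neg_atTop (by norm_num)).comp hL).const_mul a
    rw [mul_zero] at h1
    exact h1.eventually_le_const hε
  have e6 : ∀ᶠ N : ℕ in atTop, 1 ≤ Real.log N := hL.eventually_ge_atTop 1
  have e7 : ∀ᶠ N : ℕ in atTop, 2 * (q:ℝ) ≤ Real.log N := hL.eventually_ge_atTop _
  have e4 : ∀ᶠ N : ℕ in atTop, q * √(Real.log N) ≤ √(N : ℝ) := by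
    have hq0 : (0:ℝ) < q := by exact_mod_cast hq
    have h1 : (fun x : ℝ => Real.log x ^ (1 / 2 : ℝ)) =o[atTop] fun x => x ^ (1 / 2 : ℝ) :=
      isLittleO_log_rpow_rpow_atTop (1 / 2) (by norm_num)
    have h2 := h1.bound (c := 1 / q) (by positivity)
    filter_upwards [hT.eventually h2, e6] with N hN h6
    have hN0 : (0:ℝ) ≤ N := Nat.cast_nonneg N
    rw [Real.norm_of_nonneg (by positivity), Real.norm_of_nonneg (by positivity),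
      ← Real.sqrt_eq_rpow, ← Real.sqrt_eq_rpow] at hN
    calc q * √(Real.log N) ≤ q * (1 / q * √(N:ℝ)) := by gcongr
      _ = √(N:ℝ) := by field_simp
  obtain ⟨N0, h⟩ := eventually_atTop.1
    (e1.and (e2.and (e4.and (e7.and e6))))
  exact ⟨N0, h⟩

theorem winMain {q : ℕ} (hq : 1 ≤ q) (χ : DirichletCharacter ℂ q) (hχ : χ.IsPrimitive) {δ : ℝ}
    (hδ : 0 < δ) : ∃ c : ℝ, 0 < c ∧ ∃ N0 : ℕ, ∀ N : ℕ, N0 ≤ N → ∀ u : ℕ → ℂ, UM u →
    δ * N ≤ ‖S (tw u χ) N‖ → ∀ x₁ x₂ : ℕ, (N : ℝ) ≤ √(Real.log N) * x₁ → x₁ < x₂ → x₂ ≤ N →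
    (x₂ : ℝ) * Real.log N ^ (-(1 / 60) : ℝ) ≤ (x₂ : ℝ) - x₁ →
    (x₂ : ℝ) - x₁ ≤ x₁ * Real.log N ^ (-(1 / 100) : ℝ) →
    c * ((x₂ : ℝ) - x₁) ≤ ‖∑ n ∈ Finset.Ioc x₁ x₂, u n * ee (-(n : ℝ) / q)‖ := by
  obtain ⟨T, C0, x0, hT, hx0, hhalT⟩ := halT hδ
  obtain ⟨C₂, x2, hC₂, hx2, hlip⟩ := lip T C0
  obtain ⟨C₃, x3, hC₃, hx3, hem⟩ := eMainC T C0 q hq
  have hg0 : 0 < ‖coef χ‖ := norm_pos_iff.2 (coef_ne hq χ hχ)
  set g := ‖coef χ‖ with hg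
  have hqR : (1:ℝ) ≤ q := by exact_mod_cast hq
  obtain ⟨N0, hN0⟩ := win_ev hq (a := 2 * C₂ + 2 * C₃ * q)
    (ε := min (δ / 2) (g * δ / 4)) (by positivity) (max x0 (max x2 x3))
  refine ⟨g * δ / 4, by positivity, N0, ?_⟩
  intro N hN u hu hS x₁ x₂ hNx hx12 hx2N' hwin _
  obtain ⟨h1, h2, h4, h5, h7⟩ := hN0 N hN
  have hx0N : x0 ≤ √(N:ℝ) := (le_max_left _ _).trans h1
  have hx2N : x2 ≤ √(N:ℝ) := ((le_max_left _ _).trans (le_max_right _ _)).trans h1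
  have hx3N : x3 ≤ √(N:ℝ) := ((le_max_right _ _).trans (le_max_right _ _)).trans h1
  have hs1 : 1 ≤ √(N:ℝ) := by linarith
  have hNnn : (0:ℝ) ≤ N := Nat.cast_nonneg N
  have hsq : √(N:ℝ) * √(N:ℝ) = N := Real.mul_self_sqrt hNnn
  have hsN : √(N:ℝ) ≤ N := by nlinarith
  have hN1 : (1:ℝ) ≤ N := hs1.trans hsN
  have hNpos : (0:ℝ) < N := by linarith
  set L := Real.log N with hL
  have hsL1 : 1 ≤ √L := Real.one_le_sqrt.2 h7
  have hsL0 : 0 < √L := by linarith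
  have hLL : √L * √L = L := Real.mul_self_sqrt (by linarith)
  set f := tw u χ with hf
  have hfc : CM f := CM_tw hu.cm χ
  have hGN : δ ≤ ‖G f N‖ := by
    unfold G
    rw [norm_div, Complex.norm_real, Real.norm_of_nonneg hNnn, le_div_iff₀ hNpos]
    exact hS
  obtain ⟨t, ht, hD⟩ := hhalT f N hfc (hx0N.trans hsN) hGN
  have hx12R : (x₁:ℝ) < x₂ := by exact_mod_cast hx12
  have hx2NR : (x₂:ℝ) ≤ N := by exact_mod_cast hx2N'
  have hx1pos : (0:ℝ) < x₁ := by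
    by_contra hcon
    push Not at hcon
    have : √L * (x₁:ℝ) ≤ 0 := mul_nonpos_of_nonneg_of_nonpos hsL0.le hcon
    linarith
  -- the values of S at the two points
  have key : ∀ x : ℝ, (x₁:ℝ) ≤ x → x ≤ N → ∃ c : ℂ, ‖c‖ = 1 ∧
      ‖S f x - x * c * G f N‖ ≤ C₂ * L ^ (-(1 / 48) : ℝ) * x := by
    intro x hx1 hxN
    have hxpos : 0 < x := by linarith
    have hw0 : 0 < (N:ℝ) / x := by positivity
    have hw1 : 1 ≤ (N:ℝ) / x := by rw [le_div_iff₀ hxpos]; linarith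
    have hwL : ((N:ℝ) / x) ^ 2 ≤ L := by
      have ha : (N:ℝ) / x ≤ √L := by
        rw [div_le_iff₀ hxpos]
        exact hNx.trans (by gcongr)
      calc ((N:ℝ) / x) ^ 2 ≤ √L ^ 2 := by gcongr
        _ = L := by rw [pow_two, hLL]
    have hli := hlip f t N ((N:ℝ) / x) hfc (hx2N.trans hsN) ht hD hw1 hwL
    have hNx' : (N:ℝ) / ((N:ℝ) / x) = x := by field_simp
    unfold H at hli
    rw [hNx'] at hli
    set a : ℂ := (((N:ℝ) / x : ℝ) : ℂ) ^ ((t : ℂ) * Complex.I) with ha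
    have hna : ‖a‖ = 1 := by
      rw [ha, Complex.norm_cpow_eq_rpow_re_of_pos hw0]
      simp
    have ha0 : a ≠ 0 := by
      intro h
      rw [h] at hna
      simp at hna
    have hxC : (x:ℂ) ≠ 0 := by exact_mod_cast hxpos.ne'
    refine ⟨a⁻¹, by rw [norm_inv, hna, inv_one], ?_⟩
    have hS : S f x - x * a⁻¹ * G f N = -((x:ℂ) * a⁻¹) * (G f N - a * G f x) := by
      have : S f x = x * G f x := by
        unfold G
        field_simp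
      rw [this]
      field_simp
      ring
    rw [hS, norm_mul, norm_neg, norm_mul, norm_inv, hna, Complex.norm_real,
      Real.norm_of_nonneg hxpos.le]
    calc x * 1⁻¹ * ‖G f N - a * G f x‖ ≤ x * 1⁻¹ * (C₂ * L ^ (-(1 / 48) : ℝ)) := by gcongr
      _ = C₂ * L ^ (-(1 / 48) : ℝ) * x := by ring
  obtain ⟨c₁, hc₁, hk₁⟩ := key x₁ le_rfl (by linarith)
  obtain ⟨c₂, hc₂, hk₂⟩ := key x₂ hx12R.le hx2NR
  -- the powers of the logarithm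
  have hx2pos : (0:ℝ) < x₂ := by linarith
  set D := (x₂:ℝ) - x₁ with hDdef
  have hD0 : 0 < D := by rw [hDdef]; linarith
  have hpow : (x₂:ℝ) * L ^ (-(1 / 48) : ℝ) ≤ D * L ^ (-(1 / 240) : ℝ) := by
    have : L ^ (-(1 / 48) : ℝ) = L ^ (-(1 / 60) : ℝ) * L ^ (-(1 / 240) : ℝ) := by
      rw [← Real.rpow_add (by linarith)]
      norm_num
    rw [this, ← mul_assoc]
    gcongr
  have hLp : 0 < L ^ (-(1 / 240) : ℝ) := by positivity
  have hLq : 0 < L ^ (-(1 / 48) : ℝ) := by positivity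
  have e2C : 2 * (C₂ * (x₂ * L ^ (-(1 / 48) : ℝ))) ≤ δ / 2 * D := by
    have ha : 2 * C₂ * L ^ (-(1 / 240) : ℝ) ≤ δ / 2 := by
      refine le_trans ?_ (h2.trans (min_le_left _ _))
      have : 0 ≤ 2 * C₃ * q := by positivity
      gcongr
      linarith
    calc 2 * (C₂ * (x₂ * L ^ (-(1 / 48) : ℝ))) ≤ 2 * (C₂ * (D * L ^ (-(1 / 240) : ℝ))) := by gcongr
      _ = (2 * C₂ * L ^ (-(1 / 240) : ℝ)) * D := by ring
      _ ≤ δ / 2 * D := by gcongr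
  have e3C : 2 * (C₃ * L ^ (-(1 / 48) : ℝ) * x₂ * q) ≤ g * δ / 4 * D := by
    have ha : 2 * C₃ * q * L ^ (-(1 / 240) : ℝ) ≤ g * δ / 4 := by
      refine le_trans ?_ (h2.trans (min_le_right _ _))
      gcongr
      linarith
    calc 2 * (C₃ * L ^ (-(1 / 48) : ℝ) * x₂ * q) = 2 * C₃ * q * (x₂ * L ^ (-(1 / 48) : ℝ)) := by ring
      _ ≤ 2 * C₃ * q * (D * L ^ (-(1 / 240) : ℝ)) := by gcongr
      _ = (2 * C₃ * q * L ^ (-(1 / 240) : ℝ)) * D := by ring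
      _ ≤ g * δ / 4 * D := by gcongr
  -- the difference of the two values
  have hGN1 : ‖(x₂:ℂ) * c₂ * G f N - (x₁:ℂ) * c₁ * G f N‖ ≥ δ * D := by
    rw [← sub_mul, norm_mul]
    have h8 : D ≤ ‖(x₂:ℂ) * c₂ - (x₁:ℂ) * c₁‖ := by
      have := norm_sub_norm_le ((x₂:ℂ) * c₂) ((x₁:ℂ) * c₁)
      rw [norm_mul, norm_mul, hc₁, hc₂, mul_one, mul_one, Complex.norm_natCast,
        Complex.norm_natCast] at this
      exact this
    calc δ * D = D * δ := mul_comm _ _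
      _ ≤ ‖(x₂:ℂ) * c₂ - (x₁:ℂ) * c₁‖ * ‖G f N‖ := by gcongr
  have hSdiff : δ / 2 * D ≤ ‖S f x₂ - S f x₁‖ := by
    have ha : ‖(x₂:ℂ) * c₂ * G f N - (x₁:ℂ) * c₁ * G f N‖ ≤
        ‖S f x₂ - S f x₁‖ + ‖S f x₂ - x₂ * c₂ * G f N‖ + ‖S f x₁ - x₁ * c₁ * G f N‖ := by
      calc ‖(x₂:ℂ) * c₂ * G f N - (x₁:ℂ) * c₁ * G f N‖ =
          ‖(S f x₂ - S f x₁) - (S f x₂ - x₂ * c₂ * G f N) + (S f x₁ - x₁ * c₁ * G f N)‖ := by
            congr 1; ring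
        _ ≤ ‖(S f x₂ - S f x₁) - (S f x₂ - x₂ * c₂ * G f N)‖ + _ := norm_add_le _ _
        _ ≤ _ := by gcongr; exact norm_sub_le _ _
    have hb : C₂ * L ^ (-(1 / 48) : ℝ) * x₁ ≤ C₂ * L ^ (-(1 / 48) : ℝ) * x₂ := by gcongr
    simp only [Complex.ofReal_natCast] at hk₁ hk₂
    nlinarith
  -- the exponential sums
  have hRq : ((q * 2 ^ 0 : ℕ) : ℝ) = q := by norm_num
  have hlow : √(N:ℝ) * q ≤ x₁ := by
    have ha : √L * (√(N:ℝ) * q) ≤ √L * x₁ := by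
      calc √L * (√(N:ℝ) * q) = (q * √L) * √(N:ℝ) := by ring
        _ ≤ √(N:ℝ) * √(N:ℝ) := by gcongr
        _ = N := hsq
        _ ≤ √L * x₁ := hNx
    exact le_of_mul_le_mul_left ha hsL0
  have hE₂ := hem u χ t N x₂ 2 0 hu hχ Nat.prime_two (Or.inr rfl) hx3N ht hD hx2N'
    (by rw [hRq]; linarith) (by rw [hRq]; exact h5)
  have hE₁ := hem u χ t N x₁ 2 0 hu hχ Nat.prime_two (Or.inr rfl) hx3N ht hD
    (by omega) (by rw [hRq]; exact hlow) (by rw [hRq]; exact h5)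
  rw [← hf] at hE₁ hE₂
  simp only [pow_zero, mul_one, hu.cm.one, one_mul, Nat.cast_one, div_one] at hE₁ hE₂
  set b : ℕ → ℂ := fun n => u n * ee (-(n : ℝ) / q) with hb
  have hsplit : ∑ n ∈ Finset.Ioc x₁ x₂, b n =
      ∑ n ∈ Finset.Icc 1 x₂, b n - ∑ n ∈ Finset.Icc 1 x₁, b n := by
    have hunion : Finset.Icc 1 x₂ = Finset.Icc 1 x₁ ∪ Finset.Ioc x₁ x₂ := by
      ext n
      simp only [Finset.mem_union, Finset.mem_Icc, Finset.mem_Ioc]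
      omega
    have hdisj : Disjoint (Finset.Icc 1 x₁) (Finset.Ioc x₁ x₂) := by
      rw [Finset.disjoint_left]
      intro n
      simp only [Finset.mem_Icc, Finset.mem_Ioc]
      omega
    rw [hunion, Finset.sum_union hdisj]
    ring
  set s₂ := ∑ n ∈ Finset.Icc 1 x₂, b n with hs₂
  set s₁ := ∑ n ∈ Finset.Icc 1 x₁, b n with hs₁
  have hmain : ‖coef χ * S f x₂ - coef χ * S f x₁‖ = g * ‖S f x₂ - S f x₁‖ := by
    rw [← mul_sub, norm_mul]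
  have htri : ‖coef χ * S f x₂ - coef χ * S f x₁‖ ≤
      ‖s₂ - s₁‖ + ‖s₂ - coef χ * S f x₂‖ + ‖s₁ - coef χ * S f x₁‖ := by
    calc ‖coef χ * S f x₂ - coef χ * S f x₁‖ =
        ‖(s₂ - s₁) - (s₂ - coef χ * S f x₂) + (s₁ - coef χ * S f x₁)‖ := by congr 1; ring
      _ ≤ ‖(s₂ - s₁) - (s₂ - coef χ * S f x₂)‖ + _ := norm_add_le _ _
      _ ≤ _ := by gcongr; exact norm_sub_le _ _
  have hE₁' : C₃ * L ^ (-(1 / 48) : ℝ) * x₁ * q ≤ C₃ * L ^ (-(1 / 48) : ℝ) * x₂ * q := by gcongr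
  rw [hsplit]
  have hfin : g * (δ / 2 * D) ≤ g * ‖S f x₂ - S f x₁‖ := by gcongr
  have : g * δ / 4 * D = g * (δ / 2 * D) - g * δ / 4 * D := by ring
  rw [this]
  linarith

end Pool.Agent.Work.MP_2d9442_nt
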